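import Pool.Agent.Lib.H36H.KM
import Pool.Agent.Lib.H94M.QA1
import Pool.Agent.Lib.H94M.QA2

/-!
# H36H, module K: the final theorem

`KArr.gp p` : the integral series `Σ_ξ c(ξ) q2(ξ) N(ξ)^(p-2) q^(tr ξ)`;
`KArr.hs` : the rational series `Σ_ξ c(ξ) q2(ξ)/N(ξ) q^(tr ξ) = Σ_ξ c(ξ) N(ξ) Tr(ξ⁻²) q^(tr ξ)`.

`KArr.gp_MN` : `redZ p (gp p) ∈ MN N p (d k + 2 d - 4 + (p-1)(2 d + k - 3))`, `d = card ι`.
`KArr.hs_MN` : the same for `redQ p hs`, if `p` divides the numerator of the coefficient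
`c(ξ) q2(ξ)/N(ξ)` for every `ξ` whose norm is divisible by `p`.
-/

namespace H36H

open H53M H94M Function PowerSeries

variable {ι Λ : Type*} [Fintype ι] [DecidableEq ι]

/-- `kc k p i = 0` modulo `p` for `1 ≤ i ≤ p`. -/
theorem kf_kc_p (k : ℕ) (p : ℕ) [Fact p.Prime] (i : ℕ) (h1 : 1 ≤ i) (hi : i ≤ p) :
    ((kc k p i : ℕ) : ZMod p) = 0 := by
  rw [ZMod.natCast_eq_zero_iff]
  unfold kc
  rcases Nat.lt_or_ge i p with h | h
  · exact Dvd.dvd.mul_right ((Fact.out : p.Prime).dvd_choose_self (by omega) h) _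
  · have e : i = p := le_antisymm hi h
    rw [e]
    apply Dvd.dvd.mul_left
    exact (Nat.dvd_factorial (Fact.out : p.Prime).pos le_rfl).trans (Nat.factorial_dvd_descFactorial _ _)

theorem kf_cast {p : ℕ} {m : ℕ} (h : ((m : ℕ) : ZMod p) = 0) :
    ((m : ℕ) : PowerSeries (ZMod p)) = 0 := by
  rw [← map_natCast (PowerSeries.C (R := ZMod p)), h, map_zero]

omit [Fintype ι] in
/-- The variables with exponent `p` do not contribute. -/
theorem kf_low_p (k : ℕ) (p : ℕ) [Fact p.Prime] (s : PowerSeries (ZMod p))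
    (l : List ι) (t : (ι → ℕ) → PowerSeries (ZMod p)) (a : ι → ℕ) (h : ∀ i ∈ l, a i = p) :
    lowL k (fun _ => s) l t a = t a := by
  induction l with
  | nil => rfl
  | cons j l ih =>
    have hj : a j = p := h j List.mem_cons_self
    rw [lowL_cons, lowV_eq, hj, Finset.sum_eq_single 0]
    · rw [kc_zero, pow_zero, Nat.sub_zero]
      have e : update a j p = a := by
        rw [← hj]
        exact update_eq_self j a
      rw [e, ih fun i hi => h i (List.mem_cons_of_mem _ hi)]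
      simp
    · intro i hi h0
      rw [Finset.mem_range] at hi
      rw [kf_cast (kf_kc_p k p i (by omega) (by omega))]
      simp
    · intro h0
      exact absurd (Finset.mem_range.2 (by omega)) h0

/-- The exponent vector `(p, .., p - 2, .., p)`. -/
def av (p : ℕ) (j : ι) : ι → ℕ := update (fun _ => p) j (p - 2)

omit [Fintype ι] in
theorem av_self (p : ℕ) (j : ι) : av p j j = p - 2 := update_self j _ _

theorem av_sum (p : ℕ) (hp : 2 ≤ p) (j : ι) : ∑ i, av p j i + 2 = Fintype.card ι * p := by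
  have h := sum_update_sub (fun _ : ι => p) j 2 hp
  rw [Finset.sum_const, Finset.card_univ, smul_eq_mul] at h
  exact h

variable {N k : ℕ}

theorem KArr.Tq_MN [NeZero N] (hk : 3 ≤ k) (A : KArr ι Λ) (hT : DTransI N k A.G) (p : ℕ)
    [Fact p.Prime] (hp : 5 < p) (j : ι) :
    redQ p (A.Tq (av p j)) ∈ MN N p
      (Fintype.card ι * k + 2 * Fintype.card ι - 4 + (p - 1) * (2 * Fintype.card ι + k - 3)) := by
  have hd : 1 ≤ Fintype.card ι := Fintype.card_pos_iff.2 ⟨j⟩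
  obtain ⟨d, hdd⟩ : ∃ d, d = Fintype.card ι := ⟨_, rfl⟩
  rw [A.Tq_inv (by omega : 1 ≤ k)]
  unfold lowA
  rw [kredQ_lowL k (K6_e2q p (by omega)) _ (A.Mq_PI k p (by omega))]
  have hperm : (Finset.univ : Finset ι).toList.Perm (j :: (Finset.univ.erase j).toList) := by
    have h := Finset.toList_insert (Finset.notMem_erase j (Finset.univ : Finset ι))
    rwa [Finset.insert_erase (Finset.mem_univ j)] at h
  rw [lowL_perm k _ hperm, lowL_cons, lowV_eq, av_self]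
  refine Submodule.sum_mem _ fun i hi => ?_
  rw [Finset.mem_range] at hi
  rcases Nat.lt_or_ge i (k - 2) with hik | hik
  swap
  · rw [kf_cast (K7_kc k hk p hp i hik)]
    simp
  rw [kf_low_p k p _ _ _ _ (fun x hx => by
    have hxj : x ≠ j := by
      have := Finset.mem_toList.1 hx
      exact Finset.ne_of_mem_erase this
    rw [update_of_ne hxj]
    unfold av
    rw [update_of_ne hxj])]
  have hM := A.Mq_MN (by omega : 1 ≤ k) hT p (by omega) (update (av p j) j (p - 2 - i))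
  have h3 := MN_mul (MN_pow (MP_le_MN N p _ (K7_e2q p hp)) i) hM
  have h4 := MN_mul h3 (MN_pow (MP_le_MN N p _ (KQ_one p (by omega))) (k - 3 - i))
  rw [one_pow, mul_one] at h4
  have hs1 : ∑ x, update (av p j) j (p - 2 - i) x + i + 2 = Fintype.card ι * p := by
    have h5 := sum_update_sub (av p j) j i (by rw [av_self]; omega)
    rw [av_self] at h5
    rw [h5]
    exact av_sum p (by omega) j
  have hw : i * (p + 1) + (Fintype.card ι * k + 2 * ∑ x, update (av p j) j (p - 2 - i) x) +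
      (k - 3 - i) * (p - 1) =
      Fintype.card ι * k + 2 * Fintype.card ι - 4 + (p - 1) * (2 * Fintype.card ι + k - 3) := by
    obtain ⟨S, hS⟩ : ∃ S, S = ∑ x, update (av p j) j (p - 2 - i) x := ⟨_, rfl⟩
    rw [← hS] at hs1 ⊢
    rw [← hdd] at hs1 hd ⊢
    obtain ⟨l, hl⟩ : ∃ l, k = l + i + 3 := ⟨k - 3 - i, by omega⟩
    obtain ⟨q, rfl⟩ : ∃ q, p = q + 1 := ⟨p - 1, by omega⟩
    obtain ⟨e, rfl⟩ : ∃ e, d = e + 1 := ⟨d - 1, by omega⟩
    subst hl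
    have e1 : l + i + 3 - 3 - i = l := by omega
    have e2 : (e + 1) * (l + i + 3) + 2 * (e + 1) - 4 = e * (l + i + 3) + l + i + 2 * e + 1 := by
      have : (e + 1) * (l + i + 3) = e * (l + i + 3) + (l + i + 3) := by ring
      omega
    have e3 : 2 * (e + 1) + (l + i + 3) - 3 = 2 * e + 2 + l + i := by omega
    rw [e1, e2, e3, Nat.add_sub_cancel]
    have e4 : 2 * S + 2 * i + 4 = 2 * ((e + 1) * (q + 1)) := by omega
    nlinarith [e4]
  rw [hw] at h4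
  have h5 : ((kc k (p - 2) i : ℕ) : PowerSeries (ZMod p)) * redQ p e2q ^ i *
        redQ p (A.Mq k (update (av p j) j (p - 2 - i))) =
      ((kc k (p - 2) i : ℕ) : ZMod p) •
        (redQ p e2q ^ i * redQ p (A.Mq k (update (av p j) j (p - 2 - i)))) := by
    rw [PowerSeries.smul_eq_C_mul, map_natCast]
    ring
  rw [h5]
  exact Submodule.smul_mem _ _ h4

/-! ### The sum over the variables -/

theorem KArr.sy_av (A : KArr ι Λ) (ξ : Λ) (p : ℕ) (hp : 2 ≤ p) :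
    ∑ j, A.sy ξ (av p j) = (Fintype.card ι).factorial * (A.q2 ξ * A.nm ξ ^ (p - 2)) := by
  have key : ∀ (j : ι) (σ : Equiv.Perm ι), ∏ i, A.nu ξ i ^ av p j (σ i) =
      (∏ i, A.nu ξ i) ^ p * (A.nu ξ (σ.symm j) ^ 2)⁻¹ := by
    intro j σ
    obtain ⟨q, rfl⟩ : ∃ q, p = q + 2 := ⟨p - 2, by omega⟩
    have hpos := A.nu_pos ξ (σ.symm j)
    rw [← Finset.mul_prod_erase _ (fun i => A.nu ξ i ^ av (q + 2) j (σ i))
      (Finset.mem_univ (σ.symm j)), ← Finset.mul_prod_erase _ (A.nu ξ)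
      (Finset.mem_univ (σ.symm j))]
    have e1 : av (q + 2) j (σ (σ.symm j)) = q := by
      rw [Equiv.apply_symm_apply, av_self]
      omega
    have e2 : ∏ i ∈ Finset.univ.erase (σ.symm j), A.nu ξ i ^ av (q + 2) j (σ i) =
        (∏ i ∈ Finset.univ.erase (σ.symm j), A.nu ξ i) ^ (q + 2) := by
      rw [← Finset.prod_pow]
      refine Finset.prod_congr rfl fun i hi => ?_
      have hij : σ i ≠ j := fun h => Finset.ne_of_mem_erase hi (by rw [← h]; simp)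
      unfold av
      rw [update_of_ne hij]
    rw [e1, e2, mul_pow, pow_add]
    field_simp
    ring
  have h : (((∑ j, A.sy ξ (av p j) : ℤ)) : ℝ) =
      (((Fintype.card ι).factorial * (A.q2 ξ * A.nm ξ ^ (p - 2)) : ℤ) : ℝ) := by
    push_cast
    simp only [A.sy_eq, key]
    rw [Finset.sum_comm]
    have h2 : ∀ σ : Equiv.Perm ι, ∑ j, (∏ i, A.nu ξ i) ^ p * (A.nu ξ (σ.symm j) ^ 2)⁻¹ =
        (A.q2 ξ : ℝ) * (A.nm ξ : ℝ) ^ (p - 2) := by
      intro σ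
      rw [← Finset.mul_sum, Equiv.sum_comp σ.symm (fun j => (A.nu ξ j ^ 2)⁻¹), A.q2_eq, A.nm_eq]
      have e : (∏ i, A.nu ξ i) ^ p = (∏ i, A.nu ξ i) ^ 2 * (∏ i, A.nu ξ i) ^ (p - 2) := by
        rw [← pow_add]
        congr 1
        omega
      rw [e]
      ring
    rw [Finset.sum_congr rfl fun σ _ => h2 σ, Finset.sum_const, Finset.card_univ,
      Fintype.card_perm, nsmul_eq_mul]
  exact_mod_cast h

/-- The integral series `Σ_ξ c(ξ) q2(ξ) N(ξ)^(p-2) q^(tr ξ)`. -/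
noncomputable def KArr.gp (A : KArr ι Λ) (p : ℕ) : PowerSeries ℤ :=
  PowerSeries.mk fun n => ∑ ξ ∈ A.fib n, A.c ξ * (A.q2 ξ * A.nm ξ ^ (p - 2))

theorem KArr.sum_Tq (A : KArr ι Λ) (p : ℕ) (hp : 2 ≤ p) :
    ∑ j, A.Tq (av p j) = (((Fintype.card ι).factorial : ℤ) : ℚ) • toQ (A.gp p) := by
  ext n
  rw [map_sum]
  unfold KArr.Tq KArr.gp
  rw [coeff_smul, smul_eq_mul]
  simp only [coeff_mk, PowerSeries.coeff_map]
  rw [Finset.sum_comm, map_sum, Finset.mul_sum]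
  refine Finset.sum_congr rfl fun ξ _ => ?_
  rw [← Finset.mul_sum]
  have h := congrArg (fun x : ℤ => (x : ℚ)) (A.sy_av ξ p hp)
  push_cast at h
  rw [h]
  simp only [eq_intCast]
  push_cast
  ring

/-- **Theorem K.** -/
theorem KArr.gp_MN [NeZero N] (hk : 3 ≤ k) (A : KArr ι Λ) (hT : DTransI N k A.G) (p : ℕ)
    [Fact p.Prime] (hp : 5 < p) (hd : Fintype.card ι < p) :
    redZ p (A.gp p) ∈ MN N p
      (Fintype.card ι * k + 2 * Fintype.card ι - 4 + (p - 1) * (2 * Fintype.card ι + k - 3)) := by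
  have hpp : p.Prime := Fact.out
  have h1 := congrArg (redQ p) (A.sum_Tq p (by omega))
  rw [kredQ_sum _ _ (fun j _ => A.Tq_PI p _), kredQ_smul (pi_int _) (PI_toQ _), kredQ_toQ] at h1
  have h2 := Submodule.sum_mem _ fun j (_ : j ∈ (Finset.univ : Finset ι)) =>
    A.Tq_MN hk hT p hp j
  rw [h1] at h2
  have h4 : (((((Fintype.card ι).factorial : ℤ) : ℚ)) : ZMod p) ≠ 0 := by
    rw [Rat.cast_intCast, Int.cast_natCast, Ne, ZMod.natCast_eq_zero_iff, hpp.dvd_factorial]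
    omega
  have h5 := Submodule.smul_mem _ (((((Fintype.card ι).factorial : ℤ) : ℚ)) : ZMod p)⁻¹ h2
  rwa [smul_smul, inv_mul_cancel₀ h4, one_smul] at h5

/-! ### The rational series -/

/-- The rational series `Σ_ξ c(ξ) q2(ξ)/N(ξ) q^(tr ξ)`. -/
noncomputable def KArr.hs (A : KArr ι Λ) : PowerSeries ℚ :=
  PowerSeries.mk fun n => ∑ ξ ∈ A.fib n, (A.c ξ * A.q2 ξ : ℚ) / A.nm ξ

omit [DecidableEq ι] in
theorem KArr.nm_pos (A : KArr ι Λ) (ξ : Λ) : 0 < A.nm ξ := by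
  have h : (0 : ℝ) < A.nm ξ := by
    rw [A.nm_eq]
    exact Finset.prod_pos fun i _ => A.nu_pos ξ i
  exact_mod_cast h

theorem kf_den {p : ℕ} [Fact p.Prime] {x : ℚ} (h : (p : ℤ) ∣ x.num) : ¬ p ∣ x.den := by
  intro h2
  have h3 : p ∣ x.num.natAbs := Int.natCast_dvd.1 h
  have h4 : p ∣ Nat.gcd x.num.natAbs x.den := Nat.dvd_gcd h3 h2
  rw [x.reduced] at h4
  exact (Fact.out : p.Prime).one_lt.ne' (Nat.dvd_one.1 h4)

omit [DecidableEq ι] in
theorem KArr.hs_term_pi (A : KArr ι Λ) (p : ℕ) [Fact p.Prime]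
    (hd : ∀ ξ, (p : ℤ) ∣ A.nm ξ → (p : ℤ) ∣ ((A.c ξ * A.q2 ξ : ℚ) / A.nm ξ).num) (ξ : Λ) :
    ¬ p ∣ ((A.c ξ * A.q2 ξ : ℚ) / A.nm ξ).den := by
  by_cases h : (p : ℤ) ∣ A.nm ξ
  · exact kf_den (hd ξ h)
  · intro h2
    apply h
    have h3 : (((A.c ξ * A.q2 ξ : ℚ) / A.nm ξ).den : ℤ) ∣ A.nm ξ := by
      have h4 := Rat.den_dvd (A.c ξ * A.q2 ξ) (A.nm ξ)
      rw [Rat.divInt_eq_div] at h4
      push_cast at h4
      exact h4
    exact (Int.natCast_dvd_natCast.2 h2).trans h3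

theorem KArr.hs_PI (A : KArr ι Λ) (p : ℕ) [Fact p.Prime]
    (hd : ∀ ξ, (p : ℤ) ∣ A.nm ξ → (p : ℤ) ∣ ((A.c ξ * A.q2 ξ : ℚ) / A.nm ξ).num) :
    PI p A.hs := by
  intro n
  unfold KArr.hs
  rw [coeff_mk]
  exact pi_sum _ _ fun ξ _ => A.hs_term_pi p hd ξ

theorem KArr.hs_red (A : KArr ι Λ) (p : ℕ) [Fact p.Prime] (hp : 2 < p)
    (hd : ∀ ξ, (p : ℤ) ∣ A.nm ξ → (p : ℤ) ∣ ((A.c ξ * A.q2 ξ : ℚ) / A.nm ξ).num) :
    redQ p A.hs = redZ p (A.gp p) := by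
  have hP : p.Prime := Fact.out
  ext n
  have hL : coeff n (redQ p A.hs) =
      ∑ ξ ∈ A.fib n, (((A.c ξ * A.q2 ξ : ℚ) / A.nm ξ : ℚ) : ZMod p) := by
    unfold redQ KArr.hs
    rw [coeff_mk, coeff_mk, cast_sum_pi _ _ fun ξ _ => A.hs_term_pi p hd ξ]
  have hR : coeff n (redZ p (A.gp p)) =
      ∑ ξ ∈ A.fib n, ((A.c ξ * (A.q2 ξ * A.nm ξ ^ (p - 2)) : ℤ) : ZMod p) := by
    unfold redZ KArr.gp
    rw [coeff_map, coeff_mk, map_sum]
    rfl
  rw [hL, hR]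
  refine Finset.sum_congr rfl fun ξ _ => ?_
  have h0 : (A.nm ξ : ℚ) ≠ 0 := by exact_mod_cast (A.nm_pos ξ).ne'
  by_cases h : (p : ℤ) ∣ A.nm ξ
  · have h1 : ((((A.c ξ * A.q2 ξ : ℚ) / A.nm ξ).num : ℤ) : ZMod p) = 0 :=
      (ZMod.intCast_zmod_eq_zero_iff_dvd _ p).2 (hd ξ h)
    have h2 : ((A.nm ξ : ℤ) : ZMod p) = 0 := (ZMod.intCast_zmod_eq_zero_iff_dvd _ p).2 h
    rw [Rat.cast_def, h1, zero_div]
    push_cast
    rw [h2, zero_pow (by omega : p - 2 ≠ 0)]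
    ring
  · have h2 : ((A.nm ξ : ℤ) : ZMod p) ≠ 0 := fun h3 =>
      h ((ZMod.intCast_zmod_eq_zero_iff_dvd _ p).1 h3)
    have h1 : (((A.c ξ * A.q2 ξ : ℚ) / A.nm ξ : ℚ) : ZMod p) * ((A.nm ξ : ℤ) : ZMod p) =
        ((A.c ξ * A.q2 ξ : ℤ) : ZMod p) := by
      have h3 := cast_mul_pi (A.hs_term_pi p hd ξ) (pi_int (p := p) (A.nm ξ))
      rw [div_mul_cancel₀ _ h0] at h3
      rw [Rat.cast_intCast] at h3
      rw [← h3]
      have h4 : ((A.c ξ : ℚ) * (A.q2 ξ : ℚ)) = ((A.c ξ * A.q2 ξ : ℤ) : ℚ) := by push_cast; rfl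
      rw [h4, Rat.cast_intCast]
    have h3 : ((A.nm ξ : ℤ) : ZMod p) ^ (p - 1) = 1 := ZMod.pow_card_sub_one_eq_one h2
    have h4 : ((A.nm ξ : ℤ) : ZMod p) ^ (p - 1) =
        ((A.nm ξ : ℤ) : ZMod p) * ((A.nm ξ : ℤ) : ZMod p) ^ (p - 2) := by
      rw [← pow_succ']
      congr 1
      omega
    have h5 : (((A.c ξ * A.q2 ξ : ℚ) / A.nm ξ : ℚ) : ZMod p) =
        ((A.c ξ * A.q2 ξ : ℤ) : ZMod p) * ((A.nm ξ : ℤ) : ZMod p) ^ (p - 2) := by
      rw [← h1, mul_assoc, ← h4, h3, mul_one]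
    rw [h5]
    push_cast
    ring

/-- **Theorem K, rational form.** -/
theorem KArr.hs_MN [NeZero N] (hk : 3 ≤ k) (A : KArr ι Λ) (hT : DTransI N k A.G) (p : ℕ)
    [Fact p.Prime] (hp : 5 < p) (hc : Fintype.card ι < p)
    (hd : ∀ ξ, (p : ℤ) ∣ A.nm ξ → (p : ℤ) ∣ ((A.c ξ * A.q2 ξ : ℚ) / A.nm ξ).num) :
    redQ p A.hs ∈ MN N p
      (Fintype.card ι * k + 2 * Fintype.card ι - 4 + (p - 1) * (2 * Fintype.card ι + k - 3)) := by
  rw [A.hs_red p (by omega) hd]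
  exact A.gp_MN hk hT p hp hc

end H36H
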