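import Pool.Agent.Lib.H36H.CL
import Pool.Agent.Lib.H53M.X0

/-!
# H36H: the cluster lemma in the form used by module X
-/

open Filter Topology H53M

namespace H36H

open scoped Classical in
theorem cluster_inf {κ : Type*} (b : κ → ℂ) (hb : Summable fun x => ‖b x‖) (θ : κ → ℝ) (φ : ℝ)
    (hφ : Irrational φ) (hne : (∑' x, if ∃ m : ℤ, θ x - φ = m then b x else 0) ≠ 0) (y : ℕ → ℂ)
    (hy : Tendsto (fun M : ℕ => y M - ∑' x, b x * X.ex ((θ x : ℂ) * (M : ℂ))) atTop (𝓝 0)) :
    {z : ℂ | MapClusterPt z atTop y}.Infinite := by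
  intro hfin
  apply hne
  refine cluster b hb θ y ?_ hfin φ hφ
  refine hy.congr fun M => ?_
  congr 1
  refine tsum_congr fun x => ?_
  unfold X.ex
  congr 2
  ring

end H36H
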