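import Pool.Agent.Lib.H36H.XN
import Pool.Agent.Lib.H36H.CL2

/-!
# H36H, module X: the final theorem
-/

namespace H36H

open H53M H94M H53M.X Function Filter Topology

variable {ι Λ : Type*} [Fintype ι] [DecidableEq ι]

open scoped Classical in
/-- **Theorem X.** `h` satisfies no isobaric relation with `E₂, E₄, Δ`, if the almost periodic
function has an irrational frequency. -/
theorem KArr.not_rel {N k w' : ℕ} (hN : 0 < N) (hk : 2 ≤ k) (A : KArr ι Λ)
    (hd : 2 ≤ Fintype.card ι) (hw : 2 * w' + 4 = Fintype.card ι * k + 2 * Fintype.card ι)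
    (hT : DTransI N k A.G) (hf : A.XFam k)
    (hne : ∀ᶠ y : ℝ in atTop, ∃ φ : ℝ, Irrational φ ∧
      (∑' p : ι × Λ, if ∃ m : ℤ, -(A.nu p.2 p.1) - φ = m then
        A.xb N k (1 + N * (Complex.I * (y : ℂ))) p else 0) ≠ 0) :
    ¬ Rel w' A.hs := by
  refine A.not_rel_of_clusters hN hk hd hw hT hf ?_
  filter_upwards [hne, eventually_gt_atTop (0 : ℝ)] with y ⟨φ, hφ, hy⟩ hy0
  have ht : 0 < (1 + (N : ℂ) * (Complex.I * (y : ℂ))).im := XNFin_im hN hy0
  refine cluster_inf (A.xb N k (1 + N * (Complex.I * (y : ℂ)))) (A.xb_summable hN hd hf ht)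
    (fun p => -(A.nu p.2 p.1)) φ hφ hy _ ?_
  refine (A.xY_diff hN hd hf ht).congr fun M => ?_
  rw [A.xY_zero hN hd hf ht M]

end H36H
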