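import Pool.Agent.Lib.H36H.KArr
import Pool.Agent.Lib.H94M.K4
import Pool.Agent.Lib.H94M.KG

/-!
# H36H, module K: transformation of `G_a` under `Γ₀(N)`, all variables
-/

namespace H36H

open H53M H94M Function

variable {ι Λ : Type*} [Fintype ι] [DecidableEq ι]

omit [Fintype ι] in
/-- Derivative of `lowL`. -/
theorem lowL_hasDerivAt (k : ℕ) (s : ι → ℂ) (l : List ι) (t : (ι → ℕ) → ℂ → ℂ)
    (t' : (ι → ℕ) → ℂ) (w : ℂ) (h : ∀ a, HasDerivAt (t a) (t' a) w) (a : ι → ℕ) :
    HasDerivAt (fun w => lowL k s l (fun a' => t a' w) a) (lowL k s l t' a) w := by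
  induction l generalizing a with
  | nil => exact h a
  | cons j l ih =>
    simp only [lowL_cons, lowV_eq]
    exact HasDerivAt.fun_sum fun i _ => (ih _).const_mul _

/-- `s_j = C/(2πi (C z_j + D))`. -/
noncomputable def sz (C D : ℤ) (z : ι → ℂ) (i : ι) : ℂ :=
  (C : ℂ) / (2 * Real.pi * Complex.I * (C * z i + D))

omit [Fintype ι] in
theorem upd_im {z : ι → ℂ} (hz : ∀ i, 0 < (z i).im) (j : ι) {w : ℂ} (hw : 0 < w.im) (i : ι) :
    0 < (update z j w i).im := by
  by_cases hi : i = j
  · subst hi
    rwa [update_self]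
  · rw [update_of_ne hi]
    exact hz i

omit [Fintype ι] in
theorem mob_update (A B C D : ℤ) (z : ι → ℂ) (j : ι) (w : ℂ) :
    (fun i => ((A : ℂ) * update z j w i + B) / (C * update z j w i + D)) =
      update (fun i => ((A : ℂ) * z i + B) / (C * z i + D)) j ((A * w + B) / (C * w + D)) := by
  funext i
  by_cases hi : i = j
  · subst hi
    rw [update_self, update_self]
  · rw [update_of_ne hi, update_of_ne hi]

omit [Fintype ι] in
theorem sz_update (C D : ℤ) (z : ι → ℂ) (j : ι) (w : ℂ) {i : ι} (hi : i ≠ j) :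
    sz C D (update z j w) i = sz C D z i := by
  unfold sz
  rw [update_of_ne hi]

theorem KArr.GA_zero (A : KArr ι Λ) (z : ι → ℂ) : A.GA 0 z = A.G z := by
  unfold KArr.GA KArr.G KArr.term
  simp

variable {N k : ℕ}

theorem prod_den_update (k : ℕ) (C D : ℤ) (z : ι → ℂ) (a : ι → ℕ) (j : ι) (b : ℕ) (w : ℂ) :
    ∏ i, ((C : ℂ) * update z j w i + D) ^ (k + 2 * update a j b i) =
      (C * w + D) ^ (k + 2 * b) *
        ∏ i ∈ Finset.univ.erase j, ((C : ℂ) * z i + D) ^ (k + 2 * a i) := by
  rw [← Finset.mul_prod_erase _ _ (Finset.mem_univ j), update_self, update_self]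
  congr 1
  refine Finset.prod_congr rfl fun i hi => ?_
  rw [update_of_ne (Finset.ne_of_mem_erase hi), update_of_ne (Finset.ne_of_mem_erase hi)]

/-- Transformation law, exponents supported in the list `l`. -/
theorem KT_list (hk : 1 ≤ k) (A : KArr ι Λ) (hT : DTransI N k A.G) {α β C D : ℤ}
    (hdet : α * D - β * C = 1) (hC : (N : ℤ) ∣ C) (l : List ι) (hl : l.Nodup) :
    ∀ a : ι → ℕ, (∀ i, i ∉ l → a i = 0) → ∀ z : ι → ℂ, (∀ i, 0 < (z i).im) →
      A.GA a (fun i => (α * z i + β) / (C * z i + D)) =
        (∏ i, ((C : ℂ) * z i + D) ^ (k + 2 * a i)) *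
          lowL k (sz C D z) l (fun a' => A.GA a' z) a := by
  induction l with
  | nil =>
    intro a ha z hz
    have ha0 : a = 0 := funext fun i => ha i (by simp)
    subst ha0
    rw [lowL_nil, KArr.GA_zero, KArr.GA_zero, hT α β C D hdet hC z hz, ← Finset.prod_pow]
    simp
  | cons j l ih =>
    intro a ha z hz
    rw [List.nodup_cons] at hl
    have hih := ih hl.2
    obtain ⟨P, hP⟩ : ∃ P : ℂ, P = ∏ i ∈ Finset.univ.erase j, ((C : ℂ) * z i + D) ^ (k + 2 * a i) :=
      ⟨_, rfl⟩
    obtain ⟨Y, hY⟩ : ∃ Y : ι → ℂ, Y = fun i => ((α : ℂ) * z i + β) / (C * z i + D) := ⟨_, rfl⟩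
    have hYim : ∀ i, 0 < (Y i).im := fun i => by
      rw [hY]
      exact mob_im_pos hdet (hz i)
    have h := K2 k hk hdet
      (fun b w => P * lowL k (sz C D z) l (fun a' => A.GA a' (update z j w)) (update a j b))
      (fun b w => A.GA (update a j b) (update Y j w))
      (fun b w hw => by
        have h1 := lowL_hasDerivAt k (sz C D z) l (fun a' w => A.GA a' (update z j w))
          (fun a' => 2 * Real.pi * Complex.I * A.GA (update a' j (a' j + 1)) (update z j w)) w
          (fun a' => A.GA_deriv a' z j w (fun i _ => hz i) hw) (update a j b)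
        have h2 := h1.const_mul P
        refine h2.congr_deriv ?_
        rw [lowL_mul, lowL_shift k (sz C D z) l j hl.1 (fun a' => A.GA a' (update z j w)),
          update_self, update_idem]
        ring)
      (fun b w hw => by
        have h1 := A.GA_deriv (update a j b) Y j w (fun i _ => hYim i) hw
        rw [update_self, update_idem] at h1
        exact h1)
      (fun w hw => by
        have h1 := hih (update a j 0) (fun i hi => by
          by_cases hij : i = j
          · subst hij
            rw [update_self]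
          · rw [update_of_ne hij]
            exact ha i (by simp [hij, hi])) (update z j w) (upd_im hz j hw)
        rw [mob_update, ← hY, prod_den_update, ← hP] at h1
        rw [h1, lowL_congr k (s := sz C D (update z j w)) (s' := sz C D z) l
          (fun i hi => sz_update C D z j w (fun h => hl.1 (h ▸ hi)))]
        simp only [mul_zero, add_zero]
        ring)
      (a j) (z j) (hz j)
    simp only [update_eq_self] at h
    have hYj : update Y j (((α : ℂ) * z j + β) / (C * z j + D)) = Y := by
      rw [hY]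
      exact update_eq_self j (fun i => ((α : ℂ) * z i + β) / (C * z i + D))
    rw [hYj] at h
    rw [← hY, h, K4_low1_mul, lowL_cons]
    have h3 : ∏ i, ((C : ℂ) * z i + D) ^ (k + 2 * a i) = (C * z j + D) ^ (k + 2 * a j) * P := by
      rw [hP, Finset.mul_prod_erase _ (fun i => ((C : ℂ) * z i + D) ^ (k + 2 * a i))
        (Finset.mem_univ j)]
    rw [h3]
    exact (mul_assoc _ _ _).symm

/-- Transformation law on the diagonal. -/
theorem KT (hk : 1 ≤ k) (A : KArr ι Λ) (hT : DTransI N k A.G) {α β C D : ℤ}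
    (hdet : α * D - β * C = 1) (hC : (N : ℤ) ∣ C) (a : ι → ℕ) (z : ℂ) (hz : 0 < z.im) :
    A.GA a (fun _ => (α * z + β) / (C * z + D)) =
      (C * z + D) ^ (Fintype.card ι * k + 2 * ∑ i, a i) *
        lowA k (C / (2 * Real.pi * Complex.I * (C * z + D))) (fun a' => A.GA a' fun _ => z) a := by
  have h := KT_list hk A hT hdet hC Finset.univ.toList (Finset.nodup_toList _) a
    (fun i hi => absurd (by simp) hi) (fun _ => z) (fun _ => hz)
  rw [Finset.prod_pow_eq_pow_sum] at h
  have e : ∑ i : ι, (k + 2 * a i) = Fintype.card ι * k + 2 * ∑ i, a i := by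
    rw [Finset.sum_add_distrib, Finset.sum_const, Finset.card_univ, smul_eq_mul, Finset.mul_sum]
  rw [e] at h
  exact h

end H36H
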