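import Pool.Agent.Lib.H36H.KF
import Pool.Agent.Lib.H36H.KT
import Pool.Agent.Lib.H53M.X5

/-!
# H36H, module X (transcendence), definitions

`A : KArr ι Λ`, `d = card ι ≥ 2`, weight `k`, level `N`, `K = k - 1`, `2 w' + 4 = d k + 2 d`.
The function `h = Σ_ξ c(ξ) N(ξ) Tr(ξ⁻²) q^(tr ξ) = Σ_i Σ_ξ c(ξ) ν_i⁻¹ Π_{j≠i} ν_j q^(tr ξ)` (`KArr.hs`)
satisfies no isobaric relation with `E₂, E₄, Δ` (`KArr.not_rel` in `XN.lean`).

For fixed `i` the abstract two-variable series `X.F` of H53M/X0 is used with the frequencies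
`u_i = (tr ξ - ν_i)/N`, `v_i = ν_i/N` (`xu`, `xv`) and the coefficients `xc N σ i a`,
`c(ξ) e(σ tr(ξ)/N) Π_{j≠i} (ν_j/N + a)`, `σ = 1, -1, 0`.
-/

namespace H36H

open H53M H94M Function

variable {ι Λ : Type*} [Fintype ι] [DecidableEq ι]

/-- `κ = k/(2πi)`. -/
noncomputable def kp (k : ℕ) : ℂ := (k : ℂ) / (2 * Real.pi * Complex.I)

namespace KArr

omit [DecidableEq ι] in
/-- Absolute convergence of `Σ c(ξ) ν_i^{-(k-1)} e((tr ξ - ν_i) z)`. -/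
def XFam (A : KArr ι Λ) (k : ℕ) : Prop :=
  ∀ i : ι, ∀ y : ℝ, 0 < y → Summable fun ξ => |(A.c ξ : ℝ)| * (A.nu ξ i)⁻¹ ^ (k - 1) *
    Real.exp (-(2 * Real.pi * ((A.tr ξ : ℝ) - A.nu ξ i) * y))

omit [DecidableEq ι] in
/-- The frequencies `u_i = (tr ξ - ν_i)/N`. -/
noncomputable def xu (A : KArr ι Λ) (N : ℕ) (i : ι) (ξ : Λ) : ℝ :=
  ((A.tr ξ : ℝ) - A.nu ξ i) / (N : ℝ)

omit [DecidableEq ι] in
/-- The frequencies `v_i = ν_i/N`. -/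
noncomputable def xv (A : KArr ι Λ) (N : ℕ) (i : ι) (ξ : Λ) : ℝ := A.nu ξ i / (N : ℝ)

/-- The coefficients `c(ξ) e(σ tr(ξ)/N) Π_{j ≠ i} (ν_j/N + a)`. -/
noncomputable def xc (A : KArr ι Λ) (N : ℕ) (σ : ℤ) (i : ι) (a : ℂ) (ξ : Λ) : ℂ :=
  (A.c ξ : ℂ) * X.ex ((σ : ℂ) * (A.tr ξ : ℂ) / (N : ℂ)) *
    ∏ j ∈ Finset.univ.erase i, ((A.nu ξ j : ℂ) / (N : ℂ) + a)

/-- The coefficients `c(ξ) e(-tr(ξ)/N) Π_{j ≠ i, j ∉ T} ν_j/N`. -/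
noncomputable def xcT (A : KArr ι Λ) (N : ℕ) (i : ι) (T : Finset ι) (ξ : Λ) : ℂ :=
  (A.c ξ : ℂ) * X.ex (((-1 : ℤ) : ℂ) * (A.tr ξ : ℂ) / (N : ℂ)) *
    ∏ j ∈ (Finset.univ.erase i) \ T, ((A.nu ξ j : ℂ) / (N : ℂ))

/-- The polynomial part `P_t` of the transformation of `h`. -/
noncomputable def xP (A : KArr ι Λ) (N k : ℕ) (t : ℂ) : Polynomial ℂ :=
  ∑ i : ι, ∑ l ∈ Finset.range (k - 1), ∑ T ∈ (Finset.univ.erase i).powerset,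
    Polynomial.C ((N : ℂ) ^ (Fintype.card ι - 2) * (2 * Real.pi * Complex.I * X.co (k - 1) l *
      kp k ^ T.card * X.F (A.xcT N i T) (A.xu N i) (A.xv N i) (l + 1) t t)) *
      Polynomial.X ^ (l + T.card)

/-- The transcendental part `y(t,x) = Σ_i L`. -/
noncomputable def xY (A : KArr ι Λ) (N k : ℕ) (t x : ℂ) : ℂ :=
  ∑ i : ι, X.L (A.xc N (-1) i (kp k * x)) (A.xu N i) (A.xv N i) (k - 1) t

/-- The coefficients of the almost periodic function `M ↦ y(t + N M, 0)`. -/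
noncomputable def xb (A : KArr ι Λ) (N k : ℕ) (t : ℂ) (p : ι × Λ) : ℂ :=
  A.xc N (-1) p.1 0 p.2 * ((A.xv N p.1 p.2 : ℂ)⁻¹) ^ (k - 1) * X.ex ((A.xu N p.1 p.2 : ℂ) * t)

end KArr

/-- The constant in front of `y`. -/
noncomputable def kapI (N d k : ℕ) : ℂ :=
  -((N : ℂ) ^ (d - 2) * (2 * Real.pi * Complex.I * X.co (k - 1) (k - 2)))

end H36H
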