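import Pool.Agent.Lib.H36H.XU
import Pool.Agent.Lib.H36H.XD

set_option autoImplicit false

/-!
# H36H, XU: the hypothesis `hne` of module X for the array of a Hilbert cusp form
-/

open NumberField Filter Topology

namespace H36H

open H53M

variable {F : Type*} [Field F] [NumberField F] [IsTotallyReal F]

theorem xun_one_le (ξ : TotPos F) : 1 ≤ ∏ φ : F →+* ℝ, φ (ξ.1 : F) := by
  rw [← in_normZ]
  have h0 : (0 : ℝ) < ((Algebra.norm ℤ ξ.1 : ℤ) : ℝ) := by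
    rw [in_normZ]
    exact Finset.prod_pos fun φ _ => ξ.2 φ
  have h1 : (0 : ℤ) < Algebra.norm ℤ ξ.1 := by exact_mod_cast h0
  exact_mod_cast h1

open scoped Classical in
theorem xun_prod_le (ξ : TotPos F) (i : F →+* ℝ) :
    ∏ j ∈ Finset.univ.erase i, j (ξ.1 : F) ≤ ((inTr ξ : ℝ) + 1) ^ Fintype.card (F →+* ℝ) := by
  have ht : (0 : ℝ) ≤ inTr ξ := Nat.cast_nonneg _
  calc ∏ j ∈ Finset.univ.erase i, j (ξ.1 : F)
      ≤ ∏ _j ∈ Finset.univ.erase i, ((inTr ξ : ℝ) + 1) :=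
        Finset.prod_le_prod (fun j _ => (ξ.2 j).le) fun j _ => (in_lt_tr ξ j).trans (by linarith)
    _ = ((inTr ξ : ℝ) + 1) ^ (Finset.univ.erase i).card := Finset.prod_const _
    _ ≤ _ := pow_le_pow_right₀ (by linarith) (Finset.card_le_univ _)

theorem xun_inv_le (ξ : TotPos F) (i : F →+* ℝ) :
    (i (ξ.1 : F))⁻¹ ≤ ((inTr ξ : ℝ) + 1) ^ Fintype.card (F →+* ℝ) := by
  classical
  refine le_trans ?_ (xun_prod_le ξ i)
  have h1 := xun_one_le ξ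
  rw [← Finset.mul_prod_erase _ _ (Finset.mem_univ i)] at h1
  rw [inv_le_iff_one_le_mul₀' (ξ.2 i)]
  exact h1

open scoped Classical in
/-- The weight. -/
noncomputable def xuW (N k : ℕ) (i : F →+* ℝ) (ξ : TotPos F) : ℝ :=
  (∏ j ∈ Finset.univ.erase i, (j (ξ.1 : F) / N)) * ((i (ξ.1 : F) / N)⁻¹) ^ (k - 1)

omit [IsTotallyReal F] in
theorem xuW_pos {N : ℕ} (hN : 0 < N) (k : ℕ) (i : F →+* ℝ) (ξ : TotPos F) : 0 < xuW N k i ξ := by
  have hN' : (0 : ℝ) < N := by exact_mod_cast hN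
  unfold xuW
  refine mul_pos (Finset.prod_pos fun j _ => div_pos (ξ.2 j) hN') (pow_pos ?_ _)
  exact inv_pos.2 (div_pos (ξ.2 i) hN')

theorem xuW_le {N : ℕ} (hN : 0 < N) (k : ℕ) :
    ∃ C : ℝ, ∃ K : ℕ, ∀ (i : F →+* ℝ) (ξ : TotPos F), xuW N k i ξ ≤ C * ((inTr ξ : ℝ) + 1) ^ K := by
  classical
  have hN' : (0 : ℝ) < N := by exact_mod_cast hN
  have hN1 : (1 : ℝ) ≤ N := by exact_mod_cast hN
  refine ⟨(N : ℝ) ^ (k - 1), Fintype.card (F →+* ℝ) + Fintype.card (F →+* ℝ) * (k - 1),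
    fun i ξ => ?_⟩
  have ht : (0 : ℝ) ≤ inTr ξ := Nat.cast_nonneg _
  unfold xuW
  have e1 : ∏ j ∈ Finset.univ.erase i, (j (ξ.1 : F) / N) ≤
      ((inTr ξ : ℝ) + 1) ^ Fintype.card (F →+* ℝ) := by
    refine le_trans (Finset.prod_le_prod (fun j _ => (div_pos (ξ.2 j) hN').le) fun j _ => ?_)
      (xun_prod_le ξ i)
    exact div_le_self (ξ.2 j).le hN1
  have e2 : ((i (ξ.1 : F) / N)⁻¹) ^ (k - 1) ≤
      (N * ((inTr ξ : ℝ) + 1) ^ Fintype.card (F →+* ℝ)) ^ (k - 1) := by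
    refine pow_le_pow_left₀ (inv_pos.2 (div_pos (ξ.2 i) hN')).le ?_ _
    rw [inv_div, div_eq_mul_inv]
    exact mul_le_mul_of_nonneg_left (xun_inv_le ξ i) hN'.le
  calc _ ≤ ((inTr ξ : ℝ) + 1) ^ Fintype.card (F →+* ℝ) *
        (N * ((inTr ξ : ℝ) + 1) ^ Fintype.card (F →+* ℝ)) ^ (k - 1) :=
        mul_le_mul e1 e2 (pow_nonneg (inv_pos.2 (div_pos (ξ.2 i) hN')).le _) (by positivity)
    _ = _ := by
        rw [mul_pow, ← pow_mul, pow_add]
        ring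

open scoped Classical in
theorem xb_eq {N k : ℕ} (hN : 0 < N) {c : 𝓞 F → ℤ}
    (h : IsDiagCusp N k (fun ξ => (c ξ : ℂ))) (y : ℝ) (i : F →+* ℝ) (ξ : TotPos F) :
    (karr h).xb N k (1 + N * (Complex.I * y)) (i, ξ) = xuTerm c (xuW N k) (-(1 / N)) y i ξ := by
  have hN' : (N : ℂ) ≠ 0 := by exact_mod_cast hN.ne'
  unfold KArr.xb KArr.xc KArr.xv KArr.xu xuTerm xuW X.ex
  simp only [add_zero]
  have hnu : ∀ j : F →+* ℝ, (karr h).nu ξ j = j (ξ.1 : F) := fun _ => rfl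
  have htr : (karr h).tr ξ = inTr ξ := rfl
  have hc : (karr h).c ξ = c ξ.1 := rfl
  simp only [hnu, htr, hc]
  push_cast
  have e1 : Complex.exp (2 * Real.pi * Complex.I * ((-1 : ℂ) * (inTr ξ : ℂ) / (N : ℂ))) *
      Complex.exp (2 * Real.pi * Complex.I * (((inTr ξ : ℂ) - (i (ξ.1 : F) : ℂ)) / (N : ℂ) *
        (1 + N * (Complex.I * y)))) =
      Complex.exp (2 * Real.pi * Complex.I * (-(1 / (N : ℂ)) * (i (ξ.1 : F) : ℂ))) *
        Complex.exp (-(2 * Real.pi * ((inTr ξ : ℂ) - (i (ξ.1 : F) : ℂ)) * y)) := by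
    rw [← Complex.exp_add, ← Complex.exp_add]
    congr 1
    field_simp
    ring_nf
    rw [Complex.I_sq]
    ring
  have e2 : ∀ a b P Q e1 e2 e3 e4 : ℂ, e1 * e2 = e3 * e4 → a * e1 * P * Q * e2 =
      a * (P * Q) * e3 * e4 := by
    intro a b P Q e1 e2 e3 e4 h
    linear_combination (a * P * Q) * h
  exact e2 _ 0 _ _ _ _ _ _ e1

open scoped Classical in
/-- **Nonvanishing** for module X. -/
theorem karr_hne (hd : 1 < Module.finrank ℚ F) {N k : ℕ} (hN : 0 < N) {c : 𝓞 F → ℤ}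
    (h : IsDiagCusp N k (fun ξ => (c ξ : ℂ))) (hc1 : c 1 ≠ 0)
    (hu : ∀ ε : 𝓞 F, IsUnit ε → (∀ φ : F →+* ℝ, 0 < φ ε) → c ε = c 1) :
    ∀ᶠ y : ℝ in atTop, ∃ φ : ℝ, Irrational φ ∧
      (∑' p : (F →+* ℝ) × TotPos F, if ∃ m : ℤ, -((karr h).nu p.2 p.1) - φ = m then
        (karr h).xb N k (1 + N * (Complex.I * y)) p else 0) ≠ 0 := by
  obtain ⟨θ, hθ, hev⟩ := xu_main hd c hc1 hu (karr h).c_le (xuW N k) (fun i ξ => xuW_pos hN k i ξ)
    (xuW_le hN k) (-(1 / N))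
  filter_upwards [hev] with y hy
  refine ⟨-θ, hθ.neg, ?_⟩
  have h1 := tsum_subtype (f := fun p : (F →+* ℝ) × TotPos F =>
    (karr h).xb N k (1 + N * (Complex.I * y)) p)
    {x : (F →+* ℝ) × TotPos F | ∃ m : ℤ, x.1 x.2.1 = θ + m}
  have h2 : (∑' p : (F →+* ℝ) × TotPos F, if ∃ m : ℤ, -((karr h).nu p.2 p.1) - -θ = m then
        (karr h).xb N k (1 + N * (Complex.I * y)) p else 0) =
      ∑' x : XP F θ, xuTerm c (xuW N k) (-(1 / N)) y x.1.1 x.1.2 := by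
    have h3 : ∑' x : XP F θ, xuTerm c (xuW N k) (-(1 / N)) y x.1.1 x.1.2 =
        ∑' x : ({x : (F →+* ℝ) × TotPos F | ∃ m : ℤ, x.1 x.2.1 = θ + m} : Set _),
          (karr h).xb N k (1 + N * (Complex.I * y)) x := by
      refine tsum_congr fun x => ?_
      exact (xb_eq hN h y x.1.1 x.1.2).symm
    rw [h3, h1]
    refine tsum_congr fun p => ?_
    by_cases hp : ∃ m : ℤ, p.1 p.2.1 = θ + m
    · rw [Set.indicator_of_mem (s := {x : (F →+* ℝ) × TotPos F | ∃ m : ℤ, x.1 x.2.1 = θ + m})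
        hp, if_pos]
      obtain ⟨m, hm⟩ := hp
      refine ⟨-m, ?_⟩
      change -(p.1 (p.2.1 : F)) - -θ = _
      rw [hm]
      push_cast
      ring
    · rw [Set.indicator_of_notMem (s := {x : (F →+* ℝ) × TotPos F | ∃ m : ℤ, x.1 x.2.1 = θ + m})
        hp, if_neg]
      rintro ⟨m, hm⟩
      apply hp
      refine ⟨-m, ?_⟩
      change -(p.1 (p.2.1 : F)) - -θ = _ at hm
      push_cast
      linarith
  rw [h2]
  exact hy.2

end H36H
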