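import Pool.Agent.Lib.H36H.AS
import Pool.Agent.Lib.H36H.XFin
import Pool.Agent.Lib.H36H.XUN

set_option autoImplicit false

/-!
# H36H: the main theorem
-/

namespace H36H

open NumberField H53M Filter

variable {F : Type*} [Field F] [NumberField F] [IsTotallyReal F]

open scoped Classical in
theorem stH (hd : 1 < Module.finrank ℚ F) : StH F := by
  refine stH_of hd ?_ ?_
  · intro N k w' hN hk A hw hT hf hne
    refine KArr.not_rel hN hk A ?_ hw hT hf ?_
    · rw [in_card F]
      exact hd
    · exact hne
  · intro N k hN c hc1 hu h
    exact karr_hne hd hN h hc1 hu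

end H36H
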