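import Pool.Agent.Lib.H36H.G0

/-!
# H36H, chunk G5 (M): a lattice sum

`s(ξ) = Σ_{j ≠ i} ν_j(ξ)`. The number of `ξ` with `⌊ν_i⌋₊ = m` and `⌊s⌋₊ = S` is at most `(S+1)^d`
(`g_cell`: `⌊ν_j⌋₊ ≤ S` for `j ≠ i`). So `Σ_ξ g(⌊ν_i⌋₊) e^(-a s) ≤ Σ_{m,S} g(m) (S+1)^d e^(-a S) < ∞`
(product of two convergent series): `summable_of_sum_le` for the finite partial sums, or
`Summable` over the fibres of `ξ ↦ (⌊ν_i⌋₊, ⌊s⌋₊)` (`Equiv.sigmaFiberEquiv`, `summable_sigma_of_nonneg`, as
`KArr.summable_tr`).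
-/

namespace H36H

open NumberField

variable {F : Type*} [Field F] [NumberField F] [IsTotallyReal F]

open Classical in
theorem G5_pi {ι : Type*} [Fintype ι] (h : ι → ℕ → ℝ) (h0 : ∀ i m, 0 ≤ h i m)
    (hs : ∀ i, Summable (h i)) : Summable fun n : ι → ℕ => ∏ i, h i (n i) := by
  refine summable_of_sum_le (c := ∏ i, ∑' m, h i m)
    (fun n => Finset.prod_nonneg fun i _ => h0 i _) fun u => ?_
  let K : ℕ := (u.sup fun n => ∑ i, n i) + 1
  have hu : u ⊆ Fintype.piFinset (fun _ : ι => Finset.range K) := by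
    intro n hn
    rw [Fintype.mem_piFinset]
    intro i
    rw [Finset.mem_range]
    have h1 : n i ≤ ∑ j, n j := Finset.single_le_sum (f := n) (fun _ _ => Nat.zero_le _)
      (Finset.mem_univ i)
    have h2 : (∑ j, n j) ≤ u.sup fun n => ∑ i, n i :=
      Finset.le_sup (f := fun n : ι → ℕ => ∑ i, n i) hn
    omega
  calc ∑ n ∈ u, ∏ i, h i (n i)
      ≤ ∑ n ∈ Fintype.piFinset (fun _ : ι => Finset.range K), ∏ i, h i (n i) :=
        Finset.sum_le_sum_of_subset_of_nonneg hu fun n _ _ => Finset.prod_nonneg fun i _ => h0 i _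
    _ = ∏ i, ∑ m ∈ Finset.range K, h i m := by
        rw [Finset.prod_univ_sum]
    _ ≤ ∏ i, ∑' m, h i m := Finset.prod_le_prod
        (fun i _ => Finset.sum_nonneg fun m _ => h0 i m)
        (fun i _ => (hs i).sum_le_tsum _ fun m _ => h0 i m)

theorem G5_exp {a : ℝ} (ha : 0 < a) : Summable fun m : ℕ => Real.exp (-(a * m)) := by
  have h := Real.summable_exp_nat_mul_iff.mpr (show -a < 0 by linarith)
  refine h.congr fun m => ?_
  congr 1
  ring

theorem lattice_sum (i : F →+* ℝ) (g : ℕ → ℝ) (hg0 : ∀ m, 0 ≤ g m) (hg : Summable g) {a : ℝ}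
    (ha : 0 < a) : Summable fun ξ : TotPos F => g ⌊i (ξ.1 : F)⌋₊ *
      Real.exp (-(a * ((∑ j : F →+* ℝ, j (ξ.1 : F)) - i (ξ.1 : F)))) := by
  classical
  let h : (F →+* ℝ) → ℕ → ℝ := fun j m => if j = i then g m else Real.exp (-(a * m))
  have h0 : ∀ j m, 0 ≤ h j m := by
    intro j m
    simp only [h]
    split_ifs
    · exact hg0 m
    · exact (Real.exp_pos _).le
  have hs : ∀ j, Summable (h j) := by
    intro j
    by_cases hj : j = i
    · have : h j = g := by
        funext m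
        simp only [h, if_pos hj]
      rw [this]
      exact hg
    · have : h j = fun m : ℕ => Real.exp (-(a * m)) := by
        funext m
        simp only [h, if_neg hj]
      rw [this]
      exact G5_exp ha
  have hpi := G5_pi h h0 hs
  let N : TotPos F → ((F →+* ℝ) → ℕ) := fun ξ j => ⌊j (ξ.1 : F)⌋₊
  have hN : Function.Injective N := by
    intro ξ ξ' he
    exact g_cell fun φ => congrFun he φ
  refine Summable.of_nonneg_of_le (fun ξ => mul_nonneg (hg0 _) (Real.exp_pos _).le)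
    (fun ξ => ?_) (hpi.comp_injective hN)
  change _ ≤ ∏ j, h j (N ξ j)
  rw [← Finset.mul_prod_erase Finset.univ _ (Finset.mem_univ i)]
  have e1 : h i (N ξ i) = g ⌊i (ξ.1 : F)⌋₊ := by
    simp only [h, N, if_true]
  rw [e1]
  refine mul_le_mul_of_nonneg_left ?_ (hg0 _)
  have e2 : (∑ j : F →+* ℝ, j (ξ.1 : F)) - i (ξ.1 : F) =
      ∑ j ∈ Finset.univ.erase i, j (ξ.1 : F) := by
    rw [← Finset.add_sum_erase Finset.univ _ (Finset.mem_univ i)]
    ring
  rw [e2, Finset.mul_sum, ← Finset.sum_neg_distrib, Real.exp_sum]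
  refine Finset.prod_le_prod (fun j _ => (Real.exp_pos _).le) fun j hj => ?_
  have hji : j ≠ i := Finset.ne_of_mem_erase hj
  simp only [h, N, if_neg hji]
  refine Real.exp_le_exp.mpr ?_
  have h1 : ((⌊j (ξ.1 : F)⌋₊ : ℕ) : ℝ) ≤ j (ξ.1 : F) := Nat.floor_le (ξ.2 j).le
  have := mul_le_mul_of_nonneg_left h1 ha.le
  linarith

end H36H
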