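import Pool.Agent.Lib.H36H.G3

/-!
# H36H, chunk G6 (M): the mean square part

`s = Σ_j ν_j - ν_i`. For `l : ℕ` apply `cusp_parseval` with `y_j = y/2` (`j ≠ i`), `y_i = 4^(-l)`:
`Σ_ξ c² exp(-2π y s - 4π ν_i 4^(-l)) ≤ B' 4^(lk)`, `B' = B (2/y)^(k(d-1))`. Multiply by `4^(-lk) 2^(-l)` and sum
over `l`: the family `(l, ξ) ↦ 4^(-lk) 2^(-l) c² exp(-2π y s - 4π ν_i 4^(-l))` is summable on `ℕ × TotPos F`
(`summable_prod_of_nonneg`). Compose with the injection `ξ ↦ (l ξ, ξ)`: if `ν_i ≤ 4 · 4^(l ξ)` then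
`exp(-4π ν_i 4^(-l)) ≥ exp(-16π)`, so `4^(-lk) 2^(-l) c² exp(-2π y s) ≤ exp(16π) ·` (term `(l ξ, ξ)`).
-/

namespace H36H

open NumberField

variable {F : Type*} [Field F] [NumberField F] [IsTotallyReal F]

theorem square_sum {N k : ℕ} {c : 𝓞 F → ℤ} (hc : IsDiagCusp N k fun ξ => (c ξ : ℂ))
    (i : F →+* ℝ) {y : ℝ} (hy : 0 < y) (l : TotPos F → ℕ)
    (hl : ∀ ξ : TotPos F, i (ξ.1 : F) ≤ 4 * 4 ^ l ξ) :
    Summable fun ξ : TotPos F => (c ξ.1 : ℝ) ^ 2 * ((4 : ℝ) ^ (l ξ * k) * 2 ^ l ξ)⁻¹ *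
      Real.exp (-(2 * Real.pi * ((∑ j : F →+* ℝ, j (ξ.1 : F)) - i (ξ.1 : F)) * y)) := by
  classical
  obtain ⟨B, hB, hP⟩ := cusp_parseval hc
  set s : TotPos F → ℝ := fun ξ => (∑ j : F →+* ℝ, j (ξ.1 : F)) - i (ξ.1 : F) with hs
  set yv : ℕ → (F →+* ℝ) → ℝ := fun m => Function.update (fun _ => y / 2) i ((4 : ℝ) ^ m)⁻¹ with hyv
  have hyi : ∀ m, yv m i = ((4 : ℝ) ^ m)⁻¹ := fun m => by
    rw [hyv]
    exact Function.update_self _ _ _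
  have hyj : ∀ m j, j ≠ i → yv m j = y / 2 := fun m j hj => by
    rw [hyv]
    exact Function.update_of_ne hj _ _
  have hypos : ∀ m j, 0 < yv m j := by
    intro m j
    rcases eq_or_ne j i with rfl | hj
    · rw [hyi]
      positivity
    · rw [hyj m j hj]
      positivity
  have hsum : ∀ m (ξ : TotPos F), ∑ j, j (ξ.1 : F) * yv m j = (y / 2) * s ξ + i (ξ.1 : F) * ((4 : ℝ) ^ m)⁻¹ := by
    intro m ξ
    rw [← Finset.add_sum_erase _ _ (Finset.mem_univ i), hyi]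
    have h1 : ∑ j ∈ Finset.univ.erase i, j (ξ.1 : F) * yv m j = ∑ j ∈ Finset.univ.erase i, j (ξ.1 : F) * (y / 2) :=
      Finset.sum_congr rfl fun j hj => by rw [hyj m j (Finset.ne_of_mem_erase hj)]
    have h2 := Finset.add_sum_erase Finset.univ (fun j : F →+* ℝ => j (ξ.1 : F)) (Finset.mem_univ i)
    rw [h1, ← Finset.sum_mul]
    simp only [hs]
    rw [← h2]
    ring
  have hprod : ∀ m, ∏ j, (yv m j)⁻¹ ^ k = ((4 : ℝ) ^ m) ^ k * ∏ j ∈ Finset.univ.erase i, ((y / 2)⁻¹ ^ k) := by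
    intro m
    rw [← Finset.mul_prod_erase _ _ (Finset.mem_univ i), hyi, inv_inv]
    congr 1
    exact Finset.prod_congr rfl fun j hj => by rw [hyj m j (Finset.ne_of_mem_erase hj)]
  set P : ℝ := ∏ j ∈ Finset.univ.erase i, ((y / 2)⁻¹ ^ k) with hPdef
  set T : ℕ × TotPos F → ℝ := fun p => ((4 : ℝ) ^ (p.1 * k) * 2 ^ p.1)⁻¹ *
    ((c p.2.1 : ℝ) ^ 2 * Real.exp (-(4 * Real.pi * ∑ j : F →+* ℝ, j (p.2.1 : F) * yv p.1 j))) with hT
  have hT0 : 0 ≤ T := fun p => by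
    simp only [hT, Pi.zero_apply]
    positivity
  have hTs : Summable T := by
    rw [summable_prod_of_nonneg hT0]
    refine ⟨fun m => ?_, ?_⟩
    · exact (hP (yv m) (hypos m)).1.mul_left (((4 : ℝ) ^ (m * k) * 2 ^ m)⁻¹)
    · have hg : Summable fun m : ℕ => (B * P) * ((1 : ℝ) / 2) ^ m :=
        (summable_geometric_of_lt_one (by norm_num) (by norm_num)).mul_left _
      refine Summable.of_nonneg_of_le (fun m => tsum_nonneg fun ξ => hT0 (m, ξ)) (fun m => ?_) hg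
      simp only [hT]
      rw [tsum_mul_left]
      have h1 := (hP (yv m) (hypos m)).2
      rw [hprod m] at h1
      calc ((4 : ℝ) ^ (m * k) * 2 ^ m)⁻¹ * _ ≤ ((4 : ℝ) ^ (m * k) * 2 ^ m)⁻¹ * (B * (((4 : ℝ) ^ m) ^ k * P)) :=
            mul_le_mul_of_nonneg_left h1 (by positivity)
        _ = (B * P) * ((1 : ℝ) / 2) ^ m := by
            rw [pow_mul, one_div, inv_pow]
            field_simp
  have hinj : Function.Injective (fun ξ : TotPos F => (l ξ, ξ)) := fun a b h => (Prod.mk.inj h).2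
  have hcomp := (hTs.comp_injective hinj).mul_left (Real.exp (16 * Real.pi))
  refine Summable.of_nonneg_of_le (fun ξ => by positivity) (fun ξ => ?_) hcomp
  simp only [Function.comp, hT]
  have hξ := hl ξ
  have h4 : (0 : ℝ) < 4 ^ l ξ := by positivity
  have h5 : i (ξ.1 : F) * ((4 : ℝ) ^ l ξ)⁻¹ ≤ 4 := by
    rw [← div_eq_mul_inv, div_le_iff₀ h4]
    exact hξ
  have h6 : Real.exp (-(2 * Real.pi * ((∑ j : F →+* ℝ, j (ξ.1 : F)) - i (ξ.1 : F)) * y)) ≤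
      Real.exp (16 * Real.pi) * Real.exp (-(4 * Real.pi * ∑ j : F →+* ℝ, j (ξ.1 : F) * yv (l ξ) j)) := by
    rw [← Real.exp_add, Real.exp_le_exp, hsum]
    have h7 : s ξ = (∑ j : F →+* ℝ, j (ξ.1 : F)) - i (ξ.1 : F) := rfl
    rw [h7]
    nlinarith [Real.pi_pos, mul_nonneg Real.pi_pos.le (sub_nonneg.2 h5)]
  have h8 : 0 ≤ (c ξ.1 : ℝ) ^ 2 * ((4 : ℝ) ^ (l ξ * k) * 2 ^ l ξ)⁻¹ := by positivity
  calc (c ξ.1 : ℝ) ^ 2 * ((4 : ℝ) ^ (l ξ * k) * 2 ^ l ξ)⁻¹ *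
      Real.exp (-(2 * Real.pi * ((∑ j : F →+* ℝ, j (ξ.1 : F)) - i (ξ.1 : F)) * y)) ≤
      (c ξ.1 : ℝ) ^ 2 * ((4 : ℝ) ^ (l ξ * k) * 2 ^ l ξ)⁻¹ *
      (Real.exp (16 * Real.pi) * Real.exp (-(4 * Real.pi * ∑ j : F →+* ℝ, j (ξ.1 : F) * yv (l ξ) j))) :=
        mul_le_mul_of_nonneg_left h6 h8
    _ = _ := by ring

end H36H
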