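import Pool.Agent.Lib.H36H.G4
import Pool.Agent.Lib.H36H.G5
import Pool.Agent.Lib.H36H.G6

/-!
# H36H, chunk G7 (M): convergence of the Eichler integral, `k ≥ 4`

`s = Σ_j ν_j - ν_i`, `E = exp(-2π s y)`, `k ≥ 4`. Let `l ξ = Nat.log 4 ⌊ν_i⌋₊` (the largest `l` with `4^l ≤ ν_i` if
`ν_i ≥ 1`, and `0` otherwise); so `ν_i ≤ 4 · 4^l` always.

(a) `ν_i ≥ 1`: `ν_i⁻¹ ^ (k-1) ≤ 4^(-l(k-1))` and `2(k-1) ≥ k + 2`, so
`(|c| ν_i^(-(k-1)))² ≤ c² 4^(-l(k+2)) = (c² 4^(-lk) 2^(-l)) · (4^(-2l) 2^l)`, hence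
`|c| ν_i^(-(k-1)) ≤ c² 4^(-lk) 2^(-l) + 2^(-3l)` (`x ≤ u + v` if `x² ≤ u v`, `u, v, x ≥ 0`). The first part
(times `E`) is `square_sum`. For the second: `4 · 4^l ≥ ν_i ≥ (⌊ν_i⌋₊ + 1)/2`, so
`2^(-3l) = (4^l)^(-3/2) ≤ C (⌊ν_i⌋₊ + 1)^(-3/2) =: g(⌊ν_i⌋₊)`, `g` is summable
(`Real.summable_nat_rpow_inv`, shifted by one), `lattice_sum` with `a = 2πy`.
(b) `ν_i < 1`: `ν_i⁻¹ ≤ Π_{j ≠ i} ν_j ≤ (1 + s)^d` (`g_prod`) and `|c| ≤ C (s+2)^K` (`cusp_growth`), so the term is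
`≤ C' (s+2)^K' E ≤ C'' exp(-π s y)`: `lattice_sum` with `g = (1, 0, 0, ...)`, `a = πy`.
-/

namespace H36H

open NumberField


private theorem G7_log (m : ℕ) : ((2 : ℝ) ^ (3 * Nat.log 4 m))⁻¹ ≤ 8 * (((m : ℝ) + 1) ^ (3 / 2 : ℝ))⁻¹ := by
  have h1 : m + 1 ≤ 4 ^ (Nat.log 4 m + 1) := Nat.lt_pow_succ_log_self (by norm_num) m
  have h2 : (m : ℝ) + 1 ≤ 4 ^ (Nat.log 4 m + 1) := by exact_mod_cast h1
  have h3 : ((m : ℝ) + 1) ^ (3 / 2 : ℝ) ≤ ((4 : ℝ) ^ (Nat.log 4 m + 1)) ^ (3 / 2 : ℝ) :=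
    Real.rpow_le_rpow (by positivity) h2 (by norm_num)
  have h4 : ((4 : ℝ) ^ (Nat.log 4 m + 1)) ^ (3 / 2 : ℝ) = 8 * 2 ^ (3 * Nat.log 4 m) := by
    have e : (4 : ℝ) ^ (Nat.log 4 m + 1) = ((2 : ℝ) ^ (Nat.log 4 m + 1)) ^ (2 : ℝ) := by
      rw [Real.rpow_two, ← pow_mul, mul_comm, pow_mul]
      norm_num
    rw [e, ← Real.rpow_mul (by positivity)]
    have e2 : (2 : ℝ) * (3 / 2) = ((3 : ℕ) : ℝ) := by norm_num
    rw [e2, Real.rpow_natCast, ← pow_mul]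
    have e3 : (Nat.log 4 m + 1) * 3 = 3 + 3 * Nat.log 4 m := by ring
    rw [e3, pow_add]
    norm_num
  rw [h4] at h3
  have h5 : 0 < ((m : ℝ) + 1) ^ (3 / 2 : ℝ) := by positivity
  rw [inv_le_comm₀ (by positivity) (by positivity), mul_inv, inv_inv]
  linarith

private theorem G7_summ : Summable fun m : ℕ => 8 * (((m : ℝ) + 1) ^ (3 / 2 : ℝ))⁻¹ := by
  have h := (summable_nat_add_iff 1).2 (Real.summable_nat_rpow_inv.2 (by norm_num : (1 : ℝ) < 3 / 2))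
  refine (h.mul_left 8).congr fun m => ?_
  push_cast
  rfl

private theorem G7_poly (K : ℕ) {b : ℝ} (hb : 0 < b) : ∃ C : ℝ, 0 < C ∧ ∀ s : ℝ, 0 ≤ s →
    (s + 2) ^ K * Real.exp (-(b * s)) ≤ C := by
  refine ⟨(K.factorial : ℝ) * (b⁻¹ ^ K) * Real.exp (b * 2), by positivity, fun s hs => ?_⟩
  have h1 := Real.pow_div_factorial_le_exp (b * (s + 2)) (by positivity) K
  have hf : (0 : ℝ) < K.factorial := by exact_mod_cast K.factorial_pos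
  rw [div_le_iff₀ hf, mul_pow] at h1
  have h2 : Real.exp (b * (s + 2)) = Real.exp (b * s) * Real.exp (b * 2) := by
    rw [← Real.exp_add]
    ring_nf
  have h3 : Real.exp (-(b * s)) * Real.exp (b * s) = 1 := by
    rw [← Real.exp_add]
    simp
  have h4 : b⁻¹ ^ K * b ^ K = 1 := by
    rw [← mul_pow, inv_mul_cancel₀ hb.ne', one_pow]
  rw [h2] at h1
  calc (s + 2) ^ K * Real.exp (-(b * s)) = (b⁻¹ ^ K * Real.exp (-(b * s))) * (b ^ K * (s + 2) ^ K) := by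
        linear_combination (-(s + 2) ^ K * Real.exp (-(b * s))) * h4
    _ ≤ (b⁻¹ ^ K * Real.exp (-(b * s))) * (Real.exp (b * s) * Real.exp (b * 2) * K.factorial) :=
        mul_le_mul_of_nonneg_left h1 (by positivity)
    _ = _ := by linear_combination (b⁻¹ ^ K * Real.exp (b * 2) * K.factorial) * h3

variable {F : Type*} [Field F] [NumberField F] [IsTotallyReal F]

theorem famF {N k : ℕ} (hk : 4 ≤ k) {c : 𝓞 F → ℤ} (hc : IsDiagCusp N k fun ξ => (c ξ : ℂ))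
    (i : F →+* ℝ) {y : ℝ} (hy : 0 < y) :
    Summable fun ξ : TotPos F => |(c ξ.1 : ℝ)| * (i (ξ.1 : F))⁻¹ ^ (k - 1) *
      Real.exp (-(2 * Real.pi * ((∑ j : F →+* ℝ, j (ξ.1 : F)) - i (ξ.1 : F)) * y)) := by
  classical
  have hpos : ∀ (ξ : TotPos F) (j : F →+* ℝ), 0 < j (ξ.1 : F) := fun ξ j => ξ.2 j
  set s : TotPos F → ℝ := fun ξ => (∑ j : F →+* ℝ, j (ξ.1 : F)) - i (ξ.1 : F) with hs
  have hs' : ∀ ξ : TotPos F, s ξ = ∑ j ∈ Finset.univ.erase i, j (ξ.1 : F) := fun ξ => by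
    have h2 := Finset.add_sum_erase Finset.univ (fun j : F →+* ℝ => j (ξ.1 : F)) (Finset.mem_univ i)
    simp only [hs]
    rw [← h2]
    ring
  have hs0 : ∀ ξ, 0 ≤ s ξ := fun ξ => by
    rw [hs']
    exact Finset.sum_nonneg fun j _ => (hpos ξ j).le
  set l : TotPos F → ℕ := fun ξ => Nat.log 4 ⌊i (ξ.1 : F)⌋₊ with hldef
  have hl : ∀ ξ : TotPos F, i (ξ.1 : F) ≤ 4 * 4 ^ l ξ := by
    intro ξ
    have h1 : ⌊i (ξ.1 : F)⌋₊ + 1 ≤ 4 ^ (l ξ + 1) := Nat.lt_pow_succ_log_self (by norm_num) _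
    have h2 : ((⌊i (ξ.1 : F)⌋₊ : ℕ) : ℝ) + 1 ≤ 4 ^ (l ξ + 1) := by exact_mod_cast h1
    have h3 := Nat.lt_floor_add_one (i (ξ.1 : F))
    rw [pow_succ] at h2
    linarith
  have hsq := square_sum hc i hy l hl
  have hlat := lattice_sum i (fun m : ℕ => 8 * (((m : ℝ) + 1) ^ (3 / 2 : ℝ))⁻¹) (fun m => by positivity) G7_summ
    (show (0 : ℝ) < 2 * Real.pi * y by positivity)
  have hlat0 := lattice_sum i (fun m : ℕ => if m = 0 then (1 : ℝ) else 0) (fun m => by positivity)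
    (summable_of_ne_finset_zero (s := {0}) fun m hm => by
      rw [Finset.mem_singleton] at hm
      simp [hm]) (show (0 : ℝ) < Real.pi * y by positivity)
  obtain ⟨C, K, hC, hgr⟩ := cusp_growth hc
  set d : ℕ := Fintype.card (F →+* ℝ) with hd
  obtain ⟨C2, hC2, hpoly⟩ := G7_poly (K + d * (k - 1)) (show (0 : ℝ) < Real.pi * y by positivity)
  refine Summable.of_nonneg_of_le (fun ξ => ?_) (fun ξ => ?_) ((hsq.add hlat).add (hlat0.mul_left (C * C2)))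
  · have := hpos ξ i
    positivity
  have hν := hpos ξ i
  set ν : ℝ := i (ξ.1 : F) with hνdef
  have hE : (∑ j : F →+* ℝ, j (ξ.1 : F)) - ν = s ξ := rfl
  rw [hE]
  have t1 : 0 ≤ (c ξ.1 : ℝ) ^ 2 * ((4 : ℝ) ^ (l ξ * k) * 2 ^ l ξ)⁻¹ * Real.exp (-(2 * Real.pi * s ξ * y)) := by
    positivity
  have t2' : 0 ≤ 8 * ((((⌊ν⌋₊ : ℕ) : ℝ) + 1) ^ (3 / 2 : ℝ))⁻¹ * Real.exp (-(2 * Real.pi * y * s ξ)) := by
    positivity
  have t3 : 0 ≤ C * C2 * ((if ⌊ν⌋₊ = 0 then (1 : ℝ) else 0) * Real.exp (-(Real.pi * y * s ξ))) := by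
    positivity
  rcases le_or_gt 1 ν with h1 | h1
  · -- `ν ≥ 1`
    have hfl : ⌊ν⌋₊ ≠ 0 := (Nat.floor_pos.2 h1).ne'
    have h4l : (4 : ℝ) ^ l ξ ≤ ν := by
      have h5 : 4 ^ l ξ ≤ ⌊ν⌋₊ := Nat.pow_log_le_self 4 hfl
      have h6 : ((4 : ℝ) ^ l ξ) ≤ ((⌊ν⌋₊ : ℕ) : ℝ) := by exact_mod_cast h5
      exact h6.trans (Nat.floor_le hν.le)
    have h4p : (0 : ℝ) < 4 ^ l ξ := by positivity
    have h7 : ν⁻¹ ^ (k - 1) ≤ ((4 : ℝ) ^ l ξ)⁻¹ ^ (k - 1) :=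
      pow_le_pow_left₀ (by positivity) (inv_anti₀ h4p h4l) _
    set u : ℝ := (c ξ.1 : ℝ) ^ 2 * ((4 : ℝ) ^ (l ξ * k) * 2 ^ l ξ)⁻¹ with hu
    set v : ℝ := ((2 : ℝ) ^ (3 * l ξ))⁻¹ with hv
    have hu0 : 0 ≤ u := by positivity
    have hv0 : 0 ≤ v := by positivity
    have hX : |(c ξ.1 : ℝ)| * ν⁻¹ ^ (k - 1) ≤ u + v := by
      have hX0 : 0 ≤ |(c ξ.1 : ℝ)| * ν⁻¹ ^ (k - 1) := by positivity
      have hXX : (|(c ξ.1 : ℝ)| * ν⁻¹ ^ (k - 1)) ^ 2 ≤ u * v := by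
        have e1 : (|(c ξ.1 : ℝ)| * ν⁻¹ ^ (k - 1)) ^ 2 = (c ξ.1 : ℝ) ^ 2 * (ν⁻¹ ^ (k - 1)) ^ 2 := by
          rw [mul_pow, sq_abs]
        have e2 : (ν⁻¹ ^ (k - 1)) ^ 2 ≤ (((4 : ℝ) ^ l ξ)⁻¹ ^ (k - 1)) ^ 2 :=
          pow_le_pow_left₀ (by positivity) h7 2
        have e3 : (((4 : ℝ) ^ l ξ)⁻¹ ^ (k - 1)) ^ 2 ≤ ((4 : ℝ) ^ l ξ)⁻¹ ^ (k + 2) := by
          rw [← pow_mul]
          refine pow_le_pow_of_le_one (by positivity) (inv_le_one_of_one_le₀ (one_le_pow₀ (by norm_num))) ?_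
          omega
        have e4 : u * v = (c ξ.1 : ℝ) ^ 2 * ((4 : ℝ) ^ l ξ)⁻¹ ^ (k + 2) := by
          have e5 : ((4 : ℝ) ^ l ξ)⁻¹ ^ (k + 2) = ((4 : ℝ) ^ (l ξ * k) * 2 ^ l ξ)⁻¹ * ((2 : ℝ) ^ (3 * l ξ))⁻¹ := by
            rw [← mul_inv, inv_pow]
            congr 1
            have e6 : (4 : ℝ) = 2 ^ 2 := by norm_num
            rw [e6, ← pow_mul, ← pow_mul, ← pow_mul, ← pow_add, ← pow_add]
            congr 1
            ring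
          rw [hu, hv, e5]
          ring
        rw [e1, e4]
        exact mul_le_mul_of_nonneg_left (e2.trans e3) (sq_nonneg _)
      nlinarith [sq_nonneg (u - v), mul_nonneg hu0 hv0]
    have hvg : v ≤ 8 * ((((⌊ν⌋₊ : ℕ) : ℝ) + 1) ^ (3 / 2 : ℝ))⁻¹ := G7_log ⌊ν⌋₊
    have hee : Real.exp (-(2 * Real.pi * s ξ * y)) = Real.exp (-(2 * Real.pi * y * s ξ)) := by ring_nf
    calc |(c ξ.1 : ℝ)| * ν⁻¹ ^ (k - 1) * Real.exp (-(2 * Real.pi * s ξ * y)) ≤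
        (u + v) * Real.exp (-(2 * Real.pi * s ξ * y)) := mul_le_mul_of_nonneg_right hX (Real.exp_pos _).le
      _ = u * Real.exp (-(2 * Real.pi * s ξ * y)) + v * Real.exp (-(2 * Real.pi * y * s ξ)) := by
          rw [add_mul, hee]
      _ ≤ u * Real.exp (-(2 * Real.pi * s ξ * y)) + 8 * ((((⌊ν⌋₊ : ℕ) : ℝ) + 1) ^ (3 / 2 : ℝ))⁻¹ *
          Real.exp (-(2 * Real.pi * y * s ξ)) :=
          add_le_add le_rfl (mul_le_mul_of_nonneg_right hvg (Real.exp_pos _).le)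
      _ ≤ _ := le_add_of_nonneg_right t3
  · -- `ν < 1`
    have hfl : ⌊ν⌋₊ = 0 := Nat.floor_eq_zero.2 h1
    have hle : ∀ j ∈ Finset.univ.erase i, j (ξ.1 : F) ≤ 1 + s ξ := by
      intro j hj
      have h2 : j (ξ.1 : F) ≤ s ξ := by
        rw [hs']
        exact Finset.single_le_sum (f := fun j : F →+* ℝ => j (ξ.1 : F)) (fun j _ => (hpos ξ j).le) hj
      linarith
    have h3 : ν⁻¹ ≤ (1 + s ξ) ^ d := by
      have h4 := g_prod ξ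
      rw [← Finset.mul_prod_erase _ _ (Finset.mem_univ i), ← hνdef] at h4
      have h5 : ∏ j ∈ Finset.univ.erase i, j (ξ.1 : F) ≤ ∏ _j ∈ Finset.univ.erase i, (1 + s ξ) :=
        Finset.prod_le_prod (fun j _ => (hpos ξ j).le) hle
      rw [Finset.prod_const] at h5
      have h6 : (1 + s ξ) ^ (Finset.univ.erase i).card ≤ (1 + s ξ) ^ d :=
        pow_le_pow_right₀ (by linarith [hs0 ξ]) (by
          rw [hd, ← Finset.card_univ]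
          exact Finset.card_le_card (Finset.erase_subset _ _))
      rw [inv_le_iff_one_le_mul₀ hν]
      calc (1 : ℝ) ≤ ν * ∏ j ∈ Finset.univ.erase i, j (ξ.1 : F) := h4
        _ ≤ ν * (1 + s ξ) ^ d := mul_le_mul_of_nonneg_left (h5.trans h6) hν.le
        _ = _ := mul_comm _ _
    have hgr1 : |(c ξ.1 : ℝ)| ≤ C * (s ξ + 2) ^ K := by
      refine (hgr ξ).trans (mul_le_mul_of_nonneg_left (pow_le_pow_left₀ ?_ ?_ K) hC.le)
      · have := Finset.sum_nonneg (s := Finset.univ) fun (j : F →+* ℝ) _ => (hpos ξ j).le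
        linarith
      · linarith
    have h8 : ν⁻¹ ^ (k - 1) ≤ (s ξ + 2) ^ (d * (k - 1)) := by
      rw [pow_mul]
      refine pow_le_pow_left₀ (by positivity) (h3.trans ?_) _
      exact pow_le_pow_left₀ (by linarith [hs0 ξ]) (by linarith) d
    have h9 : |(c ξ.1 : ℝ)| * ν⁻¹ ^ (k - 1) ≤ C * (s ξ + 2) ^ (K + d * (k - 1)) := by
      rw [pow_add, ← mul_assoc]
      have := hs0 ξ
      exact mul_le_mul hgr1 h8 (by positivity) (by positivity)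
    have h10 := hpoly (s ξ) (hs0 ξ)
    have h11 : Real.exp (-(2 * Real.pi * s ξ * y)) =
        Real.exp (-(Real.pi * y * s ξ)) * Real.exp (-(Real.pi * y * s ξ)) := by
      rw [← Real.exp_add]
      ring_nf
    calc |(c ξ.1 : ℝ)| * ν⁻¹ ^ (k - 1) * Real.exp (-(2 * Real.pi * s ξ * y)) ≤
        C * (s ξ + 2) ^ (K + d * (k - 1)) * Real.exp (-(2 * Real.pi * s ξ * y)) :=
          mul_le_mul_of_nonneg_right h9 (Real.exp_pos _).le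
      _ = C * ((s ξ + 2) ^ (K + d * (k - 1)) * Real.exp (-(Real.pi * y * s ξ))) *
          Real.exp (-(Real.pi * y * s ξ)) := by
          rw [h11]
          ring
      _ ≤ C * C2 * Real.exp (-(Real.pi * y * s ξ)) :=
          mul_le_mul_of_nonneg_right (mul_le_mul_of_nonneg_left h10 hC.le) (Real.exp_pos _).le
      _ = C * C2 * ((if ⌊ν⌋₊ = 0 then (1 : ℝ) else 0) * Real.exp (-(Real.pi * y * s ξ))) := by
          rw [if_pos hfl, one_mul]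
      _ ≤ _ := le_add_of_nonneg_left (add_nonneg t1 t2')

end H36H
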