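import Pool.Agent.Lib.H36H.NA
import Pool.Agent.Lib.H36H.KF
import Pool.Agent.Lib.H94M.TE

/-!
# H36H, module N: Theorem S for the series `hs`
-/

open NumberField PowerSeries H53M H94M

namespace H36H

theorem nb_den_of {p : ℕ} (hp : p.Prime) {x : ℚ} {m : ℕ} (hm : ¬ p ∣ m) {z : ℤ}
    (h : x * (m : ℚ) ^ 2 = z) : ¬ p ∣ x.den := by
  have hm0 : (m : ℚ) ≠ 0 := by
    intro h0
    have : m = 0 := by exact_mod_cast h0
    exact hm (by rw [this]; exact dvd_zero p)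
  have hx : x = (z : ℚ) / ((m ^ 2 : ℕ) : ℤ) := by
    push_cast
    field_simp
    exact h
  intro h2
  have h3 : (x.den : ℤ) ∣ ((m ^ 2 : ℕ) : ℤ) := by
    have h4 := Rat.den_dvd z ((m ^ 2 : ℕ) : ℤ)
    rw [Rat.divInt_eq_div, ← hx] at h4
    exact h4
  have h4 : p ∣ m ^ 2 := h2.trans (Int.natCast_dvd_natCast.1 h3)
  exact hm (hp.dvd_of_dvd_pow h4)

theorem nb_num_of {p : ℕ} (hp : p.Prime) {x : ℚ} {m : ℕ} (hm : ¬ p ∣ m) {z : ℤ}
    (h : x * (m : ℚ) ^ 2 = z) (hz : (p : ℤ) ∣ z) : (p : ℤ) ∣ x.num := by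
  have hpi : Prime (p : ℤ) := Nat.prime_iff_prime_int.1 hp
  have h1 : ((x.num * (m : ℤ) ^ 2 : ℤ) : ℚ) = ((z * x.den : ℤ) : ℚ) := by
    push_cast
    rw [← h]
    have h2 : (x.den : ℚ) * x = x.num := by
      rw [mul_comm]
      exact Rat.mul_den_eq_num x
    rw [← h2]
    ring
  have h2 : x.num * (m : ℤ) ^ 2 = z * x.den := by exact_mod_cast h1
  have h3 : (p : ℤ) ∣ x.num * (m : ℤ) ^ 2 := by
    rw [h2]
    exact hz.mul_right _
  rcases hpi.dvd_or_dvd h3 with h4 | h4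
  · exact h4
  · exfalso
    exact hm (Int.natCast_dvd_natCast.1 (hpi.dvd_of_dvd_pow h4))

theorem nb_add_den {p : ℕ} (hp : p.Prime) (x y : ℚ) (M : ℕ)
    (hx : p ^ padicValNat p x.den ≤ M) (hy : p ^ padicValNat p y.den ≤ M) :
    p ^ padicValNat p (x + y).den ≤ M := by
  have h1 : (x + y).den ∣ x.den.lcm y.den := Rat.add_den_dvd_lcm x y
  have hx0 := x.den_nz
  have hy0 := y.den_nz
  have hl0 : x.den.lcm y.den ≠ 0 := Nat.lcm_ne_zero hx0 hy0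
  have h2 : (x + y).den.factorization p ≤ (x.den.lcm y.den).factorization p :=
    (Nat.factorization_le_iff_dvd (x + y).den_nz hl0).2 h1 p
  rw [Nat.factorization_lcm hx0 hy0] at h2
  rw [← Nat.factorization_def _ hp] at hx hy ⊢
  have h3 : (x.den.factorization ⊔ y.den.factorization) p =
      max (x.den.factorization p) (y.den.factorization p) := rfl
  rw [h3] at h2
  rcases le_max_iff.1 h2 with h4 | h4
  · exact (Nat.pow_le_pow_right hp.pos h4).trans hx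
  · exact (Nat.pow_le_pow_right hp.pos h4).trans hy

theorem nb_sum_den {p : ℕ} (hp : p.Prime) {α : Type*} (s : Finset α) (f : α → ℚ) (M : ℕ)
    (hM : 1 ≤ M) (h : ∀ i ∈ s, p ^ padicValNat p (f i).den ≤ M) :
    p ^ padicValNat p (∑ i ∈ s, f i).den ≤ M := by
  classical
  induction s using Finset.induction_on with
  | empty => simpa using hM
  | insert a s ha ih =>
    rw [Finset.sum_insert ha]
    exact nb_add_den hp _ _ M (h a (Finset.mem_insert_self a s))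
      (ih fun i hi => h i (Finset.mem_insert_of_mem hi))

section Arr

variable {ι Λ : Type*} [Fintype ι] (A : KArr ι Λ)

theorem nb_nm_le (ξ : Λ) : (A.nm ξ : ℝ) ≤ ((A.tr ξ : ℝ) + 1) ^ Fintype.card ι := by
  rw [A.nm_eq, ← Finset.card_univ, ← Finset.prod_const]
  refine Finset.prod_le_prod (fun i _ => (A.nu_pos ξ i).le) fun i _ => ?_
  have := A.nu_le ξ i
  linarith

theorem nb_den (n p : ℕ) (hp : p.Prime) :
    p ^ padicValNat p (coeff n A.hs).den ≤ 1 * (n + 1) ^ Fintype.card ι := by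
  rw [one_mul]
  unfold KArr.hs
  rw [coeff_mk]
  refine nb_sum_den hp _ _ _ (Nat.one_le_pow _ _ (by omega)) fun ξ hξ => ?_
  have htr := (A.mem_fib n ξ).1 hξ
  have hnm := A.nm_pos ξ
  have h3 : (((A.c ξ * A.q2 ξ : ℚ) / A.nm ξ).den : ℤ) ∣ A.nm ξ := by
    have h4 := Rat.den_dvd (A.c ξ * A.q2 ξ) (A.nm ξ)
    rw [Rat.divInt_eq_div] at h4
    push_cast at h4
    exact h4
  have h5 : ((p ^ padicValNat p ((A.c ξ * A.q2 ξ : ℚ) / A.nm ξ).den : ℕ) : ℤ) ∣ A.nm ξ :=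
    (Int.natCast_dvd_natCast.2 pow_padicValNat_dvd).trans h3
  have h6 := Int.le_of_dvd hnm h5
  have h7 : A.nm ξ ≤ (((n + 1) ^ Fintype.card ι : ℕ) : ℤ) := by
    have h8 := nb_nm_le A ξ
    rw [htr] at h8
    have h9 : (A.nm ξ : ℝ) ≤ ((((n + 1) ^ Fintype.card ι : ℕ) : ℤ) : ℝ) := by
      push_cast
      exact h8
    exact_mod_cast h9
  exact_mod_cast h6.trans h7

theorem nb_term (ξ : Λ) : (A.q2 ξ : ℝ) / A.nm ξ ≤
    Fintype.card ι * ((A.tr ξ : ℝ) + 1) ^ (3 * Fintype.card ι) := by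
  obtain ⟨T, hT⟩ : ∃ T : ℝ, T = (A.tr ξ : ℝ) + 1 := ⟨_, rfl⟩
  have hT1 : 1 ≤ T := by
    rw [hT]
    have : (0 : ℝ) ≤ A.tr ξ := Nat.cast_nonneg _
    linarith
  have hnm : (1 : ℝ) ≤ A.nm ξ := by exact_mod_cast A.nm_pos ξ
  have hnm0 : (0 : ℝ) < A.nm ξ := by linarith
  have hle := nb_nm_le A ξ
  rw [← hT] at hle
  have hinv : ∀ i, (A.nu ξ i)⁻¹ ≤ T ^ Fintype.card ι := by
    classical
    intro i
    have hi := A.nu_pos ξ i
    have h1 : (A.nm ξ : ℝ) = A.nu ξ i * ∏ j ∈ Finset.univ.erase i, A.nu ξ j := by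
      rw [A.nm_eq, Finset.mul_prod_erase _ _ (Finset.mem_univ i)]
    have h2 : ∏ j ∈ Finset.univ.erase i, A.nu ξ j ≤ T ^ Fintype.card ι := by
      calc ∏ j ∈ Finset.univ.erase i, A.nu ξ j ≤ ∏ _j ∈ Finset.univ.erase i, T := by
            refine Finset.prod_le_prod (fun j _ => (A.nu_pos ξ j).le) fun j _ => ?_
            have := A.nu_le ξ j
            linarith
        _ = T ^ (Finset.univ.erase i).card := Finset.prod_const _
        _ ≤ T ^ Fintype.card ι := by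
            refine pow_le_pow_right₀ hT1 ?_
            rw [← Finset.card_univ]
            exact Finset.card_le_card (Finset.erase_subset _ _)
    rw [inv_le_iff_one_le_mul₀ hi]
    calc (1 : ℝ) ≤ A.nm ξ := hnm
      _ = (∏ j ∈ Finset.univ.erase i, A.nu ξ j) * A.nu ξ i := by rw [h1, mul_comm]
      _ ≤ T ^ Fintype.card ι * A.nu ξ i := mul_le_mul_of_nonneg_right h2 hi.le
  have h3 : (A.q2 ξ : ℝ) / A.nm ξ = A.nm ξ * ∑ i, (A.nu ξ i ^ 2)⁻¹ := by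
    rw [A.q2_eq, ← A.nm_eq]
    field_simp
  have h4 : ∑ i, (A.nu ξ i ^ 2)⁻¹ ≤ Fintype.card ι * T ^ (2 * Fintype.card ι) := by
    rw [← nsmul_eq_mul, ← Finset.card_univ]
    refine Finset.sum_le_card_nsmul _ _ _ fun i _ => ?_
    rw [← inv_pow, Finset.card_univ, mul_comm 2, pow_mul]
    exact pow_le_pow_left₀ (inv_nonneg.2 (A.nu_pos ξ i).le) (hinv i) 2
  rw [h3, ← hT]
  calc (A.nm ξ : ℝ) * ∑ i, (A.nu ξ i ^ 2)⁻¹
      ≤ T ^ Fintype.card ι * (Fintype.card ι * T ^ (2 * Fintype.card ι)) :=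
        mul_le_mul hle h4 (Finset.sum_nonneg fun i _ => by
          have := A.nu_pos ξ i
          positivity) (by positivity)
    _ = Fintype.card ι * T ^ (3 * Fintype.card ι) := by ring

theorem nb_q2_nonneg (ξ : Λ) : (0 : ℝ) ≤ (A.q2 ξ : ℝ) / A.nm ξ := by
  have hnm0 : (0 : ℝ) < A.nm ξ := by exact_mod_cast A.nm_pos ξ
  refine div_nonneg ?_ hnm0.le
  rw [A.q2_eq]
  refine mul_nonneg (sq_nonneg _) (Finset.sum_nonneg fun i _ => ?_)
  have := A.nu_pos ξ i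
  positivity

theorem nb_growth : ∃ (C : ℝ) (κ : ℕ), ∀ n : ℕ,
    |((coeff n A.hs : ℚ) : ℝ)| ≤ C * ((n : ℝ) + 1) ^ κ := by
  obtain ⟨C1, K1, h1⟩ := A.card_le
  obtain ⟨C2, K2, h2⟩ := A.c_le
  refine ⟨|C1| * (|C2| * Fintype.card ι), K1 + (K2 + 3 * Fintype.card ι), fun n => ?_⟩
  have hn : (1 : ℝ) ≤ (n : ℝ) + 1 := by
    have : (0 : ℝ) ≤ n := Nat.cast_nonneg _
    linarith
  unfold KArr.hs
  rw [coeff_mk]
  push_cast
  have hterm : ∀ ξ ∈ A.fib n, |(A.c ξ : ℝ) * A.q2 ξ / A.nm ξ| ≤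
      |C2| * Fintype.card ι * ((n : ℝ) + 1) ^ (K2 + 3 * Fintype.card ι) := by
    intro ξ hξ
    have htr := (A.mem_fib n ξ).1 hξ
    have a1 := h2 ξ
    have a2 := nb_term A ξ
    have a3 := nb_q2_nonneg A ξ
    rw [htr] at a1 a2
    rw [mul_div_assoc, abs_mul, abs_of_nonneg a3]
    calc |(A.c ξ : ℝ)| * ((A.q2 ξ : ℝ) / A.nm ξ)
        ≤ (|C2| * ((n : ℝ) + 1) ^ K2) *
          (Fintype.card ι * ((n : ℝ) + 1) ^ (3 * Fintype.card ι)) := by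
          refine mul_le_mul ?_ a2 a3 (by positivity)
          exact a1.trans (mul_le_mul_of_nonneg_right (le_abs_self _) (by positivity))
      _ = |C2| * Fintype.card ι * ((n : ℝ) + 1) ^ (K2 + 3 * Fintype.card ι) := by
          rw [pow_add]
          ring
  calc |∑ ξ ∈ A.fib n, (A.c ξ : ℝ) * A.q2 ξ / A.nm ξ|
      ≤ ∑ ξ ∈ A.fib n, |(A.c ξ : ℝ) * A.q2 ξ / A.nm ξ| := Finset.abs_sum_le_sum_abs _ _
    _ ≤ (A.fib n).card • (|C2| * Fintype.card ι *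
          ((n : ℝ) + 1) ^ (K2 + 3 * Fintype.card ι)) := Finset.sum_le_card_nsmul _ _ _ hterm
    _ = ((A.fib n).card : ℝ) * (|C2| * Fintype.card ι *
          ((n : ℝ) + 1) ^ (K2 + 3 * Fintype.card ι)) := by rw [nsmul_eq_mul]
    _ ≤ (|C1| * ((n : ℝ) + 1) ^ K1) * (|C2| * Fintype.card ι *
          ((n : ℝ) + 1) ^ (K2 + 3 * Fintype.card ι)) := by
        refine mul_le_mul_of_nonneg_right ?_ (by positivity)
        exact (h1 n).trans (mul_le_mul_of_nonneg_right (le_abs_self _) (by positivity))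
    _ = |C1| * (|C2| * Fintype.card ι) *
          ((n : ℝ) + 1) ^ (K1 + (K2 + 3 * Fintype.card ι)) := by
        rw [pow_add _ K1]
        ring

end Arr

section Field

variable {F : Type*} [Field F] [NumberField F] [IsTotallyReal F]

theorem nb_nm (A : KArr (F →+* ℝ) (TotPos F)) (hnu : ∀ ξ φ, A.nu ξ φ = φ ξ.1) (ξ : TotPos F) :
    A.nm ξ = Algebra.norm ℤ ξ.1 := by
  have h : (A.nm ξ : ℝ) = ((Algebra.norm ℤ ξ.1 : ℤ) : ℝ) := by
    rw [A.nm_eq, ← na_norm]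
    exact Finset.prod_congr rfl fun φ _ => hnu ξ φ
  exact_mod_cast h

theorem nb_ne (ξ : TotPos F) : ξ.1 ≠ 0 := by
  intro h
  have h7 := ξ.2 (exists_real_emb F).some
  rw [h] at h7
  simp at h7

/-- The valuation of a term. -/
theorem nb_key (A : KArr (F →+* ℝ) (TotPos F)) (hnu : ∀ ξ φ, A.nu ξ φ = φ ξ.1) (ξ : TotPos F)
    {p : ℕ} (hp : p.Prime) (e : ℕ)
    (hc : (p : ℤ) ^ omegaP p (Ideal.span {ξ.1}) ∣ A.c ξ)
    (hN : (p ^ (e + 1)) ^ omegaP p (Ideal.span {ξ.1}) ∣ Ideal.absNorm (Ideal.span {ξ.1})) :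
    ∃ (m : ℕ) (z : ℤ), ¬ p ∣ m ∧ ((A.c ξ * A.q2 ξ : ℚ) / A.nm ξ) * (m : ℚ) ^ 2 = z ∧
      ((p : ℤ) ^ e) ^ omegaP p (Ideal.span {ξ.1}) ∣ z := by
  obtain ⟨ω, hω⟩ : ∃ ω, ω = omegaP p (Ideal.span {ξ.1}) := ⟨_, rfl⟩
  have hI0 : (Ideal.span {ξ.1} : Ideal (𝓞 F)) ≠ 0 := by
    rw [Ne, Ideal.zero_eq_bot, Ideal.span_singleton_eq_bot]
    exact nb_ne ξ
  obtain ⟨m, hm, hmem⟩ := omega_compl hp _ hI0
  rw [← hω] at hc hN hmem ⊢
  obtain ⟨y, hy⟩ := Ideal.mem_span_singleton.1 hmem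
  obtain ⟨c', hc'⟩ := hc
  rw [Ideal.absNorm_span_singleton, ← nb_nm A hnu ξ] at hN
  have hnmpos := A.nm_pos ξ
  have hN' : ((p : ℤ) ^ (e + 1)) ^ ω ∣ A.nm ξ := by
    have h1 := Int.natCast_dvd_natCast.2 hN
    rw [Int.natCast_natAbs, abs_of_pos hnmpos] at h1
    push_cast at h1
    exact h1
  obtain ⟨u, hu⟩ := hN'
  obtain ⟨T, hT⟩ : ∃ T : ℤ, T = Algebra.trace ℤ (𝓞 F) (y ^ 2) := ⟨_, rfl⟩
  have hTr : (A.q2 ξ : ℝ) * ((m : ℝ) * (p : ℝ) ^ ω) ^ 2 = (A.nm ξ : ℝ) ^ 2 * T := by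
    have h1 : (T : ℝ) = ∑ φ : F →+* ℝ, φ (((y ^ 2 : 𝓞 F)) : F) := by
      rw [hT, na_trace]
    rw [h1, A.q2_eq, ← A.nm_eq, mul_assoc, Finset.sum_mul]
    congr 1
    refine Finset.sum_congr rfl fun φ _ => ?_
    have h2 : (m : ℝ) * (p : ℝ) ^ ω = A.nu ξ φ * φ (y : F) := by
      rw [hnu]
      have h3 := congrArg (fun x : 𝓞 F => φ (x : F)) hy
      simp only [map_mul, map_natCast] at h3
      push_cast at h3
      exact h3
    have h4 := A.nu_pos ξ φ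
    rw [h2, mul_pow]
    push_cast
    rw [map_pow]
    field_simp
  have hTq : (A.q2 ξ : ℚ) * ((m : ℚ) * (p : ℚ) ^ ω) ^ 2 = (A.nm ξ : ℚ) ^ 2 * T := by
    exact_mod_cast hTr
  have hp0 : (p : ℚ) ≠ 0 := by exact_mod_cast hp.ne_zero
  have hnm0 : (A.nm ξ : ℚ) ≠ 0 := by exact_mod_cast hnmpos.ne'
  refine ⟨m, c' * T * u * ((p : ℤ) ^ e) ^ ω, hm, ?_, Dvd.intro_left _ rfl⟩
  have hcq : (A.c ξ : ℚ) = (p : ℚ) ^ ω * c' := by exact_mod_cast congrArg (fun x : ℤ => (x : ℚ)) hc'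
  have huq : (A.nm ξ : ℚ) = ((p : ℚ) ^ (e + 1)) ^ ω * u := by
    exact_mod_cast congrArg (fun x : ℤ => (x : ℚ)) hu
  have hpe : ((p : ℚ) ^ (e + 1)) ^ ω = ((p : ℚ) ^ e) ^ ω * (p : ℚ) ^ ω := by
    rw [pow_succ, mul_pow]
  have hpw : (p : ℚ) ^ ω ≠ 0 := pow_ne_zero _ hp0
  have h5 : ((A.c ξ * A.q2 ξ : ℚ) / A.nm ξ) * (m : ℚ) ^ 2 * ((p : ℚ) ^ ω * A.nm ξ) =
      (c' * T * u * ((p : ℚ) ^ e) ^ ω) * ((p : ℚ) ^ ω * A.nm ξ) := by
    calc ((A.c ξ * A.q2 ξ : ℚ) / A.nm ξ) * (m : ℚ) ^ 2 * ((p : ℚ) ^ ω * A.nm ξ)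
        = (A.c ξ : ℚ) * A.q2 ξ * (m : ℚ) ^ 2 * (p : ℚ) ^ ω := by
          field_simp
      _ = c' * (A.q2 ξ * ((m : ℚ) * (p : ℚ) ^ ω) ^ 2) := by
          rw [hcq]
          ring
      _ = c' * ((A.nm ξ : ℚ) ^ 2 * T) := by rw [hTq]
      _ = c' * T * A.nm ξ * A.nm ξ := by ring
      _ = c' * T * (((p : ℚ) ^ (e + 1)) ^ ω * u) * A.nm ξ := by rw [← huq]
      _ = (c' * T * u * ((p : ℚ) ^ e) ^ ω) * ((p : ℚ) ^ ω * A.nm ξ) := by
          rw [hpe]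
          ring
  have h6 := mul_right_cancel₀ (mul_ne_zero hpw hnm0) h5
  rw [h6]
  push_cast
  ring

/-- **Module N**: the relation. -/
theorem relH (hd : 1 < Module.finrank ℚ F) (k N : ℕ) [NeZero N] (hk : 3 ≤ k)
    (A : KArr (F →+* ℝ) (TotPos F)) (hnu : ∀ ξ φ, A.nu ξ φ = φ ξ.1) (hT : DTransI N k A.G)
    (w' : ℕ) (hw : 2 * w' = Module.finrank ℚ F * k + 2 * Module.finrank ℚ F - 4)
    (η K : ℝ) (hη : η < 1 / (Module.finrank ℚ F : ℝ))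
    (hE : ∀ X : ℕ, (Set.ncard {p : ℕ | p ≤ X ∧ p.Prime ∧
      ¬ ∀ ξ : TotPos F, (p : ℤ) ^ omegaP p (Ideal.span {ξ.1}) ∣ A.c ξ} : ℝ) ≤ K * (X : ℝ) ^ η) :
    Rel w' A.hs := by
  classical
  obtain ⟨d, hdd⟩ : ∃ d, d = Module.finrank ℚ F := ⟨_, rfl⟩
  rw [← hdd] at hd hw hη
  have hcard : Fintype.card (F →+* ℝ) = d := by rw [na_card, hdd]
  obtain ⟨C, κ, hC⟩ := nb_growth A
  have hI0 : ∀ ξ : TotPos F, (Ideal.span {ξ.1} : Ideal (𝓞 F)) ≠ 0 := by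
    intro ξ
    rw [Ne, Ideal.zero_eq_bot, Ideal.span_singleton_eq_bot]
    exact nb_ne ξ
  have hint : ∀ p : ℕ, p.Prime →
      ¬ (¬ ∀ ξ : TotPos F, (p : ℤ) ^ omegaP p (Ideal.span {ξ.1}) ∣ A.c ξ) →
      ∀ ξ : TotPos F, ¬ p ∣ ((A.c ξ * A.q2 ξ : ℚ) / A.nm ξ).den := by
    intro p hp hEp ξ
    rw [not_not] at hEp
    obtain ⟨m, z, hm, hz, -⟩ := nb_key A hnu ξ hp 0 (hEp ξ)
      (omega_norm p (0 + 1) (fun P hP hpP => by
        rw [zero_add, pow_one]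
        exact dvd_absNorm hp hP hpP) _ (hI0 ξ))
    exact nb_den_of hp hm hz
  refine rel_sparse_eta d 1 w' (2 * d + k - 3) (by omega) le_rfl (by omega) A.hs C κ hC
    (fun p => ¬ ∀ ξ : TotPos F, (p : ℤ) ^ omegaP p (Ideal.span {ξ.1}) ∣ A.c ξ) η K hη
    ⟨0, fun X _ => hE X⟩ ?_ ?_ (fun p => Pool.Agent.Lib.H59.degOne F p = 0)
    (fun η hη => noDegOne_theta F (by rw [← hdd]; exact hd) η hη) (max 5 d) (12 * (mu N + 1)) 0
    (by omega) ?_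
  · intro n p hp
    have h := nb_den A n p hp
    rwa [hcard] at h
  · intro p hp hEp n
    haveI : Fact p.Prime := ⟨hp⟩
    have h : PI p A.hs := by
      intro n
      unfold KArr.hs
      rw [coeff_mk]
      exact pi_sum _ _ fun ξ _ => hint p hp hEp ξ
    exact h n
  · intro p hpf hp3 hp0 hR hEp
    have hp : p.Prime := hpf.out
    have hp5 : 5 < p := lt_of_le_of_lt (le_max_left _ _) hp0
    have hpd : d < p := lt_of_le_of_lt (le_max_right _ _) hp0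
    refine ⟨fun w => MN N p w, mfam_MN N p, ?_⟩
    have h := A.hs_MN hk hT p hp5 (by rw [hcard]; exact hpd) ?_
    · rw [hcard, ← hw] at h
      exact h
    · intro ξ hpnm
      rw [not_not] at hEp
      obtain ⟨m, z, hm, hz, hzd⟩ := nb_key A hnu ξ hp 1 (hEp ξ)
        (omega_norm p (1 + 1) (fun P hP hpP => sq_dvd_norm hp hR P hP hpP) _ (hI0 ξ))
      have hω : 1 ≤ omegaP p (Ideal.span {ξ.1}) := by
        refine omega_pos hp _ (hI0 ξ) ?_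
        rw [Ideal.absNorm_span_singleton, ← nb_nm A hnu ξ]
        exact Int.natCast_dvd.1 hpnm
      refine nb_num_of hp hm hz ?_
      rw [pow_one] at hzd
      exact (dvd_pow_self _ (by omega)).trans hzd

end Field

end H36H
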