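import Pool.Agent.Lib.H36H.W4
import Pool.Agent.Lib.H36H.NB
import Pool.Agent.Lib.H36H.G7
import Pool.Agent.Lib.H36H.XD

set_option autoImplicit false

/-!
# H36H: assembly
-/

namespace H36H

open NumberField H53M Filter

variable {F : Type*} [Field F] [NumberField F] [IsTotallyReal F]

theorem karr_XFam {N k : ℕ} (hk : 4 ≤ k) {c : 𝓞 F → ℤ} (h : IsDiagCusp N k fun ξ => (c ξ : ℂ)) :
    (karr h).XFam k := by
  intro i y hy
  refine (famF hk h i hy).congr fun ξ => ?_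
  have h1 : ((karr h).tr ξ : ℝ) = ∑ j : F →+* ℝ, j (ξ.1 : F) := (inTr_eq ξ).symm
  rw [h1]
  rfl

open Classical in
/-- The nonvanishing hypothesis of module X. -/
def HNe {ι Λ : Type*} [Fintype ι] [DecidableEq ι] (A : KArr ι Λ) (N k : ℕ) : Prop :=
  ∀ᶠ y : ℝ in atTop, ∃ φ : ℝ, Irrational φ ∧
    (∑' p : ι × Λ, if ∃ m : ℤ, -(A.nu p.2 p.1) - φ = m then
      A.xb N k (1 + N * (Complex.I * y)) p else 0) ≠ 0

open Classical in
theorem stH_of (hd : 1 < Module.finrank ℚ F)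
    (hX : ∀ N k w' : ℕ, 0 < N → 2 ≤ k → ∀ A : KArr (F →+* ℝ) (TotPos F),
      2 * w' + 4 = Fintype.card (F →+* ℝ) * k + 2 * Fintype.card (F →+* ℝ) →
      DTransI N k A.G → A.XFam k → HNe A N k → ¬ Rel w' A.hs)
    (hU : ∀ N k : ℕ, 0 < N → ∀ c : 𝓞 F → ℤ, c 1 ≠ 0 →
      (∀ ε : 𝓞 F, IsUnit ε → (∀ φ : F →+* ℝ, 0 < φ ε) → c ε = c 1) →
      ∀ h : IsDiagCusp N k (fun ξ => (c ξ : ℂ)), HNe (karr h) N k) :
    StH F := by
  intro k hk N hN c hc1 hcu h η hη hE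
  obtain ⟨K, hE⟩ := hE
  have hcard : Fintype.card (F →+* ℝ) = Module.finrank ℚ F := in_card F
  obtain ⟨m, hm⟩ : Even (Fintype.card (F →+* ℝ) * k) :=
    in_even h ⟨1, fun φ => by simp⟩ (by
      show ((c 1 : ℤ) : ℂ) ≠ 0
      exact_mod_cast hc1)
  have : NeZero N := ⟨hN.ne'⟩
  obtain ⟨w', hw'⟩ : ∃ w' : ℕ, w' = m + Fintype.card (F →+* ℝ) - 2 := ⟨_, rfl⟩
  have hw1 : 2 * w' + 4 = Fintype.card (F →+* ℝ) * k + 2 * Fintype.card (F →+* ℝ) := by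
    omega
  have hrel : Rel w' (karr h).hs :=
    relH hd k N (by omega) (karr h) (fun ξ φ => rfl) (karr_trans h) w' (by
      rw [← hcard]
      omega) η K hη hE
  exact hX N k w' hN (by omega) (karr h) hw1 (karr_trans h) (karr_XFam hk h)
    (hU N k hN c hc1 hcu h) hrel

end H36H
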