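import Mathlib

/-!
# H36H: the cluster lemma

`b` summable, `θ` real, `g(M) = Σ b_κ e(θ_κ M)` with finitely many cluster points as `M → ∞`; then for
every irrational `φ` the sum of `b_κ` over the `κ` with `θ_κ - φ ∈ ℤ` is zero.
-/

open Filter Topology

namespace H36H

section

variable {κ : Type*} (b : κ → ℂ) (u : κ → Circle)

/-- The almost periodic sequence. -/
noncomputable def clG (M : ℕ) : ℂ := ∑' x, b x * (u x : ℂ) ^ M

variable {b}

theorem cl_norm (x : κ) (M : ℕ) : ‖b x * (u x : ℂ) ^ M‖ = ‖b x‖ := by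
  rw [norm_mul, norm_pow, Circle.norm_coe, one_pow, mul_one]

theorem cl_summable (hb : Summable fun x => ‖b x‖) (M : ℕ) :
    Summable fun x => b x * (u x : ℂ) ^ M :=
  Summable.of_norm_bounded hb fun x => (cl_norm u x M).le

theorem cl_dist_le (z : Circle) : ‖(z : ℂ) - 1‖ ≤ 2 := by
  refine (norm_sub_le _ _).trans ?_
  rw [Circle.norm_coe, norm_one]
  norm_num

theorem cl_bsum (hb : Summable fun x => ‖b x‖) (v : κ → Circle) :
    Summable fun x => ‖b x‖ * ‖(v x : ℂ) - 1‖ := by
  refine Summable.of_nonneg_of_le (fun x => by positivity) (fun x => ?_) (hb.mul_right 2)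
  exact mul_le_mul_of_nonneg_left (cl_dist_le _) (norm_nonneg _)

/-- Recurrence. -/
theorem cl_rec (hb : Summable fun x => ‖b x‖) {ε : ℝ} (hε : 0 < ε) :
    ∃ᶠ n : ℕ in atTop, ∑' x, ‖b x‖ * ‖((u x ^ n : Circle) : ℂ) - 1‖ < ε := by
  have h1 := mapClusterPt_one_atTop_pow (G := κ → Circle) u
  have hcont : Continuous fun v : κ → Circle => ∑' x, ‖b x‖ * ‖(v x : ℂ) - 1‖ := by
    refine continuous_tsum (u := fun x => ‖b x‖ * 2) (fun x => ?_) (hb.mul_right 2) fun x v => ?_
    · have h2 : Continuous fun v : κ → Circle => (v x : ℂ) :=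
        continuous_subtype_val.comp (continuous_apply x)
      exact continuous_const.mul (h2.sub continuous_const).norm
    · rw [norm_mul, norm_norm, norm_norm]
      exact mul_le_mul_of_nonneg_left (cl_dist_le _) (norm_nonneg _)
  have h0 : (∑' x, ‖b x‖ * ‖(((1 : κ → Circle) x : Circle) : ℂ) - 1‖) = 0 := by
    simp
  have h3 : ∀ᶠ v in 𝓝 (1 : κ → Circle), ∑' x, ‖b x‖ * ‖(v x : ℂ) - 1‖ < ε := by
    have h4 := hcont.tendsto (1 : κ → Circle)
    rw [h0] at h4
    exact h4.eventually_lt_const hε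
  exact h1.frequently h3

theorem cl_diff (hb : Summable fun x => ‖b x‖) (M n : ℕ) :
    clG b u (M + n) - clG b u M = clG (fun x => b x * (((u x ^ n : Circle) : ℂ) - 1)) u M := by
  unfold clG
  rw [← Summable.tsum_sub (cl_summable u hb _) (cl_summable u hb _)]
  refine tsum_congr fun x => ?_
  push_cast
  ring

theorem cl_diff_norm (hb : Summable fun x => ‖b x‖) (M n : ℕ) :
    ‖clG b u (M + n) - clG b u M‖ ≤ ∑' x, ‖b x‖ * ‖((u x ^ n : Circle) : ℂ) - 1‖ := by
  rw [cl_diff u hb]
  refine tsum_of_norm_bounded (cl_bsum hb fun x => u x ^ n).hasSum fun x => ?_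
  rw [norm_mul, norm_mul, norm_pow, Circle.norm_coe, one_pow, mul_one]

theorem cl_bound (hb : Summable fun x => ‖b x‖) (M : ℕ) : ‖clG b u M‖ ≤ ∑' x, ‖b x‖ :=
  tsum_of_norm_bounded hb.hasSum fun x => (cl_norm u x M).le

/-- An almost periodic sequence which tends to zero is zero. -/
theorem cl_zero (hb : Summable fun x => ‖b x‖) (h : Tendsto (clG b u) atTop (𝓝 0)) (M : ℕ) :
    clG b u M = 0 := by
  by_contra hne
  have hpos : 0 < ‖clG b u M‖ := norm_pos_iff.2 hne
  have h1 := cl_rec u hb (half_pos hpos)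
  have h2 : ∀ᶠ n : ℕ in atTop, ‖clG b u (M + n)‖ < ‖clG b u M‖ / 2 := by
    have h3 : Tendsto (fun n => ‖clG b u (M + n)‖) atTop (𝓝 0) := by
      have h4 := (h.comp (tendsto_add_atTop_nat M)).norm
      rw [norm_zero] at h4
      refine h4.congr fun n => ?_
      simp only [Function.comp_apply]
      rw [add_comm]
    exact h3.eventually_lt_const (half_pos hpos)
  obtain ⟨n, hn1, hn2⟩ := (h1.and_eventually h2).exists
  have h5 := cl_diff_norm u hb M n
  have h6 : ‖clG b u M‖ ≤ ‖clG b u (M + n)‖ + ‖clG b u (M + n) - clG b u M‖ := by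
    have h7 : clG b u M = clG b u (M + n) - (clG b u (M + n) - clG b u M) := by ring
    calc ‖clG b u M‖ = ‖clG b u (M + n) - (clG b u (M + n) - clG b u M)‖ := by rw [← h7]
      _ ≤ _ := norm_sub_le _ _
  linarith

/-- The geometric mean values. -/
theorem cl_geom (z : Circle) (hz : z ≠ 1) :
    Tendsto (fun T : ℕ => (T : ℂ)⁻¹ * ∑ M ∈ Finset.range T, (z : ℂ) ^ M) atTop (𝓝 0) := by
  have hz1 : (z : ℂ) - 1 ≠ 0 := by
    rw [sub_ne_zero]
    intro h
    exact hz (Circle.ext h)
  have h0 : 0 < ‖(z : ℂ) - 1‖ := norm_pos_iff.2 hz1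
  have h1 : ∀ T : ℕ, ‖(T : ℂ)⁻¹ * ∑ M ∈ Finset.range T, (z : ℂ) ^ M‖ ≤
      (T : ℝ)⁻¹ * (2 / ‖(z : ℂ) - 1‖) := by
    intro T
    rw [geom_sum_eq (sub_ne_zero.1 hz1), norm_mul, norm_inv, Complex.norm_natCast, norm_div]
    refine mul_le_mul_of_nonneg_left ?_ (inv_nonneg.2 (Nat.cast_nonneg _))
    refine div_le_div_of_nonneg_right ?_ h0.le
    have h2 := cl_dist_le (z ^ T)
    push_cast at h2
    exact h2
  have h2 : Tendsto (fun T : ℕ => (T : ℝ)⁻¹ * (2 / ‖(z : ℂ) - 1‖)) atTop (𝓝 0) := by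
    have h3 := (tendsto_inv_atTop_nhds_zero_nat (𝕜 := ℝ)).mul_const (2 / ‖(z : ℂ) - 1‖)
    rwa [zero_mul] at h3
  exact squeeze_zero_norm h1 h2

/-- The mean value of an almost periodic sequence. -/
theorem cl_mean (hb : Summable fun x => ‖b x‖) (w : Circle) [DecidablePred fun x => u x = w] :
    Tendsto (fun T : ℕ => (T : ℂ)⁻¹ * ∑ M ∈ Finset.range T, ((w⁻¹ : Circle) : ℂ) ^ M * clG b u M)
      atTop (𝓝 (∑' x, if u x = w then b x else 0)) := by
  have h1 : ∀ T : ℕ, (T : ℂ)⁻¹ * ∑ M ∈ Finset.range T, ((w⁻¹ : Circle) : ℂ) ^ M * clG b u M =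
      ∑' x, b x * ((T : ℂ)⁻¹ * ∑ M ∈ Finset.range T, ((u x * w⁻¹ : Circle) : ℂ) ^ M) := by
    intro T
    unfold clG
    simp_rw [← tsum_mul_left]
    rw [← Summable.tsum_finsetSum fun M _ => (cl_summable u hb M).mul_left _, ← tsum_mul_left]
    refine tsum_congr fun x => ?_
    simp_rw [Finset.mul_sum]
    refine Finset.sum_congr rfl fun M _ => ?_
    push_cast
    ring
  simp_rw [h1]
  refine tendsto_tsum_of_dominated_convergence (bound := fun x => ‖b x‖) hb (fun x => ?_) ?_
  · by_cases hx : u x = w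
    · rw [if_pos hx]
      have h2 : ∀ᶠ T : ℕ in atTop, b x = b x * ((T : ℂ)⁻¹ *
          ∑ M ∈ Finset.range T, ((u x * w⁻¹ : Circle) : ℂ) ^ M) := by
        filter_upwards [eventually_gt_atTop 0] with T hT
        have h3 : u x * w⁻¹ = 1 := by rw [hx, mul_inv_cancel]
        rw [h3]
        have h4 : (T : ℂ) ≠ 0 := by exact_mod_cast hT.ne'
        simp [h4]
      exact tendsto_const_nhds.congr' h2
    · rw [if_neg hx]
      have h2 : u x * w⁻¹ ≠ 1 := fun h => hx (mul_inv_eq_one.1 h)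
      have h3 := (cl_geom _ h2).const_mul (b x)
      rwa [mul_zero] at h3
  · refine Eventually.of_forall fun T x => ?_
    rw [norm_mul]
    refine mul_le_of_le_one_right (norm_nonneg _) ?_
    rw [norm_mul, norm_inv, Complex.norm_natCast]
    rcases Nat.eq_zero_or_pos T with h0 | h0
    · rw [h0]
      simp
    · have hT : (0 : ℝ) < T := by exact_mod_cast h0
      rw [inv_mul_le_iff₀ hT, mul_one]
      refine (norm_sum_le _ _).trans ?_
      have : ∀ M ∈ Finset.range T, ‖((u x * w⁻¹ : Circle) : ℂ) ^ M‖ = 1 := fun M _ => by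
        rw [norm_pow, Circle.norm_coe, one_pow]
      rw [Finset.sum_congr rfl this]
      simp

theorem cl_clusterPt_congr {f g : ℕ → ℂ} (h : Tendsto (fun n => f n - g n) atTop (𝓝 0)) {a : ℂ}
    (ha : MapClusterPt a atTop g) : MapClusterPt a atTop f := by
  rw [(Metric.nhds_basis_ball).mapClusterPt_iff_frequently] at ha ⊢
  intro ε hε
  have h1 := ha (ε / 2) (half_pos hε)
  have h2 : ∀ᶠ n in atTop, ‖f n - g n‖ < ε / 2 := by
    have h3 := h.norm
    rw [norm_zero] at h3
    exact h3.eventually_lt_const (half_pos hε)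
  refine (h1.and_eventually h2).mono ?_
  rintro n ⟨h3, h4⟩
  rw [Metric.mem_ball, dist_eq_norm] at h3 ⊢
  have h5 : f n - a = (f n - g n) + (g n - a) := by ring
  rw [h5]
  refine (norm_add_le _ _).trans_lt ?_
  linarith

/-- **The cluster lemma**, on the circle. -/
theorem cl_cluster (hb : Summable fun x => ‖b x‖)
    (hfin : {y : ℂ | MapClusterPt y atTop (clG b u)}.Finite) (w : Circle)
    (hw : ∀ p : ℕ, 1 ≤ p → w ^ p ≠ 1) [DecidablePred fun x => u x = w] :
    ∑' x, (if u x = w then b x else 0) = 0 := by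
  -- the distance of the cluster points
  obtain ⟨C, hC0, hC⟩ := hfin.relatively_discrete
  obtain ⟨δ, hδ0, hδ⟩ : ∃ δ : ℝ, 0 < δ ∧ ∀ x ∈ {y : ℂ | MapClusterPt y atTop (clG b u)},
      ∀ y ∈ {y : ℂ | MapClusterPt y atTop (clG b u)}, x ≠ y → δ ≤ dist x y := by
    rcases eq_or_ne C ⊤ with h | h
    · refine ⟨1, one_pos, fun x hx y hy hxy => ?_⟩
      have h1 := hC x hx y hy hxy
      rw [h, top_le_iff] at h1
      exact absurd h1 (edist_ne_top _ _)
    · refine ⟨C.toReal, ENNReal.toReal_pos hC0.ne' h, fun x hx y hy hxy => ?_⟩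
      have h1 := hC x hx y hy hxy
      rw [edist_dist] at h1
      exact ENNReal.toReal_le_of_le_ofReal dist_nonneg h1
  -- the sequence is near to the cluster points
  have hnear : ∀ r : ℝ, 0 < r → ∀ᶠ M : ℕ in atTop, ∃ s : ℂ,
      MapClusterPt s atTop (clG b u) ∧ dist (clG b u M) s < r := by
    intro r hr
    by_contra hcon
    have h1 : ∃ᶠ M : ℕ in atTop, clG b u M ∈ Metric.closedBall (0 : ℂ) (∑' x, ‖b x‖) \
        ⋃ s ∈ {y : ℂ | MapClusterPt y atTop (clG b u)}, Metric.ball s r := by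
      rw [Filter.not_eventually] at hcon
      refine hcon.mono fun M hM => ⟨?_, ?_⟩
      · rw [mem_closedBall_zero_iff]
        exact cl_bound u hb M
      · intro hmem
        rw [Set.mem_iUnion₂] at hmem
        obtain ⟨s, hs, hs2⟩ := hmem
        exact hM ⟨s, hs, hs2⟩
    have hopen : IsOpen (⋃ s ∈ {y : ℂ | MapClusterPt y atTop (clG b u)}, Metric.ball s r) :=
      isOpen_biUnion fun s _ => Metric.isOpen_ball
    have hcomp := (isCompact_closedBall (0 : ℂ) (∑' x, ‖b x‖)).diff hopen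
    obtain ⟨a, ha, hac⟩ := hcomp.exists_mapClusterPt_of_frequently h1
    exact ha.2 (Set.mem_biUnion (show a ∈ {y : ℂ | MapClusterPt y atTop (clG b u)} from hac)
      (Metric.mem_ball_self hr))
  -- an almost period
  obtain ⟨p, hp, hp1⟩ := ((cl_rec u hb (show 0 < δ / 3 by positivity)).and_eventually
    (eventually_ge_atTop 1)).exists
  obtain ⟨b', hb'⟩ : ∃ b' : κ → ℂ, b' = fun x => b x * (((u x ^ p : Circle) : ℂ) - 1) := ⟨_, rfl⟩
  have hb's : Summable fun x => ‖b' x‖ := by
    rw [hb']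
    simp_rw [norm_mul]
    exact cl_bsum hb _
  have hlim : Tendsto (clG b' u) atTop (𝓝 0) := by
    rw [Metric.tendsto_atTop]
    intro ε hε
    obtain ⟨r, hr⟩ : ∃ r, r = min (ε / 2) (δ / 3) := ⟨_, rfl⟩
    have hr0 : 0 < r := by
      rw [hr]
      exact lt_min (by positivity) (by positivity)
    have hr1 : r ≤ ε / 2 := by
      rw [hr]
      exact min_le_left _ _
    have hr2 : r ≤ δ / 3 := by
      rw [hr]
      exact min_le_right _ _
    obtain ⟨M₀, hM₀⟩ := Filter.eventually_atTop.1 (hnear r hr0)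
    refine ⟨M₀, fun M hM => ?_⟩
    obtain ⟨s, hs, hs1⟩ := hM₀ M hM
    obtain ⟨s', hs', hs1'⟩ := hM₀ (M + p) (by omega)
    have h1 := cl_diff_norm u hb M p
    have h2 : dist (clG b u (M + p)) (clG b u M) < δ / 3 := by
      rw [dist_eq_norm]
      exact h1.trans_lt hp
    have hss : s = s' := by
      by_contra hne
      have h3 := hδ s hs s' hs' hne
      have h4 : dist s s' ≤ dist s (clG b u M) + dist (clG b u M) (clG b u (M + p)) +
          dist (clG b u (M + p)) s' := dist_triangle4 _ _ _ _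
      have h5 := dist_comm s (clG b u M)
      have h6 := dist_comm (clG b u M) (clG b u (M + p))
      linarith
    rw [← hss] at hs1'
    rw [dist_zero_right, hb', ← cl_diff u hb, ← dist_eq_norm]
    have h5 := dist_triangle_right (clG b u (M + p)) (clG b u M) s
    linarith
  have hzero : ∀ M, clG b' u M = 0 := cl_zero u hb's hlim
  have hmean := cl_mean u hb's w
  have h1 : (fun T : ℕ => (T : ℂ)⁻¹ * ∑ M ∈ Finset.range T, ((w⁻¹ : Circle) : ℂ) ^ M *
      clG b' u M) = fun _ => 0 := by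
    funext T
    simp [hzero]
  rw [h1] at hmean
  have h2 := tendsto_nhds_unique hmean tendsto_const_nhds
  have h3 : ∑' x, (if u x = w then b' x else 0) =
      (((w ^ p : Circle) : ℂ) - 1) * ∑' x, (if u x = w then b x else 0) := by
    rw [← tsum_mul_left]
    refine tsum_congr fun x => ?_
    split_ifs with hx
    · rw [hb', ← hx]
      ring
    · rw [mul_zero]
  rw [h3] at h2
  rcases mul_eq_zero.1 h2 with h4 | h4
  · exfalso
    rw [sub_eq_zero] at h4
    exact hw p hp1 (Circle.ext h4)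
  · exact h4

end

/-- **The cluster lemma.** -/
theorem cluster {κ : Type*} (b : κ → ℂ) (hb : Summable fun x => ‖b x‖) (θ : κ → ℝ) (y : ℕ → ℂ)
    (hy : Tendsto (fun M : ℕ => y M - ∑' x, b x * Complex.exp (2 * Real.pi * Complex.I *
      θ x * M)) atTop (𝓝 0))
    (hfin : {a : ℂ | MapClusterPt a atTop y}.Finite) (φ : ℝ) (hφ : Irrational φ)
    [DecidablePred fun x => ∃ m : ℤ, θ x - φ = m] :
    ∑' x, (if ∃ m : ℤ, θ x - φ = m then b x else 0) = 0 := by
  classical
  obtain ⟨u, hu⟩ : ∃ u : κ → Circle, u = fun x => Circle.exp (2 * Real.pi * θ x) := ⟨_, rfl⟩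
  obtain ⟨w, hw⟩ : ∃ w : Circle, w = Circle.exp (2 * Real.pi * φ) := ⟨_, rfl⟩
  have hG : ∀ M : ℕ, clG b u M = ∑' x, b x * Complex.exp (2 * Real.pi * Complex.I * θ x * M) := by
    intro M
    unfold clG
    refine tsum_congr fun x => ?_
    rw [hu]
    simp only
    rw [Circle.coe_exp, ← Complex.exp_nat_mul]
    congr 2
    push_cast
    ring
  have hfin' : {a : ℂ | MapClusterPt a atTop (clG b u)}.Finite := by
    refine hfin.subset fun a ha => ?_
    refine cl_clusterPt_congr ?_ ha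
    simp_rw [hG]
    exact hy
  have hirr : ∀ p : ℕ, 1 ≤ p → w ^ p ≠ 1 := by
    intro p hp h
    have h1 : Complex.exp ((p : ℂ) * (((2 * Real.pi * φ : ℝ) : ℂ) * Complex.I)) = 1 := by
      rw [Complex.exp_nat_mul, ← Circle.coe_exp, ← hw]
      have h2 := congrArg (fun z : Circle => (z : ℂ)) h
      simpa using h2
    rw [Complex.exp_eq_one_iff] at h1
    obtain ⟨n, hn⟩ := h1
    have h2 : ((p : ℝ) * φ : ℝ) = n := by
      have hpi : (2 * Real.pi * Complex.I : ℂ) ≠ 0 := Complex.two_pi_I_ne_zero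
      have h3 : ((p : ℂ) * φ) * (2 * Real.pi * Complex.I) = n * (2 * Real.pi * Complex.I) := by
        rw [← hn]
        push_cast
        ring
      have h4 := mul_right_cancel₀ hpi h3
      exact_mod_cast h4
    have h3 : Irrational ((p : ℝ) * φ) := by
      have := hφ.natCast_mul (m := p) (by omega)
      exact this
    exact h3 ⟨n, by rw [h2]; simp⟩
  have hiff : ∀ x, u x = w ↔ ∃ m : ℤ, θ x - φ = m := by
    intro x
    rw [hu, hw]
    simp only
    rw [Circle.ext_iff, Circle.coe_exp, Circle.coe_exp, Complex.exp_eq_exp_iff_exists_int]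
    constructor
    · rintro ⟨n, hn⟩
      refine ⟨n, ?_⟩
      have hpi : (2 * Real.pi * Complex.I : ℂ) ≠ 0 := Complex.two_pi_I_ne_zero
      have h3 : ((θ x : ℂ) - φ) * (2 * Real.pi * Complex.I) = n * (2 * Real.pi * Complex.I) := by
        push_cast at hn
        linear_combination hn
      have h4 := mul_right_cancel₀ hpi h3
      exact_mod_cast h4
    · rintro ⟨m, hm⟩
      refine ⟨m, ?_⟩
      have h4 : (θ x : ℂ) = φ + m := by
        have : θ x = φ + m := by linarith
        rw [this]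
        push_cast
        ring
      push_cast
      rw [h4]
      ring
  have h := cl_cluster u hb hfin' w hirr
  have h2 : (∑' x, (if ∃ m : ℤ, θ x - φ = m then b x else 0)) =
      ∑' x, (if u x = w then b x else 0) := by
    refine tsum_congr fun x => ?_
    by_cases hx : u x = w
    · rw [if_pos hx, if_pos ((hiff x).1 hx)]
    · rw [if_neg hx, if_neg fun h => hx ((hiff x).2 h)]
  rw [h2, h]

end H36H
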