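import Pool.Agent.Lib.H36H.IN3

/-!
# H36H, chunk G0: norm, cells (from IN1, IN3)
-/

namespace H36H

open NumberField

variable {F : Type*} [Field F] [NumberField F] [IsTotallyReal F]

theorem g_norm (x : F) : ∏ φ : F →+* ℝ, φ x = ((Algebra.norm ℚ x : ℚ) : ℝ) :=
  (in_norm x).symm

theorem g_prod (ξ : TotPos F) : 1 ≤ ∏ φ : F →+* ℝ, φ (ξ.1 : F) := by
  rw [← in_normZ]
  have h0 : (0 : ℝ) < ((Algebra.norm ℤ ξ.1 : ℤ) : ℝ) := by
    rw [in_normZ]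
    exact Finset.prod_pos fun φ _ => ξ.2 φ
  have h1 : (0 : ℤ) < Algebra.norm ℤ ξ.1 := by exact_mod_cast h0
  exact_mod_cast h1

theorem g_cell {ξ ξ' : TotPos F} (h : ∀ φ : F →+* ℝ, ⌊φ (ξ.1 : F)⌋₊ = ⌊φ (ξ'.1 : F)⌋₊) :
    ξ = ξ' :=
  Subtype.ext (in_floor _ _ (fun φ => (ξ.2 φ).le) (fun φ => (ξ'.2 φ).le) h)

theorem g_countable : Countable (TotPos F) := in_totpos_countable

end H36H
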