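import Pool.Agent.Lib.H53M.X0

/-!
# H36H, chunk G1 (M), PURE MATHLIB: mean values of absolutely convergent exponential sums

`(1/n) Σ_{M < n} Σ_κ b_κ e(θ_κ M) → Σ_{κ : θ_κ ∈ ℤ} b_κ`. Exchange the finite sum and the series. For one `κ`:
`(1/n) Σ_{M < n} e(θ M)` is `1` for all `n ≥ 1` if `θ ∈ ℤ` (`X.ex_intCast`) and `(e(θn) - 1)/(n (e(θ) - 1)) → 0`
otherwise (geometric sum; `e(θ) ≠ 1`: `Complex.exp_eq_one_iff`); it is bounded by `1`. Dominated
convergence: `tendsto_tsum_of_dominated_convergence` with the bound `‖b_κ‖` (`hb.norm`).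
-/

namespace H36H

open H53M Filter Topology

theorem G1_pow (θ : ℝ) (M : ℕ) : X.ex ((θ * M : ℝ) : ℂ) = X.ex ((θ : ℝ) : ℂ) ^ M := by
  unfold X.ex
  rw [← Complex.exp_nat_mul]
  congr 1
  push_cast
  ring

theorem G1_norm (θ : ℝ) : ‖X.ex ((θ : ℝ) : ℂ)‖ = 1 := by
  rw [X.norm_ex]
  simp

theorem G1_one (θ : ℝ) (h : X.ex ((θ : ℝ) : ℂ) = 1) : ∃ m : ℤ, θ = m := by
  unfold X.ex at h
  rw [Complex.exp_eq_one_iff] at h
  obtain ⟨m, hm⟩ := h
  refine ⟨m, ?_⟩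
  have hpi : (2 * (Real.pi : ℂ) * Complex.I) ≠ 0 := by
    simp [Real.pi_ne_zero, Complex.I_ne_zero]
  have h1 : 2 * (Real.pi : ℂ) * Complex.I * (θ : ℂ) = 2 * (Real.pi : ℂ) * Complex.I * (m : ℂ) := by
    rw [hm]
    ring
  have h2 := mul_left_cancel₀ hpi h1
  exact_mod_cast h2

theorem G1_int (m : ℤ) : X.ex (((m : ℝ)) : ℂ) = 1 := by
  unfold X.ex
  rw [Complex.exp_eq_one_iff]
  refine ⟨m, ?_⟩
  push_cast
  ring

theorem G1_le (θ : ℝ) (n : ℕ) :
    ‖(n : ℂ)⁻¹ * ∑ M ∈ Finset.range n, X.ex ((θ * M : ℝ) : ℂ)‖ ≤ 1 := by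
  rw [norm_mul, norm_inv, Complex.norm_natCast]
  have h1 : ‖∑ M ∈ Finset.range n, X.ex ((θ * M : ℝ) : ℂ)‖ ≤ n := by
    refine (norm_sum_le _ _).trans ?_
    have : ∀ M ∈ Finset.range n, ‖X.ex ((θ * M : ℝ) : ℂ)‖ = 1 := fun M _ => G1_norm _
    rw [Finset.sum_congr rfl this]
    simp
  rcases Nat.eq_zero_or_pos n with h0 | h0
  · subst h0
    simp
  · have hn : (0 : ℝ) < n := by exact_mod_cast h0
    rw [inv_mul_le_iff₀ hn]
    linarith

open Classical in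
theorem mean_one (θ : ℝ) : Tendsto (fun n : ℕ => (n : ℂ)⁻¹ *
    ∑ M ∈ Finset.range n, X.ex ((θ * M : ℝ) : ℂ)) atTop
    (𝓝 (if ∃ m : ℤ, θ = m then 1 else 0)) := by
  by_cases h : ∃ m : ℤ, θ = m
  · rw [if_pos h]
    obtain ⟨m, hm⟩ := h
    refine tendsto_const_nhds.congr' ?_
    filter_upwards [eventually_gt_atTop 0] with n hn
    have hn0 : (n : ℂ) ≠ 0 := by exact_mod_cast hn.ne'
    have : ∀ M ∈ Finset.range n, X.ex ((θ * M : ℝ) : ℂ) = 1 := by
      intro M _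
      rw [G1_pow, hm, G1_int, one_pow]
    rw [Finset.sum_congr rfl this]
    simp only [Finset.sum_const, Finset.card_range, nsmul_eq_mul, mul_one]
    field_simp
  · rw [if_neg h]
    set w := X.ex ((θ : ℝ) : ℂ) with hw
    have hw1 : w ≠ 1 := fun e => h (G1_one θ e)
    have hw2 : 0 < ‖w - 1‖ := norm_pos_iff.mpr (sub_ne_zero.mpr hw1)
    have hb : ∀ n : ℕ, ‖(n : ℂ)⁻¹ * ∑ M ∈ Finset.range n, X.ex ((θ * M : ℝ) : ℂ)‖ ≤
        (n : ℝ)⁻¹ * (2 / ‖w - 1‖) := by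
      intro n
      rw [norm_mul, norm_inv, Complex.norm_natCast]
      refine mul_le_mul_of_nonneg_left ?_ (by positivity)
      have h1 : ∑ M ∈ Finset.range n, X.ex ((θ * M : ℝ) : ℂ) = (w ^ n - 1) / (w - 1) := by
        rw [← geom_sum_eq hw1]
        exact Finset.sum_congr rfl fun M _ => G1_pow θ M
      rw [h1, norm_div]
      refine div_le_div_of_nonneg_right ?_ hw2.le
      refine (norm_sub_le _ _).trans ?_
      rw [norm_pow, hw, G1_norm]
      norm_num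
    refine squeeze_zero_norm hb ?_
    have := (tendsto_inv_atTop_nhds_zero_nat (𝕜 := ℝ)).mul_const (2 / ‖w - 1‖)
    simpa using this

open Classical in
theorem mean_lemma {κ : Type*} (b : κ → ℂ) (hb : Summable b) (θ : κ → ℝ) :
    Tendsto (fun n : ℕ => (n : ℂ)⁻¹ * ∑ M ∈ Finset.range n,
      ∑' j, b j * X.ex ((θ j * M : ℝ) : ℂ)) atTop
      (𝓝 (∑' j, if ∃ m : ℤ, θ j = m then b j else 0)) := by
  have e1 : ∀ n : ℕ, (n : ℂ)⁻¹ * ∑ M ∈ Finset.range n, ∑' j, b j * X.ex ((θ j * M : ℝ) : ℂ) =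
      ∑' j, b j * ((n : ℂ)⁻¹ * ∑ M ∈ Finset.range n, X.ex ((θ j * M : ℝ) : ℂ)) := by
    intro n
    have hs : ∀ M ∈ Finset.range n, Summable fun j => b j * X.ex ((θ j * M : ℝ) : ℂ) := by
      intro M _
      refine Summable.of_norm_bounded hb.norm fun j => ?_
      rw [norm_mul, G1_norm, mul_one]
    rw [← Summable.tsum_finsetSum hs, ← tsum_mul_left]
    refine tsum_congr fun j => ?_
    rw [← Finset.mul_sum]
    ring
  simp only [e1]
  refine tendsto_tsum_of_dominated_convergence hb.norm (fun j => ?_)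
    (Eventually.of_forall fun n j => ?_)
  · have := (mean_one (θ j)).const_mul (b j)
    have e : (b j * if ∃ m : ℤ, θ j = m then 1 else 0) = if ∃ m : ℤ, θ j = m then b j else 0 := by
      split_ifs <;> simp
    rw [← e]
    exact this
  · rw [norm_mul]
    exact mul_le_of_le_one_right (norm_nonneg _) (G1_le _ _)

end H36H
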