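import Pool.Agent.Lib.H36H.G1

/-!
# H36H, chunk G2 (M), PURE MATHLIB: Parseval's inequality

`|Σ a_ξ e(θ_ξ M)|² = Σ_{(ξ,ξ')} a_ξ conj(a_ξ') e((θ_ξ - θ_ξ') M)` (`tsum_mul_tsum_of_summable_norm`); by
`mean_lemma` with `b_(ξ,ξ') = a_ξ conj a_ξ'`, the means tend to `Σ_ξ |a_ξ|²` (only the diagonal terms have
`θ_ξ - θ_ξ' ∈ ℤ`), and they are `≤ B`. (`Σ |a_ξ|²` converges since `a` is summable:
`Summable.of_norm_bounded_eventually`, or `|a|² ≤ C |a|`.)
-/

namespace H36H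

open H53M Filter Topology

theorem parseval {κ : Type*} (a : κ → ℂ) (ha : Summable a) (θ : κ → ℝ)
    (hθ : ∀ j j', j ≠ j' → ∀ m : ℤ, θ j - θ j' ≠ m) (B : ℝ)
    (hB : ∀ M : ℕ, ‖∑' j, a j * X.ex ((θ j * M : ℝ) : ℂ)‖ ^ 2 ≤ B) :
    Summable (fun j => ‖a j‖ ^ 2) ∧ ∑' j, ‖a j‖ ^ 2 ≤ B := by
  classical
  have han : Summable fun j => ‖a j‖ := ha.norm
  have hdiag : Function.Injective (fun j : κ => (j, j)) := fun x y h => (Prod.mk.inj h).1
  have hsq : Summable fun j => ‖a j‖ ^ 2 := by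
    have h1 := (Summable.mul_of_nonneg han han (fun j => norm_nonneg _) (fun j => norm_nonneg _)).comp_injective hdiag
    refine h1.congr fun j => ?_
    simp only [Function.comp]
    ring
  refine ⟨hsq, ?_⟩
  have hex : ∀ x : ℝ, ‖X.ex (x : ℂ)‖ = 1 := by
    intro x
    unfold X.ex
    rw [Complex.norm_exp]
    simp
  have hb : Summable fun p : κ × κ => a p.1 * (starRingEnd ℂ) (a p.2) :=
    summable_mul_of_summable_norm (f := a) (g := fun j => (starRingEnd ℂ) (a j)) han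
      (han.congr fun j => (RCLike.norm_conj (a j)).symm)
  -- the square of the norm as a double series
  have key : ∀ M : ℕ, ((‖∑' j, a j * X.ex ((θ j * M : ℝ) : ℂ)‖ ^ 2 : ℝ) : ℂ) =
      ∑' p : κ × κ, a p.1 * (starRingEnd ℂ) (a p.2) * X.ex (((θ p.1 - θ p.2) * M : ℝ) : ℂ) := by
    intro M
    have hn : Summable fun j => ‖a j * X.ex ((θ j * M : ℝ) : ℂ)‖ := by
      refine han.congr fun j => ?_
      rw [norm_mul, hex, mul_one]
    have hn2 : Summable fun j => ‖(starRingEnd ℂ) (a j * X.ex ((θ j * M : ℝ) : ℂ))‖ := by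
      refine hn.congr fun j => ?_
      rw [RCLike.norm_conj]
    have h1 : ((‖∑' j, a j * X.ex ((θ j * M : ℝ) : ℂ)‖ ^ 2 : ℝ) : ℂ) =
        (∑' j, a j * X.ex ((θ j * M : ℝ) : ℂ)) * (starRingEnd ℂ) (∑' j, a j * X.ex ((θ j * M : ℝ) : ℂ)) := by
      rw [Complex.mul_conj, Complex.normSq_eq_norm_sq]
    rw [h1, Complex.conj_tsum, tsum_mul_tsum_of_summable_norm hn hn2]
    refine tsum_congr fun p => ?_
    have h2 : X.ex (((θ p.1 - θ p.2) * M : ℝ) : ℂ) = X.ex ((θ p.1 * M : ℝ) : ℂ) *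
        (starRingEnd ℂ) (X.ex ((θ p.2 * M : ℝ) : ℂ)) := by
      unfold X.ex
      rw [← Complex.exp_conj, ← Complex.exp_add]
      congr 1
      simp only [map_mul, Complex.conj_ofReal, Complex.conj_I, map_ofNat]
      push_cast
      ring
    rw [h2, map_mul]
    ring
  have hlim := mean_lemma (fun p : κ × κ => a p.1 * (starRingEnd ℂ) (a p.2)) hb (fun p => θ p.1 - θ p.2)
  have hT : (∑' p : κ × κ, if ∃ m : ℤ, θ p.1 - θ p.2 = m then a p.1 * (starRingEnd ℂ) (a p.2) else 0) =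
      ((∑' j, ‖a j‖ ^ 2 : ℝ) : ℂ) := by
    rw [← hdiag.tsum_eq (f := fun p : κ × κ => if ∃ m : ℤ, θ p.1 - θ p.2 = m then a p.1 * (starRingEnd ℂ) (a p.2) else 0)]
    · rw [Complex.ofReal_tsum]
      refine tsum_congr fun j => ?_
      have h3 : ∃ m : ℤ, θ j - θ j = m := ⟨0, by simp⟩
      simp only [h3, if_true]
      rw [Complex.mul_conj, Complex.normSq_eq_norm_sq]
    · intro p hp
      by_contra hcon
      apply hp
      have hne : p.1 ≠ p.2 := fun h => hcon ⟨p.1, Prod.ext rfl h⟩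
      have h4 : ¬ ∃ m : ℤ, θ p.1 - θ p.2 = m := fun ⟨m, hm⟩ => hθ _ _ hne m hm
      simp only [h4, if_false]
  rw [hT] at hlim
  have hlim2 : Tendsto (fun n : ℕ => (n : ℝ)⁻¹ * ∑ M ∈ Finset.range n, ‖∑' j, a j * X.ex ((θ j * M : ℝ) : ℂ)‖ ^ 2)
      atTop (𝓝 (∑' j, ‖a j‖ ^ 2)) := by
    have h5 := (Complex.continuous_re.tendsto _).comp hlim
    rw [Complex.ofReal_re] at h5
    refine h5.congr fun n => ?_
    simp only [Function.comp]
    have h6 : (n : ℂ)⁻¹ * ∑ M ∈ Finset.range n, ∑' p : κ × κ, a p.1 * (starRingEnd ℂ) (a p.2) *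
        X.ex (((θ p.1 - θ p.2) * M : ℝ) : ℂ) =
        (((n : ℝ)⁻¹ * ∑ M ∈ Finset.range n, ‖∑' j, a j * X.ex ((θ j * M : ℝ) : ℂ)‖ ^ 2 : ℝ) : ℂ) := by
      rw [Complex.ofReal_mul, Complex.ofReal_inv, Complex.ofReal_natCast, Complex.ofReal_sum]
      congr 1
      exact Finset.sum_congr rfl fun M _ => (key M).symm
    rw [h6, Complex.ofReal_re]
  refine le_of_tendsto hlim2 ?_
  filter_upwards [Filter.eventually_ge_atTop 1] with n hn
  have hn0 : (0 : ℝ) < n := by exact_mod_cast hn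
  rw [inv_mul_le_iff₀ hn0]
  calc ∑ M ∈ Finset.range n, ‖∑' j, a j * X.ex ((θ j * M : ℝ) : ℂ)‖ ^ 2 ≤ ∑ M ∈ Finset.range n, B :=
        Finset.sum_le_sum fun M _ => hB M
    _ = n * B := by rw [Finset.sum_const, Finset.card_range, nsmul_eq_mul]

end H36H
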