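import Pool.Agent.Lib.H36H.G0
import Pool.Agent.Lib.H36H.G2

/-!
# H36H, chunk G3 (M): Parseval for the cusp form

`exists_eta`: `η (ν_i(ξ) - ν_i(ξ')) = m`, `ξ ≠ ξ'`, means `η = m / (ν_i(ξ) - ν_i(ξ'))` (embeddings are injective):
countably many `η` (`g_countable`; `Set.countable_range`, `Set.Countable.exists_notMem..`, the reals are
uncountable: `Cardinal.not_countable_real` or `Set.Countable.dense_compl`).
`cusp_parseval`: fix `i` (there is an embedding; if not, `Lam` ... the norm argument); apply `parseval` to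
`a_ξ = c(ξ) exp(-2π Σ_j ν_j y_j)`, `θ_ξ = η ν_i(ξ)`: the sum at `M` is `fser c z` at `z_i = η M + i y_i`,
`z_j = i y_j`, so `|..|² ≤ M₀² Π y_j^(-k)` (`hc.bounded`).
-/

namespace H36H

open NumberField H53M

variable {F : Type*} [Field F] [NumberField F] [IsTotallyReal F]

theorem exists_eta (i : F →+* ℝ) : ∃ η : ℝ, ∀ ξ ξ' : TotPos F, ξ ≠ ξ' → ∀ m : ℤ,
    η * i (ξ.1 : F) - η * i (ξ'.1 : F) ≠ m := by
  have : Countable (TotPos F) := g_countable
  let S : Set ℝ := Set.range (fun t : TotPos F × TotPos F × ℤ =>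
    (t.2.2 : ℝ) / (i (t.1.1 : F) - i (t.2.1.1 : F)))
  have hS : S.Countable := Set.countable_range _
  obtain ⟨η, hη⟩ : ∃ η, η ∉ S := by
    by_contra h
    push Not at h
    have h1 : S = Set.univ := Set.eq_univ_of_forall h
    rw [h1] at hS
    exact Cardinal.not_countable_real hS
  refine ⟨η, fun ξ ξ' hne m h => hη ⟨(ξ, ξ', m), ?_⟩⟩
  have hd : i (ξ.1 : F) - i (ξ'.1 : F) ≠ 0 := by
    intro h0
    apply hne
    apply Subtype.ext
    have := i.injective (sub_eq_zero.1 h0)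
    exact_mod_cast this
  rw [← mul_sub] at h
  exact (eq_div_of_mul_eq hd h).symm

omit [IsTotallyReal F] in
theorem G3_norm (a : 𝓞 F → ℂ) (z : (F →+* ℝ) → ℂ) (ξ : TotPos F) :
    ‖fterm a z ξ‖ = ‖a ξ.1‖ * Real.exp (-(2 * Real.pi * ∑ φ : F →+* ℝ, φ ξ.1 * (z φ).im)) := by
  unfold fterm
  rw [norm_mul]
  congr 1
  have h := X.norm_ex (∑ φ : F →+* ℝ, ((φ ξ.1 : ℝ) : ℂ) * z φ)
  unfold X.ex at h
  rw [h]
  congr 3
  rw [Complex.im_sum]
  refine Finset.sum_congr rfl fun φ _ => ?_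
  simp

theorem cusp_parseval {N k : ℕ} {c : 𝓞 F → ℤ} (hc : IsDiagCusp N k fun ξ => (c ξ : ℂ)) :
    ∃ B : ℝ, 0 < B ∧ ∀ y : (F →+* ℝ) → ℝ, (∀ i, 0 < y i) →
      Summable (fun ξ : TotPos F => (c ξ.1 : ℝ) ^ 2 *
        Real.exp (-(4 * Real.pi * ∑ i, i (ξ.1 : F) * y i))) ∧
      ∑' ξ : TotPos F, (c ξ.1 : ℝ) ^ 2 *
        Real.exp (-(4 * Real.pi * ∑ i, i (ξ.1 : F) * y i)) ≤ B * ∏ i, (y i)⁻¹ ^ k := by
  classical
  obtain ⟨ψ⟩ : Nonempty (F →+* ℂ) := inferInstance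
  obtain ⟨η, hη⟩ := exists_eta (IsTotallyReal.complexEmbedding_isReal ψ).embedding
  generalize (IsTotallyReal.complexEmbedding_isReal ψ).embedding = i0 at hη
  obtain ⟨M₀, hM₀⟩ := hc.bounded
  refine ⟨M₀ ^ 2 + 1, by positivity, fun y hy => ?_⟩
  let z0 : (F →+* ℝ) → ℂ := fun j => Complex.I * (y j : ℂ)
  have hz0 : ∀ j, 0 < (z0 j).im := fun j => by
    simp only [z0]
    simpa using hy j
  let a : TotPos F → ℂ := fterm (fun ξ => (c ξ : ℂ)) z0
  have ha : Summable a := hc.summable z0 hz0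
  have hPk : ∀ j, 0 < (y j)⁻¹ ^ k := fun j => pow_pos (inv_pos.2 (hy j)) k
  have hprod : 0 < ∏ j, (y j)⁻¹ ^ k := Finset.prod_pos fun j _ => hPk j
  have key := parseval a ha (fun ξ => η * i0 (ξ.1 : F)) hη (M₀ ^ 2 * ∏ j, (y j)⁻¹ ^ k) (by
    intro M
    let z : (F →+* ℝ) → ℂ := fun j => z0 j + (if j = i0 then ((η * M : ℝ) : ℂ) else 0)
    have hzim : ∀ j, (z j).im = y j := by
      intro j
      simp only [z, z0]
      split_ifs
      · simp
      · simp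
    have hz : ∀ j, 0 < (z j).im := fun j => by
      rw [hzim]
      exact hy j
    have h1 : ∑' ξ, a ξ * X.ex ((η * i0 (ξ.1 : F) * M : ℝ) : ℂ) =
        fser (fun ξ => (c ξ : ℂ)) z := by
      unfold fser
      refine tsum_congr fun ξ => ?_
      change fterm (fun ξ => (c ξ : ℂ)) z0 ξ * _ = _
      unfold fterm X.ex
      rw [mul_assoc, ← Complex.exp_add, ← mul_add]
      congr 3
      have h2 : ∑ φ : F →+* ℝ, ((φ ξ.1 : ℝ) : ℂ) * z φ =
          ∑ φ : F →+* ℝ, ((φ ξ.1 : ℝ) : ℂ) * z0 φ +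
            ∑ φ : F →+* ℝ, ((φ ξ.1 : ℝ) : ℂ) * (if φ = i0 then ((η * M : ℝ) : ℂ) else 0) := by
        rw [← Finset.sum_add_distrib]
        refine Finset.sum_congr rfl fun φ _ => ?_
        rw [← mul_add]
      rw [h2]
      congr 1
      simp only [mul_ite, mul_zero, Finset.sum_ite_eq', Finset.mem_univ, if_true]
      push_cast
      ring
    rw [h1]
    have h3 := hM₀ z hz
    simp only [hzim] at h3
    have hP : 0 < ∏ j, (y j) ^ ((k : ℝ) / 2) :=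
      Finset.prod_pos fun j _ => Real.rpow_pos_of_pos (hy j) _
    have h4 : 0 ≤ ‖fser (fun ξ => (c ξ : ℂ)) z‖ * ∏ j, (y j) ^ ((k : ℝ) / 2) :=
      mul_nonneg (norm_nonneg _) hP.le
    have h5 := pow_le_pow_left₀ h4 h3 2
    rw [mul_pow] at h5
    have h6 : (∏ j, (y j) ^ ((k : ℝ) / 2)) ^ 2 * ∏ j, (y j)⁻¹ ^ k = 1 := by
      rw [← Finset.prod_pow, ← Finset.prod_mul_distrib]
      refine Finset.prod_eq_one fun j _ => ?_
      have h7 : ((y j) ^ ((k : ℝ) / 2)) ^ 2 = (y j) ^ k := by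
        rw [← Real.rpow_natCast, ← Real.rpow_mul (hy j).le, ← Real.rpow_natCast]
        congr 1
        push_cast
        ring
      rw [h7, ← mul_pow, mul_inv_cancel₀ (hy j).ne', one_pow]
    calc ‖fser (fun ξ => (c ξ : ℂ)) z‖ ^ 2
        = (‖fser (fun ξ => (c ξ : ℂ)) z‖ ^ 2 * (∏ j, (y j) ^ ((k : ℝ) / 2)) ^ 2) *
            ∏ j, (y j)⁻¹ ^ k := by rw [mul_assoc, h6, mul_one]
      _ ≤ M₀ ^ 2 * ∏ j, (y j)⁻¹ ^ k := mul_le_mul_of_nonneg_right h5 hprod.le)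
  have hterm : ∀ ξ : TotPos F, ‖a ξ‖ ^ 2 = (c ξ.1 : ℝ) ^ 2 *
      Real.exp (-(4 * Real.pi * ∑ i, i (ξ.1 : F) * y i)) := by
    intro ξ
    change ‖fterm (fun ξ => (c ξ : ℂ)) z0 ξ‖ ^ 2 = _
    rw [G3_norm, mul_pow, ← Real.exp_nat_mul]
    have h1 : ∑ φ : F →+* ℝ, φ (ξ.1 : F) * (z0 φ).im = ∑ i, i (ξ.1 : F) * y i := by
      refine Finset.sum_congr rfl fun φ _ => ?_
      simp only [z0]
      simp
    rw [h1]
    congr 1
    · rw [Complex.norm_intCast, sq_abs]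
    · congr 1
      push_cast
      ring
  simp only [hterm] at key
  refine ⟨key.1, key.2.trans ?_⟩
  exact mul_le_mul_of_nonneg_right (by linarith) hprod.le

end H36H
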