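import Pool.Agent.Lib.H36H.G0

/-!
# H36H, chunk G4: the trivial (Hecke) bound (from IN3)
-/

namespace H36H

open NumberField

variable {F : Type*} [Field F] [NumberField F] [IsTotallyReal F]

theorem cusp_growth {N k : ℕ} {c : 𝓞 F → ℤ} (hc : IsDiagCusp N k fun ξ => (c ξ : ℂ)) :
    ∃ C : ℝ, ∃ K : ℕ, 0 < C ∧ ∀ ξ : TotPos F,
      |(c ξ.1 : ℝ)| ≤ C * (1 + ∑ i : F →+* ℝ, i (ξ.1 : F)) ^ K := by
  obtain ⟨C, hC⟩ := in_bound_tr hc
  refine ⟨|C| + 1, k * Fintype.card (F →+* ℝ), by positivity, fun ξ => ?_⟩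
  have h1 := hC ξ
  rw [Complex.norm_intCast] at h1
  rw [inTr_eq, add_comm (1 : ℝ)]
  refine h1.trans (mul_le_mul_of_nonneg_right ?_ (by positivity))
  exact (le_abs_self C).trans (by linarith)

end H36H
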