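import Pool.Agent.Lib.H16A.PI1
import Pool.Agent.Lib.H33B.CV3

/-!
# H36H: primes without a place of degree one (module GA)

`F` a number field of degree `≥ 2`. For every `η > 0` and all large `X` the sum of `log p` over the
primes `p ≤ X` such that `F` has no prime of norm `p` is at least `X^(1-η)`.
-/

open Set Module Filter Topology NumberField Pool.Agent.Lib.H59
open Ideal (absNorm)
open UniqueFactorizationMonoid IsDedekindDomain

namespace H36H

theorem exists_two_emb (F : Type*) [Field F] [NumberField F] (hd : 1 < finrank ℚ F) :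
    ∃ (L : Type) (_ : Field L) (_ : NumberField L) (σ τ : F →+* L), σ ≠ τ := by
  classical
  have h1 : Fintype.card (F →ₐ[ℚ] AlgebraicClosure ℚ) = finrank ℚ F :=
    AlgHom.card ℚ F (AlgebraicClosure ℚ)
  have h2 : 1 < Fintype.card (F →ₐ[ℚ] AlgebraicClosure ℚ) := by
    rw [h1]
    exact hd
  obtain ⟨σ, τ, hst⟩ := Fintype.exists_pair_of_one_lt_card h2
  obtain ⟨M, hM⟩ : ∃ M : IntermediateField ℚ (AlgebraicClosure ℚ),
      M = σ.fieldRange ⊔ τ.fieldRange := ⟨_, rfl⟩
  have hfr : ∀ φ : F →ₐ[ℚ] AlgebraicClosure ℚ, FiniteDimensional ℚ φ.fieldRange := fun φ =>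
    (AlgEquiv.ofInjectiveField φ).toLinearEquiv.finiteDimensional
  have hfin : FiniteDimensional ℚ M := by
    rw [hM]
    have h3 := hfr σ
    have h4 := hfr τ
    infer_instance
  have hσ : ∀ x, σ x ∈ M := by
    intro x
    rw [hM]
    exact (le_sup_left : σ.fieldRange ≤ σ.fieldRange ⊔ τ.fieldRange) ⟨x, rfl⟩
  have hτ : ∀ x, τ x ∈ M := by
    intro x
    rw [hM]
    exact (le_sup_right : τ.fieldRange ≤ σ.fieldRange ⊔ τ.fieldRange) ⟨x, rfl⟩
  refine ⟨M, inferInstance, { to_charZero := inferInstance, to_finiteDimensional := hfin },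
    σ.toRingHom.codRestrict M.toSubalgebra.toSubring hσ,
    τ.toRingHom.codRestrict M.toSubalgebra.toSubring hτ, ?_⟩
  intro h
  apply hst
  ext x
  have h3 := congrArg (fun f => ((f x : M) : AlgebraicClosure ℚ)) h
  exact h3

section

variable {K : Type*} [Field K] [NumberField K]

theorem exists_residue {p : ℕ} (hp : p.Prime) {P : HeightOneSpectrum (𝓞 K)}
    (hP : absNorm P.asIdeal = p) (x : 𝓞 K) : ∃ a : ℤ, x - (a : 𝓞 K) ∈ P.asIdeal := by
  haveI : Fact p.Prime := ⟨hp⟩
  have hcard : Nat.card (𝓞 K ⧸ P.asIdeal) = p := by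
    rw [← hP, Ideal.absNorm_apply, Submodule.cardQuot_apply]
  have h1 : (1 : 𝓞 K ⧸ P.asIdeal) ≠ 0 := by
    haveI : Nontrivial (𝓞 K ⧸ P.asIdeal) := Ideal.Quotient.nontrivial_iff.2 P.isPrime.ne_top
    exact one_ne_zero
  have h2 := mem_zmultiples_of_prime_card (g' := (Ideal.Quotient.mk P.asIdeal x)) hcard h1
  obtain ⟨a, ha⟩ := AddSubgroup.mem_zmultiples_iff.1 h2
  refine ⟨a, ?_⟩
  rw [← Ideal.Quotient.eq, ← ha]
  simp

theorem comap_degOne {F : Type*} [Field F] [NumberField F] (σ : F →+* K) {p : ℕ} (hp : p.Prime)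
    {P : HeightOneSpectrum (𝓞 K)} (hP : absNorm P.asIdeal = p) :
    ∃ Q : HeightOneSpectrum (𝓞 F), absNorm Q.asIdeal = p ∧
      Q.asIdeal = P.asIdeal.comap (RingOfIntegers.mapRingHom σ) := by
  have hpP : ((p : ℕ) : 𝓞 K) ∈ P.asIdeal := by
    rw [← hP]
    exact Ideal.absNorm_mem _
  have hprime : (P.asIdeal.comap (RingOfIntegers.mapRingHom σ)).IsPrime :=
    Ideal.comap_isPrime _ _
  have hne : P.asIdeal.comap (RingOfIntegers.mapRingHom σ) ≠ ⊥ := by
    intro h0
    have h1 : ((p : ℕ) : 𝓞 F) ∈ P.asIdeal.comap (RingOfIntegers.mapRingHom σ) := by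
      rw [Ideal.mem_comap, map_natCast]
      exact hpP
    rw [h0, Ideal.mem_bot] at h1
    exact hp.ne_zero (by exact_mod_cast h1)
  refine ⟨⟨_, hprime, hne⟩, ?_, rfl⟩
  simp only
  have hcard : Nat.card (𝓞 K ⧸ P.asIdeal) = p := by
    rw [← hP, Ideal.absNorm_apply, Submodule.cardQuot_apply]
  haveI : Finite (𝓞 K ⧸ P.asIdeal) := Nat.finite_of_card_ne_zero (by rw [hcard]; exact hp.ne_zero)
  have hinj : Function.Injective (Ideal.quotientMap P.asIdeal (RingOfIntegers.mapRingHom σ) le_rfl) :=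
    Ideal.quotientMap_injective
  have hdvd : Nat.card (𝓞 F ⧸ P.asIdeal.comap (RingOfIntegers.mapRingHom σ)) ∣ p := by
    rw [← hcard]
    exact AddSubgroup.card_dvd_of_injective
      (Ideal.quotientMap P.asIdeal (RingOfIntegers.mapRingHom σ) le_rfl).toAddMonoidHom hinj
  rw [Ideal.absNorm_apply, Submodule.cardQuot_apply]
  rcases (Nat.dvd_prime hp).1 hdvd with h | h
  · exfalso
    have h2 : absNorm (P.asIdeal.comap (RingOfIntegers.mapRingHom σ)) = 1 := by
      rw [Ideal.absNorm_apply, Submodule.cardQuot_apply]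
      exact h
    exact hprime.ne_top (Ideal.absNorm_eq_one_iff.1 h2)
  · exact h

end

theorem two_le_degOne (F : Type*) [Field F] [NumberField F] (hd : 1 < finrank ℚ F) :
    ∃ (L : Type) (_ : Field L) (_ : NumberField L) (p₀ : ℕ), ∀ p : ℕ, p.Prime → p₀ < p →
      1 ≤ degOne L p → 2 ≤ degOne F p := by
  classical
  obtain ⟨L, hL, hLn, σ, τ, hst⟩ := exists_two_emb F hd
  obtain ⟨θ, hθ⟩ : ∃ θ : 𝓞 F, RingOfIntegers.mapRingHom σ θ ≠ RingOfIntegers.mapRingHom τ θ := by
    by_contra hcon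
    push Not at hcon
    apply hst
    refine IsLocalization.ringHom_ext (nonZeroDivisors (𝓞 F)) (RingHom.ext fun x => ?_)
    have h1 := congrArg (fun y : 𝓞 L => (y : L)) (hcon x)
    exact h1
  obtain ⟨x, hx⟩ : ∃ x, x = RingOfIntegers.mapRingHom σ θ - RingOfIntegers.mapRingHom τ θ :=
    ⟨_, rfl⟩
  have hx0 : x ≠ 0 := by
    rw [hx]
    exact sub_ne_zero.2 hθ
  refine ⟨L, hL, hLn, (Algebra.norm ℤ x).natAbs, fun p hp hpx h1 => ?_⟩
  rw [← card_degOneSet] at h1
  obtain ⟨P, hP⟩ := Finset.card_pos.1 h1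
  rw [mem_degOneSet] at hP
  obtain ⟨Q, hQ, hQc⟩ := comap_degOne σ hp hP
  obtain ⟨Q', hQ', hQc'⟩ := comap_degOne τ hp hP
  rw [← card_degOneSet]
  change 1 < (degOneSet F p).card
  refine Finset.one_lt_card.2 ⟨Q, mem_degOneSet.2 hQ, Q', mem_degOneSet.2 hQ', ?_⟩
  intro hQQ
  obtain ⟨a, ha⟩ := exists_residue hp hQ θ
  have h2 : RingOfIntegers.mapRingHom σ θ - (a : 𝓞 L) ∈ P.asIdeal := by
    rw [hQc, Ideal.mem_comap, map_sub, map_intCast] at ha
    exact ha
  have h3 : RingOfIntegers.mapRingHom τ θ - (a : 𝓞 L) ∈ P.asIdeal := by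
    rw [hQQ, hQc', Ideal.mem_comap, map_sub, map_intCast] at ha
    exact ha
  have h4 : x ∈ P.asIdeal := by
    have := P.asIdeal.sub_mem h2 h3
    rw [sub_sub_sub_cancel_right] at this
    rw [hx]
    exact this
  have h5 : p ∣ (Algebra.norm ℤ x).natAbs := by
    have h6 := Ideal.absNorm_dvd_absNorm_of_le
      ((Ideal.span_singleton_le_iff_mem P.asIdeal).2 h4)
    rw [hP, Ideal.absNorm_span_singleton] at h6
    exact h6
  have h7 : (Algebra.norm ℤ x).natAbs ≠ 0 := by
    rw [Int.natAbs_ne_zero]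
    exact Algebra.norm_ne_zero_iff.2 hx0
  have h8 := Nat.le_of_dvd (Nat.pos_of_ne_zero h7) h5
  omega

/-- the window sum -/
theorem window_sum (y x : ℕ) (hyx : y ≤ x) (f : ℕ → ℝ) :
    ∑ p ∈ ((Finset.range (x + 1)).filter Nat.Prime).filter (fun p => ¬ p ≤ y), f p =
      ∑ p ∈ (Finset.range (x + 1)).filter Nat.Prime, f p -
      ∑ p ∈ (Finset.range (y + 1)).filter Nat.Prime, f p := by
  classical
  have h1 := Finset.sum_filter_add_sum_filter_not ((Finset.range (x + 1)).filter Nat.Prime)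
    (fun p => p ≤ y) f
  have h2 : ((Finset.range (x + 1)).filter Nat.Prime).filter (fun p => p ≤ y) =
      (Finset.range (y + 1)).filter Nat.Prime := by
    ext p
    simp only [Finset.mem_filter, Finset.mem_range]
    constructor
    · rintro ⟨⟨_, b⟩, c⟩
      exact ⟨by omega, b⟩
    · rintro ⟨a, b⟩
      exact ⟨⟨by omega, b⟩, by omega⟩
  rw [h2] at h1
  linarith

/-- The window sum over the primes without a place of degree one. -/
theorem window_R (F : Type*) [Field F] [NumberField F] (hd : 1 < finrank ℚ F)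
    {η : ℝ} (hη : 0 < η) (hη1 : η ≤ 1) :
    ∃ c : ℝ, 0 < c ∧ ∃ y₀ : ℕ, ∀ x y : ℕ, y₀ ≤ y → y ≤ x → Real.log y ≤ (1 - η) * Real.log x →
      c * Real.log x ≤
        ∑ p ∈ (((Finset.range (x + 1)).filter Nat.Prime).filter (fun p => ¬ p ≤ y)).filter
          (fun p => degOne F p = 0), Real.log p / p := by
  classical
  obtain ⟨L, hL, hLn, p₀, hp₀⟩ := two_le_degOne F hd
  obtain ⟨B, hB⟩ := Pool.Agent.Lib.H33B.CV3_degOne_rat
  obtain ⟨m, hm⟩ : ∃ m : ℝ, m = (finrank ℚ L : ℝ) := ⟨_, rfl⟩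
  have hm1 : 1 ≤ m := by
    rw [hm]
    exact_mod_cast (Module.finrank_pos : 0 < finrank ℚ L)
  have hm0 : 0 < m := by linarith
  obtain ⟨ε, hε⟩ : ∃ ε : ℝ, ε = η / (12 * m) := ⟨_, rfl⟩
  have hε0 : 0 < ε := by
    rw [hε]
    positivity
  obtain ⟨x1, h1⟩ := H16A.degOne_sum L hε0
  obtain ⟨x2, h2⟩ := H16A.degOne_sum F hε0
  obtain ⟨x3, h3⟩ := H16A.degOne_sum ℚ hε0
  refine ⟨η / (2 * m), by positivity, max (max x1 x2) (max x3 (max p₀ B)), ?_⟩
  intro x y hy hyx hlog
  have hy1 : x1 ≤ y := le_trans (le_trans (le_max_left _ _) (le_max_left _ _)) hy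
  have hy2 : x2 ≤ y := le_trans (le_trans (le_max_right _ _) (le_max_left _ _)) hy
  have hy3 : x3 ≤ y := le_trans (le_trans (le_max_left _ _) (le_max_right _ _)) hy
  have hy4 : p₀ ≤ y := le_trans (le_trans (le_trans (le_max_left _ _) (le_max_right _ _))
    (le_max_right _ _)) hy
  have hy5 : B ≤ y := le_trans (le_trans (le_trans (le_max_right _ _) (le_max_right _ _))
    (le_max_right _ _)) hy
  obtain ⟨T, hT⟩ : ∃ T, T = ((Finset.range (x + 1)).filter Nat.Prime).filter
    (fun p => ¬ p ≤ y) := ⟨_, rfl⟩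
  rw [← hT]
  have wL := window_sum y x hyx (fun p => (degOne L p : ℝ) * (Real.log p / p))
  have wF := window_sum y x hyx (fun p => (degOne F p : ℝ) * (Real.log p / p))
  have wQ := window_sum y x hyx (fun p => (degOne ℚ p : ℝ) * (Real.log p / p))
  rw [← hT] at wL wF wQ
  have hlx : 0 ≤ Real.log x := Real.log_natCast_nonneg _
  have hly : 0 ≤ Real.log y := Real.log_natCast_nonneg _
  obtain ⟨l1, l2⟩ := h1 x (hy1.trans hyx)
  obtain ⟨l3, l4⟩ := h1 y hy1
  obtain ⟨f1, f2⟩ := h2 x (hy2.trans hyx)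
  obtain ⟨f3, f4⟩ := h2 y hy2
  obtain ⟨q1, q2⟩ := h3 x (hy3.trans hyx)
  obtain ⟨q3, q4⟩ := h3 y hy3
  -- the pointwise inequality
  have hpt : ∀ p ∈ T, (degOne L p : ℝ) * (Real.log p / p) / m ≤
      (degOne F p : ℝ) * (Real.log p / p) - (degOne ℚ p : ℝ) * (Real.log p / p) +
        (if degOne F p = 0 then Real.log p / p else 0) := by
    intro p hp
    rw [hT, Finset.mem_filter, Finset.mem_filter] at hp
    obtain ⟨⟨_, hpp⟩, hpy⟩ := hp
    have hw : 0 ≤ Real.log p / (p : ℝ) :=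
      div_nonneg (Real.log_natCast_nonneg _) (Nat.cast_nonneg _)
    have hQ1 : degOne ℚ p = 1 := hB p hpp (by omega)
    have hL1 : (degOne L p : ℝ) ≤ m := by
      rw [hm]
      exact_mod_cast degOne_le hpp
    have hL2 := hp₀ p hpp (by omega)
    rw [hQ1]
    rcases Nat.eq_zero_or_pos (degOne L p) with h0 | h0
    · rw [h0]
      split_ifs with hF
      · rw [hF]
        simp
      · have hF1 : (1 : ℝ) ≤ degOne F p := by exact_mod_cast Nat.one_le_iff_ne_zero.2 hF
        have : 1 * (Real.log p / p) ≤ (degOne F p : ℝ) * (Real.log p / p) :=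
          mul_le_mul_of_nonneg_right hF1 hw
        simp only [Nat.cast_zero, zero_mul, zero_div, Nat.cast_one]
        linarith
    · have hF2 := hL2 h0
      have hF3 : degOne F p ≠ 0 := by omega
      rw [if_neg hF3]
      have hF4 : (2 : ℝ) ≤ degOne F p := by exact_mod_cast hF2
      have a1 : (degOne L p : ℝ) * (Real.log p / p) / m ≤ Real.log p / p := by
        rw [div_le_iff₀ hm0]
        calc (degOne L p : ℝ) * (Real.log p / p) ≤ m * (Real.log p / p) :=
              mul_le_mul_of_nonneg_right hL1 hw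
          _ = Real.log p / p * m := mul_comm _ _
      have a2 : 2 * (Real.log p / p) ≤ (degOne F p : ℝ) * (Real.log p / p) :=
        mul_le_mul_of_nonneg_right hF4 hw
      rw [Nat.cast_one]
      linarith
  have hsum := Finset.sum_le_sum hpt
  rw [← Finset.sum_div, Finset.sum_add_distrib, Finset.sum_sub_distrib, wL, wF, wQ] at hsum
  have hR : ∑ p ∈ T.filter (fun p => degOne F p = 0), Real.log p / (p : ℝ) =
      ∑ p ∈ T, (if degOne F p = 0 then Real.log p / (p : ℝ) else 0) := Finset.sum_filter _ _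
  rw [hR]
  have b1 : (η - 2 * ε) * Real.log x ≤
      (∑ p ∈ (Finset.range (x + 1)).filter Nat.Prime, (degOne L p : ℝ) * (Real.log p / p)) -
      ∑ p ∈ (Finset.range (y + 1)).filter Nat.Prime, (degOne L p : ℝ) * (Real.log p / p) := by
    have c1 : (1 + ε) * Real.log y ≤ (1 + ε) * ((1 - η) * Real.log x) :=
      mul_le_mul_of_nonneg_left hlog (by positivity)
    have c2 : 0 ≤ ε * η * Real.log x := by positivity
    nlinarith
  have b2 : (η - 2 * ε) * Real.log x / m ≤
      ((∑ p ∈ (Finset.range (x + 1)).filter Nat.Prime, (degOne L p : ℝ) * (Real.log p / p)) -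
      ∑ p ∈ (Finset.range (y + 1)).filter Nat.Prime, (degOne L p : ℝ) * (Real.log p / p)) / m :=
    div_le_div_of_nonneg_right b1 hm0.le
  have hlyx : Real.log y ≤ Real.log x := by
    have : 0 ≤ η * Real.log x := by positivity
    linarith
  have b3 : ε * Real.log y ≤ ε * Real.log x := mul_le_mul_of_nonneg_left hlyx hε0.le
  have b4 : η / (2 * m) * Real.log x ≤ (η - 2 * ε) * Real.log x / m - 4 * ε * Real.log x := by
    have c1 : η / (2 * m) * Real.log x = 6 * ε * Real.log x := by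
      rw [hε]
      field_simp
      ring
    have c2 : (η - 2 * ε) * Real.log x / m = 12 * ε * Real.log x - 2 * ε / m * Real.log x := by
      rw [hε]
      field_simp
    have c3 : 2 * ε / m * Real.log x ≤ 2 * ε * Real.log x := by
      refine mul_le_mul_of_nonneg_right ?_ hlx
      exact div_le_self (by positivity) hm1
    rw [c1, c2]
    linarith
  linarith

/-- **Primes without a place of degree one are not sparse.** -/
theorem noDegOne_theta (F : Type*) [Field F] [NumberField F] (hd : 1 < finrank ℚ F)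
    (η : ℝ) (hη : 0 < η) :
    ∃ X₀ : ℕ, ∀ X ≥ X₀, (X : ℝ) ^ (1 - η) ≤
      ∑ᶠ p ∈ {p : ℕ | p ≤ X ∧ p.Prime ∧ degOne F p = 0}, Real.log p := by
  classical
  obtain ⟨η', hη'⟩ : ∃ η', η' = min η (1 / 2) := ⟨_, rfl⟩
  have h0 : 0 < η' := by
    rw [hη']
    exact lt_min hη (by norm_num)
  have h1 : η' ≤ 1 / 2 := by
    rw [hη']
    exact min_le_right _ _
  have h2 : η' ≤ η := by
    rw [hη']
    exact min_le_left _ _
  obtain ⟨c, hc, y₀, hw⟩ := window_R F hd h0 (by linarith)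
  have ht1 : Tendsto (fun X : ℕ => (X : ℝ) ^ (1 - η')) atTop atTop :=
    (tendsto_rpow_atTop (by linarith)).comp tendsto_natCast_atTop_atTop
  have ht2 : Tendsto (fun X : ℕ => c * Real.log X) atTop atTop :=
    (Real.tendsto_log_atTop.comp tendsto_natCast_atTop_atTop).const_mul_atTop hc
  obtain ⟨X₀, hX₀⟩ := Filter.eventually_atTop.1
    ((ht1.eventually_ge_atTop ((y₀ : ℝ) + 1)).and ((ht2.eventually_ge_atTop 1).and
      (eventually_ge_atTop 1)))
  refine ⟨X₀, fun X hX => ?_⟩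
  obtain ⟨a1, a2, a3⟩ := hX₀ X hX
  have hX1 : (1 : ℝ) ≤ X := by exact_mod_cast a3
  obtain ⟨y, hy⟩ : ∃ y, y = ⌊(X : ℝ) ^ (1 - η')⌋₊ := ⟨_, rfl⟩
  have hpos : 0 ≤ (X : ℝ) ^ (1 - η') := Real.rpow_nonneg (Nat.cast_nonneg _) _
  have hy1 : (y : ℝ) ≤ (X : ℝ) ^ (1 - η') := by
    rw [hy]
    exact Nat.floor_le hpos
  have hy2 : (X : ℝ) ^ (1 - η') < y + 1 := by
    rw [hy]
    exact Nat.lt_floor_add_one _
  have hy0 : y₀ < y := by
    have : (y₀ : ℝ) < y := by linarith
    exact_mod_cast this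
  have hyX : y ≤ X := by
    have : (y : ℝ) ≤ X := by
      refine hy1.trans ?_
      calc (X : ℝ) ^ (1 - η') ≤ (X : ℝ) ^ (1 : ℝ) :=
            Real.rpow_le_rpow_of_exponent_le hX1 (by linarith)
        _ = X := Real.rpow_one _
    exact_mod_cast this
  have hyp : (0 : ℝ) < y := by
    have : 0 < y := by omega
    exact_mod_cast this
  have hlog : Real.log y ≤ (1 - η') * Real.log X := by
    have h5 := Real.log_le_log hyp hy1
    rwa [Real.log_rpow (by linarith)] at h5
  have hwin := hw X y hy0.le hyX hlog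
  have hset : {p : ℕ | p ≤ X ∧ p.Prime ∧ degOne F p = 0} =
      (((Finset.range (X + 1)).filter (fun p => p.Prime ∧ degOne F p = 0) : Finset ℕ) :
        Set ℕ) := by
    ext p
    simp only [Set.mem_ofPred_eq, Finset.coe_filter, Finset.mem_range]
    constructor
    · rintro ⟨a, b⟩
      exact ⟨by omega, b⟩
    · rintro ⟨a, b⟩
      exact ⟨by omega, b⟩
  rw [hset, finsum_mem_coe_finset]
  obtain ⟨T, hT⟩ : ∃ T, T = (((Finset.range (X + 1)).filter Nat.Prime).filter
    (fun p => ¬ p ≤ y)).filter (fun p => degOne F p = 0) := ⟨_, rfl⟩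
  rw [← hT] at hwin
  have hsub : T ⊆ (Finset.range (X + 1)).filter (fun p => p.Prime ∧ degOne F p = 0) := by
    intro p hp
    rw [hT, Finset.mem_filter, Finset.mem_filter, Finset.mem_filter] at hp
    rw [Finset.mem_filter]
    exact ⟨hp.1.1.1, hp.1.1.2, hp.2⟩
  have h6 : ∑ p ∈ T, Real.log p ≤
      ∑ p ∈ (Finset.range (X + 1)).filter (fun p => p.Prime ∧ degOne F p = 0), Real.log p :=
    Finset.sum_le_sum_of_subset_of_nonneg hsub fun p _ _ => Real.log_natCast_nonneg _
  refine le_trans ?_ h6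
  have h7 : ∀ p ∈ T, ((y : ℝ) + 1) * (Real.log p / p) ≤ Real.log p := by
    intro p hp
    rw [hT, Finset.mem_filter, Finset.mem_filter] at hp
    have h8 : y + 1 ≤ p := by
      have := hp.1.2
      omega
    have h9 : (y : ℝ) + 1 ≤ p := by exact_mod_cast h8
    have hp0 : (0 : ℝ) < p := by linarith
    calc ((y : ℝ) + 1) * (Real.log p / p) ≤ p * (Real.log p / p) :=
          mul_le_mul_of_nonneg_right h9 (div_nonneg (Real.log_natCast_nonneg _) hp0.le)
      _ = Real.log p := by field_simp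
  have h8 := Finset.sum_le_sum h7
  rw [← Finset.mul_sum] at h8
  refine le_trans ?_ h8
  calc (X : ℝ) ^ (1 - η) ≤ (X : ℝ) ^ (1 - η') :=
        Real.rpow_le_rpow_of_exponent_le hX1 (by linarith)
    _ ≤ ((y : ℝ) + 1) * 1 := by linarith
    _ ≤ ((y : ℝ) + 1) * ∑ p ∈ T, Real.log p / p :=
        mul_le_mul_of_nonneg_left (a2.trans hwin) (by positivity)

end H36H
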