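import Mathlib

set_option autoImplicit false

/-!
# H36H, module GP: primes without places of degree one, for fields with an abelian subfield

CHUNK GP1 (M).  Frobenius congruence in cyclotomic fields, and an element moved by an automorphism.
-/

open NumberField Polynomial

namespace H36H

/-- CHUNK GP1 (S).  Let `ζ` be an element of a commutative ring `A`, `g ∈ ℤ[X]`, `p` a prime.  Then
`g (ζ ^ p) - g (ζ) ^ p` is divisible by `p`.  Proof: `ZMod.expand_card` (or
`Polynomial.expand_char`/`map_frobenius_expand`) says `(g mod p)(X ^ p) = (g mod p) ^ p` in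
`(ZMod p)[X]`, so `expand ℤ p g - g ^ p` has all coefficients divisible by `p`: it is `C p * h`;
evaluate at `ζ`.  (Or induction on `g` with `add_pow_char`-like congruences.) -/
theorem GP1_frob {A : Type*} [CommRing A] (p : ℕ) (hp : p.Prime) (g : ℤ[X]) (ζ : A) :
    (p : A) ∣ aeval (ζ ^ p) g - (aeval ζ g) ^ p := by
  have h1 : Polynomial.C (p : ℤ) ∣ expand ℤ p g - g ^ p := by
    rw [Polynomial.C_dvd_iff_dvd_coeff]
    intro i
    have hf : Fact p.Prime := ⟨hp⟩
    rw [← ZMod.intCast_zmod_eq_zero_iff_dvd]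
    have h2 : (expand ℤ p g - g ^ p).map (Int.castRingHom (ZMod p)) = 0 := by
      rw [Polynomial.map_sub, Polynomial.map_pow, Polynomial.map_expand, ZMod.expand_card, sub_self]
    have h3 := congrArg (fun q => Polynomial.coeff q i) h2
    simpa only [Polynomial.coeff_map, Polynomial.coeff_zero, eq_intCast] using h3
  obtain ⟨h, hh⟩ := h1
  refine ⟨aeval ζ h, ?_⟩
  have h2 := congrArg (aeval ζ) hh
  rw [map_sub, map_pow, Polynomial.expand_aeval, map_mul, Polynomial.aeval_C] at h2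
  rw [h2]
  congr 1
  simp

theorem GP1_inst (m : ℕ) [NeZero m] : IsCyclotomicExtension {m} ℚ (CyclotomicField m ℚ) :=
  CyclotomicField.isCyclotomicExtension m ℚ

attribute [local instance] GP1_inst

/-- Elements of a cyclotomic field are polynomials in the root of unity. -/
theorem GP1_poly (m : ℕ) [NeZero m] (β : CyclotomicField m ℚ) :
    ∃ f : ℚ[X], aeval (IsCyclotomicExtension.zeta m ℚ (CyclotomicField m ℚ)) f = β := by
  have hζ : IsPrimitiveRoot (IsCyclotomicExtension.zeta m ℚ (CyclotomicField m ℚ)) m :=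
    IsCyclotomicExtension.zeta_spec m ℚ (CyclotomicField m ℚ)
  have h1 := IsCyclotomicExtension.adjoin_primitive_root_eq_top (A := ℚ)
    (B := CyclotomicField m ℚ) hζ
  rw [Algebra.adjoin_singleton_eq_range_aeval] at h1
  have h2 : β ∈ (aeval (R := ℚ) (IsCyclotomicExtension.zeta m ℚ (CyclotomicField m ℚ))).range := by
    rw [h1]
    trivial
  exact h2

/-- CHUNK GP1 (M).  Let `L = CyclotomicField m ℚ`, `β ∈ L` not rational.  There are a positive integer
`D`, a polynomial `g ∈ ℤ[X]`, a primitive `m`-th root of unity `ζ ∈ L` with `D β = g (ζ)`, an integer `a`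
prime to `m` and an automorphism `σ` of `L` with `σ ζ = ζ ^ a` and `σ β ≠ β`.

Proof.  `ζ = IsCyclotomicExtension.zeta m ℚ L`, `L = ℚ(ζ)`
(`IsCyclotomicExtension.adjoin_primitive_root_eq_top` or `Algebra.adjoin`), so `β = f (ζ)` with
`f ∈ ℚ[X]`; clear denominators (`IsLocalization.integerNormalization` or
`Polynomial` coefficients).  `L/ℚ` is Galois (`IsCyclotomicExtension.isGalois`), `β` is not in `ℚ`, the
fixed field of the whole group (`IsGalois.mem_bot_iff_fixed` or `IntermediateField.mem_bot`), so some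
`σ` moves `β`; `σ ζ` is a primitive root, hence a power `ζ ^ a` with `a` prime to `m`
(`IsPrimitiveRoot.eq_pow_of_pow_eq_one`, `IsPrimitiveRoot.pow_iff_coprime`, or
`IsCyclotomicExtension.autEquivPow`). -/
theorem GP1_exists (m : ℕ) [NeZero m] (β : CyclotomicField m ℚ)
    (hβ : ∀ q : ℚ, algebraMap ℚ (CyclotomicField m ℚ) q ≠ β) :
    ∃ (D : ℕ) (g : ℤ[X]) (ζ : CyclotomicField m ℚ) (a : ℕ)
      (σ : CyclotomicField m ℚ ≃ₐ[ℚ] CyclotomicField m ℚ), 0 < D ∧ IsPrimitiveRoot ζ m ∧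
      (D : CyclotomicField m ℚ) * β = aeval ζ g ∧ Nat.Coprime a m ∧ σ ζ = ζ ^ a ∧ σ β ≠ β := by
  classical
  have hgal : IsGalois ℚ (CyclotomicField m ℚ) :=
    IsCyclotomicExtension.isGalois {m} ℚ (CyclotomicField m ℚ)
  have hfd : FiniteDimensional ℚ (CyclotomicField m ℚ) :=
    IsCyclotomicExtension.finiteDimensional {m} ℚ (CyclotomicField m ℚ)
  set ζ : CyclotomicField m ℚ := IsCyclotomicExtension.zeta m ℚ (CyclotomicField m ℚ) with hζdef
  have hζ : IsPrimitiveRoot ζ m := IsCyclotomicExtension.zeta_spec m ℚ (CyclotomicField m ℚ)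
  obtain ⟨f, hf⟩ := GP1_poly m β
  -- clear denominators
  obtain ⟨b, hbM, hb⟩ := IsLocalization.integerNormalization_spec (nonZeroDivisors ℤ) f
  set g₀ := IsLocalization.integerNormalization (nonZeroDivisors ℤ) f with hg₀
  have hb0 : (b : ℤ) ≠ 0 := nonZeroDivisors.ne_zero hbM
  have hg₀' : aeval ζ g₀ = ((b : ℤ) : CyclotomicField m ℚ) * β := by
    have h1 := congrArg (aeval ζ) hb
    rw [Polynomial.aeval_map_algebraMap] at h1
    rw [h1, map_zsmul, hf, zsmul_eq_mul]
  -- an automorphism moving β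
  obtain ⟨σ, hσ⟩ : ∃ σ : CyclotomicField m ℚ ≃ₐ[ℚ] CyclotomicField m ℚ, σ β ≠ β := by
    by_contra hcon
    push Not at hcon
    have h1 : β ∈ (⊥ : IntermediateField ℚ (CyclotomicField m ℚ)) := (IsGalois.mem_bot_iff_fixed β).2 hcon
    rw [IntermediateField.mem_bot] at h1
    obtain ⟨q, hq⟩ := h1
    exact hβ q hq
  have h2 : (σ ζ) ^ m = 1 := by rw [← map_pow, hζ.pow_eq_one, map_one]
  obtain ⟨a, -, ha⟩ := hζ.eq_pow_of_pow_eq_one h2
  have h3 : IsPrimitiveRoot (σ ζ) m := hζ.map_of_injective σ.injective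
  rw [← ha] at h3
  have h4 : a.Coprime m := (hζ.pow_iff_coprime (NeZero.pos m) a).1 h3
  refine ⟨((b : ℤ) ^ 2).toNat, Polynomial.C (b : ℤ) * g₀, ζ, a, σ, ?_, hζ, ?_, h4, ha.symm, hσ⟩
  · have : 0 < (b : ℤ) ^ 2 := by positivity
    omega
  · have h5 : ((((b : ℤ) ^ 2).toNat : ℕ) : CyclotomicField m ℚ) = ((b : ℤ) : CyclotomicField m ℚ) ^ 2 := by
      have h6 : ((((b : ℤ) ^ 2).toNat : ℕ) : ℤ) = (b : ℤ) ^ 2 := Int.toNat_of_nonneg (sq_nonneg _)
      have h7 : ((((b : ℤ) ^ 2).toNat : ℕ) : CyclotomicField m ℚ) = (((((b : ℤ) ^ 2).toNat : ℕ) : ℤ) : CyclotomicField m ℚ) := by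
        push_cast
        rfl
      rw [h7, h6]
      push_cast
      rfl
    rw [h5, map_mul, hg₀', Polynomial.aeval_C]
    simp only [eq_intCast]
    ring

/-- CHUNK GP1 (S).  The Galois group of a cyclotomic field is commutative
(`IsCyclotomicExtension.isAbelianGalois` / `isMulCommutative`, or `autEquivPow`). -/
theorem GP1_comm (m : ℕ) [NeZero m]
    (σ τ : CyclotomicField m ℚ ≃ₐ[ℚ] CyclotomicField m ℚ) (x : CyclotomicField m ℚ) :
    σ (τ x) = τ (σ x) := by
  obtain ⟨f, rfl⟩ := GP1_poly m x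
  have hζ : IsPrimitiveRoot (IsCyclotomicExtension.zeta m ℚ (CyclotomicField m ℚ)) m :=
    IsCyclotomicExtension.zeta_spec m ℚ (CyclotomicField m ℚ)
  set ζ := IsCyclotomicExtension.zeta m ℚ (CyclotomicField m ℚ) with hζdef
  have h1 : ∀ τ : CyclotomicField m ℚ ≃ₐ[ℚ] CyclotomicField m ℚ, ∃ a : ℕ, τ ζ = ζ ^ a := by
    intro τ
    have h2 : (τ ζ) ^ m = 1 := by rw [← map_pow, hζ.pow_eq_one, map_one]
    obtain ⟨a, -, ha⟩ := hζ.eq_pow_of_pow_eq_one h2
    exact ⟨a, ha.symm⟩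
  obtain ⟨a, ha⟩ := h1 σ
  obtain ⟨b, hb⟩ := h1 τ
  have h3 : ∀ ρ : CyclotomicField m ℚ ≃ₐ[ℚ] CyclotomicField m ℚ, ∀ y : CyclotomicField m ℚ,
      ρ (aeval y f) = aeval (ρ y) f := fun ρ y => (Polynomial.aeval_algHom_apply ρ.toAlgHom y f).symm
  rw [h3, h3, h3, h3, ha, hb, map_pow, map_pow, ha, hb, ← pow_mul, ← pow_mul, mul_comm]

end H36H
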