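import Pool.Agent.Lib.H36H.GP1

set_option autoImplicit false

/-!
# H36H, module GP

CHUNK GP2 (M).  Primes in a residue class have no place of degree one.
-/

open NumberField Polynomial

namespace H36H

theorem GP2_not_unit (K : Type*) [Field K] [NumberField K] (n : ℕ) (hn : 1 < n) :
    ¬ IsUnit (n : 𝓞 K) := by
  intro h
  have h1 : Ideal.absNorm (Ideal.span {(n : 𝓞 K)}) = 1 := by
    rw [Ideal.span_singleton_eq_top.2 h, Ideal.absNorm_top]
  rw [Ideal.absNorm_span_singleton] at h1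
  have h2 : (n : 𝓞 K) = algebraMap ℤ (𝓞 K) n := (map_natCast _ n).symm
  rw [h2, Algebra.norm_algebraMap, Int.natAbs_pow] at h1
  have h3 : Module.finrank ℤ (𝓞 K) ≠ 0 := by
    rw [RingOfIntegers.rank]
    exact Module.finrank_pos.ne'
  rw [Int.natAbs_natCast] at h1
  exact absurd h1 (Nat.one_lt_pow h3 hn).ne'

/-- A prime ideal containing `p` contains no integer prime to `p`. -/
theorem GP2_dvd {A : Type*} [CommRing A] (P : Ideal A) (hP : P ≠ ⊤) (p : ℕ) (hp : p.Prime)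
    (hpP : (p : A) ∈ P) (n : ℤ) (hn : (n : A) ∈ P) : (p : ℤ) ∣ n := by
  by_contra hnd
  have h1 : IsCoprime (p : ℤ) n := by
    have := (Nat.prime_iff_prime_int.1 hp).coprime_iff_not_dvd.2 hnd
    exact this
  obtain ⟨a, b, hab⟩ := h1
  apply hP
  rw [Ideal.eq_top_iff_one]
  have h2 : (1 : A) = (a : A) * (p : A) + (b : A) * (n : A) := by
    have := congrArg (Int.cast : ℤ → A) hab
    push_cast at this
    exact this.symm
  rw [h2]
  exact Ideal.add_mem _ (Ideal.mul_mem_left _ _ hpP) (Ideal.mul_mem_left _ _ hn)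

/-- In a ring with `p` elements every class contains an integer. -/
theorem GP2_int {A : Type*} [CommRing A] (P : Ideal A) (p : ℕ) (hp : p.Prime)
    (h : Nat.card (A ⧸ P) = p) (x : A) : ∃ c : ℤ, x - (c : A) ∈ P := by
  have hf : Fact p.Prime := ⟨hp⟩
  have hfin : Finite (A ⧸ P) := Nat.finite_of_card_ne_zero (by rw [h]; exact hp.ne_zero)
  have hnt : Nontrivial (A ⧸ P) := by
    rw [← Finite.one_lt_card_iff_nontrivial, h]
    exact hp.one_lt
  have h1 : Ideal.Quotient.mk P x ∈ AddSubgroup.zmultiples (1 : A ⧸ P) :=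
    mem_zmultiples_of_prime_card h one_ne_zero
  obtain ⟨c, hc⟩ := AddSubgroup.mem_zmultiples_iff.1 h1
  refine ⟨c, ?_⟩
  rw [← Ideal.Quotient.eq, ← hc, map_intCast]
  simp

/-- The transformation of the minimal polynomial. -/
theorem GP2_scale {E L : Type*} [Field E] [CharZero E] [Field L] [CharZero L] (α : E) (β : L)
    (hα : IsIntegral ℚ α) (hαβ : aeval β (minpoly ℚ α) = 0) (D : ℕ) :
    aeval ((D : E) * α) (minpoly ℚ ((D : L) * β)) = 0 := by
  have h1 : minpoly ℚ β = minpoly ℚ α :=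
    (minpoly.eq_of_irreducible_of_monic (minpoly.irreducible hα) hαβ (minpoly.monic hα)).symm
  set q : ℚ[X] := (minpoly ℚ ((D : L) * β)).comp (Polynomial.C (D : ℚ) * Polynomial.X) with hq
  have h2 : aeval β q = 0 := by
    rw [hq, Polynomial.aeval_comp]
    simp
  have h3 : minpoly ℚ α ∣ q := by
    rw [← h1]
    exact minpoly.dvd ℚ β h2
  obtain ⟨t, ht⟩ := h3
  have h4 : aeval α q = 0 := by
    rw [ht, map_mul, minpoly.aeval, zero_mul]
  rw [hq, Polynomial.aeval_comp] at h4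
  simpa using h4

/-- CHUNK GP2 (M).  `α` integral in `F`, `β` a root of its minimal polynomial in
`L = CyclotomicField m ℚ`, `D β = g (ζ)`, `σ ζ = ζ ^ a`, `σ β ≠ β`.  For all large primes `p ≡ a mod m`
there is no ideal of `𝓞 F` of norm `p`.

Proof.  Replace `α, β` by `D α, D β` (integral, `D β = g (ζ) ∈ ℤ[ζ]`): let `f` be the minimal polynomial of
`D α` over `ℤ`, monic, irreducible over `ℚ`; `D β` is a root, so `f = ∏ (X - β_i)` over `L` (`L/ℚ` normal,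
`minpoly` splits), the `β_i` are conjugates `τ (D β)` of `D β` and `β_i = τ (g (ζ)) = g (τ ζ)`.  For a
conjugate `β_i = τ (D β)` we have `σ β_i = τ (σ (D β)) ≠ β_i` (`GP1_comm`), so
`n₀ = ∏_τ |N (σ β_τ - β_τ)| ≠ 0` (norms of algebraic integers; they are all equal to
`N (σ (D β) - D β)`).  Let `p > n₀` be a prime with `p ≡ a mod m`, and suppose `P` is an ideal of `𝓞 F` of
norm `p`: then `𝓞 F / P` has `p` elements, so `D α ≡ c mod P` for some `c ∈ ℤ` (the classes of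
`0, ..., p - 1` are distinct since `P ∩ ℤ = p ℤ`), hence `f (c) ∈ P ∩ ℤ = p ℤ`.  Let `𝔔` be a prime of
`𝓞 L` containing `p`.  `f (c) = ∏ (c - β_i) ∈ 𝔔`, so `c - β_i ∈ 𝔔` for some `i`, `β_i = τ (D β)`.  By
`GP1_frob` (`ζ' = τ ζ`, `σ ζ' = ζ' ^ a = ζ' ^ p` as `p ≡ a mod m`):
`σ β_i = g (ζ' ^ p) ≡ g (ζ')^p = β_i ^ p ≡ c ^ p ≡ c ≡ β_i mod 𝔔`.  So `𝔔` divides the nonzero
algebraic integer `σ β_i - β_i`, and `p` divides its norm, contradiction. -/
theorem GP2_noideal (F : Type*) [Field F] [NumberField F] (m : ℕ) [NeZero m] (α : F)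
    (hα : IsIntegral ℤ α) (β ζ : CyclotomicField m ℚ) (hαβ : aeval β (minpoly ℚ α) = 0) (D : ℕ)
    (hD : 0 < D) (g : ℤ[X]) (a : ℕ) (σ : CyclotomicField m ℚ ≃ₐ[ℚ] CyclotomicField m ℚ)
    (hζ : IsPrimitiveRoot ζ m) (hg : (D : CyclotomicField m ℚ) * β = aeval ζ g)
    (ha : Nat.Coprime a m) (hσ : σ ζ = ζ ^ a) (hσβ : σ β ≠ β) :
    ∃ p₀ : ℕ, ∀ p : ℕ, p.Prime → p₀ < p → (p : ZMod m) = (a : ZMod m) →
      ∀ P : Ideal (𝓞 F), Ideal.absNorm P ≠ p := by
  classical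
  have hcyc := GP1_inst m
  have hgal : IsGalois ℚ (CyclotomicField m ℚ) :=
    IsCyclotomicExtension.isGalois {m} ℚ (CyclotomicField m ℚ)
  have hfd : FiniteDimensional ℚ (CyclotomicField m ℚ) :=
    IsCyclotomicExtension.finiteDimensional {m} ℚ (CyclotomicField m ℚ)
  have hζint : IsIntegral ℤ ζ := hζ.isIntegral (NeZero.pos m)
  obtain ⟨Z, hZ⟩ : ∃ Z : 𝓞 (CyclotomicField m ℚ),
      algebraMap (𝓞 (CyclotomicField m ℚ)) (CyclotomicField m ℚ) Z = ζ := ⟨⟨ζ, hζint⟩, rfl⟩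
  set B : 𝓞 (CyclotomicField m ℚ) := aeval Z g with hB
  have hBcoe : algebraMap (𝓞 (CyclotomicField m ℚ)) (CyclotomicField m ℚ) B =
      (D : CyclotomicField m ℚ) * β := by
    rw [hB, ← Polynomial.aeval_algebraMap_apply, hZ, hg]
  have hbint : IsIntegral ℤ ((D : CyclotomicField m ℚ) * β) := by
    rw [← hBcoe]
    exact RingOfIntegers.isIntegral_coe B
  have hsm : ∀ (τ : CyclotomicField m ℚ ≃ₐ[ℚ] CyclotomicField m ℚ)
      (x : 𝓞 (CyclotomicField m ℚ)),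
      algebraMap (𝓞 (CyclotomicField m ℚ)) (CyclotomicField m ℚ) (τ • x) =
        τ (algebraMap (𝓞 (CyclotomicField m ℚ)) (CyclotomicField m ℚ) x) := fun τ x => rfl
  have hinj := FaithfulSMul.algebraMap_injective (𝓞 (CyclotomicField m ℚ)) (CyclotomicField m ℚ)
  have hsmB : ∀ (τ : CyclotomicField m ℚ ≃ₐ[ℚ] CyclotomicField m ℚ)
      (x : 𝓞 (CyclotomicField m ℚ)), τ • (aeval x g) = aeval (τ • x) g := by
    intro τ x
    apply hinj
    rw [hsm, ← Polynomial.aeval_algebraMap_apply, ← Polynomial.aeval_algebraMap_apply, hsm]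
    exact (Polynomial.aeval_algHom_apply (τ.toAlgHom.restrictScalars ℤ) _ g).symm
  have hcomm : ∀ (τ ρ : CyclotomicField m ℚ ≃ₐ[ℚ] CyclotomicField m ℚ)
      (x : 𝓞 (CyclotomicField m ℚ)), τ • (ρ • x) = ρ • (τ • x) := by
    intro τ ρ x
    apply hinj
    rw [hsm, hsm, hsm, hsm]
    exact GP1_comm m τ ρ _
  obtain ⟨GZ, hGZ⟩ := (Polynomial.mem_lifts _).1
    (Algebra.IsInvariant.charpoly_mem_lifts ℤ (𝓞 (CyclotomicField m ℚ))
      (CyclotomicField m ℚ ≃ₐ[ℚ] CyclotomicField m ℚ) B)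
  set fZ : ℤ[X] := minpoly ℤ ((D : CyclotomicField m ℚ) * β) with hfZ
  have hdvd : fZ ∣ GZ := by
    apply minpoly.isIntegrallyClosed_dvd hbint
    rw [← hBcoe, Polynomial.aeval_algebraMap_apply]
    have h1 : aeval B GZ = 0 := by
      rw [← Polynomial.eval_map_algebraMap, hGZ]
      exact MulSemiringAction.eval_charpoly _ B
    rw [h1, map_zero]
  have hDα : IsIntegral ℤ ((D : F) * α) := (isIntegral_algebraMap (R := ℤ) (x := (D : ℤ))
    |>.mul hα : IsIntegral ℤ (algebraMap ℤ F (D : ℤ) * α)) |> (by simpa using ·)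
  obtain ⟨A₀, hA₀⟩ : ∃ A₀ : 𝓞 F, algebraMap (𝓞 F) F A₀ = (D : F) * α := ⟨⟨_, hDα⟩, rfl⟩
  have hfA : aeval A₀ fZ = 0 := by
    apply FaithfulSMul.algebraMap_injective (𝓞 F) F
    rw [← Polynomial.aeval_algebraMap_apply, hA₀, map_zero]
    have h1 := GP2_scale α β (hα.tower_top) hαβ D
    rw [minpoly.isIntegrallyClosed_eq_field_fractions' ℚ hbint, Polynomial.aeval_map_algebraMap] at h1
    exact h1
  have hσB : ∀ τ : CyclotomicField m ℚ ≃ₐ[ℚ] CyclotomicField m ℚ, τ • (σ • B - B) ≠ 0 := by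
    intro τ h0
    have h1 : σ • B - B = 0 := by
      have h2 := congrArg (fun x => τ⁻¹ • x) h0
      simpa using h2
    apply hσβ
    have h2 := congrArg (algebraMap (𝓞 (CyclotomicField m ℚ)) (CyclotomicField m ℚ)) h1
    rw [map_sub, map_zero, hsm, hBcoe, map_mul, map_natCast, ← mul_sub] at h2
    have hD0 : (D : CyclotomicField m ℚ) ≠ 0 := Nat.cast_ne_zero.2 hD.ne'
    exact sub_eq_zero.1 ((mul_eq_zero.1 h2).resolve_left hD0)
  refine ⟨∏ τ : CyclotomicField m ℚ ≃ₐ[ℚ] CyclotomicField m ℚ,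
    Ideal.absNorm (Ideal.span {τ • (σ • B - B)}), fun p hp hlt hpa P hP => ?_⟩
  -- the congruence in F
  have hcard : Nat.card (𝓞 F ⧸ P) = p := by
    rw [← hP]
    rfl
  have hpP : (p : 𝓞 F) ∈ P := by
    rw [← hP]
    exact Ideal.absNorm_mem P
  have hPtop : P ≠ ⊤ := by
    rintro rfl
    rw [Ideal.absNorm_top] at hP
    exact hp.one_lt.ne hP
  obtain ⟨c, hc⟩ := GP2_int P p hp hcard A₀
  have hfc : (p : ℤ) ∣ fZ.eval c := by
    apply GP2_dvd P hPtop p hp hpP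
    have h1 := Polynomial.sub_dvd_eval_sub A₀ (c : 𝓞 F) (fZ.map (algebraMap ℤ (𝓞 F)))
    rw [Polynomial.eval_map_algebraMap, hfA, Polynomial.eval_map_algebraMap, zero_sub] at h1
    have h2 : aeval (c : 𝓞 F) fZ = ((fZ.eval c : ℤ) : 𝓞 F) := by
      have h3 := Polynomial.aeval_algebraMap_apply_eq_algebraMap_eval (A := 𝓞 F) c fZ
      simpa using h3
    rw [h2] at h1
    obtain ⟨t, ht⟩ := h1
    have h4 : ((fZ.eval c : ℤ) : 𝓞 F) = -((A₀ - c) * t) := by linear_combination -ht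
    rw [h4]
    exact P.neg_mem (Ideal.mul_mem_right _ _ hc)
  have hGc : (p : ℤ) ∣ GZ.eval c := by
    obtain ⟨t, ht⟩ := hdvd
    rw [ht, Polynomial.eval_mul]
    exact dvd_mul_of_dvd_left hfc _
  -- a prime above p in the cyclotomic field
  have hspan : Ideal.span {(p : 𝓞 (CyclotomicField m ℚ))} ≠ ⊤ := by
    rw [Ne, Ideal.span_singleton_eq_top]
    exact GP2_not_unit (CyclotomicField m ℚ) p hp.one_lt
  obtain ⟨Q, hQ, hpQ⟩ := Ideal.exists_le_maximal _ hspan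
  have hpQ' : (p : 𝓞 (CyclotomicField m ℚ)) ∈ Q := hpQ (Ideal.mem_span_singleton_self _)
  have hint : ∀ n : ℤ, (p : ℤ) ∣ n → (n : 𝓞 (CyclotomicField m ℚ)) ∈ Q := by
    rintro n ⟨t, rfl⟩
    push_cast
    exact Ideal.mul_mem_right _ _ hpQ'
  have hprod : ∏ τ : CyclotomicField m ℚ ≃ₐ[ℚ] CyclotomicField m ℚ,
      ((c : 𝓞 (CyclotomicField m ℚ)) - τ • B) ∈ Q := by
    have h1 : ((GZ.eval c : ℤ) : 𝓞 (CyclotomicField m ℚ)) =
        ∏ τ : CyclotomicField m ℚ ≃ₐ[ℚ] CyclotomicField m ℚ,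
          ((c : 𝓞 (CyclotomicField m ℚ)) - τ • B) := by
      have h2 : aeval (c : 𝓞 (CyclotomicField m ℚ)) GZ =
          ((GZ.eval c : ℤ) : 𝓞 (CyclotomicField m ℚ)) := by
        have h3 := Polynomial.aeval_algebraMap_apply_eq_algebraMap_eval
          (A := 𝓞 (CyclotomicField m ℚ)) c GZ
        simpa using h3
      rw [← h2, ← Polynomial.eval_map_algebraMap, hGZ, MulSemiringAction.charpoly_eq,
        Polynomial.eval_prod]
      refine Finset.prod_congr rfl fun τ _ => ?_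
      rw [Polynomial.eval_sub, Polynomial.eval_X, Polynomial.eval_C]
    rw [← h1]
    exact hint _ hGc
  rw [hQ.isPrime.prod_mem_iff] at hprod
  obtain ⟨τ, -, hτ⟩ := hprod
  -- the Frobenius congruence
  set ζ' : 𝓞 (CyclotomicField m ℚ) := τ • Z with hζ'
  have hτB : τ • B = aeval ζ' g := by rw [hB, hsmB]
  have hζ'm : ζ' ^ m = 1 := by
    apply hinj
    rw [map_pow, hζ', hsm, hZ, ← map_pow, hζ.pow_eq_one, map_one, map_one]
  have hσζ' : σ • ζ' = ζ' ^ p := by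
    have h1 : σ • ζ' = ζ' ^ a := by
      apply hinj
      rw [hζ', hcomm, map_pow, hsm, hsm, hsm, hZ, hσ, map_pow]
    rw [h1]
    exact (pow_eq_pow_of_modEq ((ZMod.natCast_eq_natCast_iff _ _ _).1 hpa) hζ'm).symm
  have h1 : σ • (τ • B) - (τ • B) ^ p ∈ Q := by
    rw [hτB, hsmB, hσζ']
    obtain ⟨t, ht⟩ := GP1_frob p hp g ζ'
    rw [ht]
    exact Ideal.mul_mem_right _ _ hpQ'
  have h2 : (τ • B) ^ p - (c : 𝓞 (CyclotomicField m ℚ)) ^ p ∈ Q := by
    obtain ⟨t, ht⟩ := sub_dvd_pow_sub_pow (τ • B) (c : 𝓞 (CyclotomicField m ℚ)) p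
    rw [ht]
    refine Ideal.mul_mem_right _ _ ?_
    have h3 := Q.neg_mem hτ
    rwa [neg_sub] at h3
  have h3 : (c : 𝓞 (CyclotomicField m ℚ)) ^ p - c ∈ Q := by
    have h4 := hint (c ^ p - c) (by
      have hf : Fact p.Prime := ⟨hp⟩
      rw [← ZMod.intCast_zmod_eq_zero_iff_dvd]
      push_cast
      rw [ZMod.pow_card, sub_self])
    push_cast at h4
    exact h4
  have h4 : τ • (σ • B - B) ∈ Q := by
    have h5 : τ • (σ • B - B) = (σ • (τ • B) - (τ • B) ^ p) +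
        ((τ • B) ^ p - (c : 𝓞 (CyclotomicField m ℚ)) ^ p) +
        ((c : 𝓞 (CyclotomicField m ℚ)) ^ p - c) + (c - τ • B) := by
      rw [smul_sub, hcomm τ σ]
      ring
    rw [h5]
    exact Q.add_mem (Q.add_mem (Q.add_mem h1 h2) h3) hτ
  have h5 : ((Ideal.absNorm (Ideal.span {τ • (σ • B - B)}) : ℤ) : 𝓞 (CyclotomicField m ℚ)) ∈ Q := by
    have h6 := Ideal.absNorm_mem (Ideal.span {τ • (σ • B - B)})
    have h7 : Ideal.span {τ • (σ • B - B)} ≤ Q := (Ideal.span_singleton_le_iff_mem Q).2 h4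
    have h8 := h7 h6
    rwa [Int.cast_natCast]
  have h6 := GP2_dvd Q hQ.ne_top p hp hpQ' _ h5
  have h7 : p ∣ Ideal.absNorm (Ideal.span {τ • (σ • B - B)}) := by exact_mod_cast h6
  have h8 : p ∣ ∏ τ : CyclotomicField m ℚ ≃ₐ[ℚ] CyclotomicField m ℚ,
      Ideal.absNorm (Ideal.span {τ • (σ • B - B)}) :=
    h7.trans (Finset.dvd_prod_of_mem _ (Finset.mem_univ τ))
  have h9 : 0 < ∏ τ : CyclotomicField m ℚ ≃ₐ[ℚ] CyclotomicField m ℚ,
      Ideal.absNorm (Ideal.span {τ • (σ • B - B)}) := by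
    refine Finset.prod_pos fun ρ _ => Nat.pos_of_ne_zero fun h0 => ?_
    rw [Ideal.absNorm_eq_zero_iff, Ideal.span_singleton_eq_bot] at h0
    exact hσB ρ h0
  exact absurd (Nat.le_of_dvd h9 h8) (not_le.2 hlt)

end H36H
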