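import Pool.Agent.Lib.H36H.GP2
import Pool.Agent.Lib.PNT.PNT

set_option autoImplicit false

/-!
# H36H, module GP

CHUNK GP3 (S/M).  Positive lower density of the primes without places of degree one.
-/

open NumberField Polynomial

namespace H36H

theorem GP3_theta (m : ℕ) [NeZero m] (a : ℕ) (ha : a.Coprime m) (p₀ : ℕ) :
    ∃ c₀ : ℝ, 0 < c₀ ∧ ∃ X₀ : ℕ, ∀ X ≥ X₀, c₀ * (X : ℝ) ≤
      ∑ q ∈ (Finset.Icc 1 X).filter (fun q : ℕ => q.Prime ∧ p₀ < q ∧ (q : ZMod m) = (a : ZMod m)),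
        Real.log q := by
  have hu : IsUnit (a : ZMod m) := (ZMod.isUnit_iff_coprime a m).2 ha
  have h := Pool.Agent.Lib.PNT.thetaAP_tendsto (q := m) hu
  have hφ : (0 : ℝ) < ((Nat.totient m : ℕ) : ℝ)⁻¹ := by
    have : 0 < Nat.totient m := Nat.totient_pos.2 (NeZero.pos m)
    positivity
  set t : ℝ := ((Nat.totient m : ℕ) : ℝ)⁻¹ with ht
  have h2 := h.eventually (lt_mem_nhds (show t / 2 < t by linarith))
  set C : ℝ := ∑ q ∈ Finset.Icc 1 p₀, Real.log q with hC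
  have hC0 : 0 ≤ C := Finset.sum_nonneg fun q hq =>
    Real.log_nonneg (by exact_mod_cast (Finset.mem_Icc.1 hq).1)
  obtain ⟨R, hR⟩ := Filter.eventually_atTop.1 (h2.and (Filter.eventually_gt_atTop (0 : ℝ)))
  obtain ⟨X₀, hX₀⟩ := exists_nat_ge (max R (4 * C / t))
  refine ⟨t / 4, by positivity, X₀, fun X hX => ?_⟩
  have hX1 : (X₀ : ℝ) ≤ (X : ℝ) := by exact_mod_cast hX
  have hXR : R ≤ (X : ℝ) := (le_max_left _ _).trans (hX₀.trans hX1)
  have hXC : 4 * C / t ≤ (X : ℝ) := (le_max_right _ _).trans (hX₀.trans hX1)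
  rw [div_le_iff₀ hφ] at hXC
  obtain ⟨h3, h4⟩ := hR (X : ℝ) hXR
  rw [lt_div_iff₀ h4] at h3
  have h5 : Pool.Agent.Lib.PNT.thetaP (fun q => (q : ZMod m) = (a : ZMod m)) (X : ℝ) ≤
      C + ∑ q ∈ (Finset.Icc 1 X).filter
        (fun q : ℕ => q.Prime ∧ p₀ < q ∧ (q : ZMod m) = (a : ZMod m)), Real.log q := by
    unfold Pool.Agent.Lib.PNT.thetaP
    rw [Nat.floor_natCast]
    have h6 : (Finset.Ioc 0 X).filter (fun q : ℕ => q.Prime ∧ (q : ZMod m) = (a : ZMod m)) ⊆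
        Finset.Icc 1 p₀ ∪ (Finset.Icc 1 X).filter
          (fun q : ℕ => q.Prime ∧ p₀ < q ∧ (q : ZMod m) = (a : ZMod m)) := by
      intro q hq
      rw [Finset.mem_filter, Finset.mem_Ioc] at hq
      rw [Finset.mem_union, Finset.mem_filter, Finset.mem_Icc, Finset.mem_Icc]
      by_cases hqp : q ≤ p₀
      · exact Or.inl ⟨by omega, hqp⟩
      · exact Or.inr ⟨⟨by omega, hq.1.2⟩, hq.2.1, not_le.1 hqp, hq.2.2⟩
    have hlog : ∀ q ∈ Finset.Icc 1 p₀ ∪ (Finset.Icc 1 X).filter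
          (fun q : ℕ => q.Prime ∧ p₀ < q ∧ (q : ZMod m) = (a : ZMod m)), 0 ≤ Real.log (q : ℝ) := by
      intro q hq
      apply Real.log_nonneg
      rw [Finset.mem_union, Finset.mem_filter, Finset.mem_Icc, Finset.mem_Icc] at hq
      have : 1 ≤ q := by
        rcases hq with h | h
        · exact h.1
        · exact h.1.1
      exact_mod_cast this
    refine (Finset.sum_le_sum_of_subset_of_nonneg h6 fun q hq _ => hlog q hq).trans ?_
    have h7 := Finset.sum_union_inter (s₁ := Finset.Icc 1 p₀) (s₂ := (Finset.Icc 1 X).filter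
      (fun q : ℕ => q.Prime ∧ p₀ < q ∧ (q : ZMod m) = (a : ZMod m))) (f := fun q : ℕ => Real.log (q : ℝ))
    have h8 : 0 ≤ ∑ q ∈ Finset.Icc 1 p₀ ∩ (Finset.Icc 1 X).filter
        (fun q : ℕ => q.Prime ∧ p₀ < q ∧ (q : ZMod m) = (a : ZMod m)), Real.log (q : ℝ) := by
      refine Finset.sum_nonneg fun q hq => hlog q ?_
      exact Finset.mem_union_left _ (Finset.mem_inter.1 hq).1
    rw [hC]
    linarith
  linarith

/-- CHUNK GP3 (S/M).  From `GP1_exists`, `GP2_noideal` (after multiplying `α` by a positive integer to make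
it integral; the minimal polynomial of `n α` has the root `n β`) and the prime number theorem in
progressions `Pool.Agent.Lib.PNT.thetaAP_tendsto` (copy `H53M/N1.lean`, any modulus; the finitely many
`p ≤ p₀` contribute `O(1)`); `c₀ = 1 / (2 φ(m))` or smaller.  The finite sum over the set
`{p ≤ X, p prime, no ideal of norm p}` is at least the sum over `p ≡ a mod m`, `p₀ < p ≤ X`. -/
theorem GP_main (F : Type*) [Field F] [NumberField F] (m : ℕ) [NeZero m] (α : F)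
    (hα : ∀ q : ℚ, algebraMap ℚ F q ≠ α) (β : CyclotomicField m ℚ)
    (hαβ : aeval β (minpoly ℚ α) = 0) :
    ∃ c₀ : ℝ, 0 < c₀ ∧ ∃ X₀ : ℕ, ∀ X ≥ X₀, c₀ * (X : ℝ) ≤
      ∑ᶠ p ∈ {p : ℕ | p ≤ X ∧ p.Prime ∧ ∀ P : Ideal (𝓞 F), Ideal.absNorm P ≠ p},
        Real.log p := by
  classical
  have hαalg : IsAlgebraic ℤ α := by
    rw [IsFractionRing.isAlgebraic_iff ℤ ℚ F]
    exact Algebra.IsAlgebraic.isAlgebraic α
  obtain ⟨y, hy0, hy⟩ := hαalg.exists_integral_multiple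
  set n : ℕ := (y ^ 2).toNat with hn
  have hnz : (n : ℤ) = y ^ 2 := Int.toNat_of_nonneg (sq_nonneg _)
  have hn0 : 0 < n := by
    have : 0 < y ^ 2 := by positivity
    omega
  have hnint : IsIntegral ℤ ((n : F) * α) := by
    have h1 : (n : F) * α = algebraMap ℤ F y * (y • α) := by
      have h2 : (n : F) = ((n : ℤ) : F) := by push_cast; rfl
      rw [h2, hnz, zsmul_eq_mul]
      simp only [eq_intCast]
      push_cast
      ring
    rw [h1]
    exact isIntegral_algebraMap.mul hy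
  have hnF : (n : F) ≠ 0 := Nat.cast_ne_zero.2 hn0.ne'
  have hnL : (n : CyclotomicField m ℚ) ≠ 0 := Nat.cast_ne_zero.2 hn0.ne'
  -- β is not rational
  have hβ : ∀ q : ℚ, algebraMap ℚ (CyclotomicField m ℚ) q ≠ (n : CyclotomicField m ℚ) * β := by
    intro q hq
    have h1 : β = algebraMap ℚ (CyclotomicField m ℚ) (q / n) := by
      rw [map_div₀, hq, map_natCast]
      field_simp
    have h2 : (minpoly ℚ α).eval (q / n) = 0 := by
      rw [h1, Polynomial.aeval_algebraMap_apply_eq_algebraMap_eval, map_eq_zero] at hαβ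
      exact hαβ
    have h3 := minpoly.root (A := ℚ) (B := F) (Algebra.IsIntegral.isIntegral α) h2
    exact hα _ h3
  have hαβ' : aeval ((n : CyclotomicField m ℚ) * β) (minpoly ℚ ((n : F) * α)) = 0 := by
    have h1 : minpoly ℚ β = minpoly ℚ α :=
      (minpoly.eq_of_irreducible_of_monic (minpoly.irreducible (Algebra.IsIntegral.isIntegral α))
        hαβ (minpoly.monic (Algebra.IsIntegral.isIntegral α))).symm
    exact GP2_scale β α (Algebra.IsIntegral.isIntegral β) (by rw [h1]; exact minpoly.aeval ℚ α) n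
  obtain ⟨D, g, ζ, a, σ, hD, hζ, hg, ha, hσ, hσβ⟩ := GP1_exists m _ hβ
  obtain ⟨p₀, hp₀⟩ := GP2_noideal F m _ hnint _ ζ hαβ' D hD g a σ hζ hg ha hσ hσβ
  obtain ⟨c₀, hc₀, X₀, hX₀⟩ := GP3_theta m a ha p₀
  refine ⟨c₀, hc₀, X₀, fun X hX => (hX₀ X hX).trans ?_⟩
  have hfin : {p : ℕ | p ≤ X ∧ p.Prime ∧ ∀ P : Ideal (𝓞 F), Ideal.absNorm P ≠ p}.Finite :=
    (Set.finite_Iic X).subset fun p hp => hp.1
  rw [finsum_mem_eq_finite_toFinset_sum _ hfin]
  refine Finset.sum_le_sum_of_subset_of_nonneg ?_ ?_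
  · intro q hq
    rw [Finset.mem_filter, Finset.mem_Icc] at hq
    rw [Set.Finite.mem_toFinset]
    exact ⟨hq.1.2, hq.2.1, hp₀ q hq.2.1 hq.2.2.1 hq.2.2.2⟩
  · intro q hq _
    rw [Set.Finite.mem_toFinset] at hq
    exact Real.log_nonneg (by exact_mod_cast hq.2.1.one_lt.le)

end H36H
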