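import Pool.Agent.Lib.H36H.W2
import Pool.Agent.Lib.H36H.KF
import Mathlib.RingTheory.Polynomial.Vieta

set_option autoImplicit false

/-!
# H36H, the instance of `KArr` for a totally real field: algebra

Norm, trace and elementary symmetric functions of the conjugates; the cofactor `N(ξ)/ξ`.
-/

open NumberField Polynomial

namespace H36H

section Emb

variable (F : Type*) [Field F] [NumberField F] [IsTotallyReal F]

/-- The real and the complex embeddings of a totally real field. -/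
noncomputable def embEquiv : (F →+* ℝ) ≃ (F →+* ℂ) where
  toFun φ := Complex.ofRealHom.comp φ
  invFun ψ := (IsTotallyReal.complexEmbedding_isReal ψ).embedding
  left_inv φ := by
    ext x
    apply Complex.ofReal_injective
    rw [ComplexEmbedding.IsReal.coe_embedding_apply]
    rfl
  right_inv ψ := by
    ext x
    exact ComplexEmbedding.IsReal.coe_embedding_apply _ x

omit [NumberField F] in
@[simp] theorem embEquiv_apply (φ : F →+* ℝ) (x : F) : embEquiv F φ x = (φ x : ℂ) := rfl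

theorem in_card : Fintype.card (F →+* ℝ) = Module.finrank ℚ F := by
  rw [Fintype.card_congr (embEquiv F), Embeddings.card F ℂ]

variable {F}

theorem in_norm (x : F) : ((Algebra.norm ℚ x : ℚ) : ℝ) = ∏ φ : F →+* ℝ, φ x := by
  have h := Algebra.norm_eq_prod_embeddings ℚ ℂ x
  rw [← Equiv.prod_comp (RingHom.equivRatAlgHom (R := F) (S := ℂ)),
    ← Equiv.prod_comp (embEquiv F)] at h
  apply Complex.ofReal_injective
  rw [Complex.ofReal_prod]
  simpa using h

theorem in_trace (x : F) : ((Algebra.trace ℚ F x : ℚ) : ℝ) = ∑ φ : F →+* ℝ, φ x := by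
  have h := trace_eq_sum_embeddings (K := ℚ) (L := F) ℂ (x := x)
  rw [← Equiv.sum_comp (RingHom.equivRatAlgHom (R := F) (S := ℂ)),
    ← Equiv.sum_comp (embEquiv F)] at h
  apply Complex.ofReal_injective
  rw [Complex.ofReal_sum]
  simpa using h

theorem in_normZ (x : 𝓞 F) : ((Algebra.norm ℤ x : ℤ) : ℝ) = ∏ φ : F →+* ℝ, φ x := by
  rw [← in_norm, ← Algebra.coe_norm_int]
  simp

theorem in_traceZ (x : 𝓞 F) : ((Algebra.trace ℤ (𝓞 F) x : ℤ) : ℝ) = ∑ φ : F →+* ℝ, φ x := by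
  rw [← in_trace, ← Algebra.coe_trace_int]
  simp

/-- The characteristic polynomial of the multiplication by `-x`. -/
noncomputable def inP (x : 𝓞 F) : ℤ[X] := (Algebra.lmul ℤ (𝓞 F) (-x)).charpoly

theorem inP_map (x : 𝓞 F) :
    (inP x).map (Int.castRingHom ℝ) = ∏ φ : F →+* ℝ, (X + C (φ x)) := by
  refine Polynomial.eq_of_infinite_eval_eq _ _ ?_
  refine Set.Infinite.mono ?_ (Set.infinite_range_of_injective (f := fun t : ℤ => (t : ℝ))
    Int.cast_injective)
  rintro _ ⟨t, rfl⟩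
  change Polynomial.eval _ _ = Polynomial.eval _ _
  have h1 : ((inP x).map (Int.castRingHom ℝ)).eval (t : ℝ) = (((inP x).eval t : ℤ) : ℝ) := by
    exact Polynomial.eval_intCast_map (Int.castRingHom ℝ) (inP x) t
  rw [h1]
  unfold inP
  rw [LinearMap.eval_charpoly]
  have h2 : (algebraMap ℤ (Module.End ℤ (𝓞 F)) t - Algebra.lmul ℤ (𝓞 F) (-x)) =
      Algebra.lmul ℤ (𝓞 F) ((t : 𝓞 F) + x) := by
    ext y
    simp [sub_eq_add_neg]
  rw [h2]
  have h3 : LinearMap.det (Algebra.lmul ℤ (𝓞 F) ((t : 𝓞 F) + x)) = Algebra.norm ℤ ((t : 𝓞 F) + x) :=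
    rfl
  rw [h3, in_normZ, Polynomial.eval_prod]
  refine Finset.prod_congr rfl fun φ _ => ?_
  simp

/-- The elementary symmetric functions of the conjugates. -/
noncomputable def inEs (x : 𝓞 F) (j : ℕ) : ℤ :=
  if j ≤ Fintype.card (F →+* ℝ) then (inP x).coeff (Fintype.card (F →+* ℝ) - j) else 0

theorem inEs_eq (x : 𝓞 F) (j : ℕ) :
    MvPolynomial.aeval (fun φ : F →+* ℝ => φ x) (MvPolynomial.esymm (F →+* ℝ) ℤ j) =
      (inEs x j : ℝ) := by
  have h0 : MvPolynomial.aeval (fun φ : F →+* ℝ => φ x) (MvPolynomial.esymm (F →+* ℝ) ℤ j) =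
      ∑ t ∈ Finset.powersetCard j (Finset.univ : Finset (F →+* ℝ)), ∏ φ ∈ t, φ x := by
    unfold MvPolynomial.esymm
    simp
  rw [h0]
  unfold inEs
  split_ifs with h
  · have h1 := Finset.prod_X_add_C_coeff (Finset.univ : Finset (F →+* ℝ)) (fun φ => φ x)
      (k := Fintype.card (F →+* ℝ) - j) (by rw [Finset.card_univ]; omega)
    rw [← inP_map, Polynomial.coeff_map, Finset.card_univ, Nat.sub_sub_self h] at h1
    rw [← h1]
    rfl
  · rw [Finset.powersetCard_eq_empty.2 (by rw [Finset.card_univ]; omega)]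
    simp

/-- The cofactor `N(x)/x`. -/
theorem in_cof_exists (x : 𝓞 F) (hx : x ≠ 0) :
    ∃ y : 𝓞 F, x * y = (Algebra.norm ℤ x : 𝓞 F) := by
  obtain ⟨φ0⟩ : Nonempty (F →+* ℝ) := by
    rw [← Fintype.card_pos_iff, in_card]
    exact Module.finrank_pos
  classical
  have hx0 : (x : F) ≠ 0 := by exact_mod_cast hx
  have hy : IsIntegral ℤ ((algebraMap ℚ F (Algebra.norm ℚ (x : F))) / x : F) := by
    have h1 : φ0 ((algebraMap ℚ F (Algebra.norm ℚ (x : F))) / x) =
        ∏ φ ∈ Finset.univ.erase φ0, φ x := by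
      rw [map_div₀]
      have h2 : φ0 (algebraMap ℚ F (Algebra.norm ℚ (x : F))) = ∏ φ : F →+* ℝ, φ x := by
        rw [← in_norm]
        simp
      rw [h2, ← Finset.mul_prod_erase _ _ (Finset.mem_univ φ0), mul_div_cancel_left₀]
      exact (map_ne_zero φ0).2 hx0
    have h3 : IsIntegral ℤ (φ0 ((algebraMap ℚ F (Algebra.norm ℚ (x : F))) / x)) := by
      rw [h1]
      refine IsIntegral.prod _ fun φ _ => ?_
      exact (RingOfIntegers.isIntegral_coe x).map φ.toIntAlgHom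
    exact (isIntegral_algHom_iff φ0.toIntAlgHom φ0.injective).1 h3
  obtain ⟨y, hyy⟩ : ∃ y : 𝓞 F, (y : F) = (algebraMap ℚ F (Algebra.norm ℚ (x : F))) / x :=
    ⟨⟨_, hy⟩, rfl⟩
  refine ⟨y, RingOfIntegers.ext ?_⟩
  have h4 : ((x * y : 𝓞 F) : F) = (x : F) * (y : F) := by simp
  rw [h4, hyy, mul_div_cancel₀ _ hx0, ← Algebra.coe_norm_int]
  simp

open scoped Classical in
/-- The cofactor `N(x)/x`. -/
noncomputable def inCof (x : 𝓞 F) : 𝓞 F :=
  if hx : x = 0 then 0 else (in_cof_exists x hx).choose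

theorem inCof_mul {x : 𝓞 F} (hx : x ≠ 0) : x * inCof x = (Algebra.norm ℤ x : 𝓞 F) := by
  unfold inCof
  rw [dif_neg hx]
  exact (in_cof_exists x hx).choose_spec

/-- The integer `N(x)² Tr(x⁻²)`. -/
noncomputable def inQ2 (x : 𝓞 F) : ℤ := Algebra.trace ℤ (𝓞 F) (inCof x ^ 2)

theorem inQ2_eq {x : 𝓞 F} (hx : x ≠ 0) : ((inQ2 x : ℤ) : ℝ) =
    (∏ φ : F →+* ℝ, φ x) ^ 2 * ∑ φ : F →+* ℝ, ((φ x) ^ 2)⁻¹ := by
  unfold inQ2
  rw [in_traceZ, Finset.mul_sum]
  refine Finset.sum_congr rfl fun φ _ => ?_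
  have h := congrArg (fun y : 𝓞 F => φ (y : F)) (inCof_mul hx)
  have hx0 : φ (x : F) ≠ 0 := (map_ne_zero φ).2 (by exact_mod_cast hx)
  have h2 : φ (x : F) * φ (inCof x : F) = ∏ φ : F →+* ℝ, φ x := by
    rw [← in_normZ]
    simpa using h
  rw [← h2]
  simp only [map_pow]
  field_simp

end Emb

end H36H
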