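import Pool.Agent.Lib.H36H.IN1

set_option autoImplicit false

/-!
# H36H, the instance of `KArr` for a totally real field: analysis

Mean value of an almost periodic function in one variable; the bound `|c(ξ)| ≤ C N(ξ)^(k/2)`; the number
of totally positive integers of a given trace.
-/

open NumberField Filter Topology

namespace H36H

/-! ### Mean value -/

theorem in_int (α : ℝ) (hα : α ≠ 0) (n : ℝ) :
    ‖∫ t in (0 : ℝ)..n, Complex.exp (2 * Real.pi * Complex.I * (α * t))‖ ≤ 1 / (Real.pi * |α|) := by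
  have hc : (2 * Real.pi * Complex.I * α : ℂ) ≠ 0 := by
    have h1 : (Real.pi : ℂ) ≠ 0 := by exact_mod_cast Real.pi_ne_zero
    have h2 : (α : ℂ) ≠ 0 := by exact_mod_cast hα
    exact mul_ne_zero (mul_ne_zero (mul_ne_zero two_ne_zero h1) Complex.I_ne_zero) h2
  have h := integral_exp_mul_complex (a := 0) (b := n) hc
  have e : (fun t : ℝ => Complex.exp (2 * Real.pi * Complex.I * (α * t))) =
      fun t : ℝ => Complex.exp (2 * Real.pi * Complex.I * α * t) := by
    funext t
    congr 1
    ring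
  rw [e, h, norm_div]
  have h3 : ‖(2 * Real.pi * Complex.I * α : ℂ)‖ = 2 * (Real.pi * |α|) := by
    rw [norm_mul, norm_mul, norm_mul, Complex.norm_I, Complex.norm_real, Complex.norm_real]
    simp only [Complex.norm_ofNat, Real.norm_eq_abs, abs_of_pos Real.pi_pos]
    ring
  have hpos : 0 < Real.pi * |α| := mul_pos Real.pi_pos (abs_pos.2 hα)
  rw [h3, div_le_div_iff₀ (by positivity) hpos]
  have h4 : ‖Complex.exp (2 * Real.pi * Complex.I * α * n) -
      Complex.exp (2 * Real.pi * Complex.I * α * (0 : ℝ))‖ ≤ 2 := by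
    refine (norm_sub_le _ _).trans ?_
    have h5 : ∀ s : ℝ, ‖Complex.exp (2 * Real.pi * Complex.I * α * s)‖ = 1 := by
      intro s
      have : (2 * Real.pi * Complex.I * α * s : ℂ) = ((2 * Real.pi * α * s : ℝ) : ℂ) * Complex.I := by
        push_cast
        ring
      rw [this, Complex.norm_exp_ofReal_mul_I]
    rw [h5, h5]
    norm_num
  have := mul_le_mul_of_nonneg_right h4 hpos.le
  linarith

/-- A coefficient of an absolutely convergent almost periodic series is bounded by the series. -/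
theorem in_mean {κ : Type*} [Countable κ] (b : κ → ℂ) (hb : Summable fun x => ‖b x‖) (θ : κ → ℝ) (x0 : κ)
    (hθ : ∀ x, x ≠ x0 → θ x ≠ θ x0) (B : ℝ)
    (hB : ∀ t : ℝ, ‖∑' x, b x * Complex.exp (2 * Real.pi * Complex.I * (θ x * t))‖ ≤ B) :
    ‖b x0‖ ≤ B := by
  classical
  have hnorm : ∀ (α t : ℝ), ‖Complex.exp (2 * Real.pi * Complex.I * (α * t))‖ = 1 := by
    intro α t
    have : (2 * Real.pi * Complex.I * (α * t) : ℂ) = ((2 * Real.pi * (α * t) : ℝ) : ℂ) * Complex.I := by
      push_cast
      ring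
    rw [this, Complex.norm_exp_ofReal_mul_I]
  obtain ⟨m, hm⟩ : ∃ m : κ → ℕ → ℂ, ∀ x n, m x n = (1 / (n : ℂ)) *
      ∫ t in (0 : ℝ)..n, Complex.exp (2 * Real.pi * Complex.I * ((θ x - θ x0 : ℝ) * t)) :=
    ⟨_, fun _ _ => rfl⟩
  have hm1 : ∀ x (n : ℕ), 1 ≤ n → ‖m x n‖ ≤ 1 := by
    intro x n hn
    have hn0 : (0 : ℝ) < n := by exact_mod_cast hn
    rw [hm, norm_mul]
    have h1 := intervalIntegral.norm_integral_le_of_norm_le_const (a := (0 : ℝ)) (b := n) (C := 1)
      (f := fun t : ℝ => Complex.exp (2 * Real.pi * Complex.I * ((θ x - θ x0 : ℝ) * t)))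
      (fun t _ => (hnorm _ _).le)
    rw [sub_zero, abs_of_pos hn0, one_mul] at h1
    have h2 : ‖(1 / (n : ℂ))‖ = 1 / (n : ℝ) := by simp
    rw [h2]
    calc 1 / (n : ℝ) * _ ≤ 1 / (n : ℝ) * n := mul_le_mul_of_nonneg_left h1 (by positivity)
      _ = 1 := by field_simp
  -- the limit
  have hlim : Tendsto (fun n : ℕ => ∑' x, b x * m x n) atTop
      (𝓝 (∑' x, if x = x0 then b x0 else 0)) := by
    refine tendsto_tsum_of_dominated_convergence (bound := fun x => ‖b x‖) hb ?_ ?_
    · intro x
      by_cases hx : x = x0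
      · rw [if_pos hx, hx]
        refine tendsto_const_nhds.congr' ?_
        filter_upwards [eventually_ge_atTop 1] with n hn
        have hn0 : (n : ℂ) ≠ 0 := by exact_mod_cast (by omega : n ≠ 0)
        rw [hm]
        simp only [sub_self, Complex.ofReal_zero, zero_mul, mul_zero, Complex.exp_zero]
        rw [intervalIntegral.integral_const]
        simp [hn0]
      · rw [if_neg hx]
        have hα : θ x - θ x0 ≠ 0 := sub_ne_zero.2 (hθ x hx)
        have h1 : Tendsto (fun n : ℕ => ‖b x‖ * (1 / (n : ℝ) * (1 / (Real.pi * |θ x - θ x0|))))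
            atTop (𝓝 0) := by
          have h2 := tendsto_one_div_atTop_nhds_zero_nat (𝕜 := ℝ)
          have h3 := (h2.mul_const (1 / (Real.pi * |θ x - θ x0|))).const_mul ‖b x‖
          simpa using h3
        refine squeeze_zero_norm (fun n => ?_) h1
        rw [norm_mul, hm, norm_mul]
        have h2 : ‖(1 / (n : ℂ))‖ = 1 / (n : ℝ) := by simp
        rw [h2]
        exact mul_le_mul_of_nonneg_left (mul_le_mul_of_nonneg_left (in_int _ hα _)
          (by positivity)) (norm_nonneg _)
    · filter_upwards [eventually_ge_atTop 1] with n hn x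
      rw [norm_mul]
      calc ‖b x‖ * ‖m x n‖ ≤ ‖b x‖ * 1 := mul_le_mul_of_nonneg_left (hm1 x n hn) (norm_nonneg _)
        _ = ‖b x‖ := mul_one _
  rw [tsum_ite_eq] at hlim
  refine le_of_tendsto hlim.norm ?_
  filter_upwards [eventually_ge_atTop 1] with n hn
  have hn0 : (0 : ℝ) < n := by exact_mod_cast hn
  -- exchange
  have hex : ∑' x, b x * m x n = (1 / (n : ℂ)) * ∫ t in (0 : ℝ)..n,
      (∑' x, b x * Complex.exp (2 * Real.pi * Complex.I * (θ x * t))) *
        Complex.exp (2 * Real.pi * Complex.I * ((-θ x0 : ℝ) * t)) := by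
    have h1 : ∀ x, b x * m x n = (1 / (n : ℂ)) * ∫ t in (0 : ℝ)..n,
        b x * Complex.exp (2 * Real.pi * Complex.I * ((θ x - θ x0 : ℝ) * t)) := by
      intro x
      rw [hm, intervalIntegral.integral_const_mul]
      ring
    simp only [h1]
    rw [tsum_mul_left]
    congr 1
    have h2 : ∀ t : ℝ, (∑' x, b x * Complex.exp (2 * Real.pi * Complex.I * (θ x * t))) *
        Complex.exp (2 * Real.pi * Complex.I * ((-θ x0 : ℝ) * t)) =
        ∑' x, b x * Complex.exp (2 * Real.pi * Complex.I * ((θ x - θ x0 : ℝ) * t)) := by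
      intro t
      rw [← tsum_mul_right]
      refine tsum_congr fun x => ?_
      rw [mul_assoc, ← Complex.exp_add]
      congr 2
      push_cast
      ring
    simp only [h2]
    have h3 := intervalIntegral.hasSum_intervalIntegral_of_summable_norm (a := (0 : ℝ)) (b := n)
      (f := fun x => (⟨fun t : ℝ => b x *
        Complex.exp (2 * Real.pi * Complex.I * ((θ x - θ x0 : ℝ) * t)), by fun_prop⟩ : C(ℝ, ℂ))) ?_
    · exact h3.tsum_eq
    · refine Summable.of_nonneg_of_le (fun x => norm_nonneg _) (fun x => ?_) hb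
      refine (ContinuousMap.norm_le _ (norm_nonneg _)).2 fun t => ?_
      simp only [ContinuousMap.restrict_apply, ContinuousMap.coe_mk]
      rw [norm_mul, hnorm, mul_one]
  rw [hex, norm_mul]
  have h1 := intervalIntegral.norm_integral_le_of_norm_le_const (a := (0 : ℝ)) (b := n) (C := B)
    (f := fun t : ℝ => (∑' x, b x * Complex.exp (2 * Real.pi * Complex.I * (θ x * t))) *
        Complex.exp (2 * Real.pi * Complex.I * ((-θ x0 : ℝ) * t)))
    (fun t _ => by
      rw [norm_mul, hnorm, mul_one]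
      exact hB t)
  rw [sub_zero, abs_of_pos hn0] at h1
  have h2 : ‖(1 / (n : ℂ))‖ = 1 / (n : ℝ) := by simp
  rw [h2]
  calc 1 / (n : ℝ) * _ ≤ 1 / (n : ℝ) * (B * n) := mul_le_mul_of_nonneg_left h1 (by positivity)
    _ = B := by field_simp

end H36H
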