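import Pool.Agent.Lib.H36H.IN2

set_option autoImplicit false

/-!
# H36H, the instance of `KArr` for a totally real field

`karr h` : the array of the diagonal cusp form with integral coefficients `c`.
-/

open NumberField

namespace H36H

variable {F : Type*} [Field F] [NumberField F]

theorem in_countable : Countable (𝓞 F) :=
  Countable.of_equiv _ (RingOfIntegers.basis F).equivFun.toEquiv.symm

theorem in_totpos_countable : Countable (TotPos F) := by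
  have := in_countable (F := F)
  infer_instance

variable [IsTotallyReal F]

theorem in_nonempty : Nonempty (F →+* ℝ) := by
  rw [← Fintype.card_pos_iff, in_card]
  exact Module.finrank_pos

theorem in_ne (ξ : TotPos F) : ξ.1 ≠ 0 := by
  obtain ⟨φ⟩ := in_nonempty (F := F)
  intro h
  have := ξ.2 φ
  rw [h] at this
  simp at this

/-- The trace as a natural number. -/
noncomputable def inTr (ξ : TotPos F) : ℕ := (Algebra.trace ℤ (𝓞 F) ξ.1).toNat

theorem inTr_eq (ξ : TotPos F) : ∑ φ : F →+* ℝ, φ ξ.1 = (inTr ξ : ℝ) := by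
  have h : (0 : ℝ) < ((Algebra.trace ℤ (𝓞 F) ξ.1 : ℤ) : ℝ) := by
    rw [in_traceZ]
    have := in_nonempty (F := F)
    exact Finset.sum_pos (fun φ _ => ξ.2 φ) Finset.univ_nonempty
  have h2 : 0 < Algebra.trace ℤ (𝓞 F) ξ.1 := by exact_mod_cast h
  rw [← in_traceZ]
  unfold inTr
  have h3 : ((Algebra.trace ℤ (𝓞 F) ξ.1).toNat : ℤ) = Algebra.trace ℤ (𝓞 F) ξ.1 :=
    Int.toNat_of_nonneg h2.le
  exact_mod_cast h3.symm

theorem in_lt_tr (ξ : TotPos F) (φ : F →+* ℝ) : φ ξ.1 ≤ inTr ξ := by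
  rw [← inTr_eq]
  exact Finset.single_le_sum (f := fun ψ : F →+* ℝ => ψ ξ.1) (fun ψ _ => (ξ.2 ψ).le)
    (Finset.mem_univ φ)

/-- Two integers with the same integral parts of all conjugates are equal. -/
theorem in_floor (x y : 𝓞 F) (hx : ∀ φ : F →+* ℝ, 0 ≤ φ x) (hy : ∀ φ : F →+* ℝ, 0 ≤ φ y)
    (h : ∀ φ : F →+* ℝ, ⌊φ x⌋₊ = ⌊φ y⌋₊) : x = y := by
  have := in_nonempty (F := F)
  by_contra hne
  have h0 : x - y ≠ 0 := sub_ne_zero.2 hne
  have h1 : ∀ φ : F →+* ℝ, |φ (x - y : 𝓞 F)| < 1 := by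
    intro φ
    have h2 := Nat.floor_le (hx φ)
    have h3 := Nat.lt_floor_add_one (φ x)
    have h4 := Nat.floor_le (hy φ)
    have h5 := Nat.lt_floor_add_one (φ y)
    rw [h φ] at h2 h3
    have h6 : φ (x - y : 𝓞 F) = φ x - φ y := by simp
    rw [h6, abs_lt]
    constructor <;> linarith
  have h2 : ((|Algebra.norm ℤ (x - y)| : ℤ) : ℝ) < 1 := by
    rw [Int.cast_abs, in_normZ, Finset.abs_prod]
    obtain ⟨φ0⟩ := this
    classical
    rw [← Finset.mul_prod_erase _ _ (Finset.mem_univ φ0)]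
    calc |φ0 (x - y : 𝓞 F)| * ∏ φ ∈ Finset.univ.erase φ0, |φ (x - y : 𝓞 F)|
        ≤ |φ0 (x - y : 𝓞 F)| * 1 := by
          refine mul_le_mul_of_nonneg_left ?_ (abs_nonneg _)
          exact Finset.prod_le_one (fun φ _ => abs_nonneg _) fun φ _ => (h1 φ).le
      _ < 1 := by
          rw [mul_one]
          exact h1 φ0
  have h3 : Algebra.norm ℤ (x - y) ≠ 0 := Algebra.norm_ne_zero_iff.2 h0
  have h4 : 1 ≤ |Algebra.norm ℤ (x - y)| := Int.one_le_abs h3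
  have h5 : (1 : ℝ) ≤ ((|Algebra.norm ℤ (x - y)| : ℤ) : ℝ) := by exact_mod_cast h4
  linarith

/-- The floor map. -/
noncomputable def inFl (n : ℕ) (ξ : {ξ : TotPos F // inTr ξ = n}) : (F →+* ℝ) → Fin (n + 1) :=
  fun φ => ⟨⌊φ ξ.1.1⌋₊, by
    have h1 := in_lt_tr ξ.1 φ
    rw [ξ.2] at h1
    exact Nat.lt_succ_of_le (Nat.floor_le_of_le h1)⟩

theorem inFl_inj (n : ℕ) : Function.Injective (inFl (F := F) n) := by
  intro ξ ξ' h
  have h1 : ξ.1.1 = ξ'.1.1 := by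
    refine in_floor _ _ (fun φ => (ξ.1.2 φ).le) (fun φ => (ξ'.1.2 φ).le) fun φ => ?_
    have := congrFun h φ
    exact congrArg Fin.val this
  exact Subtype.ext (Subtype.ext h1)

theorem inFib_finite (n : ℕ) : {ξ : TotPos F | inTr ξ = n}.Finite := by
  classical
  exact Finite.of_injective _ (inFl_inj (F := F) n)

/-- The totally positive integers of trace `n`. -/
noncomputable def inFib (F : Type*) [Field F] [NumberField F] [IsTotallyReal F] (n : ℕ) :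
    Finset (TotPos F) := (inFib_finite n).toFinset

theorem mem_inFib (n : ℕ) (ξ : TotPos F) : ξ ∈ inFib F n ↔ inTr ξ = n := by
  unfold inFib
  simp

theorem inFib_card (n : ℕ) : (inFib F n).card ≤ (n + 1) ^ Fintype.card (F →+* ℝ) := by
  classical
  have h1 : (inFib F n).card = Nat.card {ξ : TotPos F // inTr ξ = n} := by
    unfold inFib
    rw [← Set.ncard_eq_toFinset_card _ (inFib_finite n)]
    rfl
  rw [h1]
  have := Finite.of_injective _ (inFl_inj (F := F) n)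
  have h2 := Nat.card_le_card_of_injective _ (inFl_inj (F := F) n)
  refine h2.trans (le_of_eq ?_)
  simp

/-! ### The bound of the coefficients -/

omit [IsTotallyReal F] in
theorem in_fterm_norm (a : 𝓞 F → ℂ) (z : (F →+* ℝ) → ℂ) (ξ : TotPos F) :
    ‖fterm a z ξ‖ = ‖a ξ.1‖ * Real.exp (-(2 * Real.pi * ∑ φ : F →+* ℝ, φ ξ.1 * (z φ).im)) := by
  unfold fterm
  rw [norm_mul]
  congr 1
  exact KArr.norm_exp (fun φ : F →+* ℝ => φ ξ.1) z

/-- A coefficient is bounded by the supremum of the series on a set of given imaginary part. -/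
theorem in_coeff {a : 𝓞 F → ℂ} (z : (F →+* ℝ) → ℂ) (hs : Summable (fterm a z)) (B : ℝ)
    (hB : ∀ w : (F →+* ℝ) → ℂ, (∀ φ, (w φ).im = (z φ).im) → ‖fser a w‖ ≤ B) (ξ : TotPos F) :
    ‖fterm a z ξ‖ ≤ B := by
  classical
  have := in_totpos_countable (F := F)
  obtain ⟨φ0⟩ := in_nonempty (F := F)
  refine in_mean (fun x : TotPos F => fterm a z x) hs.norm
    (fun x => φ0 x.1) ξ (fun x hx hx' => hx (Subtype.ext (by
      have h1 := φ0.injective hx'
      exact_mod_cast h1))) B (fun t => ?_)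
  have h2 : ∀ φ, (Function.update z φ0 (z φ0 + t) φ).im = (z φ).im := by
    intro φ
    by_cases hφ : φ = φ0
    · subst hφ
      simp
    · rw [Function.update_of_ne hφ]
  refine le_trans (le_of_eq ?_) (hB _ h2)
  congr 1
  unfold fser
  refine tsum_congr fun x => ?_
  unfold fterm
  rw [mul_assoc, ← Complex.exp_add]
  congr 2
  have h3 : ∑ φ : F →+* ℝ, ((φ x.1 : ℝ) : ℂ) * Function.update z φ0 (z φ0 + t) φ =
      (∑ φ : F →+* ℝ, ((φ x.1 : ℝ) : ℂ) * z φ) + ((φ0 x.1 : ℝ) : ℂ) * t := by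
    rw [← Finset.add_sum_erase _ _ (Finset.mem_univ φ0),
      ← Finset.add_sum_erase _ (fun φ : F →+* ℝ => ((φ x.1 : ℝ) : ℂ) * z φ)
        (Finset.mem_univ φ0), Function.update_self]
    have h4 : ∑ φ ∈ Finset.univ.erase φ0, ((φ x.1 : ℝ) : ℂ) *
        Function.update z φ0 (z φ0 + t) φ =
        ∑ φ ∈ Finset.univ.erase φ0, ((φ x.1 : ℝ) : ℂ) * z φ :=
      Finset.sum_congr rfl fun φ hφ => by rw [Function.update_of_ne (Finset.ne_of_mem_erase hφ)]
    rw [h4]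
    ring
  rw [h3]
  ring

theorem in_bound {N k : ℕ} {a : 𝓞 F → ℂ} (h : IsDiagCusp N k a) :
    ∃ C : ℝ, 0 ≤ C ∧ ∀ ξ : TotPos F,
      ‖a ξ.1‖ ≤ C * ∏ φ : F →+* ℝ, (φ ξ.1) ^ ((k : ℝ) / 2) := by
  obtain ⟨M, hM⟩ := h.bounded
  have hM0 : 0 ≤ M := by
    refine le_trans ?_ (hM (fun _ => Complex.I) (fun _ => by simp))
    exact mul_nonneg (norm_nonneg _) (Finset.prod_nonneg fun φ _ => by simp)
  obtain ⟨d, hd⟩ : ∃ d : ℕ, d = Fintype.card (F →+* ℝ) := ⟨_, rfl⟩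
  refine ⟨M * Real.exp (2 * Real.pi * d), by positivity, fun ξ => ?_⟩
  have hξ : ∀ φ : F →+* ℝ, 0 < φ ξ.1 := ξ.2
  obtain ⟨z, hz⟩ : ∃ z : (F →+* ℝ) → ℂ, z = fun φ => Complex.I * ((φ ξ.1)⁻¹ : ℝ) := ⟨_, rfl⟩
  have hzim : ∀ φ, (z φ).im = (φ ξ.1)⁻¹ := by
    intro φ
    rw [hz]
    simp
  have hzpos : ∀ φ, 0 < (z φ).im := fun φ => by
    rw [hzim]
    exact inv_pos.2 (hξ φ)
  have hP : 0 < ∏ φ : F →+* ℝ, ((z φ).im) ^ ((k : ℝ) / 2) :=
    Finset.prod_pos fun φ _ => Real.rpow_pos_of_pos (hzpos φ) _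
  have key := in_coeff z (h.summable z hzpos) (M / ∏ φ : F →+* ℝ, ((z φ).im) ^ ((k : ℝ) / 2))
    (fun w hw => by
      rw [le_div_iff₀ hP]
      have h1 := hM w (fun φ => by
        rw [hw]
        exact hzpos φ)
      simp only [hw] at h1
      exact h1) ξ
  rw [in_fterm_norm] at key
  have h1 : ∑ φ : F →+* ℝ, φ ξ.1 * (z φ).im = d := by
    rw [Finset.sum_congr rfl fun φ _ => show φ ξ.1 * (z φ).im = 1 by
      rw [hzim]
      exact mul_inv_cancel₀ (hξ φ).ne']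
    simp [hd]
  have h2 : ∏ φ : F →+* ℝ, ((z φ).im) ^ ((k : ℝ) / 2) =
      (∏ φ : F →+* ℝ, (φ ξ.1) ^ ((k : ℝ) / 2))⁻¹ := by
    rw [← Finset.prod_inv_distrib]
    refine Finset.prod_congr rfl fun φ _ => ?_
    rw [hzim, Real.inv_rpow (hξ φ).le]
  rw [h1, h2, div_inv_eq_mul] at key
  have h3 : ‖a ξ.1‖ = ‖a ξ.1‖ * Real.exp (-(2 * Real.pi * d)) * Real.exp (2 * Real.pi * d) := by
    rw [mul_assoc, ← Real.exp_add]
    simp
  rw [h3]
  calc _ ≤ (M * ∏ φ : F →+* ℝ, (φ ξ.1) ^ ((k : ℝ) / 2)) * Real.exp (2 * Real.pi * d) :=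
        mul_le_mul_of_nonneg_right key (Real.exp_pos _).le
    _ = _ := by ring

/-- Parity: `d k` is even if a coefficient does not vanish. -/
theorem in_even {N k : ℕ} {a : 𝓞 F → ℂ} (h : IsDiagCusp N k a) (ξ : TotPos F) (hξ : a ξ.1 ≠ 0) :
    Even (Fintype.card (F →+* ℝ) * k) := by
  by_contra hodd
  rw [Nat.not_even_iff_odd] at hodd
  have hI : ∀ z : (F →+* ℝ) → ℂ, (∀ φ, (z φ).im = ((fun _ => Complex.I : (F →+* ℝ) → ℂ) φ).im) →
      ‖fser a z‖ ≤ 0 := by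
    intro z hz
    have hz' : ∀ φ, 0 < (z φ).im := fun φ => by
      rw [hz]
      simp
    have h1 := h.modular (-1) 0 0 (-1) (dvd_zero _) (by ring) z hz'
    have h2 : (fun φ => ((((-1 : ℤ) : ℂ)) * z φ + ((0 : ℤ) : ℂ)) /
        (((0 : ℤ) : ℂ) * z φ + ((-1 : ℤ) : ℂ))) = z := by
      funext φ
      push_cast
      ring
    rw [h2] at h1
    have h3 : (∏ φ : F →+* ℝ, (((0 : ℤ) : ℂ) * z φ + ((-1 : ℤ) : ℂ))) ^ k = -1 := by
      rw [Finset.prod_congr rfl fun φ _ => show (((0 : ℤ) : ℂ) * z φ + ((-1 : ℤ) : ℂ)) = -1 by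
        push_cast
        ring]
      rw [Finset.prod_const, Finset.card_univ, ← pow_mul, hodd.neg_one_pow]
    rw [h3] at h1
    have h4 : fser a z = 0 := by
      have : (2 : ℂ) * fser a z = 0 := by linear_combination h1
      simpa using this
    rw [h4, norm_zero]
  have h1 := in_coeff (fun _ => Complex.I) (h.summable _ fun _ => by simp) 0 hI ξ
  rw [in_fterm_norm] at h1
  have h2 : 0 < ‖a ξ.1‖ * Real.exp
      (-(2 * Real.pi * ∑ φ : F →+* ℝ, φ ξ.1 * (Complex.I).im)) :=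
    mul_pos (norm_pos_iff.2 hξ) (Real.exp_pos _)
  exact absurd h1 (not_le.2 h2)

/-- `|c(ξ)| ≤ C (tr ξ + 1) ^ (d k)`. -/
theorem in_bound_tr {N k : ℕ} {a : 𝓞 F → ℂ} (h : IsDiagCusp N k a) :
    ∃ C : ℝ, ∀ ξ : TotPos F,
      ‖a ξ.1‖ ≤ C * ((inTr ξ : ℝ) + 1) ^ (k * Fintype.card (F →+* ℝ)) := by
  obtain ⟨C, hC0, hC⟩ := in_bound h
  refine ⟨C, fun ξ => (hC ξ).trans (mul_le_mul_of_nonneg_left ?_ hC0)⟩
  have h1 : ((inTr ξ : ℝ) + 1) ^ (k * Fintype.card (F →+* ℝ)) =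
      ∏ _φ : F →+* ℝ, ((inTr ξ : ℝ) + 1) ^ k := by
    rw [Finset.prod_const, Finset.card_univ, pow_mul]
  rw [h1]
  have ht : (0 : ℝ) ≤ inTr ξ := Nat.cast_nonneg _
  refine Finset.prod_le_prod (fun φ _ => Real.rpow_nonneg (ξ.2 φ).le _) fun φ _ => ?_
  calc (φ ξ.1) ^ ((k : ℝ) / 2) ≤ ((inTr ξ : ℝ) + 1) ^ ((k : ℝ) / 2) :=
        Real.rpow_le_rpow (ξ.2 φ).le ((in_lt_tr ξ φ).trans (by linarith)) (by positivity)
    _ ≤ ((inTr ξ : ℝ) + 1) ^ (k : ℝ) :=
        Real.rpow_le_rpow_of_exponent_le (by linarith) (by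
          have : (0 : ℝ) ≤ k := Nat.cast_nonneg _
          linarith)
    _ = _ := Real.rpow_natCast _ _

/-! ### The array -/

/-- The array of a diagonal cusp form with integral coefficients. -/
noncomputable def karr {N k : ℕ} {c : 𝓞 F → ℤ} (h : IsDiagCusp N k (fun ξ => (c ξ : ℂ))) :
    KArr (F →+* ℝ) (TotPos F) where
  nu ξ φ := φ ξ.1
  tr := inTr
  fib := inFib F
  mem_fib := mem_inFib
  nu_pos ξ φ := ξ.2 φ
  nu_sum := inTr_eq
  es ξ := inEs ξ.1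
  es_eq ξ j := inEs_eq ξ.1 j
  nm ξ := Algebra.norm ℤ ξ.1
  nm_eq ξ := in_normZ ξ.1
  q2 ξ := inQ2 ξ.1
  q2_eq ξ := inQ2_eq (in_ne ξ)
  card_le := ⟨1, Fintype.card (F →+* ℝ), fun n => by
    rw [one_mul]
    exact_mod_cast inFib_card n⟩
  c ξ := c ξ.1
  c_le := by
    obtain ⟨C, hC⟩ := in_bound_tr h
    refine ⟨C, k * Fintype.card (F →+* ℝ), fun ξ => ?_⟩
    have := hC ξ
    rwa [Complex.norm_intCast] at this

theorem karr_G {N k : ℕ} {c : 𝓞 F → ℤ} (h : IsDiagCusp N k (fun ξ => (c ξ : ℂ)))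
    (z : (F →+* ℝ) → ℂ) : (karr h).G z = fser (fun ξ => (c ξ : ℂ)) z := rfl

theorem karr_trans {N k : ℕ} {c : 𝓞 F → ℤ} (h : IsDiagCusp N k (fun ξ => (c ξ : ℂ))) :
    DTransI N k (karr h).G := by
  intro A B C D hdet hN z hz
  rw [karr_G, karr_G]
  exact h.modular A B C D hN hdet z hz

end H36H
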