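import Pool.Agent.Lib.H36H.KL
import Pool.Agent.Lib.H94M.Defs

/-!
# H36H, module K: the abstract array

`KArr ι Λ` : an integral array `c` indexed by `Λ` (totally positive integers), `ι` the real places.
-/

namespace H36H

open H53M H94M Function

/-- An integral array indexed by `Λ`; `nu ξ i` are the conjugates of `ξ`, `tr ξ` the trace,
`fib n` the set of the elements of trace `n`, `es ξ j` the elementary symmetric functions of the
conjugates, `nm ξ` the norm, `q2 ξ = N(ξ)² Tr(ξ⁻²)`, `c` the coefficients. -/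
structure KArr (ι Λ : Type*) [Fintype ι] where
  nu : Λ → ι → ℝ
  tr : Λ → ℕ
  fib : ℕ → Finset Λ
  mem_fib : ∀ n ξ, ξ ∈ fib n ↔ tr ξ = n
  nu_pos : ∀ ξ i, 0 < nu ξ i
  nu_sum : ∀ ξ, ∑ i, nu ξ i = tr ξ
  es : Λ → ℕ → ℤ
  es_eq : ∀ ξ j, MvPolynomial.aeval (nu ξ) (MvPolynomial.esymm ι ℤ j) = (es ξ j : ℝ)
  nm : Λ → ℤ
  nm_eq : ∀ ξ, (nm ξ : ℝ) = ∏ i, nu ξ i
  q2 : Λ → ℤ
  q2_eq : ∀ ξ, (q2 ξ : ℝ) = (∏ i, nu ξ i) ^ 2 * ∑ i, (nu ξ i ^ 2)⁻¹
  card_le : ∃ C : ℝ, ∃ K : ℕ, ∀ n, ((fib n).card : ℝ) ≤ C * ((n : ℝ) + 1) ^ K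
  c : Λ → ℤ
  c_le : ∃ C : ℝ, ∃ K : ℕ, ∀ ξ, |(c ξ : ℝ)| ≤ C * ((tr ξ : ℝ) + 1) ^ K

variable {ι Λ : Type*} [Fintype ι] [DecidableEq ι]

/-- `G(z) = Σ_ξ c(ξ) e(Σ_i ν_i z_i)`. -/
noncomputable def KArr.G (A : KArr ι Λ) (z : ι → ℂ) : ℂ :=
  ∑' ξ, (A.c ξ : ℂ) * Complex.exp (2 * Real.pi * Complex.I * ∑ i, (A.nu ξ i : ℂ) * z i)

/-- The transformation law under the diagonal action of `Γ₀(N)` in parallel weight `k`. -/
def DTransI (N k : ℕ) (G : (ι → ℂ) → ℂ) : Prop :=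
  ∀ A B C D : ℤ, A * D - B * C = 1 → (N : ℤ) ∣ C → ∀ z : ι → ℂ, (∀ i, 0 < (z i).im) →
    G (fun i => (A * z i + B) / (C * z i + D)) = (∏ i, (C * z i + D)) ^ k * G z

/-- The term of `G_a`. -/
noncomputable def KArr.term (A : KArr ι Λ) (a : ι → ℕ) (z : ι → ℂ) (ξ : Λ) : ℂ :=
  (A.c ξ : ℂ) * (∏ i, (A.nu ξ i : ℂ) ^ a i) *
    Complex.exp (2 * Real.pi * Complex.I * ∑ i, (A.nu ξ i : ℂ) * z i)

/-- `G_a(z) = Σ_ξ c(ξ) Π ν_i^{a_i} e(Σ_i ν_i z_i)`. -/
noncomputable def KArr.GA (A : KArr ι Λ) (a : ι → ℕ) (z : ι → ℂ) : ℂ :=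
  ∑' ξ, A.term a z ξ

/-- The `q`-series of `G_a(z,...,z)`. -/
noncomputable def KArr.T (A : KArr ι Λ) (a : ι → ℕ) : PowerSeries ℂ :=
  PowerSeries.mk fun n => ∑ ξ ∈ A.fib n, (A.c ξ : ℂ) * ∏ i, (A.nu ξ i : ℂ) ^ a i

namespace KArr

variable (A : KArr ι Λ)

omit [DecidableEq ι] in
theorem nu_le (ξ : Λ) (i : ι) : A.nu ξ i ≤ A.tr ξ := by
  rw [← A.nu_sum ξ]
  exact Finset.single_le_sum (f := A.nu ξ) (fun j _ => (A.nu_pos ξ j).le) (Finset.mem_univ i)

omit [DecidableEq ι] in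
theorem finite_fib (n : ℕ) : Finite {ξ // A.tr ξ = n} := by
  have : {ξ | A.tr ξ = n} = (A.fib n : Set Λ) := by
    ext ξ
    simp [A.mem_fib]
  have h : ({ξ | A.tr ξ = n} : Set Λ).Finite := by
    rw [this]
    exact Finset.finite_toSet _
  exact h

omit [DecidableEq ι] in
theorem card_fib (n : ℕ) : Nat.card {ξ // A.tr ξ = n} = (A.fib n).card := by
  have h : {ξ | A.tr ξ = n} = (A.fib n : Set Λ) := by
    ext ξ
    simp [A.mem_fib]
  change Nat.card ({ξ | A.tr ξ = n} : Set Λ) = _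
  rw [h]
  simp

omit [DecidableEq ι] in
/-- Summation over `Λ` of a function of the trace. -/
theorem summable_tr (g : ℕ → ℝ) (hg : ∀ n, 0 ≤ g n)
    (h : Summable fun n => ((A.fib n).card : ℝ) * g n) : Summable fun ξ => g (A.tr ξ) := by
  rw [← (Equiv.sigmaFiberEquiv A.tr).summable_iff]
  refine (summable_sigma_of_nonneg (fun _ => hg _)).2 ⟨fun n => ?_, ?_⟩
  · have := A.finite_fib n
    exact Summable.of_finite
  · refine h.congr fun n => ?_
    have e1 : ∀ y : {ξ // A.tr ξ = n},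
        g (A.tr ((Equiv.sigmaFiberEquiv A.tr) ⟨n, y⟩)) = g n := by
      rintro ⟨y, hy⟩
      simp [Equiv.sigmaFiberEquiv, hy]
    rw [tsum_congr e1, tsum_const, A.card_fib, nsmul_eq_mul]

omit [DecidableEq ι] in
theorem summable_pow (K : ℕ) {ε : ℝ} (hε : 0 < ε) :
    Summable fun ξ => ((A.tr ξ : ℝ) + 1) ^ K * Real.exp (-(2 * Real.pi * ε * A.tr ξ)) := by
  refine A.summable_tr (fun n => ((n : ℝ) + 1) ^ K * Real.exp (-(2 * Real.pi * ε * n)))
    (fun n => by positivity) ?_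
  obtain ⟨C, K', hC⟩ := A.card_le
  have hC0 : 0 ≤ C := by
    have := (Nat.cast_nonneg (α := ℝ) _).trans (hC 0)
    simpa using this
  set r : ℝ := Real.exp (-(2 * Real.pi * ε)) with hr
  have hr0 : 0 < r := Real.exp_pos _
  have hr1 : ‖r‖ < 1 := by
    rw [Real.norm_of_nonneg hr0.le, hr, Real.exp_lt_one_iff]
    have := mul_pos (mul_pos (by norm_num : (0 : ℝ) < 2) Real.pi_pos) hε
    linarith
  have h1 := (summable_pow_mul_geometric_of_norm_lt_one (K' + K) hr1)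
  have h2 : Summable fun n : ℕ => C * (((n : ℝ) + 1) ^ (K' + K) * r ^ n) := by
    refine Summable.mul_left C ?_
    have h3 := (summable_nat_add_iff 1).2 h1
    refine (h3.mul_left r⁻¹).congr fun n => ?_
    push_cast
    rw [pow_succ]
    field_simp
  refine Summable.of_nonneg_of_le (fun n => by positivity) (fun n => ?_) h2
  have e1 : Real.exp (-(2 * Real.pi * ε * n)) = r ^ n := by
    rw [hr, ← Real.exp_nat_mul]
    congr 1
    ring
  rw [e1, pow_add]
  calc ((A.fib n).card : ℝ) * (((n : ℝ) + 1) ^ K * r ^ n)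
      ≤ (C * ((n : ℝ) + 1) ^ K') * (((n : ℝ) + 1) ^ K * r ^ n) := by
        refine mul_le_mul_of_nonneg_right (hC n) (by positivity)
    _ = _ := by ring

omit [DecidableEq ι] in
theorem norm_exp (x : ι → ℝ) (z : ι → ℂ) :
    ‖Complex.exp (2 * Real.pi * Complex.I * ∑ i, (x i : ℂ) * z i)‖ =
      Real.exp (-(2 * Real.pi * ∑ i, x i * (z i).im)) := by
  rw [Complex.norm_exp]
  congr 1
  have h : (∑ i, (x i : ℂ) * z i).im = ∑ i, x i * (z i).im := by
    rw [Complex.im_sum]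
    exact Finset.sum_congr rfl fun i _ => by simp
  rw [Complex.mul_re, h]
  simp

omit [DecidableEq ι] in
/-- A summable majorant of the terms. -/
theorem bound (a : ι → ℕ) {ε : ℝ} (hε : 0 < ε) :
    ∃ M : Λ → ℝ, Summable M ∧ ∀ ξ, ∀ z : ι → ℂ, (∀ i, ε ≤ (z i).im) →
      ‖A.term a z ξ‖ ≤ M ξ := by
  obtain ⟨C, K, hC⟩ := A.c_le
  refine ⟨fun ξ => |C| * (((A.tr ξ : ℝ) + 1) ^ (K + ∑ i, a i) *
    Real.exp (-(2 * Real.pi * ε * A.tr ξ))), (A.summable_pow _ hε).mul_left _, fun ξ z hz => ?_⟩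
  have ht : (0 : ℝ) ≤ A.tr ξ := Nat.cast_nonneg _
  unfold KArr.term
  rw [norm_mul, norm_mul, norm_exp, norm_prod]
  have e1 : ‖(A.c ξ : ℂ)‖ ≤ |C| * ((A.tr ξ : ℝ) + 1) ^ K := by
    rw [Complex.norm_intCast]
    exact (hC ξ).trans (mul_le_mul_of_nonneg_right (le_abs_self C) (by positivity))
  have e2 : ∏ i, ‖(A.nu ξ i : ℂ) ^ a i‖ ≤ ((A.tr ξ : ℝ) + 1) ^ ∑ i, a i := by
    rw [← Finset.prod_pow_eq_pow_sum]
    refine Finset.prod_le_prod (fun i _ => norm_nonneg _) fun i _ => ?_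
    rw [norm_pow, Complex.norm_real, Real.norm_of_nonneg (A.nu_pos ξ i).le]
    exact pow_le_pow_left₀ (A.nu_pos ξ i).le ((A.nu_le ξ i).trans (by linarith)) _
  have e3 : Real.exp (-(2 * Real.pi * ∑ i, A.nu ξ i * (z i).im)) ≤
      Real.exp (-(2 * Real.pi * ε * A.tr ξ)) := by
    rw [Real.exp_le_exp]
    have h5 : ε * A.tr ξ ≤ ∑ i, A.nu ξ i * (z i).im := by
      rw [← A.nu_sum ξ, Finset.mul_sum]
      refine Finset.sum_le_sum fun i _ => ?_
      rw [mul_comm]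
      exact mul_le_mul_of_nonneg_left (hz i) (A.nu_pos ξ i).le
    have hp : 0 < 2 * Real.pi := by positivity
    nlinarith [mul_le_mul_of_nonneg_left h5 hp.le]
  calc _ ≤ (|C| * ((A.tr ξ : ℝ) + 1) ^ K) * ((A.tr ξ : ℝ) + 1) ^ (∑ i, a i) *
        Real.exp (-(2 * Real.pi * ε * A.tr ξ)) := by
        refine mul_le_mul (mul_le_mul e1 e2 (Finset.prod_nonneg fun i _ => norm_nonneg _)
          (by positivity)) e3 (Real.exp_pos _).le (by positivity)
    _ = _ := by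
        simp only [pow_add]
        ring

omit [DecidableEq ι] in
theorem exists_eps (z : ι → ℂ) (hz : ∀ i, 0 < (z i).im) : ∃ ε : ℝ, 0 < ε ∧ ∀ i, ε < (z i).im := by
  rcases isEmpty_or_nonempty ι with h | h
  · exact ⟨1, one_pos, fun i => h.elim i⟩
  · obtain ⟨j, hj⟩ := Finite.exists_min fun i => (z i).im
    exact ⟨(z j).im / 2, half_pos (hz j), fun i => (half_lt_self (hz j)).trans_le (hj i)⟩

omit [DecidableEq ι] in
theorem summable_term (a : ι → ℕ) (z : ι → ℂ) (hz : ∀ i, 0 < (z i).im) :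
    Summable (A.term a z) := by
  obtain ⟨ε, hε, h⟩ := exists_eps z hz
  obtain ⟨M, hM, hb⟩ := A.bound a hε
  exact Summable.of_norm_bounded hM fun ξ => hb ξ z fun i => (h i).le

theorem sum_update (x : ι → ℂ) (z : ι → ℂ) (j : ι) (w : ℂ) :
    ∑ i, x i * update z j w i = x j * w + ∑ i ∈ Finset.univ.erase j, x i * z i := by
  rw [← Finset.add_sum_erase _ _ (Finset.mem_univ j), update_self]
  congr 1
  refine Finset.sum_congr rfl fun i hi => ?_
  rw [update_of_ne (Finset.ne_of_mem_erase hi)]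

theorem prod_update (x : ι → ℂ) (a : ι → ℕ) (j : ι) :
    ∏ i, x i ^ update a j (a j + 1) i = x j * ∏ i, x i ^ a i := by
  rw [← Finset.mul_prod_erase _ _ (Finset.mem_univ j),
    ← Finset.mul_prod_erase _ (fun i => x i ^ a i) (Finset.mem_univ j), update_self, pow_succ,
    mul_comm (x j ^ a j), mul_assoc]
  congr 2
  refine Finset.prod_congr rfl fun i hi => ?_
  rw [update_of_ne (Finset.ne_of_mem_erase hi)]

theorem term_deriv (a : ι → ℕ) (z : ι → ℂ) (j : ι) (w : ℂ) (ξ : Λ) :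
    HasDerivAt (fun w => A.term a (update z j w) ξ)
      (2 * Real.pi * Complex.I * A.term (update a j (a j + 1)) (update z j w) ξ) w := by
  unfold KArr.term
  have h1 : HasDerivAt (fun w : ℂ => 2 * Real.pi * Complex.I *
      ∑ i, (A.nu ξ i : ℂ) * update z j w i) (2 * Real.pi * Complex.I * (A.nu ξ j : ℂ)) w := by
    simp only [sum_update (fun i => (A.nu ξ i : ℂ)) z j]
    have h2 : HasDerivAt (fun w : ℂ => (A.nu ξ j : ℂ) * w +
        ∑ i ∈ Finset.univ.erase j, (A.nu ξ i : ℂ) * z i) (A.nu ξ j : ℂ) w := by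
      simpa using ((hasDerivAt_id w).const_mul (A.nu ξ j : ℂ)).add_const
        (∑ i ∈ Finset.univ.erase j, (A.nu ξ i : ℂ) * z i)
    exact h2.const_mul _
  have h3 := (h1.cexp).const_mul ((A.c ξ : ℂ) * ∏ i, (A.nu ξ i : ℂ) ^ a i)
  refine h3.congr_deriv ?_
  rw [prod_update (fun i => (A.nu ξ i : ℂ)) a j]
  ring

theorem GA_deriv (a : ι → ℕ) (z : ι → ℂ) (j : ι) (w : ℂ) (hz : ∀ i, i ≠ j → 0 < (z i).im)
    (hw : 0 < w.im) :
    HasDerivAt (fun w => A.GA a (update z j w))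
      (2 * Real.pi * Complex.I * A.GA (update a j (a j + 1)) (update z j w)) w := by
  have hz' : ∀ i, 0 < (update z j w i).im := by
    intro i
    by_cases hi : i = j
    · subst hi
      rwa [update_self]
    · rw [update_of_ne hi]
      exact hz i hi
  obtain ⟨ε, hε, h⟩ := exists_eps _ hz'
  obtain ⟨M, hM, hb⟩ := A.bound (update a j (a j + 1)) hε
  have hwε : ε < w.im := by
    have := h j
    rwa [update_self] at this
  have hall : ∀ y : ℂ, ε < y.im → ∀ i, ε ≤ (update z j y i).im := by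
    intro y hy i
    by_cases hi : i = j
    · subst hi
      rw [update_self]
      exact hy.le
    · have := h i
      rw [update_of_ne hi] at this ⊢
      exact this.le
  have hd := hasDerivAt_tsum_of_isPreconnected (hM.mul_left ‖(2 * Real.pi * Complex.I : ℂ)‖)
    (isOpen_lt continuous_const Complex.continuous_im : IsOpen {y : ℂ | ε < y.im})
    (convex_halfSpace_im_gt ε).isPreconnected
    (fun ξ y _ => A.term_deriv a z j y ξ)
    (fun ξ y hy => by
      rw [norm_mul]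
      exact mul_le_mul_of_nonneg_left (hb ξ _ (hall y hy)) (norm_nonneg _))
    (show w ∈ {y : ℂ | ε < y.im} from hwε) (A.summable_term a _ hz')
    (show w ∈ {y : ℂ | ε < y.im} from hwε)
  rw [tsum_mul_left] at hd
  exact hd

omit [DecidableEq ι] in
theorem term_diag (a : ι → ℕ) (z : ℂ) (ξ : Λ) :
    A.term a (fun _ => z) ξ = (A.c ξ : ℂ) * (∏ i, (A.nu ξ i : ℂ) ^ a i) *
      Complex.exp (2 * Real.pi * Complex.I * (A.tr ξ * z)) := by
  unfold KArr.term
  rw [← Finset.sum_mul]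
  congr 4
  have h := congrArg (fun x : ℝ => (x : ℂ)) (A.nu_sum ξ)
  push_cast at h
  exact h

omit [DecidableEq ι] in
theorem T_term (a : ι → ℕ) (z : ℂ) (n : ℕ) :
    PowerSeries.coeff n (A.T a) * Complex.exp (2 * Real.pi * Complex.I * (n * z)) =
      ∑' y : {ξ // A.tr ξ = n}, A.term a (fun _ => z) y := by
  have := A.finite_fib n
  have := Fintype.ofFinite {ξ // A.tr ξ = n}
  rw [tsum_fintype, KArr.T, PowerSeries.coeff_mk, Finset.sum_mul]
  refine Finset.sum_bij' (fun ξ hξ => ⟨ξ, (A.mem_fib n ξ).1 hξ⟩) (fun y _ => y.1)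
    (fun _ _ => Finset.mem_univ _) (fun y _ => (A.mem_fib n y.1).2 y.2) (fun _ _ => rfl)
    (fun _ _ => rfl) fun ξ hξ => ?_
  have h1 : A.tr ξ = n := (A.mem_fib n ξ).1 hξ
  simp only [term_diag, h1]

omit [DecidableEq ι] in
/-- The `q`-series of `G_a(z,..,z)` converges absolutely and represents it. -/
theorem T_Cv (a : ι → ℕ) : Cv (A.T a) := by
  intro z hz
  have h := (A.summable_term a (fun _ => z) (fun _ => hz)).norm
  rw [← (Equiv.sigmaFiberEquiv A.tr).summable_iff] at h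
  have h2 := (summable_sigma_of_nonneg (fun _ => norm_nonneg _)).1 h
  refine Summable.of_nonneg_of_le (fun n => norm_nonneg _) (fun n => ?_) h2.2
  rw [T_term]
  exact norm_tsum_le_tsum_norm (h2.1 n)

omit [DecidableEq ι] in
theorem T_ev (a : ι → ℕ) (z : ℂ) (hz : 0 < z.im) : ev (A.T a) z = A.GA a fun _ => z := by
  have h := (A.summable_term a (fun _ => z) (fun _ => hz))
  unfold ev KArr.GA
  rw [← (Equiv.sigmaFiberEquiv A.tr).tsum_eq]
  have h3 : Summable (fun p => A.term a (fun _ => z) ((Equiv.sigmaFiberEquiv A.tr) p)) :=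
    (Equiv.sigmaFiberEquiv A.tr).summable_iff.2 h
  rw [h3.tsum_sigma]
  exact tsum_congr fun n => T_term A a z n

end KArr

end H36H
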