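import Pool.Agent.Lib.H53M.KA

/-!
# H36H, module K: the lowering exponential in several variables

`lowV k j s t` : the one variable operator `low1` in the variable `j`;
`lowL k s l t` : the composite of the operators `lowV k j (s j)`, `j` in the list `l`;
`lowA k s t` : all variables, with the same `s`.
-/

namespace H36H

open H53M Function

variable {ι R S : Type*} [DecidableEq ι] [CommSemiring R] [CommSemiring S]

/-- The lowering operator in the variable `j`. -/
noncomputable def lowV (k : ℕ) (j : ι) (s : R) (t : (ι → ℕ) → R) (a : ι → ℕ) : R :=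
  low1 k s (fun b => t (update a j b)) (a j)

/-- The composite of the lowering operators in the variables of the list. -/
noncomputable def lowL (k : ℕ) (s : ι → R) : List ι → ((ι → ℕ) → R) → (ι → ℕ) → R
  | [], t => t
  | j :: l, t => lowV k j (s j) (lowL k s l t)

/-- All variables. -/
noncomputable def lowA [Fintype ι] (k : ℕ) (s : R) (t : (ι → ℕ) → R) : (ι → ℕ) → R :=
  lowL k (fun _ => s) Finset.univ.toList t

theorem lowL_nil (k : ℕ) (s : ι → R) (t : (ι → ℕ) → R) : lowL k s [] t = t := rfl

theorem lowL_cons (k : ℕ) (s : ι → R) (j : ι) (l : List ι) (t : (ι → ℕ) → R) :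
    lowL k s (j :: l) t = lowV k j (s j) (lowL k s l t) := rfl

theorem lowV_eq (k : ℕ) (j : ι) (s : R) (t : (ι → ℕ) → R) (a : ι → ℕ) :
    lowV k j s t a = ∑ i ∈ Finset.range (a j + 1), (kc k (a j) i : R) * s ^ i *
      t (update a j (a j - i)) := rfl

theorem lowV_update (k : ℕ) (j : ι) (s : R) (t : (ι → ℕ) → R) (a : ι → ℕ) (b : ℕ) :
    lowV k j s t (update a j b) = low1 k s (fun b => t (update a j b)) b := by
  unfold lowV
  rw [update_self]
  simp only [update_idem]

theorem lowV_lowV (k : ℕ) (hk : 1 ≤ k) (j : ι) (s r : R) (t : (ι → ℕ) → R) :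
    lowV k j s (lowV k j r t) = lowV k j (s + r) t := by
  funext a
  have h : lowV k j s (lowV k j r t) a =
      low1 k s (fun b => low1 k r (fun b' => t (update a j b')) b) (a j) := by
    unfold lowV
    congr 1
    funext b
    exact lowV_update k j r t a b
  rw [h, low1_low1 k hk]
  rfl

theorem lowV_comm (k : ℕ) {i j : ι} (hij : i ≠ j) (s r : R) (t : (ι → ℕ) → R) :
    lowV k i s (lowV k j r t) = lowV k j r (lowV k i s t) := by
  funext a
  have h1 : lowV k i s (lowV k j r t) a =
      low1 k s (fun b => low1 k r (fun b' => t (update (update a i b) j b')) (a j)) (a i) := by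
    unfold lowV
    congr 1
    funext b
    rw [update_of_ne hij.symm]
  have h2 : lowV k j r (lowV k i s t) a =
      low1 k r (fun b' => low1 k s (fun b => t (update (update a i b) j b')) (a i)) (a j) := by
    unfold lowV
    congr 1
    funext b'
    rw [update_of_ne hij]
    congr 1
    funext b
    rw [update_comm hij.symm]
  rw [h1, h2, KA_comm]

theorem lowL_lowV_comm (k : ℕ) (s : ι → R) (l : List ι) (j : ι) (hj : j ∉ l) (r : R)
    (t : (ι → ℕ) → R) : lowL k s l (lowV k j r t) = lowV k j r (lowL k s l t) := by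
  induction l with
  | nil => rfl
  | cons i l ih =>
    rw [List.mem_cons, not_or] at hj
    rw [lowL_cons, ih hj.2, lowL_cons, lowV_comm k (Ne.symm hj.1)]

theorem lowL_lowL (k : ℕ) (hk : 1 ≤ k) (s r : ι → R) (l : List ι) (hl : l.Nodup)
    (t : (ι → ℕ) → R) : lowL k s l (lowL k r l t) = lowL k (fun i => s i + r i) l t := by
  induction l with
  | nil => rfl
  | cons j l ih =>
    rw [List.nodup_cons] at hl
    rw [lowL_cons, lowL_cons, lowL_cons, lowL_lowV_comm k s l j hl.1, lowV_lowV k hk, ih hl.2]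

theorem lowV_zero (k : ℕ) (j : ι) (t : (ι → ℕ) → R) : lowV k j 0 t = t := by
  funext a
  unfold lowV
  rw [low1_zero, update_eq_self]

theorem lowL_zero (k : ℕ) (l : List ι) (t : (ι → ℕ) → R) : lowL k (fun _ => 0) l t = t := by
  induction l with
  | nil => rfl
  | cons j l ih => rw [lowL_cons, ih, lowV_zero]

theorem lowL_perm (k : ℕ) (s : ι → R) {l l' : List ι} (h : l.Perm l') (t : (ι → ℕ) → R) :
    lowL k s l t = lowL k s l' t := by
  induction h with
  | nil => rfl
  | cons j _ ih => rw [lowL_cons, lowL_cons, ih]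
  | swap i j l =>
    rw [lowL_cons, lowL_cons, lowL_cons, lowL_cons]
    by_cases hij : i = j
    · subst hij
      rfl
    · exact lowV_comm k (Ne.symm hij) _ _ _
  | trans _ _ ih1 ih2 => rw [ih1, ih2]

theorem lowL_congr (k : ℕ) {s s' : ι → R} (l : List ι) (h : ∀ j ∈ l, s j = s' j)
    (t : (ι → ℕ) → R) : lowL k s l t = lowL k s' l t := by
  induction l with
  | nil => rfl
  | cons j l ih =>
    rw [lowL_cons, lowL_cons, h j List.mem_cons_self,
      ih fun i hi => h i (List.mem_cons_of_mem _ hi)]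

/-- `lowL` commutes with ring homomorphisms. -/
theorem map_lowL (φ : R →+* S) (k : ℕ) (s : ι → R) (l : List ι) (t : (ι → ℕ) → R) (a : ι → ℕ) :
    φ (lowL k s l t a) = lowL k (fun i => φ (s i)) l (fun a' => φ (t a')) a := by
  induction l generalizing a with
  | nil => rfl
  | cons j l ih =>
    rw [lowL_cons, lowL_cons, lowV_eq, lowV_eq]
    simp only [map_sum, map_mul, map_pow, map_natCast, ih]

theorem lowL_sum {κ : Type*} (k : ℕ) (s : ι → R) (l : List ι) (u : Finset κ)
    (t : κ → (ι → ℕ) → R) (a : ι → ℕ) :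
    lowL k s l (fun a' => ∑ x ∈ u, t x a') a = ∑ x ∈ u, lowL k s l (t x) a := by
  induction l generalizing a with
  | nil => rfl
  | cons j l ih =>
    rw [lowL_cons, lowV_eq]
    simp only [ih, lowL_cons, lowV_eq]
    rw [Finset.sum_comm]
    refine Finset.sum_congr rfl fun i _ => ?_
    rw [Finset.mul_sum]

theorem lowL_mul (k : ℕ) (s : ι → R) (l : List ι) (w : R) (t : (ι → ℕ) → R) (a : ι → ℕ) :
    lowL k s l (fun a' => w * t a') a = w * lowL k s l t a := by
  induction l generalizing a with
  | nil => rfl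
  | cons j l ih =>
    rw [lowL_cons, lowV_eq, lowL_cons, lowV_eq, Finset.mul_sum]
    refine Finset.sum_congr rfl fun i _ => ?_
    rw [ih]
    ring

/-- Shift in a variable outside the list. -/
theorem lowL_shift (k : ℕ) (s : ι → R) (l : List ι) (j : ι) (hj : j ∉ l) (t : (ι → ℕ) → R)
    (a : ι → ℕ) : lowL k s l (fun a' => t (update a' j (a' j + 1))) a =
      lowL k s l t (update a j (a j + 1)) := by
  induction l generalizing a with
  | nil => rfl
  | cons i l ih =>
    rw [List.mem_cons, not_or] at hj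
    rw [lowL_cons, lowV_eq, lowL_cons, lowV_eq, update_of_ne (Ne.symm hj.1)]
    refine Finset.sum_congr rfl fun b _ => ?_
    rw [ih hj.2, update_of_ne hj.1, update_comm (Ne.symm hj.1)]

section Weights

variable [Fintype ι]

theorem sum_update_sub (a : ι → ℕ) (j : ι) (i : ℕ) (hi : i ≤ a j) :
    ∑ x, update a j (a j - i) x + i = ∑ x, a x := by
  have h1 := Finset.sum_update_of_mem (Finset.mem_univ j) a (a j - i)
  have h2 := Finset.add_sum_erase (Finset.univ : Finset ι) a (Finset.mem_univ j)
  rw [h1]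
  rw [Finset.sdiff_singleton_eq_erase]
  omega

/-- Homogeneity. -/
theorem lowL_homog (k : ℕ) (s : ι → R) (l : List ι) (z : R) (n : ℕ) (t : (ι → ℕ) → R)
    (a : ι → ℕ) : z ^ (n + 2 * ∑ x, a x) * lowL k s l t a =
      lowL k (fun i => z ^ 2 * s i) l (fun a' => z ^ (n + 2 * ∑ x, a' x) * t a') a := by
  induction l generalizing a with
  | nil => rfl
  | cons j l ih =>
    rw [lowL_cons, lowV_eq, lowL_cons, lowV_eq, Finset.mul_sum]
    refine Finset.sum_congr rfl fun i hi => ?_
    have hia : i ≤ a j := Nat.lt_succ_iff.1 (Finset.mem_range.1 hi)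
    rw [← ih, mul_pow, ← pow_mul]
    have h1 := sum_update_sub a j i hia
    have h2 : n + 2 * ∑ x, a x = 2 * i + (n + 2 * ∑ x, update a j (a j - i) x) := by omega
    rw [h2, pow_add]
    ring

omit [Fintype ι] in
theorem lowV_perm_arg (k : ℕ) (j : ι) (s : R) (t : (ι → ℕ) → R) (σ : Equiv.Perm ι) (a : ι → ℕ) :
    lowV k j s (fun a' => t (a' ∘ σ)) a = lowV k (σ.symm j) s t (a ∘ σ) := by
  rw [lowV_eq, lowV_eq]
  have h1 : (a ∘ σ) (σ.symm j) = a j := by simp
  rw [h1]
  refine Finset.sum_congr rfl fun i _ => ?_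
  congr 2
  funext x
  by_cases hx : σ x = j
  · subst hx
    simp
  · have h2 : x ≠ σ.symm j := fun h => hx (by rw [h]; simp)
    simp [update_of_ne hx, update_of_ne h2]

omit [Fintype ι] in
theorem lowL_perm_arg (k : ℕ) (s : R) (l : List ι) (t : (ι → ℕ) → R) (σ : Equiv.Perm ι)
    (a : ι → ℕ) : lowL k (fun _ => s) l (fun a' => t (a' ∘ σ)) a =
      lowL k (fun _ => s) (l.map σ.symm) t (a ∘ σ) := by
  induction l generalizing a with
  | nil => rfl
  | cons j l ih =>
    have h : lowL k (fun _ => s) l (fun a' => t (a' ∘ σ)) =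
        fun a' => lowL k (fun _ => s) (l.map σ.symm) t (a' ∘ σ) := funext ih
    rw [lowL_cons, h, lowV_perm_arg, List.map_cons, lowL_cons]

theorem lowA_perm (k : ℕ) (s : R) (t : (ι → ℕ) → R) (σ : Equiv.Perm ι) (a : ι → ℕ) :
    lowA k s (fun a' => t (a' ∘ σ)) a = lowA k s t (a ∘ σ) := by
  unfold lowA
  rw [lowL_perm_arg]
  refine congrFun (lowL_perm k _ ?_ t) _
  rw [List.perm_ext_iff_of_nodup ((List.nodup_map_iff σ.symm.injective).2 (Finset.nodup_toList _))
    (Finset.nodup_toList _)]
  intro i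
  simpa using σ.symm.surjective i

theorem lowA_lowA (k : ℕ) (hk : 1 ≤ k) (s r : R) (t : (ι → ℕ) → R) :
    lowA k s (lowA k r t) = lowA k (s + r) t :=
  lowL_lowL k hk _ _ _ (Finset.nodup_toList _) t

theorem lowA_zero (k : ℕ) (t : (ι → ℕ) → R) : lowA k 0 t = t := lowL_zero k _ t

end Weights

end H36H
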