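import Pool.Agent.Lib.H36H.KT
import Pool.Agent.Lib.H94M.KMF
import Pool.Agent.Lib.H94M.QA3
import Pool.Agent.Lib.H53M.KR
import Pool.Agent.Lib.H53M.K7
import Mathlib.RingTheory.MvPolynomial.Symmetric.FundamentalTheorem

/-!
# H36H, module K: `M_a` and its modularity

`sy ξ a` : the integer `Σ_σ Π_i ν_i^{a_{σ i}}`; `Tq a` : the rational series `Σ_σ T_{a∘σ}`;
`Mq a` : the rational series `Σ_σ M_{a∘σ}`, `M = E_{-E₂/12} T`.
-/

namespace H36H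

open H53M H94M Function PowerSeries

variable {ι Λ : Type*} [Fintype ι] [DecidableEq ι]

section Closure

omit [Fintype ι] in
theorem Cv_lowL (k : ℕ) {s : PowerSeries ℂ} (hs : Cv s) (l : List ι)
    {t : (ι → ℕ) → PowerSeries ℂ} (ht : ∀ a, Cv (t a)) (a : ι → ℕ) :
    Cv (lowL k (fun _ => s) l t a) := by
  induction l generalizing a with
  | nil => exact ht a
  | cons j l ih =>
    rw [lowL_cons, lowV_eq]
    exact Cv_sum _ _ fun i _ => Cv_mul (Cv_mul (Cv_natCast _) (Cv_pow hs _)) (ih _)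

omit [Fintype ι] in
theorem ev_lowL (k : ℕ) {s : PowerSeries ℂ} (hs : Cv s) (l : List ι)
    {t : (ι → ℕ) → PowerSeries ℂ} (ht : ∀ a, Cv (t a)) {z : ℂ} (hz : 0 < z.im) (a : ι → ℕ) :
    ev (lowL k (fun _ => s) l t a) z = lowL k (fun _ => ev s z) l (fun a' => ev (t a') z) a := by
  induction l generalizing a with
  | nil => rfl
  | cons j l ih =>
    rw [lowL_cons, lowV_eq, lowL_cons, lowV_eq,
      ev_sum _ _ (fun i _ => Cv_mul (Cv_mul (Cv_natCast _) (Cv_pow hs _)) (Cv_lowL k hs l ht _)) hz]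
    refine Finset.sum_congr rfl fun i _ => ?_
    rw [ev_mul (Cv_mul (Cv_natCast _) (Cv_pow hs _)) (Cv_lowL k hs l ht _) hz,
      ev_mul (Cv_natCast _) (Cv_pow hs _) hz, ev_natCast _ hz, ev_pow hs _ hz, ih]

omit [Fintype ι] in
theorem CG_lowL (k : ℕ) {s : PowerSeries ℂ} (hs : CG s) (l : List ι)
    {t : (ι → ℕ) → PowerSeries ℂ} (ht : ∀ a, CG (t a)) (a : ι → ℕ) :
    CG (lowL k (fun _ => s) l t a) := by
  induction l generalizing a with
  | nil => exact ht a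
  | cons j l ih =>
    rw [lowL_cons, lowV_eq]
    exact CG_sum _ _ fun i _ => CG_mul (CG_mul (CG_natCast _) (CG_pow hs _)) (ih _)

variable {p : ℕ} [Fact p.Prime]

omit [Fintype ι] in
theorem PI_lowL (k : ℕ) {s : PowerSeries ℚ} (hs : PI p s) (l : List ι)
    {t : (ι → ℕ) → PowerSeries ℚ} (ht : ∀ a, PI p (t a)) (a : ι → ℕ) :
    PI p (lowL k (fun _ => s) l t a) := by
  induction l generalizing a with
  | nil => exact ht a
  | cons j l ih =>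
    rw [lowL_cons, lowV_eq]
    exact PI_sum _ _ fun i _ => PI_mul (PI_mul (PI_natCast _) (PI_pow hs _)) (ih _)

omit [Fintype ι] in
theorem kredQ_lowL (k : ℕ) {s : PowerSeries ℚ} (hs : PI p s) (l : List ι)
    {t : (ι → ℕ) → PowerSeries ℚ} (ht : ∀ a, PI p (t a)) (a : ι → ℕ) :
    redQ p (lowL k (fun _ => s) l t a) =
      lowL k (fun _ => redQ p s) l (fun a' => redQ p (t a')) a := by
  induction l generalizing a with
  | nil => rfl
  | cons j l ih =>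
    rw [lowL_cons, lowV_eq, lowL_cons, lowV_eq,
      kredQ_sum _ _ (fun i _ => PI_mul (PI_mul (PI_natCast _) (PI_pow hs _)) (PI_lowL k hs l ht _))]
    refine Finset.sum_congr rfl fun i _ => ?_
    rw [kredQ_mul (PI_mul (PI_natCast _) (PI_pow hs _)) (PI_lowL k hs l ht _),
      kredQ_mul (PI_natCast _) (PI_pow hs _), kredQ_natCast, kredQ_pow hs, ih]

end Closure

/-! ### The series `M_a` -/

/-- `M_a = (E_{-E₂/12} T)_a`. -/
noncomputable def KArr.M (A : KArr ι Λ) (k : ℕ) (a : ι → ℕ) : PowerSeries ℂ :=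
  lowA k (-(ktoC e2q)) A.T a

omit [DecidableEq ι] in
theorem KArr.T_CG (A : KArr ι Λ) (a : ι → ℕ) : CG (A.T a) := by
  obtain ⟨C, K, hC⟩ := A.c_le
  obtain ⟨C', K', hC'⟩ := A.card_le
  refine ⟨C' * |C|, K' + (K + ∑ i, a i), fun n => ?_⟩
  have hn : (0 : ℝ) ≤ (n : ℝ) := Nat.cast_nonneg n
  unfold KArr.T
  rw [coeff_mk]
  have key : ∀ ξ ∈ A.fib n, ‖(A.c ξ : ℂ) * ∏ i, (A.nu ξ i : ℂ) ^ a i‖ ≤
      |C| * ((n : ℝ) + 1) ^ (K + ∑ i, a i) := by
    intro ξ hξ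
    have ht : A.tr ξ = n := (A.mem_fib n ξ).1 hξ
    rw [norm_mul, norm_prod]
    have e1 : ‖(A.c ξ : ℂ)‖ ≤ |C| * ((n : ℝ) + 1) ^ K := by
      rw [Complex.norm_intCast]
      have := hC ξ
      rw [ht] at this
      exact this.trans (mul_le_mul_of_nonneg_right (le_abs_self C) (by positivity))
    have e2 : ∏ i, ‖(A.nu ξ i : ℂ) ^ a i‖ ≤ ((n : ℝ) + 1) ^ ∑ i, a i := by
      rw [← Finset.prod_pow_eq_pow_sum]
      refine Finset.prod_le_prod (fun i _ => norm_nonneg _) fun i _ => ?_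
      rw [norm_pow, Complex.norm_real, Real.norm_of_nonneg (A.nu_pos ξ i).le]
      have h1 := A.nu_le ξ i
      rw [ht] at h1
      exact pow_le_pow_left₀ (A.nu_pos ξ i).le (h1.trans (by linarith)) _
    calc _ ≤ (|C| * ((n : ℝ) + 1) ^ K) * ((n : ℝ) + 1) ^ ∑ i, a i :=
          mul_le_mul e1 e2 (Finset.prod_nonneg fun i _ => norm_nonneg _) (by positivity)
      _ = _ := by rw [pow_add, mul_assoc]
  refine (norm_sum_le _ _).trans ((Finset.sum_le_card_nsmul _ _ _ key).trans ?_)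
  rw [nsmul_eq_mul, pow_add _ K' _]
  calc ((A.fib n).card : ℝ) * (|C| * ((n : ℝ) + 1) ^ (K + ∑ i, a i))
      ≤ (C' * ((n : ℝ) + 1) ^ K') * (|C| * ((n : ℝ) + 1) ^ (K + ∑ i, a i)) :=
        mul_le_mul_of_nonneg_right (hC' n) (by positivity)
    _ = _ := by ring

theorem KArr.M_CG (A : KArr ι Λ) (k : ℕ) (a : ι → ℕ) : CG (A.M k a) :=
  CG_lowL k (CG_neg CG_e2q) _ (fun a => A.T_CG a) a

theorem KArr.M_Cv (A : KArr ι Λ) (k : ℕ) (a : ι → ℕ) : Cv (A.M k a) :=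
  Cv_lowL k (Cv_neg KE2_Cv) _ (fun a => A.T_Cv a) a

variable {N k : ℕ}

theorem KArr.M_trans (hk : 1 ≤ k) (A : KArr ι Λ) (hT : DTransI N k A.G) {α β C D : ℤ}
    (hdet : α * D - β * C = 1) (hC : (N : ℤ) ∣ C) (a : ι → ℕ) (z : ℂ) (hz : 0 < z.im) :
    ev (A.M k a) ((α * z + β) / (C * z + D)) =
      (C * z + D) ^ (Fintype.card ι * k + 2 * ∑ i, a i) * ev (A.M k a) z := by
  have hz' := mob_im_pos hdet hz
  obtain ⟨e, he⟩ : ∃ e, e = ev (ktoC e2q) z := ⟨_, rfl⟩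
  obtain ⟨w, hw⟩ : ∃ w : ℂ, w = C * z + D := ⟨_, rfl⟩
  obtain ⟨s, hs⟩ : ∃ s : ℂ, s = C / (2 * Real.pi * Complex.I * (C * z + D)) := ⟨_, rfl⟩
  unfold KArr.M lowA
  rw [ev_lowL k (Cv_neg KE2_Cv) _ (fun a => A.T_Cv a) hz',
    ev_lowL k (Cv_neg KE2_Cv) _ (fun a => A.T_Cv a) hz, ev_neg KE2_Cv hz',
    ev_neg KE2_Cv hz, KE2_trans hdet z hz]
  have h1 : (fun a' => ev (A.T a') ((α * z + β) / (C * z + D))) = fun a' =>
      w ^ (Fintype.card ι * k + 2 * ∑ i, a' i) * lowA k s (fun a' => A.GA a' fun _ => z) a' := by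
    funext a'
    rw [A.T_ev a' _ hz', KT hk A hT hdet hC a' z hz, hs, hw]
  have h2 : (fun a' => ev (A.T a') z) = fun a' => A.GA a' fun _ => z := by
    funext a'
    exact A.T_ev a' z hz
  rw [h1, h2, ← he, ← hs, ← hw]
  have h3 : -(w ^ 2 * (e + s)) = w ^ 2 * (-(e + s)) := by ring
  rw [h3, ← lowL_homog]
  congr 1
  change lowA k (-(e + s)) (lowA k s fun a' => A.GA a' fun _ => z) a = _
  rw [lowA_lowA k hk]
  have h4 : -(e + s) + s = -e := by ring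
  rw [h4]
  rfl

/-! ### Integrality -/

/-- The symmetrised monomial. -/
noncomputable def symP (a : ι → ℕ) : MvPolynomial ι ℤ :=
  ∑ σ : Equiv.Perm ι, ∏ i, MvPolynomial.X i ^ a (σ i)

theorem symP_symm (a : ι → ℕ) : (symP a).IsSymmetric := by
  intro τ
  unfold symP
  simp only [map_sum, map_prod, map_pow, MvPolynomial.rename_X]
  rw [← Equiv.sum_comp (Equiv.mulRight τ)]
  refine Finset.sum_congr rfl fun σ _ => ?_
  rw [← Equiv.prod_comp τ (fun i => (MvPolynomial.X i : MvPolynomial ι ℤ) ^ a (σ i))]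
  rfl

theorem KArr.exists_sy (A : KArr ι Λ) (ξ : Λ) (a : ι → ℕ) :
    ∃ m : ℤ, (m : ℝ) = ∑ σ : Equiv.Perm ι, ∏ i, A.nu ξ i ^ a (σ i) := by
  obtain ⟨Q, hQ⟩ := MvPolynomial.esymmAlgHom_surjective (σ := ι) (R := ℤ) (n := Fintype.card ι)
    le_rfl ⟨symP a, symP_symm a⟩
  have h1 : MvPolynomial.aeval (fun i : Fin (Fintype.card ι) => MvPolynomial.esymm ι ℤ (i + 1)) Q =
      symP a := by
    rw [← MvPolynomial.esymmAlgHom_apply, hQ]
  refine ⟨MvPolynomial.aeval (fun i : Fin (Fintype.card ι) => A.es ξ (i + 1)) Q, ?_⟩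
  have h2 : MvPolynomial.aeval (A.nu ξ) (symP a) =
      ∑ σ : Equiv.Perm ι, ∏ i, A.nu ξ i ^ a (σ i) := by
    unfold symP
    simp
  rw [← h2, ← h1]
  have h3 : (MvPolynomial.aeval (A.nu ξ)).comp (MvPolynomial.aeval
      (fun i : Fin (Fintype.card ι) => MvPolynomial.esymm ι ℤ (i + 1))) =
      ((Int.castRingHom ℝ).toIntAlgHom).comp (MvPolynomial.aeval
        (fun i : Fin (Fintype.card ι) => A.es ξ (i + 1))) := by
    refine MvPolynomial.algHom_ext fun i => ?_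
    simp only [AlgHom.comp_apply, MvPolynomial.aeval_X]
    rw [A.es_eq]
    rfl
  exact (DFunLike.congr_fun h3 Q).symm

/-- The integer `Σ_σ Π_i ν_i^{a_{σ i}}`. -/
noncomputable def KArr.sy (A : KArr ι Λ) (ξ : Λ) (a : ι → ℕ) : ℤ := (A.exists_sy ξ a).choose

theorem KArr.sy_eq (A : KArr ι Λ) (ξ : Λ) (a : ι → ℕ) :
    (A.sy ξ a : ℝ) = ∑ σ : Equiv.Perm ι, ∏ i, A.nu ξ i ^ a (σ i) := (A.exists_sy ξ a).choose_spec

/-- The rational series `Σ_σ T_{a∘σ}`. -/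
noncomputable def KArr.Tq (A : KArr ι Λ) (a : ι → ℕ) : PowerSeries ℚ :=
  PowerSeries.mk fun n => ∑ ξ ∈ A.fib n, (A.c ξ : ℚ) * (A.sy ξ a : ℚ)

/-- The rational series `Σ_σ M_{a∘σ}`. -/
noncomputable def KArr.Mq (A : KArr ι Λ) (k : ℕ) (a : ι → ℕ) : PowerSeries ℚ :=
  lowA k (-e2q) A.Tq a

theorem KArr.Tq_toC (A : KArr ι Λ) (a : ι → ℕ) :
    ktoC (A.Tq a) = ∑ σ : Equiv.Perm ι, A.T (a ∘ σ) := by
  ext n
  unfold KArr.Tq KArr.T
  rw [coeff_map, coeff_mk, map_sum, map_sum]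
  simp only [coeff_mk]
  rw [Finset.sum_comm]
  refine Finset.sum_congr rfl fun ξ _ => ?_
  have h := congrArg (fun x : ℝ => (x : ℂ)) (A.sy_eq ξ a)
  push_cast at h
  rw [map_mul]
  have h2 : (Rat.castHom ℂ) ((A.sy ξ a : ℤ) : ℚ) = ((A.sy ξ a : ℤ) : ℂ) := by simp
  have h3 : (Rat.castHom ℂ) ((A.c ξ : ℤ) : ℚ) = ((A.c ξ : ℤ) : ℂ) := by simp
  rw [h2, h3, h, Finset.mul_sum]
  rfl

theorem KArr.Mq_toC (A : KArr ι Λ) (k : ℕ) (a : ι → ℕ) :
    ktoC (A.Mq k a) = ∑ σ : Equiv.Perm ι, A.M k (a ∘ σ) := by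
  unfold KArr.Mq KArr.M
  have h1 : ktoC (lowA k (-e2q) A.Tq a) =
      lowA k (-(ktoC e2q)) (fun a' => ∑ σ : Equiv.Perm ι, A.T (a' ∘ σ)) a := by
    unfold lowA
    rw [map_lowL]
    simp only [map_neg, KArr.Tq_toC]
  rw [h1]
  unfold lowA
  rw [lowL_sum]
  refine Finset.sum_congr rfl fun σ _ => ?_
  exact lowA_perm k _ A.T σ a

theorem KArr.Tq_PI (A : KArr ι Λ) (p : ℕ) [Fact p.Prime] (a : ι → ℕ) : PI p (A.Tq a) := by
  intro n
  unfold KArr.Tq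
  rw [coeff_mk]
  exact pi_sum _ _ fun ξ _ => pi_mul (pi_int _) (pi_int _)

theorem KArr.Mq_PI (A : KArr ι Λ) (k p : ℕ) [Fact p.Prime] (hp : 5 ≤ p) (a : ι → ℕ) :
    PI p (A.Mq k a) :=
  PI_lowL k (PI_neg (K6_e2q p hp)) _ (A.Tq_PI p) a

theorem sum_comp_perm (a : ι → ℕ) (σ : Equiv.Perm ι) : ∑ i, (a ∘ σ) i = ∑ i, a i :=
  Equiv.sum_comp σ a

theorem KArr.Mq_MN [NeZero N] (hk : 1 ≤ k) (A : KArr ι Λ) (hT : DTransI N k A.G) (p : ℕ)
    [Fact p.Prime] (hp : 5 ≤ p) (a : ι → ℕ) :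
    redQ p (A.Mq k a) ∈ MN N p (Fintype.card ι * k + 2 * ∑ i, a i) := by
  have hC : CG (ktoC (A.Mq k a)) := by
    rw [A.Mq_toC]
    exact CG_sum _ _ fun σ _ => A.M_CG k _
  obtain ⟨F, hF⟩ := KMFN N (ktoC (A.Mq k a)) hC (Fintype.card ι * k + 2 * ∑ i, a i) (by
    intro α β C D hdet hNC z hz
    have hz' := mob_im_pos hdet hz
    rw [A.Mq_toC, ev_sum _ _ (fun σ _ => A.M_Cv k _) hz', ev_sum _ _ (fun σ _ => A.M_Cv k _) hz,
      Finset.mul_sum]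
    refine Finset.sum_congr rfl fun σ _ => ?_
    rw [A.M_trans hk hT hdet hNC _ z hz, sum_comp_perm])
  exact red_mem_MN F _ (A.Mq_PI k p hp a) hF

theorem KArr.Tq_inv (hk : 1 ≤ k) (A : KArr ι Λ) : A.Tq = lowA k e2q (A.Mq k) := by
  have h := lowA_lowA k hk e2q (-e2q) A.Tq
  rw [add_neg_cancel, lowA_zero] at h
  exact h.symm

end H36H
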