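import Pool.Agent.Lib.H36H.W2
import Pool.Agent.Lib.H36H.GA

/-!
# H36H, module N: the number of prime factors above `p` and the norm
-/

open NumberField UniqueFactorizationMonoid IsDedekindDomain

namespace H36H

section

variable {F : Type*} [Field F] [NumberField F]

theorem na_ind (p : ℕ) (Q : Ideal (𝓞 F) → Prop) (h1 : Q 1)
    (h2 : ∀ P I : Ideal (𝓞 F), Prime P → I ≠ 0 → Q I → Q (P * I)) (I : Ideal (𝓞 F)) (hI : I ≠ 0) :
    Q I := by
  induction I using induction_on_prime with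
  | h₁ => exact absurd rfl hI
  | h₂ x hx =>
    rw [Ideal.isUnit_iff, ← Ideal.one_eq_top] at hx
    rw [hx]
    exact h1
  | h₃ a P ha hP ih => exact h2 P a hP ha (ih ha)

theorem omegaP_prime (p : ℕ) {P : Ideal (𝓞 F)} (hP : Prime P) (hp : (p : 𝓞 F) ∈ P) :
    omegaP p P = 1 := by
  have h := omegaP_pow p hP 1 hp
  rwa [pow_one] at h

theorem omegaP_prime_not (p : ℕ) {P : Ideal (𝓞 F)} (hP : Prime P) (hp : ¬ (p : 𝓞 F) ∈ P) :
    omegaP p P = 0 := by
  have h := omegaP_pow_of_not p hP 1 hp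
  rwa [pow_one] at h

/-- `p ^ (e ω)` divides the norm if `p ^ e` divides the norm of every prime above `p`. -/
theorem omega_norm (p e : ℕ)
    (h : ∀ P : Ideal (𝓞 F), Prime P → (p : 𝓞 F) ∈ P → p ^ e ∣ Ideal.absNorm P)
    (I : Ideal (𝓞 F)) (hI : I ≠ 0) : (p ^ e) ^ omegaP p I ∣ Ideal.absNorm I := by
  refine na_ind p (fun I => (p ^ e) ^ omegaP p I ∣ Ideal.absNorm I) ?_ ?_ I hI
  · rw [omegaP_one]
    simp
  · intro P I hP hI0 ih
    rw [omegaP_mul p hP.ne_zero hI0, map_mul]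
    by_cases hpP : (p : 𝓞 F) ∈ P
    · rw [omegaP_prime p hP hpP, pow_add, pow_one]
      exact mul_dvd_mul (h P hP hpP) ih
    · rw [omegaP_prime_not p hP hpP, zero_add]
      exact ih.mul_left _

/-- A prime not containing `p` has norm prime to `p`. -/
theorem norm_coprime {p : ℕ} (hp : p.Prime) {P : Ideal (𝓞 F)} (hP : Prime P)
    (hpP : ¬ (p : 𝓞 F) ∈ P) : ¬ p ∣ Ideal.absNorm P := by
  intro hdvd
  haveI := Ideal.isPrime_of_prime hP
  have hne : P ≠ ⊥ := hP.ne_zero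
  obtain ⟨f, -, hf⟩ := Pool.Agent.Lib.H59.absNorm_eq_below_pow (⟨P, this, hne⟩ :
    HeightOneSpectrum (𝓞 F))
  have hb := Pool.Agent.Lib.H59.below_prime (⟨P, this, hne⟩ : HeightOneSpectrum (𝓞 F))
  simp only at hf
  rw [hf] at hdvd
  have h1 := (Nat.prime_dvd_prime_iff_eq hp hb).1 (hp.dvd_of_dvd_pow hdvd)
  apply hpP
  rw [h1]
  have h2 := Pool.Agent.Lib.H59.liesOver_below (⟨P, this, hne⟩ : HeightOneSpectrum (𝓞 F))
  have h3 : ((Pool.Agent.Lib.H59.below (⟨P, this, hne⟩ : HeightOneSpectrum (𝓞 F)) : ℕ) : ℤ) ∈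
      Ideal.under ℤ P := by
    rw [← h2.over]
    exact Ideal.mem_span_singleton_self _
  rw [Ideal.mem_comap] at h3
  simpa using h3

theorem omega_pos {p : ℕ} (hp : p.Prime) (I : Ideal (𝓞 F)) (hI : I ≠ 0)
    (h : p ∣ Ideal.absNorm I) : 1 ≤ omegaP p I := by
  have key : p ∣ Ideal.absNorm I → 1 ≤ omegaP p I := by
    refine na_ind p (fun I => p ∣ Ideal.absNorm I → 1 ≤ omegaP p I) ?_ ?_ I hI
    · intro h1
      rw [map_one] at h1
      exact absurd (Nat.dvd_one.1 h1) hp.one_lt.ne'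
    · intro P I hP hI0 ih h1
      rw [omegaP_mul p hP.ne_zero hI0]
      by_cases hpP : (p : 𝓞 F) ∈ P
      · rw [omegaP_prime p hP hpP]
        omega
      · rw [map_mul] at h1
        rcases hp.dvd_mul.1 h1 with h2 | h2
        · exact absurd h2 (norm_coprime hp hP hpP)
        · have := ih h2
          omega
  exact key h

theorem omega_compl {p : ℕ} (hp : p.Prime) (I : Ideal (𝓞 F)) (hI : I ≠ 0) :
    ∃ m : ℕ, ¬ p ∣ m ∧ ((m * p ^ omegaP p I : ℕ) : 𝓞 F) ∈ I := by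
  refine na_ind p (fun I => ∃ m : ℕ, ¬ p ∣ m ∧ ((m * p ^ omegaP p I : ℕ) : 𝓞 F) ∈ I) ?_ ?_ I hI
  · refine ⟨1, fun h => hp.one_lt.ne' (Nat.dvd_one.1 h), ?_⟩
    rw [Ideal.one_eq_top]
    exact Submodule.mem_top
  · rintro P I hP hI0 ⟨m, hm, hmI⟩
    rw [omegaP_mul p hP.ne_zero hI0]
    by_cases hpP : (p : 𝓞 F) ∈ P
    · refine ⟨m, hm, ?_⟩
      rw [omegaP_prime p hP hpP]
      have e : m * p ^ (1 + omegaP p I) = p * (m * p ^ omegaP p I) := by ring
      rw [e, Nat.cast_mul]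
      exact Ideal.mul_mem_mul hpP hmI
    · refine ⟨Ideal.absNorm P * m, ?_, ?_⟩
      · intro h
        rcases hp.dvd_mul.1 h with h2 | h2
        · exact norm_coprime hp hP hpP h2
        · exact hm h2
      · rw [omegaP_prime_not p hP hpP]
        have e : Ideal.absNorm P * m * p ^ (0 + omegaP p I) =
            Ideal.absNorm P * (m * p ^ omegaP p I) := by
          rw [zero_add]
          ring
        rw [e, Nat.cast_mul]
        exact Ideal.mul_mem_mul (Ideal.absNorm_mem P) hmI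

/-- No place of degree one: `p²` divides the norm of every prime above `p`. -/
theorem sq_dvd_norm {p : ℕ} (hp : p.Prime) (h : Pool.Agent.Lib.H59.degOne F p = 0)
    (P : Ideal (𝓞 F)) (hP : Prime P) (hpP : (p : 𝓞 F) ∈ P) : p ^ 2 ∣ Ideal.absNorm P := by
  obtain ⟨f, hf1, hf⟩ := absNorm_pow hp hP hpP
  rw [hf]
  rcases Nat.lt_or_ge f 2 with h2 | h2
  · exfalso
    have hf' : f = 1 := by omega
    rw [hf', pow_one] at hf
    haveI := Ideal.isPrime_of_prime hP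
    have h3 : (⟨P, this, hP.ne_zero⟩ : HeightOneSpectrum (𝓞 F)) ∈
        Pool.Agent.Lib.H59.degOneSet F p := Pool.Agent.Lib.H59.mem_degOneSet.2 hf
    rw [← Pool.Agent.Lib.H59.card_degOneSet, Finset.card_eq_zero] at h
    rw [h] at h3
    exact absurd h3 (Finset.notMem_empty _)
  · exact pow_dvd_pow p h2

end

section Trace

variable {F : Type*} [Field F] [NumberField F] [IsTotallyReal F]

/-- The complex embeddings of a totally real field are the real ones. -/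
theorem na_bij : Function.Bijective
    (fun φ : F →+* ℝ => ((Complex.ofRealHom.comp φ).toRatAlgHom : F →ₐ[ℚ] ℂ)) := by
  constructor
  · intro φ ψ h
    ext x
    have h1 : ((φ x : ℝ) : ℂ) = ((ψ x : ℝ) : ℂ) := congrArg (fun f : F →ₐ[ℚ] ℂ => f x) h
    exact_mod_cast h1
  · intro σ
    have hr : ComplexEmbedding.IsReal (σ : F →+* ℂ) := by
      have h1 : InfinitePlace.IsReal (InfinitePlace.mk (σ : F →+* ℂ)) := IsTotallyReal.isReal _
      exact (InfinitePlace.isReal_mk_iff).1 h1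
    refine ⟨hr.embedding, ?_⟩
    ext x
    exact hr.coe_embedding_apply x

theorem na_trace (x : 𝓞 F) : ∑ φ : F →+* ℝ, φ (x : F) = ((Algebra.trace ℤ (𝓞 F) x : ℤ) : ℝ) := by
  have h1 : algebraMap ℚ ℂ (Algebra.trace ℚ F (x : F)) = ∑ σ : F →ₐ[ℚ] ℂ, σ (x : F) :=
    trace_eq_sum_embeddings ℂ
  have h2 : ∑ σ : F →ₐ[ℚ] ℂ, σ (x : F) = ∑ φ : F →+* ℝ, ((φ (x : F) : ℝ) : ℂ) :=
    (Function.Bijective.sum_comp na_bij (fun σ : F →ₐ[ℚ] ℂ => σ (x : F))).symm
  rw [h2, ← Algebra.coe_trace_int] at h1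
  have h3 : (((Algebra.trace ℤ (𝓞 F) x : ℤ) : ℝ) : ℂ) =
      ((∑ φ : F →+* ℝ, φ (x : F) : ℝ) : ℂ) := by
    push_cast
    rw [← h1]
    simp
  exact_mod_cast h3.symm

theorem na_norm (x : 𝓞 F) : ∏ φ : F →+* ℝ, φ (x : F) = ((Algebra.norm ℤ x : ℤ) : ℝ) := by
  have h1 : algebraMap ℚ ℂ (Algebra.norm ℚ (x : F)) = ∏ σ : F →ₐ[ℚ] ℂ, σ (x : F) :=
    Algebra.norm_eq_prod_embeddings ℚ ℂ (x : F)
  have h2 : ∏ σ : F →ₐ[ℚ] ℂ, σ (x : F) = ∏ φ : F →+* ℝ, ((φ (x : F) : ℝ) : ℂ) :=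
    (Function.Bijective.prod_comp na_bij (fun σ : F →ₐ[ℚ] ℂ => σ (x : F))).symm
  rw [h2, ← Algebra.coe_norm_int] at h1
  have h3 : (((Algebra.norm ℤ x : ℤ) : ℝ) : ℂ) =
      ((∏ φ : F →+* ℝ, φ (x : F) : ℝ) : ℂ) := by
    push_cast
    rw [← h1]
    simp
  exact_mod_cast h3.symm

theorem exists_real_emb (F : Type*) [Field F] [NumberField F] [IsTotallyReal F] :
    Nonempty (F →+* ℝ) :=
  ⟨InfinitePlace.embedding_of_isReal (IsTotallyReal.isReal (Classical.arbitrary (InfinitePlace F)))⟩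

theorem na_card : Fintype.card (F →+* ℝ) = Module.finrank ℚ F := by
  rw [← AlgHom.card ℚ F ℂ]
  exact Fintype.card_of_bijective na_bij

end Trace

end H36H
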