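import Pool.Agent.Lib.H36H.AS
import Pool.Agent.Lib.H36H.XUN

set_option autoImplicit false

/-!
# H36H: the hypothesis `hU` of the assembly
-/

namespace H36H

open NumberField

variable {F : Type*} [Field F] [NumberField F] [IsTotallyReal F]

open Classical in
theorem karr_HNe (hd : 1 < Module.finrank ℚ F) :
    ∀ N k : ℕ, 0 < N → ∀ c : 𝓞 F → ℤ, c 1 ≠ 0 →
      (∀ ε : 𝓞 F, IsUnit ε → (∀ φ : F →+* ℝ, 0 < φ ε) → c ε = c 1) →
      ∀ h : IsDiagCusp N k (fun ξ => (c ξ : ℂ)), HNe (karr h) N k :=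
  fun _ _ hN _ hc1 hu h => karr_hne hd hN h hc1 hu

end H36H
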