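import Mathlib

set_option autoImplicit false

/-!
# H36H, module W: the Hecke recursion

`omegaP p I`: the number of prime factors of the ideal `I` above `p`, with multiplicity.
If `p` divides the Hecke eigenvalues at all primes above `p` then `p ^ omegaP p I` divides the eigenvalue
at `I`.
-/

open NumberField UniqueFactorizationMonoid

namespace H36H

open scoped Classical in
/-- The number of prime factors of `I` above `p`, with multiplicity. -/
noncomputable def omegaP {F : Type*} [Field F] [NumberField F] (p : ℕ) (I : Ideal (𝓞 F)) : ℕ :=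
  (normalizedFactors I).countP (fun P => (p : 𝓞 F) ∈ P)

variable {F : Type*} [Field F] [NumberField F]

theorem omegaP_mul (p : ℕ) {I J : Ideal (𝓞 F)} (hI : I ≠ 0) (hJ : J ≠ 0) :
    omegaP p (I * J) = omegaP p I + omegaP p J := by
  unfold omegaP
  rw [normalizedFactors_mul hI hJ, Multiset.countP_add]

theorem omegaP_one (p : ℕ) : omegaP p (1 : Ideal (𝓞 F)) = 0 := by
  unfold omegaP
  rw [normalizedFactors_one]
  simp

theorem omegaP_pow (p : ℕ) {P : Ideal (𝓞 F)} (hP : Prime P) (n : ℕ) (hp : (p : 𝓞 F) ∈ P) :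
    omegaP p (P ^ n) = n := by
  classical
  unfold omegaP
  rw [hP.irreducible.normalizedFactors_pow, normalize_eq, Multiset.countP_eq_card.2, Multiset.card_replicate]
  intro Q hQ
  rw [Multiset.eq_of_mem_replicate hQ]
  exact hp

theorem omegaP_pow_of_not (p : ℕ) {P : Ideal (𝓞 F)} (hP : Prime P) (n : ℕ)
    (hp : ¬ (p : 𝓞 F) ∈ P) : omegaP p (P ^ n) = 0 := by
  classical
  unfold omegaP
  rw [hP.irreducible.normalizedFactors_pow, normalize_eq, Multiset.countP_eq_zero]
  intro Q hQ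
  rw [Multiset.eq_of_mem_replicate hQ]
  exact hp

/-- `p ^ (k - 1)` divides `N(P) ^ (k - 1)`. -/
theorem dvd_absNorm {p : ℕ} (hp : p.Prime) {P : Ideal (𝓞 F)} (hP : Prime P) (h : (p : 𝓞 F) ∈ P) :
    p ∣ Ideal.absNorm P := by
  have h1 : Ideal.absNorm P ∣ Ideal.absNorm (Ideal.span {(p : 𝓞 F)}) :=
    Ideal.absNorm_dvd_absNorm_of_le ((Ideal.span_singleton_le_iff_mem P).2 h)
  rw [Ideal.absNorm_span_singleton] at h1
  have h2 : (Algebra.norm ℤ (p : 𝓞 F)).natAbs = p ^ Module.finrank ℤ (𝓞 F) := by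
    have h3 : Algebra.norm ℤ ((p : ℤ) : 𝓞 F) = (p : ℤ) ^ Module.finrank ℤ (𝓞 F) := by
      have := Algebra.norm_algebraMap (S := 𝓞 F) (p : ℤ)
      simpa using this
    rw [Int.cast_natCast] at h3
    rw [h3, Int.natAbs_pow, Int.natAbs_natCast]
  rw [h2] at h1
  obtain ⟨j, -, hj⟩ := (Nat.dvd_prime_pow hp).1 h1
  rcases Nat.eq_zero_or_pos j with h0 | h0
  · exfalso
    rw [h0, pow_zero, Ideal.absNorm_eq_one_iff] at hj
    exact hP.not_isUnit (by rw [hj, ← Ideal.one_eq_top]; exact isUnit_one)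
  · rw [hj]
    exact dvd_pow_self p h0.ne'

/-- The Hecke recursion for weight `k`, level `𝔫` and central character `χ`. -/
structure IsHecke {R : Type*} [CommRing R] (k : ℕ) (𝔫 : Ideal (𝓞 F)) (χ C : Ideal (𝓞 F) → R) :
    Prop where
  one : C 1 = 1
  mul : ∀ I J : Ideal (𝓞 F), IsCoprime I J → C (I * J) = C I * C J
  hecke : ∀ P : Ideal (𝓞 F), P.IsPrime → P ≠ ⊥ → ¬ P ∣ 𝔫 → ∀ n : ℕ,
    C (P ^ (n + 2)) = C P * C (P ^ (n + 1)) - χ P * (Ideal.absNorm P : R) ^ (k - 1) * C (P ^ n)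

theorem IsHecke.pow_dvd {R : Type*} [CommRing R] {k : ℕ} (hk : 3 ≤ k) {𝔫 : Ideal (𝓞 F)}
    {χ C : Ideal (𝓞 F) → R} (hC : IsHecke k 𝔫 χ C) {p : ℕ} (hp : p.Prime)
    (hpn : ∀ P : Ideal (𝓞 F), P.IsPrime → P ≠ ⊥ → (p : 𝓞 F) ∈ P → ¬ P ∣ 𝔫)
    (hord : ∀ P : Ideal (𝓞 F), P.IsPrime → P ≠ ⊥ → (p : 𝓞 F) ∈ P → (p : R) ∣ C P)
    (I : Ideal (𝓞 F)) (hI : I ≠ 0) : (p : R) ^ omegaP p I ∣ C I := by
  classical
  induction I using induction_on_coprime with
  | h0 => exact absurd rfl hI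
  | h1 hx =>
    rw [Ideal.isUnit_iff, ← Ideal.one_eq_top] at hx
    rw [hx, omegaP_one]
    simp
  | hpr n hP =>
    rename_i P
    have hP0 : P ≠ ⊥ := hP.ne_zero
    have hPp : P.IsPrime := Ideal.isPrime_of_prime hP
    by_cases h : (p : 𝓞 F) ∈ P
    · rw [omegaP_pow p hP n h]
      have key : ∀ n : ℕ, (p : R) ^ n ∣ C (P ^ n) ∧ (p : R) ^ (n + 1) ∣ C (P ^ (n + 1)) := by
        intro n
        induction n with
        | zero =>
          refine ⟨by simp, ?_⟩
          simpa using hord P hPp hP0 h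
        | succ n ih =>
          refine ⟨ih.2, ?_⟩
          rw [hC.hecke P hPp hP0 (hpn P hPp hP0 h) n]
          refine dvd_sub ?_ ?_
          · rw [pow_succ']
            exact mul_dvd_mul (hord P hPp hP0 h) ih.2
          · have h1 : (p : R) ^ 2 ∣ (Ideal.absNorm P : R) ^ (k - 1) := by
              obtain ⟨m, hm⟩ := dvd_absNorm hp hP h
              rw [hm]
              push_cast
              rw [mul_pow]
              exact (pow_dvd_pow _ (by omega)).mul_right _
            have h2 : (p : R) ^ (n + 1 + 1) = (p : R) ^ 2 * (p : R) ^ n := by ring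
            rw [h2]
            exact mul_dvd_mul (h1.mul_left _) ih.1
      exact (key n).1
    · rw [omegaP_pow_of_not p hP n h]
      simp
  | hcp hxy hx hy =>
    rename_i x y
    have hx0 : x ≠ 0 := left_ne_zero_of_mul hI
    have hy0 : y ≠ 0 := right_ne_zero_of_mul hI
    rw [omegaP_mul p hx0 hy0, pow_add, hC.mul x y (by
      exact Ideal.isCoprime_iff_gcd.2 ((gcd_isUnit_iff_isRelPrime.2 hxy |> isUnit_iff_eq_one.1)))]
    exact mul_dvd_mul (hx hx0) (hy hy0)

end H36H
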