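import Pool.Agent.Lib.H36H.W1
import Pool.Agent.Lib.H94M.TR

set_option autoImplicit false

/-!
# H36H, module W: Hilbert cusp forms with coefficients in a number field
-/

open NumberField

namespace H36H

/-- Totally positive integers. -/
abbrev TotPos (F : Type*) [Field F] [NumberField F] := {ξ : 𝓞 F // ∀ φ : F →+* ℝ, 0 < φ ξ}

section Series

variable {F : Type*} [Field F] [NumberField F]

/-- A term of the Fourier series. -/
noncomputable def fterm (a : 𝓞 F → ℂ) (z : (F →+* ℝ) → ℂ) (ξ : TotPos F) : ℂ :=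
  a ξ.1 * Complex.exp (2 * Real.pi * Complex.I * ∑ φ : F →+* ℝ, (φ ξ.1 : ℂ) * z φ)

/-- The Fourier series. -/
noncomputable def fser (a : 𝓞 F → ℂ) (z : (F →+* ℝ) → ℂ) : ℂ := ∑' ξ : TotPos F, fterm a z ξ

/-- The series with coefficients `a` is a cusp form of parallel weight `k` for the group of the
determinant one matrices `(A B; C D)` with `A, D` integral, `B` in the inverse different, `C` in
`𝔫` times the different. -/
structure IsHilbertCusp (k : ℕ) (𝔫 : Ideal (𝓞 F)) (a : 𝓞 F → ℂ) : Prop where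
  summable : ∀ z : (F →+* ℝ) → ℂ, (∀ φ, 0 < (z φ).im) → Summable (fterm a z)
  modular : ∀ A B C D : F, IsIntegral ℤ A → IsIntegral ℤ D →
    (∀ x : 𝓞 F, ∃ n : ℤ, Algebra.trace ℚ F (B * x) = n) →
    (∃ c ∈ 𝔫 * differentIdeal ℤ (𝓞 F), (c : F) = C) → A * D - B * C = 1 →
    ∀ z : (F →+* ℝ) → ℂ, (∀ φ, 0 < (z φ).im) →
      fser a (fun φ => ((φ A : ℂ) * z φ + (φ B : ℂ)) / ((φ C : ℂ) * z φ + (φ D : ℂ))) =
        (∏ φ : F →+* ℝ, ((φ C : ℂ) * z φ + (φ D : ℂ))) ^ k * fser a z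
  bounded : ∃ M : ℝ, ∀ z : (F →+* ℝ) → ℂ, (∀ φ, 0 < (z φ).im) →
    ‖fser a z‖ * ∏ φ : F →+* ℝ, ((z φ).im) ^ ((k : ℝ) / 2) ≤ M

/-- The series with coefficients `a` converges absolutely, transforms with parallel weight `k` under the
diagonal action of `Γ₀(N)`, and `|f (z)| ∏ (Im z_φ) ^ (k / 2)` is bounded. -/
structure IsDiagCusp (N k : ℕ) (a : 𝓞 F → ℂ) : Prop where
  summable : ∀ z : (F →+* ℝ) → ℂ, (∀ φ, 0 < (z φ).im) → Summable (fterm a z)
  modular : ∀ A B C D : ℤ, (N : ℤ) ∣ C → A * D - B * C = 1 →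
    ∀ z : (F →+* ℝ) → ℂ, (∀ φ, 0 < (z φ).im) →
      fser a (fun φ => ((A : ℂ) * z φ + (B : ℂ)) / ((C : ℂ) * z φ + (D : ℂ))) =
        (∏ φ : F →+* ℝ, ((C : ℂ) * z φ + (D : ℂ))) ^ k * fser a z
  bounded : ∃ M : ℝ, ∀ z : (F →+* ℝ) → ℂ, (∀ φ, 0 < (z φ).im) →
    ‖fser a z‖ * ∏ φ : F →+* ℝ, ((z φ).im) ^ ((k : ℝ) / 2) ≤ M

/-- A Hilbert cusp form of level `𝔫` is invariant under the diagonal `Γ₀(N)` for an `N ≥ 1`. -/
theorem IsHilbertCusp.diag {k : ℕ} {𝔫 : Ideal (𝓞 F)} (h𝔫 : 𝔫 ≠ ⊥) {a : 𝓞 F → ℂ}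
    (h : IsHilbertCusp k 𝔫 a) : ∃ N : ℕ, 0 < N ∧ IsDiagCusp N k a := by
  have hne : 𝔫 * differentIdeal ℤ (𝓞 F) ≠ ⊥ := mul_ne_zero h𝔫 differentIdeal_ne_bot
  refine ⟨Ideal.absNorm (𝔫 * differentIdeal ℤ (𝓞 F)), Nat.pos_of_ne_zero ?_, h.summable, ?_,
    h.bounded⟩
  · rw [Ne, Ideal.absNorm_eq_zero_iff]
    exact hne
  · intro A B C D hC hdet z hz
    have key := h.modular (A : F) (B : F) (C : F) (D : F) (isIntegral_algebraMap (R := ℤ) (x := A))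
      (isIntegral_algebraMap (R := ℤ) (x := D)) ?_ ?_ ?_ z hz
    · simpa using key
    · intro x
      refine ⟨B * Algebra.trace ℤ (𝓞 F) x, ?_⟩
      have h1 : (B : F) * (x : F) = (B : ℤ) • (x : F) := by rw [zsmul_eq_mul]
      rw [h1, map_zsmul, ← Algebra.coe_trace_int, zsmul_eq_mul]
      push_cast
      rfl
    · obtain ⟨m, hm⟩ := hC
      refine ⟨(C : 𝓞 F), ?_, by simp⟩
      rw [hm]
      push_cast
      exact Ideal.mul_mem_right _ _ (Ideal.absNorm_mem _)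
    · have : ((A * D - B * C : ℤ) : F) = 1 := by rw [hdet, Int.cast_one]
      push_cast at this
      exact this

theorem IsDiagCusp.mono {N N' k : ℕ} (hN : N ∣ N') {a : 𝓞 F → ℂ} (h : IsDiagCusp N k a) :
    IsDiagCusp N' k a where
  summable := h.summable
  modular := fun A B C D hC => h.modular A B C D ((Int.natCast_dvd_natCast.2 hN).trans hC)
  bounded := h.bounded

theorem fterm_sum {ι : Type*} (s : Finset ι) (a : ι → 𝓞 F → ℂ) (z : (F →+* ℝ) → ℂ) (ξ : TotPos F) :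
    fterm (fun x => ∑ i ∈ s, a i x) z ξ = ∑ i ∈ s, fterm (a i) z ξ := by
  unfold fterm
  rw [Finset.sum_mul]

theorem fser_sum {ι : Type*} (s : Finset ι) (a : ι → 𝓞 F → ℂ) (z : (F →+* ℝ) → ℂ)
    (h : ∀ i ∈ s, Summable (fterm (a i) z)) :
    fser (fun x => ∑ i ∈ s, a i x) z = ∑ i ∈ s, fser (a i) z := by
  unfold fser
  simp_rw [fterm_sum]
  rw [Summable.tsum_finsetSum h]

theorem moebius_im (A B C D : ℤ) (h : A * D - B * C = 1) (z : (F →+* ℝ) → ℂ)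
    (hz : ∀ φ, 0 < (z φ).im) (φ : F →+* ℝ) :
    0 < (((A : ℂ) * z φ + (B : ℂ)) / ((C : ℂ) * z φ + (D : ℂ))).im := by
  have h1 : (A : ℝ) * D - B * C = 1 := by exact_mod_cast h
  have h2 : 0 < Complex.normSq ((C : ℂ) * z φ + (D : ℂ)) := by
    rw [Complex.normSq_pos]
    intro h0
    have him := congrArg Complex.im h0
    have hre := congrArg Complex.re h0
    simp at him hre
    have hC : C = 0 := by
      rcases him with h | h
      · exact h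
      · exact absurd h (hz φ).ne'
    rw [hC] at hre h1
    simp at hre
    rw [hre] at h1
    simp at h1
  rw [Complex.div_im]
  have h3 : ((A : ℂ) * z φ + (B : ℂ)).im = A * (z φ).im := by simp
  have h4 : ((A : ℂ) * z φ + (B : ℂ)).re = A * (z φ).re + B := by simp
  have h5 : ((C : ℂ) * z φ + (D : ℂ)).im = C * (z φ).im := by simp
  have h6 : ((C : ℂ) * z φ + (D : ℂ)).re = C * (z φ).re + D := by simp
  rw [h3, h4, h5, h6, ← sub_div]
  refine div_pos ?_ h2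
  have : (A : ℝ) * (z φ).im * (C * (z φ).re + D) - (A * (z φ).re + B) * (C * (z φ).im) =
      (A * D - B * C) * (z φ).im := by ring
  rw [this, h1, one_mul]
  exact hz φ

theorem IsDiagCusp.sum {N k : ℕ} {ι : Type*} (s : Finset ι) (a : ι → 𝓞 F → ℂ)
    (h : ∀ i ∈ s, IsDiagCusp N k (a i)) : IsDiagCusp N k (fun x => ∑ i ∈ s, a i x) where
  summable := by
    intro z hz
    have : fterm (fun x => ∑ i ∈ s, a i x) z = fun ξ => ∑ i ∈ s, fterm (a i) z ξ :=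
      funext fun ξ => fterm_sum s a z ξ
    rw [this]
    exact summable_sum fun i hi => (h i hi).summable z hz
  modular := by
    intro A B C D hC hdet z hz
    rw [fser_sum s a _ (fun i hi => (h i hi).summable _ (moebius_im A B C D hdet z hz)),
      fser_sum s a _ (fun i hi => (h i hi).summable _ hz), Finset.mul_sum]
    exact Finset.sum_congr rfl fun i hi => (h i hi).modular A B C D hC hdet z hz
  bounded := by
    classical
    choose! M hM using fun i hi => (h i hi).bounded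
    refine ⟨∑ i ∈ s, M i, fun z hz => ?_⟩
    rw [fser_sum s a _ (fun i hi => (h i hi).summable _ hz)]
    have hpos : 0 ≤ ∏ φ : F →+* ℝ, ((z φ).im) ^ ((k : ℝ) / 2) :=
      Finset.prod_nonneg fun φ _ => Real.rpow_nonneg (hz φ).le _
    calc ‖∑ i ∈ s, fser (a i) z‖ * ∏ φ : F →+* ℝ, ((z φ).im) ^ ((k : ℝ) / 2)
        ≤ (∑ i ∈ s, ‖fser (a i) z‖) * ∏ φ : F →+* ℝ, ((z φ).im) ^ ((k : ℝ) / 2) :=
          mul_le_mul_of_nonneg_right (norm_sum_le _ _) hpos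
      _ = ∑ i ∈ s, ‖fser (a i) z‖ * ∏ φ : F →+* ℝ, ((z φ).im) ^ ((k : ℝ) / 2) := Finset.sum_mul _ _ _
      _ ≤ ∑ i ∈ s, M i := Finset.sum_le_sum fun i hi => hM i hi z hz

end Series

/-- The statement of the main theorem for rational integral coefficients (module T). -/
def StH (F : Type*) [Field F] [NumberField F] : Prop :=
  ∀ (k : ℕ), 4 ≤ k → ∀ N : ℕ, 0 < N → ∀ c : 𝓞 F → ℤ, c 1 ≠ 0 →
    (∀ ε : 𝓞 F, IsUnit ε → (∀ φ : F →+* ℝ, 0 < φ ε) → c ε = c 1) →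
    IsDiagCusp N k (fun ξ => (c ξ : ℂ)) → ∀ η : ℝ, η < 1 / (Module.finrank ℚ F : ℝ) →
    ¬ ∃ K : ℝ, ∀ X : ℕ, (Set.ncard {p : ℕ | p ≤ X ∧ p.Prime ∧
      ¬ ∀ ξ : TotPos F, (p : ℤ) ^ omegaP p (Ideal.span {ξ.1}) ∣ c ξ.1} : ℝ) ≤ K * (X : ℝ) ^ η

/-- Frobenius at `P` is ordinary for some place `τ` of `E` above `p`: the Hecke polynomial
`x ^ 2 - C(P) x + χ(P) N(P) ^ (k - 1)` has, in an algebraic closure of `ℚ_p`, a root of absolute value
`1` and a root of absolute value `N(P) ^ (-(k - 1))`. -/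
def IsOrd {F : Type*} [Field F] [NumberField F] {E : Type*} [Field E] [NumberField E] (k : ℕ)
    (χ C : Ideal (𝓞 F) → 𝓞 E) (p : ℕ) [Fact p.Prime] (P : Ideal (𝓞 F)) : Prop :=
  ∃ (τ : E →+* PadicAlgCl p) (x y : PadicAlgCl p), x + y = τ (C P) ∧
    x * y = τ (χ P) * (Ideal.absNorm P : PadicAlgCl p) ^ (k - 1) ∧ ‖x‖ = 1 ∧
    ‖y‖ = (Ideal.absNorm P : ℝ) ^ (-((k : ℤ) - 1))

/-- A prime ideal containing `p` has norm a power `p ^ f`, `f ≥ 1`. -/
theorem absNorm_pow {F : Type*} [Field F] [NumberField F] {p : ℕ} (hp : p.Prime)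
    {P : Ideal (𝓞 F)} (hP : Prime P) (h : (p : 𝓞 F) ∈ P) :
    ∃ f : ℕ, 1 ≤ f ∧ Ideal.absNorm P = p ^ f := by
  have h1 : Ideal.absNorm P ∣ Ideal.absNorm (Ideal.span {(p : 𝓞 F)}) :=
    Ideal.absNorm_dvd_absNorm_of_le ((Ideal.span_singleton_le_iff_mem P).2 h)
  rw [Ideal.absNorm_span_singleton] at h1
  have h2 : (Algebra.norm ℤ (p : 𝓞 F)).natAbs = p ^ Module.finrank ℤ (𝓞 F) := by
    have h3 : Algebra.norm ℤ ((p : ℤ) : 𝓞 F) = (p : ℤ) ^ Module.finrank ℤ (𝓞 F) := by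
      have := Algebra.norm_algebraMap (S := 𝓞 F) (p : ℤ)
      simpa using this
    rw [Int.cast_natCast] at h3
    rw [h3, Int.natAbs_pow, Int.natAbs_natCast]
  rw [h2] at h1
  obtain ⟨j, -, hj⟩ := (Nat.dvd_prime_pow hp).1 h1
  refine ⟨j, ?_, hj⟩
  by_contra h0
  have h0' : j = 0 := by omega
  rw [h0', pow_zero, Ideal.absNorm_eq_one_iff] at hj
  exact hP.not_isUnit (by rw [hj, ← Ideal.one_eq_top]; exact isUnit_one)

/-- Only finitely many primes below prime divisors of `𝔫`. -/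
theorem exists_bound_level {F : Type*} [Field F] [NumberField F] (𝔫 : Ideal (𝓞 F)) (h𝔫 : 𝔫 ≠ ⊥) :
    ∃ M : ℕ, ∀ p : ℕ, p.Prime → M < p → ∀ P : Ideal (𝓞 F), P.IsPrime → P ≠ ⊥ → (p : 𝓞 F) ∈ P →
      ¬ P ∣ 𝔫 := by
  refine ⟨Ideal.absNorm 𝔫, fun p hp hM P hPp hP0 hpP hdvd => ?_⟩
  obtain ⟨f, hf, hfP⟩ := absNorm_pow hp (Ideal.prime_of_isPrime hP0 hPp) hpP
  have h1 : Ideal.absNorm P ∣ Ideal.absNorm 𝔫 := Ideal.absNorm_dvd_absNorm_of_le (Ideal.le_of_dvd hdvd)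
  rw [hfP] at h1
  have h2 : p ∣ Ideal.absNorm 𝔫 := (dvd_pow_self p (by omega)).trans h1
  have h3 : Ideal.absNorm 𝔫 ≠ 0 := by
    rw [Ne, Ideal.absNorm_eq_zero_iff]
    exact h𝔫
  exact absurd (Nat.le_of_dvd (Nat.pos_of_ne_zero h3) h2) (not_le.2 hM)

end H36H
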