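import Pool.Agent.Lib.H36H.W2

set_option autoImplicit false

/-!
# H36H, module W: from rational integral coefficients to coefficients in a number field
-/

open NumberField

namespace H36H

variable {F : Type*} [Field F] [NumberField F]

omit [NumberField F] in
theorem trace_coeff {E : Type*} [Field E] [NumberField E] (C : Ideal (𝓞 F) → 𝓞 E) :
    (fun ξ : 𝓞 F => ((Algebra.trace ℤ (𝓞 E) (C (Ideal.span {ξ})) : ℤ) : ℂ)) =
      fun ξ => ∑ σ : E →ₐ[ℚ] ℂ, (fun ξ : 𝓞 F => σ (C (Ideal.span {ξ}) : E)) ξ :=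
  funext fun _ => H94M.TR_trace _

/-- The roots of `X ^ 2 - α X + q`, `α` a unit, `q` not a unit. -/
theorem roots_of_unit (p : ℕ) [Fact p.Prime] (α q : PadicAlgCl p) (hα : ‖α‖ = 1) (hq1 : ‖q‖ < 1) :
    ∃ x y : PadicAlgCl p, x + y = α ∧ x * y = q ∧ ‖x‖ = 1 ∧ ‖y‖ = ‖q‖ := by
  obtain ⟨x, hx⟩ : ∃ x : PadicAlgCl p, x * x - α * x + q = 0 := by
    have hdeg : (Polynomial.X ^ 2 + Polynomial.C (-α) * Polynomial.X +
        Polynomial.C q).degree ≠ 0 := by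
      have : (Polynomial.C (1 : PadicAlgCl p) * Polynomial.X ^ 2 + Polynomial.C (-α) * Polynomial.X +
        Polynomial.C q).degree = 2 :=
        Polynomial.degree_quadratic one_ne_zero
      rw [Polynomial.C_1, one_mul] at this
      rw [this]
      decide
    obtain ⟨x, hx⟩ := IsAlgClosed.exists_root _ hdeg
    refine ⟨x, ?_⟩
    rw [Polynomial.IsRoot.def] at hx
    simp only [Polynomial.eval_add, Polynomial.eval_pow, Polynomial.eval_X, Polynomial.eval_mul,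
      Polynomial.eval_C] at hx
    linear_combination hx
  have key : ∀ z : PadicAlgCl p, z * z - α * z + q = 0 → ‖z‖ ≤ 1 := by
    intro z hz
    by_contra hc
    rw [not_le] at hc
    have h1 : z * z = α * z - q := by linear_combination hz
    have h2 : ‖z * z‖ ≤ max ‖α * z‖ ‖q‖ := by
      rw [h1]
      exact H94M.TR_sub p _ _
    rw [norm_mul, norm_mul, hα, one_mul] at h2
    have h3 : max ‖z‖ ‖q‖ = ‖z‖ := max_eq_left (hq1.le.trans hc.le)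
    rw [h3] at h2
    nlinarith
  have hy : (α - x) * (α - x) - α * (α - x) + q = 0 := by
    linear_combination hx
  have hxy : x * (α - x) = q := by linear_combination -hx
  have hnx := key x hx
  have hny := key (α - x) hy
  have hsum : x + (α - x) = α := by ring
  have hmax : (1 : ℝ) ≤ max ‖x‖ ‖α - x‖ := by
    have h1 : ‖x + (α - x)‖ ≤ max ‖x‖ ‖α - x‖ := IsUltrametricDist.norm_add_le_max _ _
    rw [hsum, hα] at h1
    exact h1
  have hprod : ‖x‖ * ‖α - x‖ = ‖q‖ := by rw [← norm_mul, hxy]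
  rcases le_max_iff.1 hmax with h | h
  · have h1 : ‖x‖ = 1 := le_antisymm hnx h
    rw [h1, one_mul] at hprod
    exact ⟨x, α - x, hsum, hxy, h1, hprod⟩
  · have h1 : ‖α - x‖ = 1 := le_antisymm hny h
    rw [h1, mul_one] at hprod
    refine ⟨α - x, x, by ring, by rw [mul_comm]; exact hxy, h1, hprod⟩

theorem norm_natCast (p : ℕ) [Fact p.Prime] : ‖(p : PadicAlgCl p)‖ = (p : ℝ)⁻¹ := by
  have h1 : ((p : ℚ_[p]) : PadicAlgCl p) = (p : PadicAlgCl p) := by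
    exact map_natCast (algebraMap ℚ_[p] (PadicAlgCl p)) p
  rw [← h1, PadicAlgCl.norm_extends, Padic.norm_p]

/-- A unit of `𝓞 E` has absolute value `1` at every place. -/
theorem norm_unit {E : Type*} [Field E] [NumberField E] (p : ℕ) [Fact p.Prime]
    (τ : E →+* PadicAlgCl p) (u : 𝓞 E) (hu : IsUnit u) : ‖τ (u : E)‖ = 1 := by
  obtain ⟨v, rfl⟩ := hu
  have h1 := H94M.TR_norm_le p τ (v : 𝓞 E)
  have h2 := H94M.TR_norm_le p τ ((v⁻¹ : (𝓞 E)ˣ) : 𝓞 E)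
  have h3 : ‖τ ((v : 𝓞 E) : E)‖ * ‖τ (((v⁻¹ : (𝓞 E)ˣ) : 𝓞 E) : E)‖ = 1 := by
    rw [← norm_mul, ← map_mul, ← map_mul, Units.mul_inv, map_one, map_one, norm_one]
  have h4 := norm_nonneg (τ ((v : 𝓞 E) : E))
  nlinarith

/-- At a large prime `p` below no ordinary prime, `p ^ omegaP p I` divides the eigenvalue at `I`. -/
theorem dvd_of_not_ord {E : Type*} [Field E] [NumberField E] {k : ℕ} (hk : 3 ≤ k)
    {𝔫 : Ideal (𝓞 F)} {χ C : Ideal (𝓞 F) → 𝓞 E} (hC : IsHecke k 𝔫 χ C)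
    (hχ : ∀ P : Ideal (𝓞 F), P.IsPrime → P ≠ ⊥ → ¬ P ∣ 𝔫 → IsUnit (χ P)) (p : ℕ) [Fact p.Prime]
    (hpn : ∀ P : Ideal (𝓞 F), P.IsPrime → P ≠ ⊥ → (p : 𝓞 F) ∈ P → ¬ P ∣ 𝔫)
    (hpd : ¬ (p : ℤ) ∣ discr E)
    (hno : ∀ P : Ideal (𝓞 F), P.IsPrime → P ≠ ⊥ → (p : 𝓞 F) ∈ P → ¬ IsOrd k χ C p P)
    (I : Ideal (𝓞 F)) (hI : I ≠ 0) : (p : 𝓞 E) ^ omegaP p I ∣ C I := by
  have hp : p.Prime := Fact.out
  refine hC.pow_dvd hk hp hpn (fun P hP hP0 hpP => ?_) I hI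
  have hsm : ∀ τ : E →+* PadicAlgCl p, ‖τ (C P : E)‖ < 1 := by
    intro τ
    refine lt_of_le_of_ne (H94M.TR_norm_le p τ (C P)) fun h => hno P hP hP0 hpP ⟨τ, ?_⟩
    obtain ⟨f, hf, hfP⟩ := absNorm_pow hp (Ideal.prime_of_isPrime hP0 hP) hpP
    have hp1 : (1 : ℝ) < p := by exact_mod_cast hp.one_lt
    have hqn : ‖τ (χ P : E) * (Ideal.absNorm P : PadicAlgCl p) ^ (k - 1)‖ =
        (Ideal.absNorm P : ℝ) ^ (-((k : ℤ) - 1)) := by
      rw [norm_mul, norm_unit p τ _ (hχ P hP hP0 (hpn P hP hP0 hpP)), one_mul, norm_pow, hfP]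
      push_cast
      rw [norm_pow, norm_natCast, inv_pow, ← zpow_natCast ((p : ℝ) ^ f)⁻¹ (k - 1), inv_zpow',
        Nat.cast_sub (by omega : 1 ≤ k), Nat.cast_one]
    have hq1 : ‖τ (χ P : E) * (Ideal.absNorm P : PadicAlgCl p) ^ (k - 1)‖ < 1 := by
      rw [norm_mul, norm_unit p τ _ (hχ P hP hP0 (hpn P hP hP0 hpP)), one_mul, norm_pow, hfP]
      push_cast
      rw [norm_pow, norm_natCast, ← pow_mul]
      exact pow_lt_one₀ (by positivity) (inv_lt_one_of_one_lt₀ hp1)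
        (Nat.mul_pos (by omega) (by omega)).ne'
    obtain ⟨x, y, hx1, hx2, hx3, hx4⟩ := roots_of_unit p _ _ h hq1
    exact ⟨x, y, hx1, hx2, hx3, hx4.trans hqn⟩
  obtain ⟨m, hm⟩ := H94M.TR_dvd_pow_of_norm p (C P) hsm
  exact H94M.TR_dvd_of_pow hp hpd _ m hm

theorem exists_real (F : Type*) [Field F] [NumberField F] [IsTotallyReal F] : Nonempty (F →+* ℝ) :=
  ⟨InfinitePlace.embedding_of_isReal (IsTotallyReal.isReal (Classical.arbitrary (InfinitePlace F)))⟩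

/-- **Ordinary primes of Hilbert cusp forms**, from the theorem for rational integral coefficients. -/
theorem hilbert_of [IsTotallyReal F] (hH : StH F) (k : ℕ) (hk : 4 ≤ k) (𝔫 : Ideal (𝓞 F)) (h𝔫 : 𝔫 ≠ ⊥)
    (E : Type*) [Field E] [NumberField E] (χ C : Ideal (𝓞 F) → 𝓞 E) (hC : IsHecke k 𝔫 χ C)
    (hχ : ∀ P : Ideal (𝓞 F), P.IsPrime → P ≠ ⊥ → ¬ P ∣ 𝔫 → IsUnit (χ P))
    (hf : ∀ σ : E →+* ℂ, ∃ N : ℕ, 0 < N ∧ IsDiagCusp N k (fun ξ => σ (C (Ideal.span {ξ}) : E)))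
    (η : ℝ) (hη : η < 1 / (Module.finrank ℚ F : ℝ)) :
    ¬ ∃ K : ℝ, ∀ X : ℕ, (Set.ncard {p : ℕ | p ≤ X ∧ ∃ (_ : Fact p.Prime) (P : Ideal (𝓞 F)),
      P.IsPrime ∧ (p : 𝓞 F) ∈ P ∧ ¬ P ∣ 𝔫 ∧ IsOrd k χ C p P} : ℝ) ≤ K * (X : ℝ) ^ η := by
  rintro ⟨K, hK⟩
  choose N hN0 hN using hf
  have hN1 : ∀ σ : E →+* ℂ, IsDiagCusp (∏ σ : E →+* ℂ, N σ) k
      (fun ξ => σ (C (Ideal.span {ξ}) : E)) := fun σ =>
    (hN σ).mono (Finset.dvd_prod_of_mem N (Finset.mem_univ σ))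
  have hfin : 0 < Module.finrank ℚ F := Module.finrank_pos
  have hη' : max η 0 < 1 / (Module.finrank ℚ F : ℝ) := max_lt hη (by positivity)
  have hc1 : Algebra.trace ℤ (𝓞 E) (C (Ideal.span {(1 : 𝓞 F)})) ≠ 0 := by
    intro h0
    have h2 := H94M.TR_trace (E := E) (C (Ideal.span {(1 : 𝓞 F)}))
    rw [h0, Ideal.span_singleton_one, ← Ideal.one_eq_top, hC.one] at h2
    have h3 : (∑ σ : E →ₐ[ℚ] ℂ, σ ((1 : 𝓞 E) : E)) = (Fintype.card (E →ₐ[ℚ] ℂ) : ℂ) := by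
      simp
    rw [h3, AlgHom.card] at h2
    have h4 : 0 < Module.finrank ℚ E := Module.finrank_pos
    have h5 : (0 : ℂ) = (Module.finrank ℚ E : ℂ) := by simpa using h2
    rw [eq_comm, Nat.cast_eq_zero] at h5
    omega
  refine hH k hk (∏ σ : E →+* ℂ, N σ) (Finset.prod_pos fun σ _ => hN0 σ) (fun ξ => Algebra.trace ℤ (𝓞 E) (C (Ideal.span {ξ}))) hc1 ?_ ?_ (max η 0) hη' ?_
  · intro ε hε _
    have : Ideal.span {ε} = Ideal.span {(1 : 𝓞 F)} := by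
      rw [Ideal.span_singleton_one]
      exact Ideal.span_singleton_eq_top.2 hε
    show Algebra.trace ℤ (𝓞 E) (C (Ideal.span {ε})) = Algebra.trace ℤ (𝓞 E) (C (Ideal.span {(1 : 𝓞 F)}))
    rw [this]
  · rw [trace_coeff]
    exact IsDiagCusp.sum _ _ fun σ _ => hN1 (σ : E →+* ℂ)
  · obtain ⟨M, hM⟩ := exists_bound_level 𝔫 h𝔫
    obtain ⟨M', hM'⟩ : ∃ M', M' = max M (discr E).natAbs := ⟨_, rfl⟩
    refine ⟨max K 0 + (M' + 1), fun X => ?_⟩
    rcases Nat.eq_zero_or_pos X with hX | hX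
    · have : {p : ℕ | p ≤ X ∧ p.Prime ∧
          ¬ ∀ ξ : TotPos F, (p : ℤ) ^ omegaP p (Ideal.span {ξ.1}) ∣
            Algebra.trace ℤ (𝓞 E) (C (Ideal.span {ξ.1}))} = ∅ := by
        rw [Set.eq_empty_iff_forall_notMem]
        rintro p ⟨h1, h2, -⟩
        have := h2.pos
        omega
      rw [this, Set.ncard_empty]
      have h1 : (0 : ℝ) ≤ (X : ℝ) ^ max η 0 := Real.rpow_nonneg (Nat.cast_nonneg _) _
      have h2 : (0 : ℝ) ≤ max K 0 + (M' + 1) := by positivity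
      simpa using mul_nonneg h2 h1
    have hX1 : (1 : ℝ) ≤ X := by exact_mod_cast hX
    have hsub : {p : ℕ | p ≤ X ∧ p.Prime ∧
          ¬ ∀ ξ : TotPos F, (p : ℤ) ^ omegaP p (Ideal.span {ξ.1}) ∣
            Algebra.trace ℤ (𝓞 E) (C (Ideal.span {ξ.1}))} ⊆
        {p : ℕ | p ≤ X ∧ ∃ (_ : Fact p.Prime) (P : Ideal (𝓞 F)),
          P.IsPrime ∧ (p : 𝓞 F) ∈ P ∧ ¬ P ∣ 𝔫 ∧ IsOrd k χ C p P} ∪ Set.Iic M' := by
      rintro p ⟨h1, h2, h3⟩
      by_cases h4 : p ≤ M'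
      · exact Or.inr h4
      · left
        refine ⟨h1, ⟨h2⟩, ?_⟩
        have hF : Fact p.Prime := ⟨h2⟩
        by_contra hc
        push Not at hc
        apply h3
        intro ξ
        have hpn := hM p h2 (lt_of_le_of_lt (hM' ▸ le_max_left _ _) (not_le.1 h4))
        have hpd : ¬ (p : ℤ) ∣ discr E := by
          intro h
          have h5 : p ∣ (discr E).natAbs := by
            have := Int.natAbs_dvd_natAbs.2 h
            simpa using this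
          exact absurd (Nat.le_of_dvd (Int.natAbs_pos.2 (discr_ne_zero E)) h5)
            (not_le.2 (lt_of_le_of_lt (hM' ▸ le_max_right _ _) (not_le.1 h4)))
        have hξ0 : (Ideal.span {ξ.1} : Ideal (𝓞 F)) ≠ 0 := by
          intro h
          have h6 : ξ.1 = 0 := Ideal.span_singleton_eq_bot.1 h
          have h7 := ξ.2 (exists_real F).some
          rw [h6] at h7
          simp at h7
        obtain ⟨y, hy⟩ := dvd_of_not_ord (by omega) hC hχ p hpn hpd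
          (fun P hP hP0 hpP => hc P hP hpP (hpn P hP hP0 hpP)) _ hξ0
        have h8 : C (Ideal.span {ξ.1}) = ((p : ℤ) ^ omegaP p (Ideal.span {ξ.1})) • y := by
          rw [hy, zsmul_eq_mul]
          push_cast
          rfl
        rw [h8, map_smul, smul_eq_mul]
        exact dvd_mul_right _ _
    have hfinite : ({p : ℕ | p ≤ X ∧ ∃ (_ : Fact p.Prime) (P : Ideal (𝓞 F)),
          P.IsPrime ∧ (p : 𝓞 F) ∈ P ∧ ¬ P ∣ 𝔫 ∧ IsOrd k χ C p P} ∪ Set.Iic M').Finite :=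
      ((Set.finite_Iic X).subset fun p hp => hp.1).union (Set.finite_Iic M')
    have h1 := Set.ncard_le_ncard hsub hfinite
    have h2 := h1.trans (Set.ncard_union_le _ _)
    have h3 : (Set.Iic M').ncard = M' + 1 := by
      rw [← Finset.coe_Iic, Set.ncard_coe_finset, Nat.card_Iic]
    rw [h3] at h2
    have h4 : (X : ℝ) ^ η ≤ (X : ℝ) ^ max η 0 := Real.rpow_le_rpow_of_exponent_le hX1 (le_max_left _ _)
    have h5 : (1 : ℝ) ≤ (X : ℝ) ^ max η 0 := Real.one_le_rpow hX1 (le_max_right _ _)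
    have h6 := hK X
    have h7 : K * (X : ℝ) ^ η ≤ max K 0 * (X : ℝ) ^ max η 0 := by
      have h8 : (0 : ℝ) ≤ (X : ℝ) ^ η := Real.rpow_nonneg (by linarith) _
      exact (mul_le_mul_of_nonneg_right (le_max_left K 0) h8).trans
        (mul_le_mul_of_nonneg_left h4 (le_max_right K 0))
    have h9 : ((M' : ℝ) + 1) ≤ ((M' : ℝ) + 1) * (X : ℝ) ^ max η 0 :=
      le_mul_of_one_le_right (by positivity) h5
    have h10 : (Set.ncard {p : ℕ | p ≤ X ∧ p.Prime ∧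
          ¬ ∀ ξ : TotPos F, (p : ℤ) ^ omegaP p (Ideal.span {ξ.1}) ∣
            Algebra.trace ℤ (𝓞 E) (C (Ideal.span {ξ.1}))} : ℝ) ≤
        (Set.ncard {p : ℕ | p ≤ X ∧ ∃ (_ : Fact p.Prime) (P : Ideal (𝓞 F)),
          P.IsPrime ∧ (p : 𝓞 F) ∈ P ∧ ¬ P ∣ 𝔫 ∧ IsOrd k χ C p P} : ℝ) + ((M' : ℝ) + 1) := by
      exact_mod_cast h2
    calc _ ≤ _ := h10
      _ ≤ max K 0 * (X : ℝ) ^ max η 0 + ((M' : ℝ) + 1) * (X : ℝ) ^ max η 0 := by linarith
      _ = (max K 0 + (M' + 1)) * (X : ℝ) ^ max η 0 := by ring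

end H36H
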