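import Pool.Agent.Lib.H36H.W3

set_option autoImplicit false

/-!
# H36H, module W: infinitely many ordinary primes
-/

open NumberField

namespace H36H

variable {F : Type*} [Field F] [NumberField F]

/-- If the number of `p ≤ X` with a property is not bounded, there are infinitely many such `p`, and
infinitely many prime ideals above them. -/
theorem infinite_of_count (Q : ℕ → Ideal (𝓞 F) → Prop)
    (h : ¬ ∃ K : ℝ, ∀ X : ℕ, (Set.ncard {p : ℕ | p ≤ X ∧ ∃ (_ : Fact p.Prime) (P : Ideal (𝓞 F)),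
      P.IsPrime ∧ (p : 𝓞 F) ∈ P ∧ Q p P} : ℝ) ≤ K * (X : ℝ) ^ (0 : ℝ)) :
    {P : Ideal (𝓞 F) | P.IsPrime ∧ P ≠ ⊥ ∧ ∃ (p : ℕ) (_ : Fact p.Prime), (p : 𝓞 F) ∈ P ∧ Q p P}.Infinite := by
  intro hfin
  apply h
  -- the primes below finitely many prime ideals
  have hT : {p : ℕ | ∃ (_ : Fact p.Prime) (P : Ideal (𝓞 F)), P.IsPrime ∧ (p : 𝓞 F) ∈ P ∧ Q p P}.Finite := by
    have h1 : {p : ℕ | ∃ (_ : Fact p.Prime) (P : Ideal (𝓞 F)), P.IsPrime ∧ (p : 𝓞 F) ∈ P ∧ Q p P} ⊆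
        ⋃ P ∈ {P : Ideal (𝓞 F) | P.IsPrime ∧ P ≠ ⊥ ∧
          ∃ (p : ℕ) (_ : Fact p.Prime), (p : 𝓞 F) ∈ P ∧ Q p P},
          {p : ℕ | p ∣ Ideal.absNorm P} := by
      rintro p ⟨hp, P, hP, hpP, hQ⟩
      have hP0 : P ≠ ⊥ := by
        rintro rfl
        rw [Ideal.mem_bot] at hpP
        exact hp.out.ne_zero (by exact_mod_cast hpP)
      refine Set.mem_biUnion (x := P) ⟨hP, hP0, p, hp, hpP, hQ⟩ ?_
      exact dvd_absNorm hp.out (Ideal.prime_of_isPrime hP0 hP) hpP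
    refine (hfin.biUnion fun P hP => ?_).subset h1
    have h2 : Ideal.absNorm P ≠ 0 := by
      rw [Ne, Ideal.absNorm_eq_zero_iff]
      exact hP.2.1
    exact (Set.finite_Iic (Ideal.absNorm P)).subset fun p hp =>
      Nat.le_of_dvd (Nat.pos_of_ne_zero h2) hp
  refine ⟨(hT.toFinset.card : ℝ), fun X => ?_⟩
  rw [Real.rpow_zero, mul_one, ← Set.ncard_eq_toFinset_card _ hT]
  have h3 : {p : ℕ | p ≤ X ∧ ∃ (_ : Fact p.Prime) (P : Ideal (𝓞 F)),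
      P.IsPrime ∧ (p : 𝓞 F) ∈ P ∧ Q p P} ⊆
      {p : ℕ | ∃ (_ : Fact p.Prime) (P : Ideal (𝓞 F)), P.IsPrime ∧ (p : 𝓞 F) ∈ P ∧ Q p P} :=
    fun p hp => hp.2
  exact_mod_cast Set.ncard_le_ncard h3 hT

/-- **Ordinary primes of Hilbert newforms**, both conclusions. -/
theorem hilbert_inf_of [IsTotallyReal F] (hH : StH F) (k : ℕ) (hk : 4 ≤ k) (𝔫 : Ideal (𝓞 F))
    (h𝔫 : 𝔫 ≠ ⊥)
    (E : Type*) [Field E] [NumberField E] (χ C : Ideal (𝓞 F) → 𝓞 E) (hC : IsHecke k 𝔫 χ C)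
    (hχ : ∀ P : Ideal (𝓞 F), P.IsPrime → P ≠ ⊥ → ¬ P ∣ 𝔫 → IsUnit (χ P))
    (hf : ∀ σ : E →+* ℂ, ∃ N : ℕ, 0 < N ∧ IsDiagCusp N k (fun ξ => σ (C (Ideal.span {ξ}) : E))) :
    {P : Ideal (𝓞 F) | P.IsPrime ∧ P ≠ ⊥ ∧ ∃ (p : ℕ) (_ : Fact p.Prime), (p : 𝓞 F) ∈ P ∧
      ¬ P ∣ 𝔫 ∧ IsOrd k χ C p P}.Infinite ∧
    ∀ η : ℝ, η < 1 / (Module.finrank ℚ F : ℝ) →
      ¬ ∃ K : ℝ, ∀ X : ℕ, (Set.ncard {p : ℕ | p ≤ X ∧ ∃ (_ : Fact p.Prime) (P : Ideal (𝓞 F)),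
        P.IsPrime ∧ (p : 𝓞 F) ∈ P ∧ ¬ P ∣ 𝔫 ∧ IsOrd k χ C p P} : ℝ) ≤ K * (X : ℝ) ^ η := by
  have h1 := fun η hη => hilbert_of hH k hk 𝔫 h𝔫 E χ C hC hχ hf η hη
  refine ⟨infinite_of_count (fun p P => ¬ P ∣ 𝔫 ∧ ∃ (_ : Fact p.Prime), IsOrd k χ C p P) ?_ |>.mono ?_, h1⟩
  · have hd : 0 < Module.finrank ℚ F := Module.finrank_pos
    have := h1 0 (by positivity)
    intro h2
    apply this
    obtain ⟨K, hK⟩ := h2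
    refine ⟨K, fun X => ?_⟩
    refine le_trans ?_ (hK X)
    have hsub : {p : ℕ | p ≤ X ∧ ∃ (_ : Fact p.Prime) (P : Ideal (𝓞 F)),
        P.IsPrime ∧ (p : 𝓞 F) ∈ P ∧ ¬ P ∣ 𝔫 ∧ IsOrd k χ C p P} ⊆
        {p : ℕ | p ≤ X ∧ ∃ (_ : Fact p.Prime) (P : Ideal (𝓞 F)), P.IsPrime ∧ (p : 𝓞 F) ∈ P ∧
          (¬ P ∣ 𝔫 ∧ ∃ (_ : Fact p.Prime), IsOrd k χ C p P)} := by
      rintro p ⟨a, b, P, c, d, e, f⟩
      exact ⟨a, b, P, c, d, e, b, f⟩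
    exact_mod_cast Set.ncard_le_ncard hsub ((Set.finite_Iic X).subset fun p hp => hp.1)
  · rintro P ⟨a, b, p, c, d, e, f, g⟩
    exact ⟨a, b, p, c, d, e, g⟩

end H36H
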