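import Pool.Agent.Lib.H36H.XD

/-!
# H36H, chunk XB (S): the transformation of the partial integral, general factor

COPY of `Lib/H94M/XN1.lean` (80 lines) with `τ ^ (K + 1)` replaced by a constant `E`: for ONE fixed `τ` in the upper
half plane the hypothesis is `F c₂ u v 0 (-1/τ) (-1/w) = E * w^(K+1) * F c₁ u v 0 τ w` for all `w`. In `hasDerivAt_A`
(H53M/X3) the factor `τ^(K+1)` of `X.A` is only a constant: work with `(E / τ^(K+1)) * X.A K c₁ u v τ w`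
(`τ ≠ 0`: `X3_ne`), or with the family `c₁' = (E/τ^(K+1)) • c₁`. Then
`w ↦ F c₂ u v 1 (-1/τ) (-1/w) - (E/τ^(K+1)) * A K c₁ u v τ w` has derivative `0`, is constant on the upper half plane,
and `w = I y`, `y → 0+` gives the constant by `lim_B`, `lim_A`.
-/

namespace H36H

open H53M H53M.X Filter Topology

variable {I : Type*} {K : ℕ} {c₁ c₂ : I → ℂ} {u v : I → ℝ}

theorem XB_hasDerivAt_B (h₂ : Fam K c₂ u v) (hK : 1 ≤ K) {τ : ℂ} (hτ : 0 < τ.im)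
    (E : ℂ) (htr : ∀ w : ℂ, 0 < w.im →
      F c₂ u v 0 (-1 / τ) (-1 / w) = E * w ^ (K + 1) * F c₁ u v 0 τ w)
    {w : ℂ} (hw : 0 < w.im) :
    HasDerivAt (fun w => F c₂ u v 1 (-1 / τ) (-1 / w))
      (2 * Real.pi * Complex.I * E * w ^ (K - 1) * F c₁ u v 0 τ w) w := by
  have h1 := hasDerivAt_F h₂ (s := 0) (by omega) (X3_im hτ) (X3_im hw)
  have hw0 := X3_ne hw
  have h2 := HasDerivAt.comp w h1 (X3_hasDerivAt_inv hw0)
  rw [htr w hw] at h2
  refine h2.congr_deriv ?_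
  obtain ⟨n, rfl⟩ : ∃ n, K = n + 1 := ⟨K - 1, by omega⟩
  have h3 : w ^ 2 * (w ^ 2)⁻¹ = 1 := mul_inv_cancel₀ (pow_ne_zero 2 hw0)
  have h4 : w ^ (n + 1 + 1) = w ^ n * w ^ 2 := by
    rw [← pow_add]
  rw [h4, Nat.add_sub_cancel]
  linear_combination (2 * Real.pi * Complex.I * E * w ^ n * F c₁ u v 0 τ w) * h3

theorem XB_AB_const (h₁ : Fam K c₁ u v) (h₂ : Fam K c₂ u v) (hK : 1 ≤ K) {τ : ℂ} (hτ : 0 < τ.im)
    (E : ℂ) (htr : ∀ w : ℂ, 0 < w.im →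
      F c₂ u v 0 (-1 / τ) (-1 / w) = E * w ^ (K + 1) * F c₁ u v 0 τ w)
    {w w' : ℂ} (hw : 0 < w.im) (hw' : 0 < w'.im) :
    F c₂ u v 1 (-1 / τ) (-1 / w) - E / τ ^ (K + 1) * A K c₁ u v τ w =
      F c₂ u v 1 (-1 / τ) (-1 / w') - E / τ ^ (K + 1) * A K c₁ u v τ w' := by
  have hτ0 := X3_ne hτ
  have hτK : τ ^ (K + 1) ≠ 0 := pow_ne_zero _ hτ0
  have h1 : ∀ z : ℂ, 0 < z.im → HasDerivAt
      (fun z => F c₂ u v 1 (-1 / τ) (-1 / z) - E / τ ^ (K + 1) * A K c₁ u v τ z) 0 z := by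
    intro z hz
    have h2 := (XB_hasDerivAt_B h₂ hK hτ E htr hz).sub
      ((hasDerivAt_A h₁ hK hτ hz).const_mul (E / τ ^ (K + 1)))
    refine h2.congr_deriv ?_
    field_simp
    ring
  have hopen : IsOpen {z : ℂ | 0 < z.im} := isOpen_lt continuous_const Complex.continuous_im
  have hconv : Convex ℝ {z : ℂ | 0 < z.im} := convex_halfSpace_im_gt 0
  exact hopen.is_const_of_deriv_eq_zero hconv.isPreconnected
    (f := fun z => F c₂ u v 1 (-1 / τ) (-1 / z) - E / τ ^ (K + 1) * A K c₁ u v τ z)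
    (fun z hz => (h1 z hz).differentiableAt.differentiableWithinAt)
    (fun z hz => (h1 z hz).deriv) hw hw'

theorem transB3 (h₁ : Fam K c₁ u v) (h₂ : Fam K c₂ u v) (hK : 1 ≤ K) {τ : ℂ} (hτ : 0 < τ.im)
    (E : ℂ) (htr : ∀ w : ℂ, 0 < w.im →
      F c₂ u v 0 (-1 / τ) (-1 / w) = E * w ^ (K + 1) * F c₁ u v 0 τ w) :
    F c₂ u v 1 (-1 / τ) (-1 / τ) = 2 * Real.pi * Complex.I * E *
      (∑ j ∈ Finset.range K, co K j * τ ^ (K - 1 - j) * F c₁ u v (j + 1) τ τ -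
        co K (K - 1) * L c₁ u v K τ) := by
  have hτ0 := X3_ne hτ
  have hτK : τ ^ (K + 1) ≠ 0 := pow_ne_zero _ hτ0
  have h1 := (lim_B h₂ hK (X3_im hτ)).sub ((lim_A h₁ hK hτ).const_mul (E / τ ^ (K + 1)))
  have h2 : Tendsto (fun _ : ℝ => F c₂ u v 1 (-1 / τ) (-1 / τ) -
      E / τ ^ (K + 1) * A K c₁ u v τ τ) (𝓝[>] 0)
      (𝓝 (0 - E / τ ^ (K + 1) *
        (2 * Real.pi * Complex.I * τ ^ (K + 1) * (co K (K - 1) * L c₁ u v K τ)))) := by
    refine h1.congr' ?_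
    filter_upwards [self_mem_nhdsWithin] with y hy
    have hy' : 0 < (Complex.I * (y : ℂ)).im := by
      rw [Complex.mul_im, Complex.I_re, Complex.I_im, Complex.ofReal_re, Complex.ofReal_im]
      simpa using hy
    exact XB_AB_const h₁ h₂ hK hτ E htr hy' hτ
  have h3 := tendsto_nhds_unique h2 tendsto_const_nhds
  have h4 : E / τ ^ (K + 1) * (2 * Real.pi * Complex.I * τ ^ (K + 1) *
      (co K (K - 1) * L c₁ u v K τ)) = 2 * Real.pi * Complex.I * E *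
      (co K (K - 1) * L c₁ u v K τ) := by
    field_simp
  have h5 : E / τ ^ (K + 1) * A K c₁ u v τ τ = 2 * Real.pi * Complex.I * E *
      ∑ j ∈ Finset.range K, co K j * τ ^ (K - 1 - j) * F c₁ u v (j + 1) τ τ := by
    unfold A
    field_simp
  rw [h4, h5] at h3
  linear_combination -h3

end H36H
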