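import Pool.Agent.Lib.H36H.XF

/-!
# H36H, chunk XH (M): `h` on the diagonal

Put `T(ξ) = Σ_i c(ξ) Π_{j≠i} ν_j · ν_i⁻¹ · e(tr ξ τ)`, the sum over `i` of the terms of
`X.F (xc 1 0 i 0) (xu 1 i) (xv 1 i) 1 τ τ` (`e(0) = 1`, `x/1 = x`, `u + v = tr`). By `xfam` (`N = 1`, `σ = 0`) and
`X.summable_F` (`s = 1 ≤ k - 1`) it is absolutely summable. And `T(ξ) = (c(ξ) q2(ξ)/nm(ξ)) e(tr ξ τ)`, because
`q2/nm = (Π ν)² Σ ν_i^{-2} / Π ν = Σ_i (Π ν) ν_i^{-2} = Σ_i ν_i⁻¹ Π_{j≠i} ν_j` (`A.q2_eq`, `A.nm_eq`,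
`Finset.mul_prod_erase`). The coefficient of `ktoC A.hs` at `n` is `Σ_{ξ ∈ fib n} c q2/nm` (cast to `ℂ`), so
`coeff n * e(n τ) = Σ_{ξ ∈ fib n} T(ξ)`, and grouping by the trace (COPY of `KArr.T_term`, `T_Cv`, `T_ev` at the end of
Lib/H36H/KArr.lean: `Equiv.sigmaFiberEquiv A.tr`) gives both statements; finally `Σ_ξ Σ_i = Σ_i Σ_ξ`
(`Summable.tsum_finsetSum`).
-/

namespace H36H

open H53M H94M Function

variable {ι Λ : Type*} [Fintype ι] [DecidableEq ι]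

/-- The term `Σ_i` of the diagonal series. -/
noncomputable def xhT (A : KArr ι Λ) (τ : ℂ) (ξ : Λ) : ℂ :=
  ∑ i : ι, A.xc 1 0 i 0 ξ * ((A.xv 1 i ξ : ℂ)⁻¹) ^ 1 *
    X.ex ((A.xu 1 i ξ : ℂ) * τ + (A.xv 1 i ξ : ℂ) * τ)

theorem xhT_eq (A : KArr ι Λ) (τ : ℂ) (ξ : Λ) :
    xhT A τ ξ = (((A.c ξ * A.q2 ξ : ℚ) / A.nm ξ : ℚ) : ℂ) *
      Complex.exp (2 * Real.pi * Complex.I * (A.tr ξ * τ)) := by
  have h1 : ∀ i : ι, A.xc 1 0 i 0 ξ * ((A.xv 1 i ξ : ℂ)⁻¹) ^ 1 *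
      X.ex ((A.xu 1 i ξ : ℂ) * τ + (A.xv 1 i ξ : ℂ) * τ) =
      (A.c ξ : ℂ) * ((∏ j, (A.nu ξ j : ℂ)) * ((A.nu ξ i : ℂ) ^ 2)⁻¹) *
        Complex.exp (2 * Real.pi * Complex.I * (A.tr ξ * τ)) := by
    intro i
    have hi : (A.nu ξ i : ℂ) ≠ 0 := by exact_mod_cast (A.nu_pos ξ i).ne'
    unfold KArr.xc KArr.xv KArr.xu
    rw [← Finset.mul_prod_erase _ _ (Finset.mem_univ i)]
    have e1 : X.ex (((((A.tr ξ : ℝ) - A.nu ξ i) / ((1 : ℕ) : ℝ) : ℝ) : ℂ) * τ +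
        ((A.nu ξ i / ((1 : ℕ) : ℝ) : ℝ) : ℂ) * τ) =
        Complex.exp (2 * Real.pi * Complex.I * (A.tr ξ * τ)) := by
      unfold X.ex
      congr 2
      push_cast
      ring
    have e2 : X.ex (((0 : ℤ) : ℂ) * (A.tr ξ : ℂ) / ((1 : ℕ) : ℂ)) = 1 := by
      unfold X.ex
      simp
    rw [e1, e2]
    simp only [Nat.cast_one, div_one, add_zero, mul_one, pow_one]
    field_simp
  unfold xhT
  rw [Finset.sum_congr rfl fun i _ => h1 i, ← Finset.sum_mul, ← Finset.mul_sum, ← Finset.mul_sum]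
  congr 1
  have h2 := congrArg (fun x : ℝ => (x : ℂ)) (A.q2_eq ξ)
  have h3 := congrArg (fun x : ℝ => (x : ℂ)) (A.nm_eq ξ)
  push_cast at h2 h3
  have h0 : (∏ j, (A.nu ξ j : ℂ)) ≠ 0 :=
    Finset.prod_ne_zero_iff.2 fun j _ => by exact_mod_cast (A.nu_pos ξ j).ne'
  push_cast
  rw [h2, h3]
  field_simp

theorem xh_sum (A : KArr ι Λ) {k : ℕ} (hk : 2 ≤ k) (hd : 2 ≤ Fintype.card ι)
    (hf : A.XFam k) {τ : ℂ} (hτ : 0 < τ.im) : Summable (xhT A τ) := by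
  refine summable_sum fun i _ => ?_
  exact X.summable_F (A.xfam one_pos hd hf 0 i 0) (by omega) hτ hτ

theorem xh_term (A : KArr ι Λ) (τ : ℂ) (n : ℕ) :
    PowerSeries.coeff n (ktoC A.hs) * Complex.exp (2 * Real.pi * Complex.I * (n * τ)) =
      ∑' y : {ξ // A.tr ξ = n}, xhT A τ y := by
  have := A.finite_fib n
  have := Fintype.ofFinite {ξ // A.tr ξ = n}
  rw [tsum_fintype, PowerSeries.coeff_map, KArr.hs, PowerSeries.coeff_mk, map_sum, Finset.sum_mul]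
  refine Finset.sum_bij' (fun ξ hξ => ⟨ξ, (A.mem_fib n ξ).1 hξ⟩) (fun y _ => y.1)
    (fun _ _ => Finset.mem_univ _) (fun y _ => (A.mem_fib n y.1).2 y.2) (fun _ _ => rfl)
    (fun _ _ => rfl) fun ξ hξ => ?_
  have h1 : A.tr ξ = n := (A.mem_fib n ξ).1 hξ
  simp only [xhT_eq, h1]
  rfl

theorem KArr.hs_Cv (A : KArr ι Λ) {k : ℕ} (hk : 2 ≤ k) (hd : 2 ≤ Fintype.card ι)
    (hf : A.XFam k) : Cv (ktoC A.hs) := by
  intro z hz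
  have h := (xh_sum A hk hd hf hz).norm
  rw [← (Equiv.sigmaFiberEquiv A.tr).summable_iff] at h
  have h2 := (summable_sigma_of_nonneg (fun _ => norm_nonneg _)).1 h
  refine Summable.of_nonneg_of_le (fun n => norm_nonneg _) (fun n => ?_) h2.2
  rw [xh_term]
  exact norm_tsum_le_tsum_norm (h2.1 n)

theorem KArr.hs_ev (A : KArr ι Λ) {k : ℕ} (hk : 2 ≤ k) (hd : 2 ≤ Fintype.card ι)
    (hf : A.XFam k) {τ : ℂ} (hτ : 0 < τ.im) :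
    ev (ktoC A.hs) τ = ∑ i : ι, X.F (A.xc 1 0 i 0) (A.xu 1 i) (A.xv 1 i) 1 τ τ := by
  have h := xh_sum A hk hd hf hτ
  have h1 : ev (ktoC A.hs) τ = ∑' ξ, xhT A τ ξ := by
    unfold ev
    rw [← (Equiv.sigmaFiberEquiv A.tr).tsum_eq]
    have h3 : Summable (fun p => xhT A τ ((Equiv.sigmaFiberEquiv A.tr) p)) :=
      (Equiv.sigmaFiberEquiv A.tr).summable_iff.2 h
    rw [h3.tsum_sigma]
    exact tsum_congr fun n => xh_term A τ n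
  rw [h1]
  unfold xhT X.F
  exact Summable.tsum_finsetSum fun i _ =>
    X.summable_F (A.xfam one_pos hd hf 0 i 0) (by omega) hτ hτ

end H36H
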