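import Pool.Agent.Lib.H36H.XD

/-!
# H36H, chunk XS (S): scaling of the frequencies

Termwise (`tsum_mul_left`): the term of the left side is `c Π_{j≠i} ν_j · ν_i⁻¹ · e(tr ξ (1+z)/N)` (`u + v = tr`,
everything divided by `1`, `e(0) = 1`, `+ 0`), the term of the right side is
`N^(d-2) · c e(tr/N) Π_{j≠i} (ν_j/N) · (ν_i/N)⁻¹ · e((tr/N) z) = N^(d-2) N^{-(d-1)} N c Π ν_j ν_i⁻¹ e(tr/N) e(tr z/N)`
(`Finset.prod_div_distrib`, `card (univ.erase i) = d - 1`, `d ≥ 2`), `e(a) e(b) = e(a+b)` (`X.ex_add`).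
`xu_shift`: `e(u (t + N M)) = e(u t) e(-ν_i M)` because `N u = tr - ν_i`, `e(tr M) = 1` (`X.ex_natCast`).
`xuv_shift`: `e(u (t + N M) + v (t + N M)) = e(u t + v t)` because `N (u + v) = tr`.
-/

namespace H36H

open H53M H94M Function

variable {ι Λ : Type*} [Fintype ι] [DecidableEq ι]

theorem KArr.xscale (A : KArr ι Λ) {N : ℕ} (hN : 0 < N) (hd : 2 ≤ Fintype.card ι) (i : ι) (z : ℂ) :
    X.F (A.xc 1 0 i 0) (A.xu 1 i) (A.xv 1 i) 1 ((1 + z) / N) ((1 + z) / N) =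
      (N : ℂ) ^ (Fintype.card ι - 2) * X.F (A.xc N 1 i 0) (A.xu N i) (A.xv N i) 1 z z := by
  have hN0 : (N : ℂ) ≠ 0 := by exact_mod_cast hN.ne'
  obtain ⟨m, hm⟩ : ∃ m, Fintype.card ι = m + 2 := ⟨Fintype.card ι - 2, by omega⟩
  have hcard : (Finset.univ.erase i).card = m + 1 := by
    rw [Finset.card_erase_of_mem (Finset.mem_univ i), Finset.card_univ, hm]
    rfl
  unfold X.F
  rw [← tsum_mul_left]
  refine tsum_congr fun ξ => ?_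
  have hν : ((A.nu ξ i : ℝ) : ℂ) ≠ 0 := by
    exact_mod_cast (A.nu_pos ξ i).ne'
  have hu1 : (A.xu 1 i ξ : ℂ) = (A.tr ξ : ℂ) - (A.nu ξ i : ℂ) := by
    unfold KArr.xu
    push_cast
    ring
  have hv1 : (A.xv 1 i ξ : ℂ) = (A.nu ξ i : ℂ) := by
    unfold KArr.xv
    push_cast
    ring
  have huN : (A.xu N i ξ : ℂ) = ((A.tr ξ : ℂ) - (A.nu ξ i : ℂ)) / N := by
    unfold KArr.xu
    push_cast
    ring
  have hvN : (A.xv N i ξ : ℂ) = (A.nu ξ i : ℂ) / N := by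
    unfold KArr.xv
    push_cast
    ring
  have hex : X.ex (((A.tr ξ : ℂ) - (A.nu ξ i : ℂ)) * ((1 + z) / N) +
      (A.nu ξ i : ℂ) * ((1 + z) / N)) = X.ex (((1 : ℤ) : ℂ) * (A.tr ξ : ℂ) / (N : ℂ)) *
      X.ex (((A.tr ξ : ℂ) - (A.nu ξ i : ℂ)) / N * z + (A.nu ξ i : ℂ) / N * z) := by
    rw [← X.ex_add]
    congr 1
    push_cast
    field_simp
    ring
  have h0 : X.ex (((0 : ℤ) : ℂ) * (A.tr ξ : ℂ) / ((1 : ℕ) : ℂ)) = 1 := by
    unfold X.ex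
    simp
  unfold KArr.xc
  rw [hu1, hv1, huN, hvN, hex, h0, hm]
  have hp1 : ∏ j ∈ Finset.univ.erase i, ((A.nu ξ j : ℂ) / ((1 : ℕ) : ℂ) + 0) =
      ∏ j ∈ Finset.univ.erase i, (A.nu ξ j : ℂ) := by
    refine Finset.prod_congr rfl fun j _ => ?_
    push_cast
    ring
  have hpN : ∏ j ∈ Finset.univ.erase i, ((A.nu ξ j : ℂ) / (N : ℂ) + 0) =
      (∏ j ∈ Finset.univ.erase i, (A.nu ξ j : ℂ)) / (N : ℂ) ^ (m + 1) := by
    rw [← hcard, ← Finset.prod_const, ← Finset.prod_div_distrib]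
    refine Finset.prod_congr rfl fun j _ => ?_
    ring
  rw [hp1, hpN, Nat.add_sub_cancel]
  field_simp
  ring

omit [DecidableEq ι] in
theorem KArr.xu_shift (A : KArr ι Λ) {N : ℕ} (hN : 0 < N) (i : ι) (ξ : Λ) (t : ℂ) (M : ℕ) :
    X.ex ((A.xu N i ξ : ℂ) * (t + N * M)) =
      X.ex ((A.xu N i ξ : ℂ) * t) * X.ex (((-(A.nu ξ i) : ℝ) : ℂ) * (M : ℂ)) := by
  have hN0 : (N : ℂ) ≠ 0 := by exact_mod_cast hN.ne'
  have huN : (A.xu N i ξ : ℂ) = ((A.tr ξ : ℂ) - (A.nu ξ i : ℂ)) / N := by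
    unfold KArr.xu
    push_cast
    ring
  have h1 : (A.xu N i ξ : ℂ) * (t + N * M) = (A.xu N i ξ : ℂ) * t +
      (((-(A.nu ξ i) : ℝ) : ℂ) * (M : ℂ) + ((A.tr ξ * M : ℕ) : ℂ)) := by
    rw [huN]
    push_cast
    field_simp
    ring
  have h2 : X.ex (((A.tr ξ * M : ℕ) : ℂ)) = 1 := by
    unfold X.ex
    rw [Complex.exp_eq_one_iff]
    exact ⟨((A.tr ξ * M : ℕ) : ℤ), by push_cast; ring⟩
  rw [h1, X.ex_add, X.ex_add, h2, mul_one]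

omit [DecidableEq ι] in
theorem KArr.xuv_shift (A : KArr ι Λ) {N : ℕ} (hN : 0 < N) (i : ι) (ξ : Λ) (t : ℂ) (M : ℕ) :
    X.ex ((A.xu N i ξ : ℂ) * (t + N * M) + (A.xv N i ξ : ℂ) * (t + N * M)) =
      X.ex ((A.xu N i ξ : ℂ) * t + (A.xv N i ξ : ℂ) * t) := by
  have hN0 : (N : ℂ) ≠ 0 := by exact_mod_cast hN.ne'
  have huN : (A.xu N i ξ : ℂ) = ((A.tr ξ : ℂ) - (A.nu ξ i : ℂ)) / N := by
    unfold KArr.xu
    push_cast
    ring
  have hvN : (A.xv N i ξ : ℂ) = (A.nu ξ i : ℂ) / N := by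
    unfold KArr.xv
    push_cast
    ring
  have h1 : (A.xu N i ξ : ℂ) * (t + N * M) + (A.xv N i ξ : ℂ) * (t + N * M) =
      ((A.xu N i ξ : ℂ) * t + (A.xv N i ξ : ℂ) * t) + ((A.tr ξ * M : ℕ) : ℂ) := by
    rw [huN, hvN]
    push_cast
    field_simp
    ring
  have h2 : X.ex (((A.tr ξ * M : ℕ) : ℂ)) = 1 := by
    unfold X.ex
    rw [Complex.exp_eq_one_iff]
    exact ⟨((A.tr ξ * M : ℕ) : ℤ), by push_cast; ring⟩
  rw [h1, X.ex_add, h2, mul_one]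

end H36H
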