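import Pool.Agent.Lib.H36H.XF
import Pool.Agent.Lib.H36H.XS

/-!
# H36H, chunk XP (M): the polynomial `P_t`

`xF_pow`: `Π_{j ∈ S} (ν_j/N + κ x) = Σ_{T ⊆ S} (κx)^|T| Π_{j ∈ S \ T} ν_j/N` (`Finset.prod_add`, `S = univ.erase i`, with the
roles of the two summands exchanged, `Finset.prod_const`), so termwise `xc N (-1) i (κ x) = Σ_T (κx)^|T| xcT N i T`, and
the series may be added (`Summable.tsum_finsetSum`, `xfamT`, `X.summable_F`, `s ≤ k - 1`).
`xP_eval`: evaluate the polynomial (`Polynomial.eval_finset_sum`, `eval_mul`, `eval_C`, `eval_pow`), use `xF_pow` with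
`s = l + 1 ≤ k - 1`.
`xP_shift`: every `X.F (xcT ..) .. (l+1) t t` is invariant under `t ↦ t + N M` by `xuv_shift`, termwise.
-/

namespace H36H

open H53M H94M Function

variable {ι Λ : Type*} [Fintype ι] [DecidableEq ι]

theorem xp_coeff (A : KArr ι Λ) (N : ℕ) (i : ι) (a : ℂ) (ξ : Λ) :
    A.xc N (-1) i a ξ = ∑ T ∈ (Finset.univ.erase i).powerset, a ^ T.card * A.xcT N i T ξ := by
  unfold KArr.xc KArr.xcT
  have h : ∏ j ∈ Finset.univ.erase i, ((A.nu ξ j : ℂ) / (N : ℂ) + a) =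
      ∑ T ∈ (Finset.univ.erase i).powerset, a ^ T.card *
        ∏ j ∈ (Finset.univ.erase i) \ T, ((A.nu ξ j : ℂ) / (N : ℂ)) := by
    rw [Finset.prod_congr rfl fun j _ => add_comm _ a, Finset.prod_add]
    refine Finset.sum_congr rfl fun T _ => ?_
    rw [Finset.prod_const]
  rw [h, Finset.mul_sum]
  exact Finset.sum_congr rfl fun T _ => by ring

theorem KArr.xF_pow (A : KArr ι Λ) {N k : ℕ} (hN : 0 < N) (hd : 2 ≤ Fintype.card ι)
    (hf : A.XFam k) (i : ι) (s : ℕ) (hs : s ≤ k - 1) (x : ℂ) {t : ℂ} (ht : 0 < t.im) :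
    X.F (A.xc N (-1) i (kp k * x)) (A.xu N i) (A.xv N i) s t t =
      ∑ T ∈ (Finset.univ.erase i).powerset,
        (kp k * x) ^ T.card * X.F (A.xcT N i T) (A.xu N i) (A.xv N i) s t t := by
  have hsum : ∀ T ∈ (Finset.univ.erase i).powerset, Summable fun ξ =>
      (kp k * x) ^ T.card * (A.xcT N i T ξ * ((A.xv N i ξ : ℂ)⁻¹) ^ s *
        X.ex ((A.xu N i ξ : ℂ) * t + (A.xv N i ξ : ℂ) * t)) := fun T _ =>
    (X.summable_F (A.xfamT hN hd hf i T) hs ht ht).mul_left _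
  unfold X.F
  have h := Summable.tsum_finsetSum hsum
  simp only [tsum_mul_left] at h
  rw [← h]
  refine tsum_congr fun ξ => ?_
  rw [xp_coeff, Finset.sum_mul, Finset.sum_mul]
  exact Finset.sum_congr rfl fun T _ => by ring

theorem KArr.xP_eval (A : KArr ι Λ) {N k : ℕ} (hN : 0 < N) (hd : 2 ≤ Fintype.card ι)
    (hf : A.XFam k) {t : ℂ} (ht : 0 < t.im) (x : ℂ) :
    (A.xP N k t).eval x = ∑ i : ι, ∑ l ∈ Finset.range (k - 1),
      (N : ℂ) ^ (Fintype.card ι - 2) * (2 * Real.pi * Complex.I * X.co (k - 1) l * x ^ l *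
        X.F (A.xc N (-1) i (kp k * x)) (A.xu N i) (A.xv N i) (l + 1) t t) := by
  unfold KArr.xP
  rw [Polynomial.eval_finsetSum]
  refine Finset.sum_congr rfl fun i _ => ?_
  rw [Polynomial.eval_finsetSum]
  refine Finset.sum_congr rfl fun l hl => ?_
  rw [Polynomial.eval_finsetSum, A.xF_pow hN hd hf i (l + 1) (by
    have := Finset.mem_range.mp hl
    omega) x ht, Finset.mul_sum, Finset.mul_sum]
  refine Finset.sum_congr rfl fun T _ => ?_
  simp only [Polynomial.eval_mul, Polynomial.eval_C, Polynomial.eval_pow, Polynomial.eval_X]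
  rw [mul_pow, pow_add]
  ring

theorem KArr.xP_shift (A : KArr ι Λ) {N k : ℕ} (hN : 0 < N) (t : ℂ) (M : ℕ) :
    A.xP N k (t + N * M) = A.xP N k t := by
  unfold KArr.xP X.F
  simp only [A.xuv_shift hN]

end H36H
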