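import Pool.Agent.Lib.H36H.XL

/-!
# H36H, chunk XT (M): the transformation law in two variables

`γ = (1 0; N 1)`, `z_j = (t-1)/N` for `j ≠ i`, `z_i = (w-1)/N` (positive imaginary parts). `N z_j + 1 = t`,
`N z_i + 1 = w`, `(z_j)/(N z_j + 1) = (1 - 1/t)/N`, `(z_i)/(N z_i + 1) = (1 - 1/w)/N`. `KT_list` (Lib/H36H/KT.lean)
with `α = 1, β = 0, C = N, D = 1`, the list `(univ.erase i).toList` and the exponents `a = update (fun _ => 1) i 0`:
`G_a(γz) = t^((k+2)(d-1)) w^k lowL ..`, and by `lowL_one`, `s_j = N/(2πi t)` for `j ≠ i` (`sz`),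
`lowL .. = Σ_ξ c(ξ) Π_{j≠i} (ν_j + k N/(2πi t)) e((tr ξ - ν_i)(t-1)/N + ν_i (w-1)/N)`.
-/

namespace H36H

open H53M H94M Function

variable {ι Λ : Type*} [Fintype ι] [DecidableEq ι]

theorem xt_sum (A : KArr ι Λ) (i : ι) (p q : ℂ) (ξ : Λ) :
    ∑ j, (A.nu ξ j : ℂ) * update (fun _ => p) i q j =
      ((A.tr ξ : ℂ) - A.nu ξ i) * p + A.nu ξ i * q := by
  rw [KArr.sum_update, ← Finset.sum_mul]
  have h1 := congrArg (fun x : ℝ => (x : ℂ)) (A.nu_sum ξ)
  push_cast at h1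
  rw [← Finset.add_sum_erase _ _ (Finset.mem_univ i)] at h1
  rw [← h1]
  ring

/-- The exponents. -/
def xtA (i : ι) : ι → ℕ := update (fun _ => 1) i 0

theorem KArr.xtrans (A : KArr ι Λ) {N k : ℕ} (hN : 0 < N) (hk : 1 ≤ k) (hT : DTransI N k A.G)
    (i : ι) {t w : ℂ} (ht : 0 < t.im) (hw : 0 < w.im) :
    X.F (A.xc N 1 i 0) (A.xu N i) (A.xv N i) 0 (-1 / t) (-1 / w) =
      t ^ ((k + 2) * (Fintype.card ι - 1)) * w ^ k *
        X.F (A.xc N (-1) i (kp k * t⁻¹)) (A.xu N i) (A.xv N i) 0 t w := by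
  have hN0 : (N : ℂ) ≠ 0 := by exact_mod_cast hN.ne'
  have hNr : (0 : ℝ) < N := by exact_mod_cast hN
  have ht0 : t ≠ 0 := fun h => by simp [h] at ht
  have hw0 : w ≠ 0 := fun h => by simp [h] at hw
  have hpi : (2 * Real.pi * Complex.I : ℂ) ≠ 0 := Complex.two_pi_I_ne_zero
  obtain ⟨z, hz⟩ : ∃ z : ι → ℂ, z = update (fun _ => (t - 1) / N) i ((w - 1) / N) := ⟨_, rfl⟩
  have hzi : z i = (w - 1) / N := by rw [hz, update_self]
  have hzj : ∀ j, j ≠ i → z j = (t - 1) / N := fun j hj => by rw [hz, update_of_ne hj]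
  have him : ∀ x : ℂ, 0 < x.im → 0 < ((x - 1) / N).im := by
    intro x hx
    rw [Complex.div_natCast_im]
    have : (x - 1).im = x.im := by simp
    rw [this]
    exact div_pos hx hNr
  have hzpos : ∀ j, 0 < (z j).im := by
    intro j
    by_cases hj : j = i
    · rw [hj, hzi]
      exact him w hw
    · rw [hzj j hj]
      exact him t ht
  obtain ⟨l, hl⟩ : ∃ l : List ι, l = (Finset.univ.erase i).toList := ⟨_, rfl⟩
  have hln : l.Nodup := by rw [hl]; exact Finset.nodup_toList _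
  have hmem : ∀ j, j ∈ l ↔ j ≠ i := fun j => by rw [hl]; simp
  have hls : l.toFinset = Finset.univ.erase i := by rw [hl]; simp
  have ha0 : ∀ j, j ∉ l → xtA i j = 0 := by
    intro j hj
    rw [hmem, not_not] at hj
    rw [hj, xtA, update_self]
  have ha1 : ∀ j ∈ l, xtA i j = 1 := by
    intro j hj
    rw [hmem] at hj
    rw [xtA, update_of_ne hj]
  have h1 := KT_list hk A hT (α := 1) (β := 0) (C := N) (D := 1) (by ring) (dvd_refl _) l hln
    (xtA i) ha0 z hzpos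
  obtain ⟨h2, h3⟩ := lowL_one A k (sz (N : ℤ) 1 z) z hzpos l hln (xtA i) ha1
  rw [h3, hls] at h1
  -- the denominators
  have hdt : ∀ j, j ≠ i → (((N : ℤ) : ℂ) * z j + ((1 : ℤ) : ℂ)) = t := by
    intro j hj
    rw [hzj j hj]
    push_cast
    field_simp
    ring
  have hdi : (((N : ℤ) : ℂ) * z i + ((1 : ℤ) : ℂ)) = w := by
    rw [hzi]
    push_cast
    field_simp
    ring
  have hprod : ∏ j, (((N : ℤ) : ℂ) * z j + ((1 : ℤ) : ℂ)) ^ (k + 2 * xtA i j) =
      t ^ ((k + 2) * (Fintype.card ι - 1)) * w ^ k := by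
    rw [← Finset.mul_prod_erase _ _ (Finset.mem_univ i), hdi]
    have e1 : xtA i i = 0 := by rw [xtA, update_self]
    have e2 : ∀ j ∈ Finset.univ.erase i,
        (((N : ℤ) : ℂ) * z j + ((1 : ℤ) : ℂ)) ^ (k + 2 * xtA i j) = t ^ (k + 2) := by
      intro j hj
      rw [hdt j (Finset.ne_of_mem_erase hj), xtA, update_of_ne (Finset.ne_of_mem_erase hj)]
    rw [Finset.prod_congr rfl e2, Finset.prod_const, Finset.card_erase_of_mem (Finset.mem_univ i),
      Finset.card_univ, ← pow_mul, e1, mul_zero, add_zero, mul_comm]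
  rw [hprod] at h1
  obtain ⟨c0, hc0⟩ : ∃ c0 : ℂ, c0 = ((N : ℂ) ^ (Fintype.card ι - 1))⁻¹ := ⟨_, rfl⟩
  have hprodN : ∀ f : ι → ℂ, ∏ j ∈ Finset.univ.erase i, (f j / (N : ℂ)) =
      c0 * ∏ j ∈ Finset.univ.erase i, f j := by
    intro f
    rw [Finset.prod_div_distrib, Finset.prod_const, Finset.card_erase_of_mem (Finset.mem_univ i),
      Finset.card_univ, hc0, div_eq_mul_inv, mul_comm]
  -- left side
  have hL : X.F (A.xc N 1 i 0) (A.xu N i) (A.xv N i) 0 (-1 / t) (-1 / w) =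
      c0 * A.GA (xtA i) (fun j => (((1 : ℤ) : ℂ) * z j + ((0 : ℤ) : ℂ)) /
        (((N : ℤ) : ℂ) * z j + ((1 : ℤ) : ℂ))) := by
    unfold X.F KArr.GA
    rw [← tsum_mul_left]
    refine tsum_congr fun ξ => ?_
    unfold KArr.term KArr.xc
    have e1 : (fun j => (((1 : ℤ) : ℂ) * z j + ((0 : ℤ) : ℂ)) /
        (((N : ℤ) : ℂ) * z j + ((1 : ℤ) : ℂ))) =
        update (fun _ => (1 - 1 / t) / N) i ((1 - 1 / w) / N) := by
      funext j
      by_cases hj : j = i
      · rw [hj, hdi, update_self, hzi]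
        push_cast
        field_simp
        ring
      · rw [hdt j hj, update_of_ne hj, hzj j hj]
        push_cast
        field_simp
        ring
    have e2 : ∏ j, (A.nu ξ j : ℂ) ^ xtA i j = ∏ j ∈ Finset.univ.erase i, (A.nu ξ j : ℂ) := by
      rw [← Finset.mul_prod_erase _ _ (Finset.mem_univ i)]
      have e3 : xtA i i = 0 := by rw [xtA, update_self]
      rw [e3, pow_zero, one_mul]
      refine Finset.prod_congr rfl fun j hj => ?_
      rw [xtA, update_of_ne (Finset.ne_of_mem_erase hj), pow_one]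
    have e4 : X.ex ((((1 : ℤ) : ℂ)) * (A.tr ξ : ℂ) / (N : ℂ)) *
        X.ex ((A.xu N i ξ : ℂ) * (-1 / t) + (A.xv N i ξ : ℂ) * (-1 / w)) =
        Complex.exp (2 * Real.pi * Complex.I * (((A.tr ξ : ℂ) - A.nu ξ i) * ((1 - 1 / t) / N) +
          A.nu ξ i * ((1 - 1 / w) / N))) := by
      rw [← X.ex_add]
      unfold X.ex KArr.xu KArr.xv
      congr 2
      push_cast
      field_simp
      ring
    rw [e1, xt_sum, ← e4, e2, pow_zero, mul_one]
    simp only [add_zero]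
    rw [hprodN]
    ring
  -- right side
  have hR : X.F (A.xc N (-1) i (kp k * t⁻¹)) (A.xu N i) (A.xv N i) 0 t w =
      c0 * ∑' ξ, lterm A k (sz (N : ℤ) 1 z) (Finset.univ.erase i) (xtA i) z ξ := by
    unfold X.F
    rw [← tsum_mul_left]
    refine tsum_congr fun ξ => ?_
    unfold lterm KArr.xc
    have e1 : ∏ j ∈ Finset.univ.erase i, ((A.nu ξ j : ℂ) / (N : ℂ) + kp k * t⁻¹) =
        c0 * ∏ j ∈ Finset.univ.erase i, ((A.nu ξ j : ℂ) + k * sz (N : ℤ) 1 z j) := by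
      rw [← hprodN]
      refine Finset.prod_congr rfl fun j hj => ?_
      unfold sz kp
      rw [hdt j (Finset.ne_of_mem_erase hj)]
      push_cast
      field_simp
    have e2 : ∏ j ∈ Finset.univ \ Finset.univ.erase i, (A.nu ξ j : ℂ) ^ xtA i j = 1 := by
      refine Finset.prod_eq_one fun j hj => ?_
      have hji : j = i := by simpa using hj
      rw [hji, xtA, update_self, pow_zero]
    have e4 : X.ex ((((-1 : ℤ) : ℂ)) * (A.tr ξ : ℂ) / (N : ℂ)) *
        X.ex ((A.xu N i ξ : ℂ) * t + (A.xv N i ξ : ℂ) * w) =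
        Complex.exp (2 * Real.pi * Complex.I * ∑ j, (A.nu ξ j : ℂ) * z j) := by
      rw [← X.ex_add, hz, xt_sum]
      unfold X.ex KArr.xu KArr.xv
      congr 2
      push_cast
      field_simp
      ring
    rw [← e4, e2, e1, pow_zero]
    ring
  rw [hL, h1, hR]
  ring

end H36H
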