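import Pool.Agent.Lib.H36H.XB
import Pool.Agent.Lib.H36H.XT
import Pool.Agent.Lib.H36H.XH
import Pool.Agent.Lib.H36H.XP
import Pool.Agent.Lib.H94M.XNFin

/-!
# H36H, chunk XE (M): the transformation of `h`

`h((1 - 1/t)/N) = Σ_i X.F (xc 1 0 i 0) .. 1 ((1 + z)/N) ((1 + z)/N)`, `z = -1/t` (`hs_ev`; the imaginary part of
`(1 - 1/t)/N` is positive), `= N^(d-2) Σ_i X.F (xc N 1 i 0) .. 1 (-1/t) (-1/t)` (`xscale`), and by `transB3`
(`K = k - 1`, `E = t^((k+2)(d-1))`, hypothesis from `xtrans`: `w^k = w^(K+1)`, families from `xfam`)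
`= N^(d-2) Σ_i 2πi t^((k+2)(d-1)) (Σ_{l<K} co K l t^(K-1-l) F_{l+1}(t,t) - co K (K-1) L)`. Since
`(k+2)(d-1) + K - 1 = d k + 2 d - 4 = 2w'` we have `t^((k+2)(d-1)) t^(K-1-l) = t^(2w') (t⁻¹)^l` and
`t^((k+2)(d-1)) = t^(2w') (t⁻¹)^(k-2)`; compare with `xP_eval` at `x = t⁻¹`, `xY`, `kapI` (`K - 1 = k - 2`).
`kapI_ne`: `co K j ≠ 0` for `j ≤ K - 1` (`descFactorial`; see `kap_ne` in H53M/XFin.lean), `N ≠ 0`.
-/

namespace H36H

open H53M H94M Function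

variable {ι Λ : Type*} [Fintype ι] [DecidableEq ι]

theorem kapI_ne {N : ℕ} (hN : 0 < N) (d : ℕ) {k : ℕ} (hk : 2 ≤ k) : kapI N d k ≠ 0 := by
  have h1 := X.kap_ne (k - 1)
  have h2 : kapI N d k = (N : ℂ) ^ (d - 2) * X.kap (k - 1) := by
    unfold kapI X.kap
    have e : k - 1 - 1 = k - 2 := by omega
    rw [e]
    ring
  rw [h2]
  exact mul_ne_zero (pow_ne_zero _ (by exact_mod_cast hN.ne')) h1

theorem KArr.h_trans (A : KArr ι Λ) {N k w' : ℕ} (hN : 0 < N) (hk : 2 ≤ k)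
    (hd : 2 ≤ Fintype.card ι) (hw : 2 * w' + 4 = Fintype.card ι * k + 2 * Fintype.card ι)
    (hT : DTransI N k A.G) (hf : A.XFam k) {t : ℂ} (ht : 0 < t.im) :
    ev (ktoC A.hs) ((1 + -1 / t) / N) = t ^ (2 * w') *
      ((A.xP N k t).eval t⁻¹ +
        kapI N (Fintype.card ι) k * t⁻¹ ^ (k - 2) * A.xY N k t t⁻¹) := by
  have ht0 : t ≠ 0 := X.X3_ne ht
  have hK1 : k - 1 + 1 = k := by omega
  have hstep : ∀ i : ι, X.F (A.xc 1 0 i 0) (A.xu 1 i) (A.xv 1 i) 1 ((1 + -1 / t) / N)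
      ((1 + -1 / t) / N) = (N : ℂ) ^ (Fintype.card ι - 2) * (2 * Real.pi * Complex.I *
        t ^ ((k + 2) * (Fintype.card ι - 1)) *
        (∑ j ∈ Finset.range (k - 1), X.co (k - 1) j * t ^ (k - 1 - 1 - j) *
          X.F (A.xc N (-1) i (kp k * t⁻¹)) (A.xu N i) (A.xv N i) (j + 1) t t -
          X.co (k - 1) (k - 1 - 1) *
            X.L (A.xc N (-1) i (kp k * t⁻¹)) (A.xu N i) (A.xv N i) (k - 1) t)) := by
    intro i
    rw [A.xscale hN hd i, transB3 (A.xfam hN hd hf (-1) i (kp k * t⁻¹)) (A.xfam hN hd hf 1 i 0)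
      (by omega) ht (t ^ ((k + 2) * (Fintype.card ι - 1))) (fun w hw => by
        rw [A.xtrans hN (by omega) hT i ht hw, hK1])]
  rw [A.hs_ev hk hd hf (XN4_im2 hN (X.X13_im ht)), A.xP_eval hN hd hf ht]
  unfold KArr.xY kapI
  rw [Finset.sum_congr rfl fun i _ => hstep i, Finset.mul_sum, mul_add, Finset.mul_sum,
    Finset.mul_sum, ← Finset.sum_add_distrib]
  refine Finset.sum_congr rfl fun i _ => ?_
  rw [mul_sub, mul_sub, sub_eq_add_neg, Finset.mul_sum, Finset.mul_sum, Finset.mul_sum]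
  have hpow : (k + 2) * (Fintype.card ι - 1) + (k - 2) = 2 * w' := by
    obtain ⟨d, hd'⟩ : ∃ d, Fintype.card ι = d + 2 := ⟨Fintype.card ι - 2, by omega⟩
    obtain ⟨m, rfl⟩ : ∃ m, k = m + 2 := ⟨k - 2, by omega⟩
    rw [hd'] at hw ⊢
    have e1 : d + 2 - 1 = d + 1 := by omega
    have e2 : m + 2 - 2 = m := by omega
    rw [e1, e2]
    nlinarith [hw]
  congr 1
  · refine Finset.sum_congr rfl fun j hj => ?_
    have hj' : j ≤ k - 2 := by
      have := Finset.mem_range.mp hj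
      omega
    have e2 : t ^ (2 * w') = t ^ ((k + 2) * (Fintype.card ι - 1)) * t ^ (k - 1 - 1 - j) * t ^ j := by
      rw [← pow_add, ← pow_add, ← hpow]
      congr 1
      omega
    have e3 : t ^ j * t⁻¹ ^ j = 1 := by
      rw [← mul_pow, mul_inv_cancel₀ ht0, one_pow]
    rw [e2]
    linear_combination (-((N : ℂ) ^ (Fintype.card ι - 2) * (2 * Real.pi * Complex.I *
      X.co (k - 1) j * X.F (A.xc N (-1) i (kp k * t⁻¹)) (A.xu N i) (A.xv N i) (j + 1) t t) *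
      (t ^ ((k + 2) * (Fintype.card ι - 1)) * t ^ (k - 1 - 1 - j)))) * e3
  · have e2 : t ^ (2 * w') = t ^ ((k + 2) * (Fintype.card ι - 1)) * t ^ (k - 2) := by
      rw [← pow_add, hpow]
    have e3 : t ^ (k - 2) * t⁻¹ ^ (k - 2) = 1 := by
      rw [← mul_pow, mul_inv_cancel₀ ht0, one_pow]
    have e4 : k - 1 - 1 = k - 2 := by omega
    rw [e2, e4]
    linear_combination ((N : ℂ) ^ (Fintype.card ι - 2) * (2 * Real.pi * Complex.I *
      X.co (k - 1) (k - 2) * X.L (A.xc N (-1) i (kp k * t⁻¹)) (A.xu N i) (A.xv N i) (k - 1) t) *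
      t ^ ((k + 2) * (Fintype.card ι - 1))) * e3

end H36H
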