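import Pool.Agent.Lib.H36H.XD

/-!
# H36H, chunk XF (M): the families are admissible

`xfam_gen`: let `q : Λ → ℂ` with `‖q ξ‖ ≤ C (1 + (tr ξ - ν_i))^D`. Then `c(ξ) q(ξ)` with the frequencies
`u = (tr ξ - ν_i)/N`, `v = ν_i/N` is a `Fam (k-1)`:
positivity: `ν_i > 0` and `tr ξ - ν_i = Σ_{j ≠ i} ν_j > 0` because there is a `j ≠ i` (`2 ≤ card ι`, `A.nu_sum`,
`A.nu_pos`); summability: for `y > 0` put `s = tr ξ - ν_i ≥ 0`:
`‖c q‖ v⁻¹^(k-1) exp(-2π u y) ≤ |c| C (1+s)^D N^(k-1) ν_i^{-(k-1)} exp(-2π s y/N)` and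
`(1+s)^D exp(-2π s y/(2N)) ≤ C'` (for instance `(1+s)^D ≤ D! ε^{-D} exp(ε(1+s))`, `Real.pow_div_factorial_le_exp`,
`ε = 2π y/(2N)`), so the term is `≤ C'' |c| ν_i^{-(k-1)} exp(-2π s (y/(2N)))`: summable by `A.XFam k`.
`xfam`, `xfamT`: `‖e(..)‖ = 1` (real argument, `X.norm_ex`), and the product over `j ≠ i` of `‖ν_j/N + a‖` is at most
`Π (ν_j/N + ‖a‖) ≤ ((tr ξ - ν_i) + 1 + ‖a‖)^d ≤ ...` (each `ν_j ≤ tr ξ - ν_i` for `j ≠ i`, `N ≥ 1`).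
-/

namespace H36H

open H53M H94M Function

variable {ι Λ : Type*} [Fintype ι] [DecidableEq ι]

namespace KArr

theorem XF_sum (A : KArr ι Λ) (i : ι) (ξ : Λ) :
    (A.tr ξ : ℝ) - A.nu ξ i = ∑ j ∈ Finset.univ.erase i, A.nu ξ j := by
  rw [← A.nu_sum ξ, ← Finset.add_sum_erase Finset.univ _ (Finset.mem_univ i)]
  ring

theorem XF_nonneg (A : KArr ι Λ) (i : ι) (ξ : Λ) : 0 ≤ (A.tr ξ : ℝ) - A.nu ξ i := by
  rw [XF_sum]
  exact Finset.sum_nonneg fun j _ => (A.nu_pos ξ j).le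

theorem xs_pos (A : KArr ι Λ) (hd : 2 ≤ Fintype.card ι) (i : ι) (ξ : Λ) :
    0 < (A.tr ξ : ℝ) - A.nu ξ i := by
  rw [XF_sum]
  obtain ⟨j, hj⟩ := Fintype.exists_ne_of_one_lt_card (by omega : 1 < Fintype.card ι) i
  exact Finset.sum_pos (fun j _ => A.nu_pos ξ j)
    ⟨j, Finset.mem_erase.mpr ⟨hj, Finset.mem_univ j⟩⟩

theorem XF_pow {ε s : ℝ} (hε : 0 < ε) (hs : 0 ≤ s) (D : ℕ) :
    (1 + s) ^ D ≤ (D.factorial : ℝ) / ε ^ D * Real.exp ε * Real.exp (ε * s) := by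
  have h := Real.pow_div_factorial_le_exp (x := ε * (1 + s)) (by positivity) D
  have hf : (0 : ℝ) < D.factorial := by exact_mod_cast D.factorial_pos
  rw [div_le_iff₀ hf, mul_pow] at h
  have h2 : Real.exp (ε * (1 + s)) = Real.exp ε * Real.exp (ε * s) := by
    rw [← Real.exp_add]
    congr 1
    ring
  rw [h2] at h
  have hεD : 0 < ε ^ D := by positivity
  rw [mul_assoc, div_mul_eq_mul_div, le_div_iff₀ hεD]
  linarith

theorem xfam_gen (A : KArr ι Λ) {N k : ℕ} (hN : 0 < N) (hd : 2 ≤ Fintype.card ι) (hf : A.XFam k)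
    (i : ι) (q : Λ → ℂ) (C : ℝ) (D : ℕ)
    (hq : ∀ ξ, ‖q ξ‖ ≤ C * (1 + ((A.tr ξ : ℝ) - A.nu ξ i)) ^ D) :
    X.Fam (k - 1) (fun ξ => (A.c ξ : ℂ) * q ξ) (A.xu N i) (A.xv N i) := by
  have hN' : (0 : ℝ) < N := by exact_mod_cast hN
  refine ⟨fun ξ _ => ⟨div_pos (A.xs_pos hd i ξ) hN', div_pos (A.nu_pos ξ i) hN'⟩, ?_⟩
  intro y hy
  set ε : ℝ := Real.pi * y / N with hε
  have hε0 : 0 < ε := by positivity
  have hy' : 0 < y / (2 * N) := by positivity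
  refine Summable.of_nonneg_of_le (fun ξ => ?_) (fun ξ => ?_)
    ((hf i _ hy').mul_left (|C| * ((D.factorial : ℝ) / ε ^ D * Real.exp ε) * (N : ℝ) ^ (k - 1)))
  · have : 0 < A.xv N i ξ := div_pos (A.nu_pos ξ i) hN'
    positivity
  · set s : ℝ := (A.tr ξ : ℝ) - A.nu ξ i with hs
    have hs0 : 0 ≤ s := XF_nonneg A i ξ
    have hν : 0 < A.nu ξ i := A.nu_pos ξ i
    have e1 : ‖(A.c ξ : ℂ) * q ξ‖ ≤ |(A.c ξ : ℝ)| *
        (|C| * ((D.factorial : ℝ) / ε ^ D * Real.exp ε * Real.exp (ε * s))) := by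
      rw [norm_mul]
      have h1 : ‖(A.c ξ : ℂ)‖ = |(A.c ξ : ℝ)| := by
        rw [Complex.norm_intCast]
      rw [h1]
      refine mul_le_mul_of_nonneg_left ?_ (abs_nonneg _)
      refine (hq ξ).trans ?_
      have h2 : (0 : ℝ) ≤ (1 + s) ^ D := by positivity
      exact (mul_le_mul_of_nonneg_right (le_abs_self C) h2).trans
        (mul_le_mul_of_nonneg_left (XF_pow hε0 hs0 D) (abs_nonneg _))
    have e2 : (A.xv N i ξ)⁻¹ ^ (k - 1) = (N : ℝ) ^ (k - 1) * (A.nu ξ i)⁻¹ ^ (k - 1) := by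
      rw [← mul_pow]
      congr 1
      unfold xv
      rw [inv_div]
      rfl
    have e3 : Real.exp (-(2 * Real.pi * A.xu N i ξ * y)) =
        Real.exp (-(ε * s)) * Real.exp (-(ε * s)) := by
      rw [← Real.exp_add]
      congr 1
      unfold xu
      rw [hε, ← hs]
      field_simp
      ring
    have e4 : Real.exp (-(2 * Real.pi * s * (y / (2 * N)))) = Real.exp (-(ε * s)) := by
      congr 1
      rw [hε]
      field_simp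
    have e5 : Real.exp (ε * s) * Real.exp (-(ε * s)) = 1 := by
      rw [← Real.exp_add, add_neg_cancel, Real.exp_zero]
    rw [e2, e3, e4]
    have h3 : 0 ≤ (N : ℝ) ^ (k - 1) * (A.nu ξ i)⁻¹ ^ (k - 1) := by positivity
    calc ‖(A.c ξ : ℂ) * q ξ‖ * ((N : ℝ) ^ (k - 1) * (A.nu ξ i)⁻¹ ^ (k - 1)) *
          (Real.exp (-(ε * s)) * Real.exp (-(ε * s)))
        ≤ (|(A.c ξ : ℝ)| * (|C| * ((D.factorial : ℝ) / ε ^ D * Real.exp ε * Real.exp (ε * s)))) *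
          ((N : ℝ) ^ (k - 1) * (A.nu ξ i)⁻¹ ^ (k - 1)) *
          (Real.exp (-(ε * s)) * Real.exp (-(ε * s))) :=
          mul_le_mul_of_nonneg_right (mul_le_mul_of_nonneg_right e1 h3) (by positivity)
      _ = |C| * ((D.factorial : ℝ) / ε ^ D * Real.exp ε) * (N : ℝ) ^ (k - 1) *
          (|(A.c ξ : ℝ)| * (A.nu ξ i)⁻¹ ^ (k - 1) * Real.exp (-(ε * s))) := by
          linear_combination (|(A.c ξ : ℝ)| * |C| * ((D.factorial : ℝ) / ε ^ D * Real.exp ε) *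
            (N : ℝ) ^ (k - 1) * (A.nu ξ i)⁻¹ ^ (k - 1) * Real.exp (-(ε * s))) * e5

omit [DecidableEq ι] in
theorem XF_ex (A : KArr ι Λ) (N : ℕ) (σ : ℤ) (ξ : Λ) :
    ‖X.ex ((σ : ℂ) * (A.tr ξ : ℂ) / (N : ℂ))‖ = 1 := by
  have h : ((σ : ℂ) * (A.tr ξ : ℂ) / (N : ℂ)) = (((σ : ℝ) * (A.tr ξ : ℝ) / (N : ℝ) : ℝ) : ℂ) := by
    push_cast
    rfl
  rw [h, X.norm_ex, Complex.ofReal_im]
  simp

theorem XF_prod (A : KArr ι Λ) {N : ℕ} (hN : 0 < N) (i : ι) (S : Finset ι)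
    (hS : S ⊆ Finset.univ.erase i) (a : ℂ) (ξ : Λ) :
    ‖∏ j ∈ S, ((A.nu ξ j : ℂ) / (N : ℂ) + a)‖ ≤
      (1 + ‖a‖) ^ S.card * (1 + ((A.tr ξ : ℝ) - A.nu ξ i)) ^ S.card := by
  rw [norm_prod, ← mul_pow]
  have hs0 := XF_nonneg A i ξ
  rw [← Finset.prod_const]
  refine Finset.prod_le_prod (fun j _ => norm_nonneg _) fun j hj => ?_
  have h1 : A.nu ξ j ≤ (A.tr ξ : ℝ) - A.nu ξ i := by
    rw [XF_sum]
    exact Finset.single_le_sum (f := fun j => A.nu ξ j) (fun j _ => (A.nu_pos ξ j).le) (hS hj)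
  have hN1 : (1 : ℝ) ≤ N := by exact_mod_cast hN
  have hν := A.nu_pos ξ j
  have h2 : ‖(A.nu ξ j : ℂ) / (N : ℂ)‖ ≤ A.nu ξ j := by
    rw [norm_div, Complex.norm_natCast, Complex.norm_real, Real.norm_eq_abs, abs_of_pos hν]
    exact div_le_self hν.le hN1
  refine (norm_add_le _ _).trans ?_
  have h3 := norm_nonneg a
  nlinarith [mul_nonneg h3 hs0]

theorem xfam (A : KArr ι Λ) {N k : ℕ} (hN : 0 < N) (hd : 2 ≤ Fintype.card ι) (hf : A.XFam k)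
    (σ : ℤ) (i : ι) (a : ℂ) : X.Fam (k - 1) (A.xc N σ i a) (A.xu N i) (A.xv N i) := by
  have h : A.xc N σ i a = fun ξ => (A.c ξ : ℂ) * (X.ex ((σ : ℂ) * (A.tr ξ : ℂ) / (N : ℂ)) *
      ∏ j ∈ Finset.univ.erase i, ((A.nu ξ j : ℂ) / (N : ℂ) + a)) := by
    funext ξ
    unfold xc
    rw [mul_assoc]
  rw [h]
  refine A.xfam_gen hN hd hf i _ ((1 + ‖a‖) ^ (Finset.univ.erase i).card)
    (Finset.univ.erase i).card fun ξ => ?_
  rw [norm_mul, XF_ex, one_mul]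
  exact XF_prod A hN i _ (Finset.Subset.refl _) a ξ

theorem xfamT (A : KArr ι Λ) {N k : ℕ} (hN : 0 < N) (hd : 2 ≤ Fintype.card ι) (hf : A.XFam k)
    (i : ι) (T : Finset ι) : X.Fam (k - 1) (A.xcT N i T) (A.xu N i) (A.xv N i) := by
  have h : A.xcT N i T = fun ξ => (A.c ξ : ℂ) *
      (X.ex (((-1 : ℤ) : ℂ) * (A.tr ξ : ℂ) / (N : ℂ)) *
      ∏ j ∈ (Finset.univ.erase i) \ T, ((A.nu ξ j : ℂ) / (N : ℂ) + 0)) := by
    funext ξ
    unfold xcT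
    rw [mul_assoc]
    simp only [add_zero]
  rw [h]
  refine A.xfam_gen hN hd hf i _ ((1 + ‖(0 : ℂ)‖) ^ ((Finset.univ.erase i) \ T).card)
    ((Finset.univ.erase i) \ T).card fun ξ => ?_
  rw [norm_mul, XF_ex, one_mul]
  exact XF_prod A hN i _ Finset.sdiff_subset 0 ξ

end KArr

end H36H
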