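import Pool.Agent.Lib.H36H.XD

/-!
# H36H, chunk XL (M): the lowering operators on `G_a`, exponents `≤ 1`

`lowL` (Lib/H36H/KL.lean) is the composite of the one variable lowering operators; `kc k 1 0 = 1`, `kc k 1 1 = k`
(`kc k a i = a.choose i * (k + a - 1).descFactorial i`). Induction on the list `l` (general `a`):
`lowL k s (j :: l) t a = lowV k j (s j) (lowL k s l t) a = (lowL k s l t) (update a j 1) + k s_j (lowL k s l t) (update a j 0)`
because `a j = 1` (`lowV_eq`, `Finset.sum_range_succ`); apply the induction hypothesis to `update a j 1 = a` and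
`update a j 0` (they agree with `a` on `l` since `j ∉ l`) and add the two series (`Summable.tsum_add`; the summability
of all the series here: finite linear combinations of the terms `A.term a' z`, `KArr.summable_term`; it is convenient
to carry the summability along in the induction: statement `summable_low` below). The product over the complement:
`univ \ (insert j l.toFinset)`, and `Π_{i ∈ univ \ l.toFinset} ν_i^{a_i}` splits off the factor `i = j`, which is
`ν_j^{a_j}` with `a_j = 1` or `0`.
-/

namespace H36H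

open H53M H94M Function

variable {ι Λ : Type*} [Fintype ι] [DecidableEq ι]

/-- The terms after lowering. -/
noncomputable def lterm (A : KArr ι Λ) (k : ℕ) (s : ι → ℂ) (S : Finset ι) (a : ι → ℕ) (z : ι → ℂ)
    (ξ : Λ) : ℂ :=
  (A.c ξ : ℂ) * (∏ j ∈ Finset.univ \ S, (A.nu ξ j : ℂ) ^ a j) *
    (∏ j ∈ S, ((A.nu ξ j : ℂ) + k * s j)) *
    Complex.exp (2 * Real.pi * Complex.I * ∑ i, (A.nu ξ i : ℂ) * z i)

theorem xl_prod (A : KArr ι Λ) (S : Finset ι) (a : ι → ℕ) (j : ι) (hj : j ∉ S) (b : ℕ) (ξ : Λ) :
    ∏ i ∈ Finset.univ \ S, (A.nu ξ i : ℂ) ^ update a j b i =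
      (A.nu ξ j : ℂ) ^ b * ∏ i ∈ Finset.univ \ insert j S, (A.nu ξ i : ℂ) ^ a i := by
  have h1 : Finset.univ \ S = insert j (Finset.univ \ insert j S) := by
    ext i
    simp only [Finset.mem_sdiff, Finset.mem_univ, true_and, Finset.mem_insert, not_or]
    by_cases hi : i = j
    · rw [hi]
      simp [hj]
    · simp [hi]
  have h2 : j ∉ Finset.univ \ insert j S := by simp
  rw [h1, Finset.prod_insert h2, update_self]
  congr 1
  refine Finset.prod_congr rfl fun i hi => ?_
  have hij : i ≠ j := fun h => h2 (h ▸ hi)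
  rw [update_of_ne hij]

theorem xl_kc (k : ℕ) : kc k 1 1 = k := by
  unfold kc
  simp

theorem lowL_one (A : KArr ι Λ) (k : ℕ) (s : ι → ℂ) (z : ι → ℂ) (hz : ∀ i, 0 < (z i).im)
    (l : List ι) (hl : l.Nodup) (a : ι → ℕ) (ha : ∀ j ∈ l, a j = 1) :
    Summable (lterm A k s l.toFinset a z) ∧
      lowL k s l (fun a' => A.GA a' z) a = ∑' ξ, lterm A k s l.toFinset a z ξ := by
  induction l generalizing a with
  | nil =>
    have h : lterm A k s ([] : List ι).toFinset a z = A.term a z := by
      funext ξ
      unfold lterm KArr.term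
      simp
    rw [h]
    exact ⟨A.summable_term a z hz, rfl⟩
  | cons j l ih =>
    obtain ⟨hj, hl'⟩ := List.nodup_cons.1 hl
    have hjS : j ∉ l.toFinset := fun h => hj (List.mem_toFinset.1 h)
    have haj : a j = 1 := ha j List.mem_cons_self
    have hupd : ∀ b : ℕ, ∀ i ∈ l, update a j b i = 1 := by
      intro b i hi
      have hij : i ≠ j := fun h => hj (h ▸ hi)
      rw [update_of_ne hij]
      exact ha i (List.mem_cons_of_mem j hi)
    obtain ⟨s1, e1⟩ := ih hl' (update a j 1) (hupd 1)
    obtain ⟨s0, e0⟩ := ih hl' (update a j 0) (hupd 0)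
    have hterm : lterm A k s (j :: l).toFinset a z = fun ξ =>
        lterm A k s l.toFinset (update a j 1) z ξ +
          (k : ℂ) * s j * lterm A k s l.toFinset (update a j 0) z ξ := by
      funext ξ
      unfold lterm
      rw [xl_prod A l.toFinset a j hjS 1 ξ, xl_prod A l.toFinset a j hjS 0 ξ,
        List.toFinset_cons, Finset.prod_insert hjS]
      ring
    rw [hterm]
    refine ⟨s1.add (s0.mul_left _), ?_⟩
    rw [Summable.tsum_add s1 (s0.mul_left _), tsum_mul_left, ← e1, ← e0, lowL_cons, lowV_eq, haj,
      Finset.sum_range_succ, Finset.sum_range_one, kc_zero, xl_kc]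
    simp

end H36H
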