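import Pool.Agent.Lib.H36H.XF
import Pool.Agent.Lib.H36H.XS

/-!
# H36H, chunk XY1 (M): `y(t_M, x_M) - y(t_M, 0) → 0`

`t_M = t + N M`, `x_M = t_M⁻¹ → 0`. For each `i` the difference of the two `L`-series has the terms
`c(ξ) e(-tr/N) [Π_{j≠i} (ν_j/N + κ x_M) - Π_{j≠i} ν_j/N] v^{-(k-1)} e(u t_M)`, `‖e(u t_M)‖ = exp(-2π u Im t)`.
For `‖x_M‖ ≤ 1` (`M` large) the bracket is bounded by `2 Π_{j≠i} (ν_j/N + ‖κ‖)`, i.e. by twice the norm of the
coefficient `xc N (-1) i ‖κ‖` (real positive numbers, product of norms), which is summable with the weights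
`v^{-(k-1)} exp(-2π u Im t)` (`xfam` with `a = ‖κ‖`, `Fam.sum`); for fixed `ξ` the term tends to `0` (the bracket is
continuous in `x`, the exponential is bounded). `tendsto_tsum_of_dominated_convergence`; sum over `i`
(`tendsto_finsetSum`); the difference of two convergent series is the series of the differences (`X.summable_L`).
-/

namespace H36H

open H53M H94M Function Filter Topology

variable {ι Λ : Type*} [Fintype ι] [DecidableEq ι]

theorem inv_tendsto_xt {N : ℕ} (hN : 0 < N) (t : ℂ) :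
    Tendsto (fun M : ℕ => (t + N * (M : ℂ))⁻¹) atTop (𝓝 0) := by
  rw [tendsto_zero_iff_norm_tendsto_zero]
  simp_rw [norm_inv]
  refine tendsto_inv_atTop_zero.comp ?_
  have h1 : ∀ M : ℕ, (M : ℝ) + -‖t‖ ≤ ‖t + N * (M : ℂ)‖ := by
    intro M
    have h2 : ‖((N : ℂ) * (M : ℂ))‖ ≤ ‖t + N * (M : ℂ)‖ + ‖t‖ := by
      have h3 : (N : ℂ) * (M : ℂ) = (t + N * (M : ℂ)) - t := by ring
      calc ‖((N : ℂ) * (M : ℂ))‖ = ‖(t + N * (M : ℂ)) - t‖ := by rw [← h3]
        _ ≤ _ := norm_sub_le _ _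
    have h4 : (M : ℝ) ≤ ‖((N : ℂ) * (M : ℂ))‖ := by
      rw [norm_mul, Complex.norm_natCast, Complex.norm_natCast]
      have h5 : (1 : ℝ) ≤ N := by exact_mod_cast hN
      have h6 : (0 : ℝ) ≤ M := Nat.cast_nonneg _
      nlinarith
    linarith
  exact tendsto_atTop_mono h1 (tendsto_natCast_atTop_atTop.atTop_add tendsto_const_nhds)

theorem xy1_im (t : ℂ) (N M : ℕ) : (t + N * (M : ℂ)).im = t.im := by simp

theorem xy1_norm_ex (u : ℝ) (t : ℂ) (N M : ℕ) :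
    ‖X.ex ((u : ℂ) * (t + N * (M : ℂ)))‖ = Real.exp (-(2 * Real.pi * u * t.im)) := by
  rw [X.norm_ex, Complex.im_ofReal_mul, xy1_im]
  congr 1
  ring

theorem xy1_xc_norm (A : KArr ι Λ) (N : ℕ) (i : ι) (a : ℂ) (b : ℝ) (hb : ‖a‖ ≤ b) (ξ : Λ) :
    ‖A.xc N (-1) i a ξ‖ ≤ ‖A.xc N (-1) i (b : ℂ) ξ‖ := by
  have hb0 : 0 ≤ b := (norm_nonneg _).trans hb
  unfold KArr.xc
  rw [norm_mul _ (∏ j ∈ Finset.univ.erase i, ((A.nu ξ j : ℂ) / (N : ℂ) + a)),
    norm_mul _ (∏ j ∈ Finset.univ.erase i, ((A.nu ξ j : ℂ) / (N : ℂ) + (b : ℂ)))]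
  refine mul_le_mul_of_nonneg_left ?_ (norm_nonneg _)
  rw [norm_prod, norm_prod]
  refine Finset.prod_le_prod (fun j _ => norm_nonneg _) fun j _ => ?_
  have hpos : 0 ≤ A.nu ξ j / (N : ℝ) := div_nonneg (A.nu_pos ξ j).le (Nat.cast_nonneg _)
  have h1 : ((A.nu ξ j : ℂ) / (N : ℂ) + (b : ℂ)) = ((A.nu ξ j / (N : ℝ) + b : ℝ) : ℂ) := by
    push_cast
    ring
  have h2 : ‖(A.nu ξ j : ℂ) / (N : ℂ)‖ = A.nu ξ j / (N : ℝ) := by
    have h3 : (A.nu ξ j : ℂ) / (N : ℂ) = ((A.nu ξ j / (N : ℝ) : ℝ) : ℂ) := by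
      push_cast
      ring
    rw [h3, Complex.norm_real, Real.norm_of_nonneg hpos]
  rw [h1, Complex.norm_real, Real.norm_of_nonneg (by linarith)]
  refine (norm_add_le _ _).trans ?_
  rw [h2]
  linarith

theorem KArr.xY_diff (A : KArr ι Λ) {N k : ℕ} (hN : 0 < N) (hd : 2 ≤ Fintype.card ι)
    (hf : A.XFam k) {t : ℂ} (ht : 0 < t.im) :
    Tendsto (fun M : ℕ => A.xY N k (t + N * (M : ℂ)) (t + N * (M : ℂ))⁻¹ -
      A.xY N k (t + N * (M : ℂ)) 0) atTop (𝓝 0) := by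
  have hx := inv_tendsto_xt hN t
  have hi : ∀ i : ι, Tendsto (fun M : ℕ =>
      X.L (A.xc N (-1) i (kp k * (t + N * (M : ℂ))⁻¹)) (A.xu N i) (A.xv N i) (k - 1)
        (t + N * (M : ℂ)) -
      X.L (A.xc N (-1) i (kp k * 0)) (A.xu N i) (A.xv N i) (k - 1) (t + N * (M : ℂ)))
      atTop (𝓝 0) := by
    intro i
    have hsub : ∀ M : ℕ, X.L (A.xc N (-1) i (kp k * (t + N * (M : ℂ))⁻¹)) (A.xu N i) (A.xv N i)
        (k - 1) (t + N * (M : ℂ)) -
        X.L (A.xc N (-1) i (kp k * 0)) (A.xu N i) (A.xv N i) (k - 1) (t + N * (M : ℂ)) =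
        ∑' ξ, (A.xc N (-1) i (kp k * (t + N * (M : ℂ))⁻¹) ξ - A.xc N (-1) i (kp k * 0) ξ) *
          ((A.xv N i ξ : ℂ)⁻¹) ^ (k - 1) * X.ex ((A.xu N i ξ : ℂ) * (t + N * (M : ℂ))) := by
      intro M
      have him : 0 < (t + N * (M : ℂ)).im := by
        rw [xy1_im]
        exact ht
      unfold X.L
      rw [← Summable.tsum_sub (X.summable_L (A.xfam hN hd hf _ i _) him)
        (X.summable_L (A.xfam hN hd hf _ i _) him)]
      refine tsum_congr fun ξ => ?_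
      ring
    simp_rw [hsub]
    have hb := ((A.xfam hN hd hf (-1) i ((‖kp k‖ : ℝ) : ℂ)).sum t.im ht).mul_left 2
    have key := tendsto_tsum_of_dominated_convergence (𝓕 := atTop) (f := fun (M : ℕ) (ξ : Λ) =>
      (A.xc N (-1) i (kp k * (t + N * (M : ℂ))⁻¹) ξ - A.xc N (-1) i (kp k * 0) ξ) *
          ((A.xv N i ξ : ℂ)⁻¹) ^ (k - 1) * X.ex ((A.xu N i ξ : ℂ) * (t + N * (M : ℂ))))
      (g := fun _ => (0 : ℂ)) hb ?_ ?_
    · rwa [tsum_zero] at key
    · intro ξ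
      rw [tendsto_zero_iff_norm_tendsto_zero]
      simp_rw [norm_mul, xy1_norm_ex]
      have hcont : Continuous fun a : ℂ => A.xc N (-1) i a ξ := by
        unfold KArr.xc
        refine continuous_const.mul ?_
        exact continuous_finsetProd _ fun j _ => continuous_const.add continuous_id
      have h1 : Tendsto (fun M : ℕ => kp k * (t + N * (M : ℂ))⁻¹) atTop (𝓝 (kp k * 0)) :=
        hx.const_mul _
      have h2 := (hcont.tendsto (kp k * 0)).comp h1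
      have h3 : Tendsto (fun M : ℕ => ‖A.xc N (-1) i (kp k * (t + N * (M : ℂ))⁻¹) ξ -
          A.xc N (-1) i (kp k * 0) ξ‖) atTop (𝓝 0) := by
        have h4 := (h2.sub_const (A.xc N (-1) i (kp k * 0) ξ)).norm
        rw [sub_self, norm_zero] at h4
        exact h4
      have h5 := (h3.mul_const (‖((A.xv N i ξ : ℂ)⁻¹) ^ (k - 1)‖)).mul_const
        (Real.exp (-(2 * Real.pi * A.xu N i ξ * t.im)))
      rw [zero_mul, zero_mul] at h5
      exact h5
    · have h1 : ∀ᶠ M : ℕ in atTop, ‖(t + N * (M : ℂ))⁻¹‖ ≤ 1 := by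
        have h2 := hx.norm
        rw [norm_zero] at h2
        exact h2.eventually_le_const one_pos
      filter_upwards [h1] with M hM ξ
      rw [norm_mul, norm_mul, xy1_norm_ex]
      have hv : 0 ≤ (A.xv N i ξ)⁻¹ :=
        inv_nonneg.2 (div_nonneg (A.nu_pos ξ i).le (Nat.cast_nonneg _))
      have e1 : ‖((A.xv N i ξ : ℂ)⁻¹) ^ (k - 1)‖ = (A.xv N i ξ)⁻¹ ^ (k - 1) := by
        rw [norm_pow, ← Complex.ofReal_inv, Complex.norm_real, Real.norm_of_nonneg hv]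
      rw [e1]
      have e2 : ‖A.xc N (-1) i (kp k * (t + N * (M : ℂ))⁻¹) ξ - A.xc N (-1) i (kp k * 0) ξ‖ ≤
          2 * ‖A.xc N (-1) i ((‖kp k‖ : ℝ) : ℂ) ξ‖ := by
        refine (norm_sub_le _ _).trans ?_
        have a1 := xy1_xc_norm A N i (kp k * (t + N * (M : ℂ))⁻¹) ‖kp k‖ (by
          rw [norm_mul]
          exact mul_le_of_le_one_right (norm_nonneg _) hM) ξ
        have a2 := xy1_xc_norm A N i (kp k * 0) ‖kp k‖ (by
          rw [mul_zero, norm_zero]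
          exact norm_nonneg _) ξ
        linarith
      calc _ ≤ 2 * ‖A.xc N (-1) i ((‖kp k‖ : ℝ) : ℂ) ξ‖ * (A.xv N i ξ)⁻¹ ^ (k - 1) *
            Real.exp (-(2 * Real.pi * A.xu N i ξ * t.im)) :=
            mul_le_mul_of_nonneg_right (mul_le_mul_of_nonneg_right e2 (pow_nonneg hv _))
              (Real.exp_pos _).le
        _ = _ := by ring
  have hsum := tendsto_finsetSum (Finset.univ : Finset ι) fun i _ => hi i
  rw [Finset.sum_const_zero] at hsum
  refine hsum.congr fun M => ?_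
  unfold KArr.xY
  rw [Finset.sum_sub_distrib]

end H36H
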