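import Pool.Agent.Lib.H36H.XE
import Pool.Agent.Lib.H36H.XY1
import Pool.Agent.Lib.H36H.XY2
import Pool.Agent.Lib.H94M.XNFin

/-!
# H36H, chunk XN (M): module X, assembly

As `not_relN` in Lib/H94M/XNFin.lean, with `2 * N` replaced by `N`, `k - 1` by `w'`, `h_shiftN` by `h_trans` at
`t + N M = N (τ + M) + 1`, `τ = I y`, `t = 1 + N τ` (`P_{t+NM} = P_t`: `xP_shift`), `ggN ..` by the sequence
`y_M = xY N k (t + N M) (t + N M)⁻¹`, and the hypothesis `hcl` (infinitely many cluster points, the cluster lemma) in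
place of `clusters`. `ev f (τ + M) = ev f τ` is `XN4_period`.
-/

namespace H36H

open H53M H94M H53M.X Function Filter Topology

variable {ι Λ : Type*} [Fintype ι] [DecidableEq ι]

theorem KArr.not_rel_of_clusters {N k w' : ℕ} (hN : 0 < N) (hk : 2 ≤ k) (A : KArr ι Λ)
    (hd : 2 ≤ Fintype.card ι) (hw : 2 * w' + 4 = Fintype.card ι * k + 2 * Fintype.card ι)
    (hT : DTransI N k A.G) (hf : A.XFam k)
    (hcl : ∀ᶠ y : ℝ in atTop, {z : ℂ | MapClusterPt z atTop (fun M : ℕ =>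
      A.xY N k (1 + N * (Complex.I * y) + N * (M : ℂ))
        (1 + N * (Complex.I * y) + N * (M : ℂ))⁻¹)}.Infinite) :
    ¬ Rel w' A.hs := by
  rintro ⟨W, S, g, hS, ⟨t₀, ht₀, hg₀⟩, h0⟩
  refine hg₀ (triang W w' S g hS (fun y => ev (ktoC (toQ dl)) (Complex.I * (y : ℂ)))
    (fun y => ev (ktoC (toQ e4)) (Complex.I * (y : ℂ))) dl_tendsto dl_ne e4_tendsto ?_ t₀ ht₀)
  filter_upwards [hcl, eventually_gt_atTop (0 : ℝ)] with y hy hy0
  intro i j
  set τ : ℂ := Complex.I * (y : ℂ) with hτdef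
  have hτ : 0 < τ.im := by
    rw [hτdef]
    simpa using hy0
  have hN' := XN5_Nne hN
  set t : ℂ := 1 + N * τ with htdef
  have ht : 0 < t.im := XNFin_im hN hy0
  have htM : ∀ M : ℕ, 0 < (t + N * (M : ℂ)).im := by
    intro M
    have e : t + N * (M : ℂ) = t + ((N * M : ℕ) : ℂ) := by push_cast; ring
    rw [e, Complex.add_im, Complex.natCast_im, add_zero]
    exact ht
  have hne : ∀ M : ℕ, t + N * (M : ℂ) ≠ 0 := fun M => X3_ne (htM M)
  refine elim S (fun s => (g s : ℂ) * (ev (ktoC (toQ dl)) τ ^ s.2.2 *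
      ev (ktoC (toQ e4)) τ ^ (3 * (W - s.1 - w' * s.2.1 - s.2.2))))
    (ev (ktoC (toQ e2)) τ) (12 / (2 * Real.pi * Complex.I) * N) (kapI N (Fintype.card ι) k)
    (mul_ne_zero (div_ne_zero (by norm_num) two_pi_I_ne) hN') (kapI_ne hN _ hk)
    (A.xP N k t) (k - 2)
    (fun M => (t + N * (M : ℂ))⁻¹)
    (fun M => A.xY N k (t + N * (M : ℂ)) (t + N * (M : ℂ))⁻¹)
    (fun M => inv_ne_zero (hne M)) (inv_tendsto_xt hN t) hy ?_ i j
  intro M
  have hz : 0 < (τ + (M : ℂ)).im := by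
    rw [Complex.add_im, Complex.natCast_im, add_zero]
    exact hτ
  have e0 : t + N * (M : ℂ) = (N : ℂ) * (τ + (M : ℂ)) + 1 := by
    rw [htdef]
    ring
  have hz1 : (N : ℂ) * (τ + (M : ℂ)) + 1 ≠ 0 := XN4_ne hz N
  have e1 : (1 + -1 / (t + N * (M : ℂ))) / N =
      (τ + (M : ℂ)) / ((N : ℂ) * (τ + (M : ℂ)) + 1) := by
    rw [e0]
    field_simp
    ring
  have hgam : 0 < ((τ + (M : ℂ)) / ((N : ℂ) * (τ + (M : ℂ)) + 1)).im := by
    rw [XN4_gam hz]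
    exact X13_im (XN4_im hz N)
  have hr := rel_eval (A.hs_Cv hk hd hf) h0 hgam
  have hh := A.h_trans hN hk hd hw hT hf (htM M)
  rw [e1, A.xP_shift hN t M] at hh
  rw [e0] at hh
  simp only [dl_gam hz, e4_gam hz, e2_gam hz, hh, XN4_period] at hr
  simp only [e0]
  have hW : ((N : ℂ) * (τ + (M : ℂ)) + 1) ^ (12 * W) ≠ 0 := pow_ne_zero _ hz1
  apply mul_left_cancel₀ hW
  rw [mul_zero, ← hr, Finset.mul_sum]
  refine Finset.sum_congr rfl fun s hsS => ?_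
  have hle := hS s hsS
  generalize (A.xP N k t).eval ((N : ℂ) * (τ + (M : ℂ)) + 1)⁻¹ + kapI N (Fintype.card ι) k *
    ((N : ℂ) * (τ + (M : ℂ)) + 1)⁻¹ ^ (k - 2) *
      A.xY N k ((N : ℂ) * (τ + (M : ℂ)) + 1) ((N : ℂ) * (τ + (M : ℂ)) + 1)⁻¹ = A1
  generalize (ev (ktoC (toQ e2)) τ + 12 / (2 * Real.pi * Complex.I) * N *
    ((N : ℂ) * (τ + (M : ℂ)) + 1)⁻¹) = A2
  generalize ev (ktoC (toQ dl)) τ = A3
  generalize ev (ktoC (toQ e4)) τ = A4
  generalize (N : ℂ) * (τ + (M : ℂ)) + 1 = u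
  rw [mul_pow, mul_pow, mul_pow, mul_pow, ← pow_mul, ← pow_mul, ← pow_mul, ← pow_mul]
  have e : 12 * W = 12 * s.2.2 + 4 * (3 * (W - s.1 - w' * s.2.1 - s.2.2)) + 2 * (6 * s.1) +
      2 * w' * (6 * s.2.1) := by
    generalize hq : w' * s.2.1 = q at *
    have : 2 * w' * (6 * s.2.1) = 12 * q := by rw [← hq]; ring
    rw [this]
    omega
  rw [e, pow_add, pow_add, pow_add]
  ring

end H36H
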