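import Pool.Agent.Lib.H36H.XU2

set_option autoImplicit false

/-!
# H36H, XU: nonvanishing by totally positive units
-/

open NumberField Filter Topology

namespace H36H

variable {F : Type*} [Field F] [NumberField F] [IsTotallyReal F]

/-- The embeddings `i` for which `θ` is in the image of the integers. -/
abbrev XI (F : Type*) [Field F] [NumberField F] (θ : ℝ) := {i : F →+* ℝ // ∃ x : 𝓞 F, i x = θ}

/-- The element `x_i + m`. -/
noncomputable def xuT {ε : 𝓞 F} {φ1 : F →+* ℝ} (h2 : ∀ φ : F →+* ℝ, 0 < φ ε)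
    (i : XI F (φ1 ε)) (m : ℕ) : TotPos F :=
  ⟨i.2.choose + (m : 𝓞 F), fun φ => by
    obtain ⟨j', hj'⟩ := xu_conj i.2.choose_spec φ
    have h3 : φ ((i.2.choose + (m : 𝓞 F) : 𝓞 F) : F) = φ i.2.choose + m := by simp
    rw [h3, hj']
    have := h2 j'
    positivity⟩

theorem xuT_apply {ε : 𝓞 F} {φ1 : F →+* ℝ} (h2 : ∀ φ : F →+* ℝ, 0 < φ ε)
    (i : XI F (φ1 ε)) (m : ℕ) (φ : F →+* ℝ) :
    φ (xuT h2 i m).1 = φ (xuT h2 i 0).1 + m := by
  unfold xuT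
  simp

theorem xuT_self {ε : 𝓞 F} {φ1 : F →+* ℝ} (h2 : ∀ φ : F →+* ℝ, 0 < φ ε)
    (i : XI F (φ1 ε)) (m : ℕ) : i.1 (xuT h2 i m).1 = φ1 ε + m := by
  rw [xuT_apply]
  congr 1
  have := i.2.choose_spec
  unfold xuT
  simpa using this

theorem xuT_zero {ε : 𝓞 F} {φ1 : F →+* ℝ} (h1 : IsUnit ε) (h2 : ∀ φ : F →+* ℝ, 0 < φ ε)
    (i : XI F (φ1 ε)) : IsUnit (xuT h2 i 0).1 := by
  have h := xuT_self h2 i 0
  rw [Nat.cast_zero, add_zero] at h
  exact xu_isUnit h1 h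

theorem xuT_tr {ε : 𝓞 F} {φ1 : F →+* ℝ} (h2 : ∀ φ : F →+* ℝ, 0 < φ ε)
    (i : XI F (φ1 ε)) (m : ℕ) :
    (inTr (xuT h2 i m) : ℝ) = inTr (xuT h2 i 0) + Fintype.card (F →+* ℝ) * m := by
  rw [← inTr_eq, ← inTr_eq]
  simp only [xuT_apply h2 i m]
  rw [Finset.sum_add_distrib, Finset.sum_const, Finset.card_univ, nsmul_eq_mul]

/-- The pairs `(i, ξ)` with `i ξ - θ` an integer. -/
abbrev XP (F : Type*) [Field F] [NumberField F] (θ : ℝ) :=
  {x : (F →+* ℝ) × TotPos F // ∃ m : ℤ, x.1 x.2.1 = θ + m}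

/-- The pairs are the `(i, x_i + m)`. -/
noncomputable def xuEquiv {ε : 𝓞 F} {φ1 : F →+* ℝ} (h1 : IsUnit ε) (h2 : ∀ φ : F →+* ℝ, 0 < φ ε) :
    XI F (φ1 ε) × ℕ ≃ XP F (φ1 ε) :=
  Equiv.ofBijective (fun x => ⟨(x.1.1, xuT h2 x.1 x.2), x.2, by
    rw [xuT_self]
    simp⟩) (by
    constructor
    · rintro ⟨i, m⟩ ⟨i', m'⟩ h
      have h3 := Subtype.ext_iff.1 h
      have hi : i = i' := Subtype.ext (congrArg Prod.fst h3)
      subst hi
      have h4 : xuT h2 i m = xuT h2 i m' := congrArg Prod.snd h3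
      have h5 := xuT_self h2 i m
      rw [h4, xuT_self] at h5
      have h6 : (m' : ℝ) = m := by linarith
      have h7 : m' = m := by exact_mod_cast h6
      rw [h7]
    · rintro ⟨⟨i, ξ⟩, m, hm⟩
      simp only at hm
      have hm0 := xu_nonneg h1 ξ i m hm
      obtain ⟨n, rfl⟩ := Int.eq_ofNat_of_zero_le hm0
      have hx : i ((ξ.1 - (n : 𝓞 F) : 𝓞 F) : F) = φ1 ε := by
        have : i ((ξ.1 - (n : 𝓞 F) : 𝓞 F) : F) = i ξ.1 - n := by simp
        rw [this, hm]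
        push_cast
        ring
      refine ⟨(⟨i, _, hx⟩, n), ?_⟩
      apply Subtype.ext
      refine Prod.ext rfl (Subtype.ext ?_)
      simp only
      have h5 := xuT_self h2 (⟨i, _, hx⟩ : XI F (φ1 ε)) n
      have h6 : i ((xuT h2 (⟨i, _, hx⟩ : XI F (φ1 ε)) n).1 : F) = i (ξ.1 : F) := by
        rw [hm]
        push_cast
        exact h5
      have h7 := i.injective h6
      exact_mod_cast h7)

/-- The term. -/
noncomputable def xuTerm (c : 𝓞 F → ℤ) (w : (F →+* ℝ) → TotPos F → ℝ) (s : ℝ) (y : ℝ)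
    (i : F →+* ℝ) (ξ : TotPos F) : ℂ :=
  (c ξ.1 : ℂ) * (w i ξ : ℂ) * Complex.exp (2 * Real.pi * Complex.I * (s * i ξ.1)) *
    Real.exp (-(2 * Real.pi * (inTr ξ - i ξ.1) * y))

/-- **Nonvanishing by units.** -/
theorem xu_main (hd : 1 < Module.finrank ℚ F) (c : 𝓞 F → ℤ) (hc1 : c 1 ≠ 0)
    (hu : ∀ ε : 𝓞 F, IsUnit ε → (∀ φ : F →+* ℝ, 0 < φ ε) → c ε = c 1)
    (hc : ∃ C : ℝ, ∃ K : ℕ, ∀ ξ : TotPos F, |(c ξ.1 : ℝ)| ≤ C * ((inTr ξ : ℝ) + 1) ^ K)
    (w : (F →+* ℝ) → TotPos F → ℝ) (hw0 : ∀ i ξ, 0 < w i ξ)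
    (hw : ∃ C : ℝ, ∃ K : ℕ, ∀ i ξ, w i ξ ≤ C * ((inTr ξ : ℝ) + 1) ^ K) (s : ℝ) :
    ∃ θ : ℝ, Irrational θ ∧ ∀ᶠ y : ℝ in atTop,
      (Summable fun x : XP F θ => xuTerm c w s y x.1.1 x.1.2) ∧
      ∑' x : XP F θ, xuTerm c w s y x.1.1 x.1.2 ≠ 0 := by
  classical
  obtain ⟨ε, h1, h2, h3⟩ := xu_unit (F := F) hd
  obtain ⟨φ1⟩ := in_nonempty (F := F)
  obtain ⟨C1, K1, hC1⟩ := hc
  obtain ⟨C2, K2, hC2⟩ := hw
  refine ⟨φ1 ε, xu_irr h1 h2 h3 φ1, ?_⟩
  have hne : Nonempty (XI F (φ1 ε)) := ⟨⟨φ1, ε, rfl⟩⟩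
  obtain ⟨d, hdd⟩ : ∃ d : ℕ, d = Fintype.card (F →+* ℝ) := ⟨_, rfl⟩
  have hd2 : 2 ≤ d := by rw [hdd, in_card]; exact hd
  have hpi := Real.pi_pos
  -- the constants
  obtain ⟨L, hL1, hL⟩ : ∃ L : ℝ, 1 ≤ L ∧ ∀ i : XI F (φ1 ε), ∀ m : ℕ,
      (inTr (xuT h2 i m) : ℝ) + 1 ≤ L * ((m : ℝ) + 1) := by
    refine ⟨∑ i : XI F (φ1 ε), ((inTr (xuT h2 i 0) : ℝ) + 1 + d), ?_, fun i m => ?_⟩
    · obtain ⟨i0⟩ := hne
      have h5 := Finset.single_le_sum (f := fun i : XI F (φ1 ε) => ((inTr (xuT h2 i 0) : ℝ) + 1 + d))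
        (fun i _ => by positivity) (Finset.mem_univ i0)
      refine le_trans ?_ h5
      have h6 : (0 : ℝ) ≤ inTr (xuT h2 i0 0) := Nat.cast_nonneg _
      have h7 : (0 : ℝ) ≤ d := Nat.cast_nonneg _
      linarith
    · have h5 := Finset.single_le_sum (f := fun i : XI F (φ1 ε) => ((inTr (xuT h2 i 0) : ℝ) + 1 + d))
        (fun i _ => by positivity) (Finset.mem_univ i)
      have h6 : (0 : ℝ) ≤ inTr (xuT h2 i 0) := Nat.cast_nonneg _
      have h7 : (0 : ℝ) ≤ d := Nat.cast_nonneg _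
      have h8 : (0 : ℝ) ≤ m := Nat.cast_nonneg _
      rw [xuT_tr h2 i m, ← hdd]
      calc (inTr (xuT h2 i 0) : ℝ) + d * m + 1
          ≤ ((inTr (xuT h2 i 0) : ℝ) + 1 + d) * ((m : ℝ) + 1) := by nlinarith
        _ ≤ _ := mul_le_mul_of_nonneg_right h5 (by positivity)
  have key := xu_abs (ι := XI F (φ1 ε)) (fun y (i : XI F (φ1 ε)) m => xuTerm c w s y i.1 (xuT h2 i m))
    (fun i y => Real.exp (-(2 * Real.pi * (inTr (xuT h2 i 0) - φ1 ε) * y)))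
    (fun i y => Real.exp_pos _)
    ((c 1 : ℂ) * Complex.exp (2 * Real.pi * Complex.I * (s * φ1 ε)))
    (mul_ne_zero (by exact_mod_cast hc1) (Complex.exp_ne_zero _))
    (fun i => w i.1 (xuT h2 i 0)) (fun i => hw0 _ _)
    (fun y i => by
      have h5 := xuT_self h2 i 0
      rw [Nat.cast_zero, add_zero] at h5
      simp only [xuTerm]
      rw [hu _ (xuT_zero h1 h2 i) (xuT h2 i 0).2, h5]
      ring)
    (|C1| * |C2| * L ^ (K1 + K2)) (K1 + K2)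
    (fun y hy i m => by
      simp only [xuTerm]
      have h5 : ‖Complex.exp (2 * Real.pi * Complex.I * (s * i.1 (xuT h2 i m).1))‖ = 1 := by
        have : (2 * Real.pi * Complex.I * (s * i.1 (xuT h2 i m).1) : ℂ) =
            ((2 * Real.pi * (s * i.1 (xuT h2 i m).1) : ℝ) : ℂ) * Complex.I := by
          push_cast
          ring
        rw [this, Complex.norm_exp_ofReal_mul_I]
      rw [norm_mul, norm_mul, norm_mul, h5, mul_one, Complex.norm_intCast, Complex.norm_real,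
        Complex.norm_real, Real.norm_of_nonneg (hw0 _ _).le, Real.norm_of_nonneg (Real.exp_pos _).le]
      have hT := hL i m
      have hT0 : (0 : ℝ) ≤ (inTr (xuT h2 i m) : ℝ) + 1 := by positivity
      have e1 : |(c (xuT h2 i m).1 : ℝ)| ≤ |C1| * (L * ((m : ℝ) + 1)) ^ K1 :=
        (hC1 _).trans ((mul_le_mul_of_nonneg_right (le_abs_self C1) (by positivity)).trans
          (mul_le_mul_of_nonneg_left (pow_le_pow_left₀ hT0 hT _) (abs_nonneg _)))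
      have e2 : w i.1 (xuT h2 i m) ≤ |C2| * (L * ((m : ℝ) + 1)) ^ K2 :=
        (hC2 _ _).trans ((mul_le_mul_of_nonneg_right (le_abs_self C2) (by positivity)).trans
          (mul_le_mul_of_nonneg_left (pow_le_pow_left₀ hT0 hT _) (abs_nonneg _)))
      have e3 : Real.exp (-(2 * Real.pi * (inTr (xuT h2 i m) - i.1 (xuT h2 i m).1) * y)) ≤
          Real.exp (-(2 * Real.pi * (inTr (xuT h2 i 0) - φ1 ε) * y)) *
            Real.exp (-(2 * Real.pi * y * m)) := by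
        rw [← Real.exp_add, Real.exp_le_exp, xuT_self, xuT_tr, ← hdd]
        have h7 : (2 : ℝ) ≤ d := by exact_mod_cast hd2
        have h8 : (0 : ℝ) ≤ m := Nat.cast_nonneg _
        have h9 : 0 ≤ Real.pi * y * m * ((d : ℝ) - 2) :=
          mul_nonneg (mul_nonneg (mul_nonneg hpi.le hy) h8) (by linarith)
        nlinarith [h9]
      have hL0 : 0 ≤ L := by linarith
      calc _ ≤ (|C1| * (L * ((m : ℝ) + 1)) ^ K1) * (|C2| * (L * ((m : ℝ) + 1)) ^ K2) *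
            (Real.exp (-(2 * Real.pi * (inTr (xuT h2 i 0) - φ1 ε) * y)) *
            Real.exp (-(2 * Real.pi * y * m))) := by
            refine mul_le_mul (mul_le_mul e1 e2 (hw0 _ _).le (by positivity)) e3
              (Real.exp_pos _).le (by positivity)
        _ = _ := by
            rw [mul_pow, mul_pow, pow_add, pow_add]
            ring)
  filter_upwards [key] with y hy
  constructor
  · rw [← (xuEquiv h1 h2).summable_iff]
    exact hy.1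
  · rw [← (xuEquiv h1 h2).tsum_eq]
    exact hy.2

end H36H
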