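import Pool.Agent.Lib.H36H.IN3

set_option autoImplicit false

/-!
# H36H, XU: totally positive units and the pairs `(i, ξ)` with `i ξ - θ` an integer (algebra)
-/

open NumberField

namespace H36H

variable {F : Type*} [Field F] [NumberField F] [IsTotallyReal F]

/-- A totally positive unit different from 1. -/
theorem xu_unit (hd : 1 < Module.finrank ℚ F) :
    ∃ ε : 𝓞 F, IsUnit ε ∧ (∀ φ : F →+* ℝ, 0 < φ ε) ∧ ε ≠ 1 := by
  have hcard : 1 < Fintype.card (F →+* ℝ) := by rwa [in_card]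
  obtain ⟨φ1, φ2, hne⟩ := Fintype.exists_pair_of_one_lt_card hcard
  obtain ⟨u, hu⟩ := Units.dirichletUnitTheorem.exists_unit F (InfinitePlace.mk (embEquiv F φ1))
  have hw : InfinitePlace.mk (embEquiv F φ2) ≠ InfinitePlace.mk (embEquiv F φ1) := by
    intro h
    rw [InfinitePlace.mk_eq_iff] at h
    rcases h with h | h
    · exact hne ((embEquiv F).injective h.symm)
    · have h2 : ComplexEmbedding.conjugate (embEquiv F φ2) = embEquiv F φ2 := by
        ext x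
        simp [ComplexEmbedding.conjugate_coe_eq]
      rw [h2] at h
      exact hne ((embEquiv F).injective h.symm)
  have h1 := hu _ hw
  have hval : (InfinitePlace.mk (embEquiv F φ2)) ((u : 𝓞 F) : F) = |φ2 ((u : 𝓞 F) : F)| := by
    rw [InfinitePlace.apply, embEquiv_apply, Complex.norm_real, Real.norm_eq_abs]
  rw [hval] at h1
  have hu0 : ∀ φ : F →+* ℝ, φ ((u : 𝓞 F) : F) ≠ 0 := fun φ =>
    (map_ne_zero φ).2 (by exact_mod_cast u.ne_zero)
  have hlt : |φ2 ((u : 𝓞 F) : F)| < 1 := by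
    by_contra hge
    exact absurd h1 (not_lt.2 (Real.log_nonneg (not_lt.1 hge)))
  refine ⟨(u : 𝓞 F) ^ 2, u.isUnit.pow 2, fun φ => ?_, fun h => ?_⟩
  · have : φ (((u : 𝓞 F) ^ 2 : 𝓞 F) : F) = (φ ((u : 𝓞 F) : F)) ^ 2 := by simp
    rw [this]
    have := hu0 φ
    positivity
  · have h3 : (φ2 ((u : 𝓞 F) : F)) ^ 2 = 1 := by
      have := congrArg (fun y : 𝓞 F => φ2 (y : F)) h
      simpa using this
    have h4 : |φ2 ((u : 𝓞 F) : F)| ^ 2 < 1 := by
      have := abs_nonneg (φ2 ((u : 𝓞 F) : F))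
      nlinarith
    rw [sq_abs, h3] at h4
    exact lt_irrefl _ h4

theorem xu_irr {ε : 𝓞 F} (h1 : IsUnit ε) (h2 : ∀ φ : F →+* ℝ, 0 < φ ε) (h3 : ε ≠ 1)
    (φ : F →+* ℝ) : Irrational (φ ε) := by
  rintro ⟨q, hq⟩
  have h4 : (q : F) = (ε : F) := by
    apply φ.injective
    rw [map_ratCast]
    exact hq
  have h5 : IsIntegral ℤ q := by
    have : IsIntegral ℤ ((algebraMap ℚ F) q) := by
      rw [eq_ratCast, h4]
      exact RingOfIntegers.isIntegral_coe ε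
    exact (isIntegral_algebraMap_iff (algebraMap ℚ F).injective).1 this
  obtain ⟨m, hm⟩ := IsIntegrallyClosed.isIntegral_iff.1 h5
  have hm' : (m : ℚ) = q := by simpa using hm
  have h6 : (m : 𝓞 F) = ε := by
    apply RingOfIntegers.ext
    rw [← h4, ← hm']
    simp
  have h7 : 0 < m := by
    have := h2 φ
    rw [← hq, ← hm'] at this
    exact_mod_cast this
  have h8 : IsUnit (Algebra.norm ℤ ε) := h1.map (Algebra.norm ℤ)
  have h9 : ((Algebra.norm ℤ ε : ℤ) : ℝ) = (m : ℝ) ^ Fintype.card (F →+* ℝ) := by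
    rw [in_normZ, ← Finset.card_univ, ← Finset.prod_const]
    refine Finset.prod_congr rfl fun ψ _ => ?_
    rw [← h6]
    simp
  have h10 : Algebra.norm ℤ ε = m ^ Fintype.card (F →+* ℝ) := by exact_mod_cast h9
  rw [h10] at h8
  have hc : Fintype.card (F →+* ℝ) ≠ 0 := by
    have := in_nonempty (F := F)
    exact Fintype.card_ne_zero
  have h11 : IsUnit m := (isUnit_pow_iff hc).1 h8
  rcases Int.isUnit_iff.1 h11 with h | h
  · rw [h] at h6
    exact h3 (by rw [← h6]; simp)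
  · omega

theorem xu_conj {ε x : 𝓞 F} {i φ1 : F →+* ℝ} (h : i x = φ1 ε) (j : F →+* ℝ) :
    ∃ j' : F →+* ℝ, j x = j' ε := by
  have h1 : minpoly ℚ (i (x : F)) = minpoly ℚ (x : F) :=
    minpoly.algHom_eq i.toRatAlgHom i.injective (x : F)
  have h2 : minpoly ℚ (φ1 (ε : F)) = minpoly ℚ (ε : F) :=
    minpoly.algHom_eq φ1.toRatAlgHom φ1.injective (ε : F)
  have h3 : minpoly ℚ (x : F) = minpoly ℚ (ε : F) := by rw [← h1, ← h2, h]
  have h4 : embEquiv F j (x : F) ∈ (minpoly ℚ (ε : F)).rootSet ℂ := by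
    rw [← h3, ← NumberField.Embeddings.range_eval_eq_rootSet_minpoly]
    exact ⟨_, rfl⟩
  rw [← NumberField.Embeddings.range_eval_eq_rootSet_minpoly] at h4
  obtain ⟨ψ, hψ⟩ := h4
  refine ⟨(embEquiv F).symm ψ, ?_⟩
  apply Complex.ofReal_injective
  rw [← embEquiv_apply, ← embEquiv_apply, Equiv.apply_symm_apply]
  exact hψ.symm

omit [NumberField F] [IsTotallyReal F] in
theorem xu_isUnit {ε x : 𝓞 F} {i φ1 : F →+* ℝ} (hε : IsUnit ε) (h : i x = φ1 ε) : IsUnit x := by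
  have hε0 : (ε : F) ≠ 0 := by exact_mod_cast hε.ne_zero
  have hx0 : (x : F) ≠ 0 := by
    intro h0
    rw [h0, map_zero] at h
    exact hε0 ((map_eq_zero φ1).1 h.symm)
  obtain ⟨u, rfl⟩ := hε
  have h1 : IsIntegral ℤ (i ((x : F)⁻¹)) := by
    have h2 : i ((x : F)⁻¹) = φ1 (((u⁻¹ : (𝓞 F)ˣ) : 𝓞 F) : F) := by
      rw [map_inv₀, h, ← map_inv₀]
      congr 1
      rw [inv_eq_iff_eq_inv]
      refine (eq_inv_of_mul_eq_one_left ?_)
      simp
    rw [h2]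
    exact (RingOfIntegers.isIntegral_coe _).map φ1.toIntAlgHom
  have h3 : IsIntegral ℤ ((x : F)⁻¹) := (isIntegral_algHom_iff i.toIntAlgHom i.injective).1 h1
  obtain ⟨y, hy⟩ : ∃ y : 𝓞 F, (y : F) = (x : F)⁻¹ := ⟨⟨_, h3⟩, rfl⟩
  refine IsUnit.of_mul_eq_one y (RingOfIntegers.ext ?_)
  have h4 : ((x * y : 𝓞 F) : F) = (x : F) * (y : F) := by simp
  rw [h4, hy, mul_inv_cancel₀ hx0]
  simp

/-- The integer `m` with `i ξ = θ + m` is not negative. -/
theorem xu_nonneg {ε : 𝓞 F} {φ1 : F →+* ℝ} (hε : IsUnit ε) (ξ : TotPos F) (i : F →+* ℝ) (m : ℤ)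
    (h : i ξ.1 = φ1 ε + m) : 0 ≤ m := by
  by_contra hm
  have hm1 : m ≤ -1 := by omega
  have hx : i ((ξ.1 - (m : 𝓞 F) : 𝓞 F) : F) = φ1 ε := by
    have : i ((ξ.1 - (m : 𝓞 F) : 𝓞 F) : F) = i ξ.1 - m := by simp
    rw [this, h]
    ring
  have hu := xu_isUnit hε hx
  have h1 : IsUnit (Algebra.norm ℤ (ξ.1 - (m : 𝓞 F))) := hu.map (Algebra.norm ℤ)
  have h2 : (1 : ℝ) < ((Algebra.norm ℤ (ξ.1 - (m : 𝓞 F)) : ℤ) : ℝ) := by
    rw [in_normZ]
    have hmr : (m : ℝ) ≤ -1 := by exact_mod_cast hm1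
    have h3 : ∀ φ : F →+* ℝ, 1 < φ ((ξ.1 - (m : 𝓞 F) : 𝓞 F) : F) := by
      intro φ
      have h4 : φ ((ξ.1 - (m : 𝓞 F) : 𝓞 F) : F) = φ ξ.1 - m := by simp
      have := ξ.2 φ
      rw [h4]
      linarith
    classical
    rw [← Finset.mul_prod_erase _ _ (Finset.mem_univ i)]
    have h5 : 1 ≤ ∏ φ ∈ Finset.univ.erase i, φ ((ξ.1 - (m : 𝓞 F) : 𝓞 F) : F) :=
      Finset.one_le_prod (s := Finset.univ.erase i) fun φ _ => (h3 φ).le
    exact one_lt_mul_of_lt_of_le (h3 i) h5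
  have h3 : 1 < Algebra.norm ℤ (ξ.1 - (m : 𝓞 F)) := by exact_mod_cast h2
  rcases Int.isUnit_iff.1 h1 with h4 | h4 <;> omega

end H36H
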