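import Pool.Agent.Lib.H36H.XU1

set_option autoImplicit false

/-!
# H36H, XU: nonvanishing of the sum over the pairs `(i, ξ)` with `i ξ - θ` an integer
-/

open NumberField Filter Topology

namespace H36H

/-- Abstract nonvanishing. -/
theorem xu_abs {ι : Type*} [Fintype ι] [Nonempty ι] (t : ℝ → ι → ℕ → ℂ) (D : ι → ℝ → ℝ)
    (hD : ∀ i y, 0 < D i y) (z0 : ℂ) (hz : z0 ≠ 0) (wt : ι → ℝ) (hwt : ∀ i, 0 < wt i)
    (h0 : ∀ y i, t y i 0 = z0 * (wt i * D i y)) (C : ℝ) (K : ℕ)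
    (hC : ∀ y, 0 ≤ y → ∀ i m, ‖t y i m‖ ≤
      C * ((m : ℝ) + 1) ^ K * (D i y * Real.exp (-(2 * Real.pi * y * m)))) :
    ∀ᶠ y in atTop, (Summable fun x : ι × ℕ => t y x.1 x.2) ∧ ∑' x : ι × ℕ, t y x.1 x.2 ≠ 0 := by
  obtain ⟨i0⟩ := ‹Nonempty ι›
  have hC0 : 0 ≤ C := by
    have h := (norm_nonneg _).trans (hC 0 le_rfl i0 0)
    simp only [Nat.cast_zero, zero_add, one_pow, mul_one, mul_zero, neg_zero, Real.exp_zero] at h
    exact le_of_mul_le_mul_right (by rwa [zero_mul]) (hD i0 0)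
  -- the constants
  obtain ⟨r, hr⟩ : ∃ r : ℝ, r = Real.exp (-(2 * Real.pi)) := ⟨_, rfl⟩
  have hr0 : 0 < r := by
    rw [hr]
    exact Real.exp_pos _
  have hr1 : ‖r‖ < 1 := by
    rw [Real.norm_of_nonneg hr0.le, hr, Real.exp_lt_one_iff]
    have := Real.pi_pos
    linarith
  have hS : Summable fun m : ℕ => ((m : ℝ) + 2) ^ K * r ^ m := by
    have h0 : Summable fun n : ℕ => (n : ℝ) ^ K * r ^ n :=
      summable_pow_mul_geometric_of_norm_lt_one K hr1
    have h1 : Summable fun n : ℕ => ((n + 2 : ℕ) : ℝ) ^ K * r ^ (n + 2) :=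
      (summable_nat_add_iff (f := fun n : ℕ => (n : ℝ) ^ K * r ^ n) 2).2 h0
    refine (h1.mul_left (r ^ 2)⁻¹).congr fun m => ?_
    push_cast
    rw [pow_add]
    field_simp
  obtain ⟨S0, hS0⟩ : ∃ S0 : ℝ, S0 = ∑' m : ℕ, ((m : ℝ) + 2) ^ K * r ^ m := ⟨_, rfl⟩
  have hS0' : 0 ≤ S0 := by
    rw [hS0]
    exact tsum_nonneg fun m => by positivity
  obtain ⟨wm, hwm0, hwm⟩ : ∃ wm : ℝ, 0 < wm ∧ ∀ i, wm ≤ ‖z0‖ * wt i := by
    obtain ⟨j, hj⟩ := Finite.exists_min fun i => ‖z0‖ * wt i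
    exact ⟨‖z0‖ * wt j, mul_pos (norm_pos_iff.2 hz) (hwt j), hj⟩
  have hev : ∀ᶠ y : ℝ in atTop, C * S0 * Real.exp (-(2 * Real.pi * y)) < wm := by
    have h1 : Tendsto (fun y : ℝ => C * S0 * Real.exp (-(2 * Real.pi * y))) atTop (𝓝 (C * S0 * 0)) := by
      refine Tendsto.const_mul _ ?_
      refine Real.tendsto_exp_neg_atTop_nhds_zero.comp ?_
      exact tendsto_id.const_mul_atTop (by positivity)
    rw [mul_zero] at h1
    exact h1.eventually_lt_const hwm0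
  filter_upwards [hev, eventually_ge_atTop (1 : ℝ)] with y hy hy1
  have hy0 : 0 ≤ y := by linarith
  have hpi := Real.pi_pos
  -- tails
  have htail : ∀ i (m : ℕ), ‖t y i (m + 1)‖ ≤
      C * Real.exp (-(2 * Real.pi * y)) * D i y * (((m : ℝ) + 2) ^ K * r ^ m) := by
    intro i m
    refine (hC y hy0 i (m + 1)).trans ?_
    have h1 : Real.exp (-(2 * Real.pi * y * ((m + 1 : ℕ) : ℝ))) ≤
        Real.exp (-(2 * Real.pi * y)) * r ^ m := by
      rw [hr, ← Real.exp_nat_mul, ← Real.exp_add, Real.exp_le_exp]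
      push_cast
      have h2 : (0 : ℝ) ≤ m := Nat.cast_nonneg m
      nlinarith [mul_nonneg (mul_nonneg hpi.le h2) (sub_nonneg.2 hy1)]
    have h3 : ((m + 1 : ℕ) : ℝ) + 1 = (m : ℝ) + 2 := by
      push_cast
      ring
    rw [h3]
    calc C * ((m : ℝ) + 2) ^ K * (D i y * Real.exp (-(2 * Real.pi * y * ((m + 1 : ℕ) : ℝ))))
        ≤ C * ((m : ℝ) + 2) ^ K * (D i y * (Real.exp (-(2 * Real.pi * y)) * r ^ m)) := by
          refine mul_le_mul_of_nonneg_left (mul_le_mul_of_nonneg_left h1 (hD i y).le)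
            (by positivity)
      _ = _ := by ring
  have hts : ∀ i, Summable fun m : ℕ => ‖t y i (m + 1)‖ := fun i =>
    Summable.of_nonneg_of_le (fun m => norm_nonneg _) (htail i) (hS.mul_left _)
  have hs : ∀ i, Summable fun m : ℕ => ‖t y i m‖ := fun i =>
    (summable_nat_add_iff (f := fun m : ℕ => ‖t y i m‖) 1).1 (hts i)
  have hsum : Summable fun x : ι × ℕ => t y x.1 x.2 := by
    refine Summable.of_norm ?_
    refine (summable_prod_of_nonneg (f := fun x : ι × ℕ => ‖t y x.1 x.2‖)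
      (fun x => norm_nonneg _)).2 ⟨fun i => hs i, ?_⟩
    exact Summable.of_finite
  refine ⟨hsum, fun hzero => ?_⟩
  rw [hsum.tsum_prod, tsum_fintype] at hzero
  have h1 : ∀ i, ∑' m, t y i m = t y i 0 + ∑' m, t y i (m + 1) := fun i =>
    ((hs i).of_norm).tsum_eq_zero_add
  have h2 : ∑ i, t y i 0 = -∑ i, ∑' m, t y i (m + 1) := by
    have h3 : ∑ i, (t y i 0 + ∑' m, t y i (m + 1)) = 0 := by
      rw [← hzero]
      exact Finset.sum_congr rfl fun i _ => (h1 i).symm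
    rw [Finset.sum_add_distrib] at h3
    exact eq_neg_of_add_eq_zero_left h3
  have h3 : ‖∑ i, t y i 0‖ = ∑ i, (‖z0‖ * wt i) * D i y := by
    have h4 : ∑ i, t y i 0 = z0 * ((∑ i, wt i * D i y : ℝ) : ℂ) := by
      push_cast
      rw [Finset.mul_sum]
      exact Finset.sum_congr rfl fun i _ => h0 y i
    rw [h4, norm_mul, Complex.norm_real, Real.norm_of_nonneg, Finset.mul_sum]
    · exact Finset.sum_congr rfl fun i _ => by ring
    · exact Finset.sum_nonneg fun i _ => (mul_pos (hwt i) (hD i y)).le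
  have h4 : ‖∑ i, ∑' m, t y i (m + 1)‖ ≤
      ∑ i, C * Real.exp (-(2 * Real.pi * y)) * S0 * D i y := by
    refine (norm_sum_le _ _).trans (Finset.sum_le_sum fun i _ => ?_)
    have h5 := tsum_of_norm_bounded (f := fun m => t y i (m + 1))
      ((hS.mul_left (C * Real.exp (-(2 * Real.pi * y)) * D i y)).hasSum) (htail i)
    rw [tsum_mul_left, ← hS0] at h5
    refine h5.trans (le_of_eq (by ring))
  have h5 : ∑ i, wm * D i y ≤ ∑ i, C * Real.exp (-(2 * Real.pi * y)) * S0 * D i y := by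
    refine le_trans ?_ h4
    rw [← norm_neg, ← h2, h3]
    exact Finset.sum_le_sum fun i _ => mul_le_mul_of_nonneg_right (hwm i) (hD i y).le
  rw [← Finset.mul_sum, ← Finset.mul_sum] at h5
  have h6 : 0 < ∑ i, D i y := Finset.sum_pos (fun i _ => hD i y) ⟨i0, Finset.mem_univ _⟩
  have h7 := le_of_mul_le_mul_right h5 h6
  have h8 : C * Real.exp (-(2 * Real.pi * y)) * S0 = C * S0 * Real.exp (-(2 * Real.pi * y)) := by
    ring
  linarith

end H36H
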